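import Pool.Agent.QCB.QB

/-!
# QCB, module QI: isomorphisms of quaternion algebras; `GFG` under isomorphisms
-/

set_option autoImplicit false
set_option linter.style.haveILetI false

namespace Pool.Agent.QCB

open Quaternion QuaternionAlgebra

variable {A : Type} [CommRing A]

/-- `i ↦ u i` -/
theorem QI1 (a b u : A) (hu : IsUnit u) : Nonempty (ℍ[A,u ^ 2 * a,b] ≃+* ℍ[A,a,b]) := by
  obtain ⟨v, hv⟩ := hu.exists_right_inv
  refine ⟨{ toFun := fun x => ⟨x.re, u * x.imI, x.imJ, u * x.imK⟩,
            invFun := fun x => ⟨x.re, v * x.imI, x.imJ, v * x.imK⟩,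
            left_inv := fun x => ?_, right_inv := fun x => ?_,
            map_mul' := fun x y => ?_, map_add' := fun x y => ?_ }⟩
  · ext
    · rfl
    · show v * (u * x.imI) = x.imI
      linear_combination x.imI * hv
    · rfl
    · show v * (u * x.imK) = x.imK
      linear_combination x.imK * hv
  · ext
    · rfl
    · show u * (v * x.imI) = x.imI
      linear_combination x.imI * hv
    · rfl
    · show u * (v * x.imK) = x.imK
      linear_combination x.imK * hv
  · ext <;> simp <;> ring
  · ext <;> simp [mul_add]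

/-- `j ↦ u j` -/
theorem QI2 (a b u : A) (hu : IsUnit u) : Nonempty (ℍ[A,a,u ^ 2 * b] ≃+* ℍ[A,a,b]) := by
  obtain ⟨v, hv⟩ := hu.exists_right_inv
  refine ⟨{ toFun := fun x => ⟨x.re, x.imI, u * x.imJ, u * x.imK⟩,
            invFun := fun x => ⟨x.re, x.imI, v * x.imJ, v * x.imK⟩,
            left_inv := fun x => ?_, right_inv := fun x => ?_,
            map_mul' := fun x y => ?_, map_add' := fun x y => ?_ }⟩
  · ext
    · rfl
    · rfl
    · show v * (u * x.imJ) = x.imJ
      linear_combination x.imJ * hv
    · show v * (u * x.imK) = x.imK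
      linear_combination x.imK * hv
  · ext
    · rfl
    · rfl
    · show u * (v * x.imJ) = x.imJ
      linear_combination x.imJ * hv
    · show u * (v * x.imK) = x.imK
      linear_combination x.imK * hv
  · ext <;> simp <;> ring
  · ext <;> simp [mul_add]

/-- `j' = (g + i) j / g`, `j'² = b (g - a)` where `i² = g a`, `j² = g b`: `j = g (g + i)⁻¹ j' =
(g - i) j' / (g - a)` -/
theorem QI3 (g a b : A) (hg : IsUnit g) (h : IsUnit (g - a)) :
    Nonempty (ℍ[A,g * a,g * b] ≃+* ℍ[A,g * a,b * (g - a)]) := by
  obtain ⟨w, hw⟩ := h.exists_right_inv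
  obtain ⟨v, hv⟩ := hg.exists_right_inv
  -- forward: `j ↦ w (g - i) j'`, so `x₂ j + x₃ k ↦ (x₂ + x₃ i) w (g - i) j'`
  -- backward: `j' ↦ v (g + i) j`
  refine ⟨{ toFun := fun x => ⟨x.re, x.imI, w * (g * x.imJ - g * a * x.imK),
              w * (g * x.imK - x.imJ)⟩,
            invFun := fun x => ⟨x.re, x.imI, x.imJ + a * x.imK, v * x.imJ + x.imK⟩,
            left_inv := fun x => ?_, right_inv := fun x => ?_,
            map_mul' := fun x y => ?_, map_add' := fun x y => ?_ }⟩
  · ext
    · rfl
    · rfl
    · show w * (g * x.imJ - g * a * x.imK) + a * (w * (g * x.imK - x.imJ)) = x.imJ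
      linear_combination x.imJ * hw
    · show v * (w * (g * x.imJ - g * a * x.imK)) + w * (g * x.imK - x.imJ) = x.imK
      linear_combination x.imK * hw + (w * x.imJ - a * w * x.imK) * hv
  · ext
    · rfl
    · rfl
    · show w * (g * (x.imJ + a * x.imK) - g * a * (v * x.imJ + x.imK)) = x.imJ
      linear_combination x.imJ * hw - w * a * x.imJ * hv
    · show w * (g * (v * x.imJ + x.imK) - (x.imJ + a * x.imK)) = x.imK
      linear_combination x.imK * hw + w * x.imJ * hv
  · ext
    · simp
      linear_combination (-(g * b * (x.imJ * y.imJ - g * a * (x.imK * y.imK)) *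
        ((g - a) * w + 1))) * hw
    · simp
      linear_combination (g * b * (x.imJ * y.imK - x.imK * y.imJ) * ((g - a) * w + 1)) * hw
    · simp
      ring
    · simp
      ring
  · ext <;> simp [mul_add] <;> ring

/-- the additive function on `Λ`-modules given by an additive function on `Λ'`-modules and an
isomorphism -/
def NAdd.comap {Λ Λ' : Type} [Ring Λ] [Ring Λ'] (e : Λ ≃+* Λ') {Γ : Type 1} [AddCommGroup Γ]
    (ψ : NAdd Λ' Γ) : NAdd Λ Γ where
  val := fun N _ _ => letI : Module Λ' N := Module.compHom N (e.symm : Λ' →+* Λ); ψ.val N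
  add := fun N' N N'' _ _ _ _ _ _ hN' hN hN'' f g hf hg hfg => by
    letI i1 : Module Λ' N' := Module.compHom N' (e.symm : Λ' →+* Λ)
    letI i2 : Module Λ' N := Module.compHom N (e.symm : Λ' →+* Λ)
    letI i3 : Module Λ' N'' := Module.compHom N'' (e.symm : Λ' →+* Λ)
    have fin : ∀ (M : Type) [AddCommGroup M] [Module Λ M] (i : Module Λ' M)
        (_ : ∀ (x : Λ') (m : M), i.smul x m = e.symm x • m) [Module.Finite Λ M],
        @Module.Finite Λ' M _ _ i := by
      intro M _ _ i hi hM
      obtain ⟨S, hS⟩ := hM.fg_top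
      letI := i
      refine ⟨⟨S, ?_⟩⟩
      rw [eq_top_iff]
      intro m _
      have hm : m ∈ Submodule.span Λ (S : Set M) := by rw [hS]; trivial
      refine Submodule.span_induction (p := fun m _ => m ∈ Submodule.span Λ' (S : Set M)) ?_ ?_ ?_
        ?_ hm
      · intro x hx
        exact Submodule.subset_span hx
      · exact zero_mem _
      · intro x y _ _ hx hy
        exact add_mem hx hy
      · intro c x _ hx
        have h1 : e c • x = c • x := by
          have := hi (e c) x
          rw [e.symm_apply_apply] at this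
          exact this
        rw [← h1]
        exact Submodule.smul_mem _ _ hx
    haveI f1 := fin N' i1 (fun _ _ => rfl)
    haveI f2 := fin N i2 (fun _ _ => rfl)
    haveI f3 := fin N'' i3 (fun _ _ => rfl)
    exact ψ.add N' N N''
      { toFun := f, map_add' := map_add f, map_smul' := fun c x => f.map_smul (e.symm c) x }
      { toFun := g, map_add' := map_add g, map_smul' := fun c x => g.map_smul (e.symm c) x }
      hf hg hfg

theorem GFG.of_equiv {Λ Λ' : Type} [Ring Λ] [Ring Λ'] (e : Λ ≃+* Λ') (h : GFG Λ) : GFG Λ' := by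
  intro Γ _ ψ
  obtain ⟨H, hH, hN⟩ := h Γ (ψ.comap e)
  refine ⟨H, hH, fun N _ i _ => ?_⟩
  letI i1 : Module Λ N := Module.compHom N (e : Λ →+* Λ')
  haveI : Module.Finite Λ N := by
    rename_i hfin
    obtain ⟨S, hS⟩ := hfin.fg_top
    refine ⟨⟨S, ?_⟩⟩
    rw [eq_top_iff]
    intro m _
    have hm : m ∈ Submodule.span Λ' (S : Set N) := by rw [hS]; trivial
    refine Submodule.span_induction (p := fun m _ => m ∈ Submodule.span Λ (S : Set N)) ?_ ?_ ?_
      ?_ hm
    · intro x hx
      exact Submodule.subset_span hx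
    · exact zero_mem _
    · intro x y _ _ hx hy
      exact add_mem hx hy
    · intro c x _ hx
      have h1 : e.symm c • x = c • x := by
        show e (e.symm c) • x = c • x
        rw [e.apply_symm_apply]
      rw [← h1]
      exact Submodule.smul_mem _ _ hx
  have h2 := hN N
  have h3 : (ψ.comap e).val N = ψ.val N := by
    show (letI : Module Λ' N := Module.compHom N (e.symm : Λ' →+* Λ); ψ.val N) = ψ.val N
    have : (Module.compHom N (e.symm : Λ' →+* Λ) : Module Λ' N) = i := by
      apply Module.ext
      funext c x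
      show e (e.symm c) • x = c • x
      rw [e.apply_symm_apply]
    rw [this]
  rwa [h3] at h2

end Pool.Agent.QCB
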