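import Mathlib

/-!
# QCB: quaternion orders over surfaces, definitions

`ℍ[A,a,b]` is Mathlib's quaternion algebra over the commutative ring `A` with `i² = a`, `j² = b`,
`ij = -ji = k`. All modules are left modules in `Type`.
-/

set_option autoImplicit false

namespace Pool.Agent.QCB

open Quaternion QuaternionAlgebra

universe u

section nrm
variable {A : Type} [CommRing A]

/-- the reduced norm `re² - a i² - b j² + a b k²` -/
def nrm {a b : A} (x : ℍ[A,a,b]) : A :=
  x.re ^ 2 - a * x.imI ^ 2 - b * x.imJ ^ 2 + a * b * x.imK ^ 2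

/-- `q` divides all coordinates of `x` -/
def Dvd4 (q : A) {a b : A} (x : ℍ[A,a,b]) : Prop :=
  q ∣ x.re ∧ q ∣ x.imI ∧ q ∣ x.imJ ∧ q ∣ x.imK

/-- the reduced norm is isotropic modulo `q` -/
def Spl (a b q : A) : Prop := ∃ z : ℍ[A,a,b], ¬ Dvd4 q z ∧ q ∣ nrm z

end nrm

/-- additive functions on finitely generated modules over a (not necessarily commutative) ring -/
structure NAdd (Λ : Type) [Ring Λ] (Γ : Type u) [AddCommGroup Γ] where
  /-- the value on a module -/
  val : ∀ (N : Type) [AddCommGroup N] [Module Λ N], Γ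
  add : ∀ (N' N N'' : Type) [AddCommGroup N'] [Module Λ N'] [AddCommGroup N] [Module Λ N]
    [AddCommGroup N''] [Module Λ N''] [Module.Finite Λ N'] [Module.Finite Λ N]
    [Module.Finite Λ N''] (f : N' →ₗ[Λ] N) (g : N →ₗ[Λ] N''), Function.Injective f →
    Function.Surjective g → Function.Exact f g → val N = val N' + val N''

/-- the element `s` of the center kills `N` -/
def Kil {A Λ : Type} [CommRing A] [Ring Λ] [Algebra A Λ] (s : A) (N : Type) [AddCommGroup N]
    [Module Λ N] : Prop := ∀ x : N, algebraMap A Λ s • x = 0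

/-- additive functions on finitely generated torsion modules -/
structure TAdd (A Λ : Type) [CommRing A] [Ring Λ] [Algebra A Λ] (Γ : Type u)
    [AddCommGroup Γ] where
  /-- the value on a module -/
  val : ∀ (N : Type) [AddCommGroup N] [Module Λ N], Γ
  add : ∀ (N' N N'' : Type) [AddCommGroup N'] [Module Λ N'] [AddCommGroup N] [Module Λ N]
    [AddCommGroup N''] [Module Λ N''] [Module.Finite Λ N'] [Module.Finite Λ N]
    [Module.Finite Λ N''] (f : N' →ₗ[Λ] N) (g : N →ₗ[Λ] N''), Function.Injective f →
    Function.Surjective g → Function.Exact f g → (∃ s : A, s ≠ 0 ∧ Kil (Λ := Λ) s N) →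
    val N = val N' + val N''

/-- the restriction of an additive function to torsion modules -/
def NAdd.tors {A Λ : Type} [CommRing A] [Ring Λ] [Algebra A Λ] {Γ : Type u} [AddCommGroup Γ]
    (ψ : NAdd Λ Γ) : TAdd A Λ Γ where
  val := ψ.val
  add := fun N' N N'' _ _ _ _ _ _ _ _ _ f g hf hg hfg _ => ψ.add N' N N'' f g hf hg hfg

/-- the values of every additive function on finitely generated modules generate a finitely
generated group: `G₀(Λ)` is finitely generated -/
def GFG (Λ : Type) [Ring Λ] : Prop :=
  ∀ (Γ : Type 1) [AddCommGroup Γ] (ψ : NAdd Λ Γ),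
    ∃ H : AddSubgroup Γ, H.FG ∧ ∀ (N : Type) [AddCommGroup N] [Module Λ N] [Module.Finite Λ N],
      ψ.val N ∈ H

end Pool.Agent.QCB
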