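import Mathlib

/-!
# QCB, module ORD: norms from an inert quadratic extension have even order

Proof. `D' = AdjoinRoot (X² - C b)` is free of rank two over `D`, local, with residue field of degree two
over the residue field `κ` of `D` (`b` is not a square mod `m`). For `c = x + y √b ∈ D'` with norm `n`:
`length_D(D' / n D') = 2 length_D(D / n)` and `= length_D(D' / c) + length_D(D' / c̄) =
2 length_D(D' / c)` (conjugation; `c` is a nonzerodivisor since `n ≠ 0`). So
`length_D(D / n) = length_D(D' / c) = 2 length_{D'}(D' / c)` (each simple `D'`-module has length two over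
`D`). Everything is finite: `D / n` has finite length since `D` is local of dimension one.
-/

set_option autoImplicit false

namespace Pool.Agent.QCB

section aux

variable {D : Type} [CommRing D] [IsLocalRing D]

private theorem ORD_one {M : Type} [AddCommGroup M] [Module D M] (w : M) (hw : w ≠ 0)
    (hm : ∀ a ∈ IsLocalRing.maximalIdeal D, a • w = 0) :
    Module.length D (Submodule.span D {w}) = 1 := by
  have hker : LinearMap.ker (LinearMap.toSpanSingleton D M w) = IsLocalRing.maximalIdeal D := by
    ext a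
    rw [LinearMap.mem_ker, LinearMap.toSpanSingleton_apply]
    constructor
    · intro h
      by_contra hn
      rw [IsLocalRing.mem_maximalIdeal, mem_nonunits_iff, not_not] at hn
      exact hw (hn.smul_eq_zero.1 h)
    · exact hm a
  have e := (LinearMap.toSpanSingleton D M w).quotKerEquivRange
  rw [LinearMap.range_toSpanSingleton, hker] at e
  rw [← e.length_eq]
  have h1 : IsSimpleModule D (D ⧸ IsLocalRing.maximalIdeal D) :=
    isSimpleModule_iff_isCoatom.2 (IsLocalRing.maximalIdeal.isMaximal D).out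
  exact Module.length_eq_one D _

private theorem ORD_even (b : D) (hb : ∀ β : D, b - β ^ 2 ∉ IsLocalRing.maximalIdeal D) :
    ∀ (n : ℕ) (N : Type) [AddCommGroup N] [Module D N] (J : N →ₗ[D] N),
      (∀ z, J (J z) = b • z) → Module.length D N = (n : ℕ∞) → ∃ k : ℕ, n = 2 * k := by
  intro n
  induction n using Nat.strong_induction_on with
  | _ n ih =>
    intro N _ _ J hJ hn
    rcases subsingleton_or_nontrivial N with hs | hs
    · rw [Module.length_eq_zero] at hn
      exact ⟨0, by exact_mod_cast hn.symm⟩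
    have hunit : ∀ β : D, IsUnit (b - β ^ 2) := fun β => by
      have h := hb β
      rwa [IsLocalRing.mem_maximalIdeal, mem_nonunits_iff, not_not] at h
    have hbu : IsUnit b := by simpa using hunit 0
    have hfl : IsFiniteLength D N := Module.length_ne_top_iff.1 (by
      rw [hn]
      exact ENat.natCast_ne_top n)
    obtain ⟨hN, hA⟩ := isFiniteLength_iff_isNoetherian_isArtinian.1 hfl
    obtain ⟨P, hP⟩ := IsAtomic.exists_atom (Submodule D N)
    obtain ⟨z, hz, hz0⟩ := P.ne_bot_iff.1 hP.1
    have hmz : ∀ a ∈ IsLocalRing.maximalIdeal D, a • z = 0 := by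
      intro a ha
      have h1 : Submodule.span D {a • z} ≤ P := by
        rw [Submodule.span_singleton_le_iff_mem]
        exact P.smul_mem a hz
      rcases hP.le_iff.1 h1 with h2 | h2
      · exact Submodule.span_singleton_eq_bot.1 h2
      · exfalso
        rw [← h2] at hz
        obtain ⟨c, hc⟩ := Submodule.mem_span_singleton.1 hz
        have h3 : (1 - c * a) • z = 0 := by
          rw [sub_smul, one_smul, mul_smul, hc, sub_self]
        have h4 : IsUnit (1 - c * a) :=
          IsLocalRing.isUnit_one_sub_self_of_mem_nonunits _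
            ((IsLocalRing.maximalIdeal D).mul_mem_left c ha)
        exact hz0 (h4.smul_eq_zero.1 h3)
    have hw0 : J z ≠ 0 := by
      intro h
      have h1 := hJ z
      rw [h, map_zero] at h1
      exact hz0 (hbu.smul_eq_zero.1 h1.symm)
    have hq0 : (Submodule.span D {z}).mkQ (J z) ≠ 0 := by
      intro h
      rw [Submodule.mkQ_apply, Submodule.Quotient.mk_eq_zero] at h
      obtain ⟨β, hβ⟩ := Submodule.mem_span_singleton.1 h
      have h1 := hJ z
      rw [← hβ, map_smul, ← hβ] at h1
      have h2 : (b - β ^ 2) • z = 0 := by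
        rw [sub_smul, ← h1, pow_two, mul_smul, sub_self]
      exact hz0 ((hunit β).smul_eq_zero.1 h2)
    have hl1 : Module.length D N = 1 + Module.length D (N ⧸ Submodule.span D {z}) := by
      rw [Module.length_eq_add_of_exact (Submodule.span D {z}).subtype
        (Submodule.span D {z}).mkQ (Submodule.subtype_injective _) (Submodule.mkQ_surjective _)
        (LinearMap.exact_subtype_mkQ _), ORD_one z hz0 hmz]
    set T : Submodule D (N ⧸ Submodule.span D {z}) :=
      (Submodule.span D {J z}).map (Submodule.span D {z}).mkQ with hT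
    have hT' : T = Submodule.span D {(Submodule.span D {z}).mkQ (J z)} := by
      rw [hT, Submodule.map_span, Set.image_singleton]
    have hl2 : Module.length D (N ⧸ Submodule.span D {z}) =
        1 + Module.length D ((N ⧸ Submodule.span D {z}) ⧸ T) := by
      rw [Module.length_eq_add_of_exact T.subtype T.mkQ (Submodule.subtype_injective _)
        (Submodule.mkQ_surjective _) (LinearMap.exact_subtype_mkQ _)]
      congr 1
      rw [hT']
      refine ORD_one _ hq0 fun a ha => ?_
      rw [← map_smul, ← map_smul, hmz a ha, map_zero, map_zero]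
    set S : Submodule D N := Submodule.span D {z} ⊔ Submodule.span D {J z} with hS
    have hl3 : Module.length D ((N ⧸ Submodule.span D {z}) ⧸ T) = Module.length D (N ⧸ S) :=
      (Submodule.quotientQuotientEquivQuotientSup (Submodule.span D {z})
        (Submodule.span D {J z})).length_eq
    have hSJ : S ≤ S.comap J := by
      rw [hS, sup_le_iff, Submodule.span_singleton_le_iff_mem, Submodule.span_singleton_le_iff_mem,
        Submodule.mem_comap, Submodule.mem_comap]
      refine ⟨Submodule.mem_sup_right (Submodule.mem_span_singleton_self _),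
        Submodule.mem_sup_left ?_⟩
      rw [hJ]
      exact Submodule.smul_mem _ _ (Submodule.mem_span_singleton_self _)
    have hJS : ∀ x : N ⧸ S, S.mapQ S J hSJ (S.mapQ S J hSJ x) = b • x := by
      intro x
      obtain ⟨y, rfl⟩ := Submodule.mkQ_surjective S x
      rw [Submodule.mkQ_apply, Submodule.mapQ_apply, Submodule.mapQ_apply, hJ]
      rfl
    rw [hl1, hl2, hl3] at hn
    have hfin : Module.length D (N ⧸ S) ≠ ⊤ := by
      intro h
      rw [h] at hn
      simp at hn
    obtain ⟨l, hl⟩ := ENat.ne_top_iff_exists.1 hfin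
    rw [← hl] at hn
    have hnl : n = 1 + (1 + l) := by exact_mod_cast hn.symm
    obtain ⟨k, hk⟩ := ih l (by omega) (N ⧸ S) (S.mapQ S J hSJ) hJS hl.symm
    exact ⟨k + 1, by omega⟩

/-- multiplication with `x + y √b` -/
private def ORD_mul (b x y : D) : D × D →ₗ[D] D × D where
  toFun p := (x * p.1 + b * y * p.2, y * p.1 + x * p.2)
  map_add' p q := by
    ext <;> simp <;> ring
  map_smul' a p := by
    ext <;> simp <;> ring

end aux

theorem ORD {D : Type} [CommRing D] [IsDomain D] [IsLocalRing D] [IsNoetherianRing D]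
    [Ring.DimensionLEOne D] (b : D) (h2 : IsUnit (2 : D))
    (hb : ∀ β : D, b - β ^ 2 ∉ IsLocalRing.maximalIdeal D) (x y : D) (hn : x ^ 2 - b * y ^ 2 ≠ 0) :
    ∃ k : ℕ, Module.length D (D ⧸ Ideal.span {x ^ 2 - b * y ^ 2}) = ((2 * k : ℕ) : ℕ∞) := by
  set n : D := x ^ 2 - b * y ^ 2 with hnd
  set φ := ORD_mul b x y with hφ
  set φ' := ORD_mul b x (-y) with hφ'
  have hφa : ∀ p, φ p = (x * p.1 + b * y * p.2, y * p.1 + x * p.2) := fun p => rfl
  have hφa' : ∀ p, φ' p = (x * p.1 + b * -y * p.2, -y * p.1 + x * p.2) := fun p => rfl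
  have hcomp : ∀ p, φ (φ' p) = n • p := by
    intro p
    rw [hφa', hφa]
    ext <;> simp [hnd] <;> ring
  have hcomp' : ∀ p, φ' (φ p) = n • p := by
    intro p
    rw [hφa, hφa']
    ext <;> simp [hnd] <;> ring
  have hinj : Function.Injective φ := by
    intro p q h
    have h1 := congrArg φ' h
    rw [hcomp', hcomp'] at h1
    exact smul_right_injective _ hn h1
  -- the conjugation
  have e1 : Module.length D ((D × D) ⧸ LinearMap.range φ') =
      Module.length D ((D × D) ⧸ LinearMap.range φ) := by
    let σ : (D × D) ≃ₗ[D] (D × D) := (LinearEquiv.refl D D).prodCongr (LinearEquiv.neg D)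
    have hσ : ∀ p, σ p = (p.1, -p.2) := fun p => rfl
    refine (Submodule.Quotient.equiv _ _ σ ?_).length_eq
    ext p
    simp only [Submodule.mem_map, LinearMap.mem_range]
    constructor
    · rintro ⟨_, ⟨q, rfl⟩, rfl⟩
      refine ⟨σ q, ?_⟩
      show φ (σ q) = σ (φ' q)
      rw [hφa, hφa', hσ, hσ]
      ext <;> simp <;> ring
    · rintro ⟨q, rfl⟩
      refine ⟨φ' (σ q), ⟨σ q, rfl⟩, ?_⟩
      show σ (φ' (σ q)) = φ q
      rw [hφa, hφa', hσ, hσ]
      ext <;> simp <;> ring
  -- the sequence
  have hr1 : LinearMap.range φ' ≤ (LinearMap.range (φ ∘ₗ φ')).comap φ := by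
    rintro _ ⟨q, rfl⟩
    exact ⟨q, rfl⟩
  have hr2 : LinearMap.range (φ ∘ₗ φ') ≤ (LinearMap.range φ).comap LinearMap.id := by
    rintro _ ⟨q, rfl⟩
    exact ⟨φ' q, rfl⟩
  have e2 : Module.length D ((D × D) ⧸ LinearMap.range (φ ∘ₗ φ')) =
      Module.length D ((D × D) ⧸ LinearMap.range φ') +
        Module.length D ((D × D) ⧸ LinearMap.range φ) := by
    refine Module.length_eq_add_of_exact (Submodule.mapQ _ _ φ hr1)
      (Submodule.mapQ _ _ LinearMap.id hr2) ?_ ?_ ?_
    · rw [← LinearMap.ker_eq_bot, LinearMap.ker_eq_bot']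
      intro p hp
      obtain ⟨q, rfl⟩ := Submodule.mkQ_surjective _ p
      rw [Submodule.mkQ_apply, Submodule.mapQ_apply, Submodule.Quotient.mk_eq_zero] at hp
      obtain ⟨r, hr⟩ := hp
      rw [Submodule.mkQ_apply, Submodule.Quotient.mk_eq_zero]
      exact ⟨r, hinj hr⟩
    · intro p
      obtain ⟨q, rfl⟩ := Submodule.mkQ_surjective _ p
      exact ⟨Submodule.Quotient.mk q, rfl⟩
    · intro p
      obtain ⟨q, rfl⟩ := Submodule.mkQ_surjective _ p
      rw [Submodule.mkQ_apply, Submodule.mapQ_apply, Submodule.Quotient.mk_eq_zero]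
      constructor
      · rintro ⟨r, hr⟩
        exact ⟨Submodule.Quotient.mk r, by rw [Submodule.mapQ_apply, hr]; rfl⟩
      · rintro ⟨r', hr'⟩
        obtain ⟨r, rfl⟩ := Submodule.mkQ_surjective _ r'
        rw [Submodule.mkQ_apply, Submodule.mapQ_apply, Submodule.Quotient.eq] at hr'
        obtain ⟨t, ht⟩ := hr'
        refine ⟨r - φ' t, ?_⟩
        rw [map_sub]
        have h1 : φ (φ' t) = φ r - q := ht
        rw [h1]
        show φ r - (φ r - q) = q
        abel
  -- the multiplication with the norm
  have e3 : Module.length D ((D × D) ⧸ LinearMap.range (φ ∘ₗ φ')) =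
      Module.length D (D ⧸ Ideal.span {n}) + Module.length D (D ⧸ Ideal.span {n}) := by
    rw [← Module.length_prod]
    let π : D × D →ₗ[D] (D ⧸ Ideal.span {n}) × (D ⧸ Ideal.span {n}) :=
      LinearMap.prodMap (Submodule.mkQ _) (Submodule.mkQ _)
    have hπ : Function.Surjective π := by
      rintro ⟨u, v⟩
      obtain ⟨u, rfl⟩ := Submodule.mkQ_surjective _ u
      obtain ⟨v, rfl⟩ := Submodule.mkQ_surjective _ v
      exact ⟨(u, v), rfl⟩
    have hker : LinearMap.ker π = LinearMap.range (φ ∘ₗ φ') := by
      ext ⟨u, v⟩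
      rw [LinearMap.mem_ker, LinearMap.mem_range]
      have h1 : π (u, v) = (Submodule.mkQ _ u, Submodule.mkQ _ v) := rfl
      rw [h1, Prod.mk_eq_zero, Submodule.mkQ_apply, Submodule.mkQ_apply,
        Submodule.Quotient.mk_eq_zero, Submodule.Quotient.mk_eq_zero,
        Ideal.mem_span_singleton', Ideal.mem_span_singleton']
      constructor
      · rintro ⟨⟨u', hu⟩, ⟨v', hv⟩⟩
        refine ⟨(u', v'), ?_⟩
        rw [LinearMap.comp_apply, hcomp]
        ext
        · show n * u' = u
          rw [← hu, mul_comm]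
        · show n * v' = v
          rw [← hv, mul_comm]
      · rintro ⟨⟨u', v'⟩, h⟩
        rw [LinearMap.comp_apply, hcomp] at h
        have h1 := congrArg Prod.fst h
        have h2 := congrArg Prod.snd h
        exact ⟨⟨u', (mul_comm _ _).trans h1⟩, ⟨v', (mul_comm _ _).trans h2⟩⟩
    rw [← hker]
    exact (π.quotKerEquivOfSurjective hπ).length_eq
  -- everything is finite
  have : Ring.KrullDimLE 1 D := Ring.krullDimLE_one_iff_of_noZeroDivisors.2 fun I h0 hI =>
    hI.isMaximal h0
  have hfin : Module.length D (D ⧸ Ideal.span {n}) ≠ ⊤ :=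
    Ring.ord_ne_top (mem_nonZeroDivisors_of_ne_zero hn)
  obtain ⟨L, hL⟩ := ENat.ne_top_iff_exists.1 hfin
  rw [e3, e1] at e2
  have hfin' : Module.length D ((D × D) ⧸ LinearMap.range φ) ≠ ⊤ := by
    intro h
    rw [h, ← hL] at e2
    have h1 : ((L + L : ℕ) : ℕ∞) = ⊤ := by
      rw [Nat.cast_add, e2, top_add]
    exact ENat.natCast_ne_top _ h1
  obtain ⟨l, hl⟩ := ENat.ne_top_iff_exists.1 hfin'
  rw [← hL, ← hl] at e2
  have e4 : L + L = l + l := by exact_mod_cast e2
  -- the square root of `b`
  let J0 : D × D →ₗ[D] D × D := ORD_mul b 0 1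
  have hJ0 : ∀ p, J0 p = (b * p.2, p.1) := by
    intro p
    show (0 * p.1 + b * 1 * p.2, 1 * p.1 + 0 * p.2) = _
    ext <;> simp
  have hJr : LinearMap.range φ ≤ (LinearMap.range φ).comap J0 := by
    rintro _ ⟨q, rfl⟩
    refine ⟨J0 q, ?_⟩
    rw [hJ0, hJ0, hφa, hφa]
    ext <;> simp <;> ring
  obtain ⟨k, hk⟩ := ORD_even b hb l ((D × D) ⧸ LinearMap.range φ) (Submodule.mapQ _ _ J0 hJr) (by
    intro p
    obtain ⟨q, rfl⟩ := Submodule.mkQ_surjective _ p
    rw [Submodule.mkQ_apply, Submodule.mapQ_apply, Submodule.mapQ_apply, hJ0, hJ0,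
      ← Submodule.Quotient.mk_smul]
    rfl) hl.symm
  refine ⟨k, ?_⟩
  rw [← hL, show L = 2 * k by omega]

end Pool.Agent.QCB
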