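import Pool.Agent.QCB.Dat
import Pool.Agent.QCB.ORD
import Pool.Agent.C2M.ClaimA2

/-!
# QCB, module CLA: parity at the inert points of the discriminant

Proof. Let `y` be the kernel of `R[X] → O_Q / 𝔮`, a maximal ideal (`𝔮` prime element of the principal
ideal domain `O_Q = AdjoinRoot Q`). If `p ∉ y` take `k = 0`. `D = R[X]_y / (p)` is a noetherian local
domain of dimension one (a prime ideal strictly containing `(p)` is maximal: if `p = π` is a constant,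
`(R/π)[X]` is a principal ideal domain; otherwise `p` is primitive, the ideal contains a nonzero
element of `R`, hence a prime `π` of `R`, and `p mod π ≠ 0`). Let `z = z₀ + z₁ i + z₂ j + z₃ k`, `p ∣ nrm z`,
not `Dvd4 p z`: `z₀² - b z₂² = a (z₁² - b z₃²)` in `D`. If `N₂ = z₁² - b z₃² ≠ 0` in `D` then, by `ORD`,
`length(D / N₂)` and `length (D / a N₂)` are even, so `length(D / a)` is even (`Ring.ord` additive). If
`N₂ = 0`: then `z₀² - b z₂² = 0` too and one of the pairs is nonzero, so `b β₂² = β₁²` with `β₁, β₂ ≠ 0`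
in `D`, and `(β₁ (1 + a))² - b (β₂ (1 - a))² = 4 a β₁²`: the same conclusion. Finally
`D / a = R[X]_y / (p, Q)` (`a = Q a'`, `a'` unit at `y`) `= (O_Q)_𝔮 / (p)`, of length the multiplicity of
`𝔮` in `p mod Q`.
-/

set_option autoImplicit false

namespace Pool.Agent.QCB

open Quaternion QuaternionAlgebra Polynomial

/-- a prime split modulo `p`, `p` not dividing `2 a b`: `a` is a norm from the extension by the square root of `b`. -/
private theorem CLA_norm {A : Type} [CommRing A] [IsDomain A] (h2 : IsUnit (2 : A)) (a b p : A)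
    (hp : Prime p) (hpb : ¬ p ∣ b) (hs : Spl a b p) :
    ∃ u v d : A, ¬ p ∣ d ∧ p ∣ u ^ 2 - b * v ^ 2 - a * d ^ 2 := by
  obtain ⟨z, hz, hz2⟩ := hs
  unfold nrm at hz2
  have key : ∀ x y : A, p ∣ x ^ 2 - b * y ^ 2 → ¬ (p ∣ x ∧ p ∣ y) →
      ∃ u v d : A, ¬ p ∣ d ∧ p ∣ u ^ 2 - b * v ^ 2 - a * d ^ 2 := by
    intro x y h h0
    have hx : ¬ p ∣ x := by
      intro hx
      refine h0 ⟨hx, ?_⟩
      have h1 : p ∣ b * y ^ 2 := by
        have e1 : b * y ^ 2 = x * x - (x ^ 2 - b * y ^ 2) := by ring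
        rw [e1]
        exact dvd_sub (hx.mul_right _) h
      rcases hp.dvd_or_dvd h1 with h2 | h2
      · exact absurd h2 hpb
      · exact hp.dvd_of_dvd_pow h2
    refine ⟨x * (1 + a), y * (1 - a), 2 * x, ?_, ?_⟩
    · intro h1
      rcases hp.dvd_or_dvd h1 with h3 | h3
      · exact hp.not_unit (isUnit_of_dvd_unit h3 h2)
      · exact hx h3
    · have e1 : (x * (1 + a)) ^ 2 - b * (y * (1 - a)) ^ 2 - a * (2 * x) ^ 2 =
          (1 - a) ^ 2 * (x ^ 2 - b * y ^ 2) := by ring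
      rw [e1]
      exact h.mul_left _
  by_cases hd : p ∣ z.imI ^ 2 - b * z.imK ^ 2
  · by_cases h13 : p ∣ z.imI ∧ p ∣ z.imK
    · refine key z.re z.imJ ?_ ?_
      · have e1 : z.re ^ 2 - b * z.imJ ^ 2 = (z.re ^ 2 - a * z.imI ^ 2 - b * z.imJ ^ 2 +
            a * b * z.imK ^ 2) + a * (z.imI ^ 2 - b * z.imK ^ 2) := by ring
        rw [e1]
        exact dvd_add hz2 (hd.mul_left _)
      · rintro ⟨h0, h2⟩
        exact hz ⟨h0, h13.1, h2, h13.2⟩
    · exact key z.imI z.imK hd h13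
  · refine ⟨z.re * z.imI + b * z.imJ * z.imK, z.re * z.imK + z.imJ * z.imI,
      z.imI ^ 2 - b * z.imK ^ 2, hd, ?_⟩
    have e1 : (z.re * z.imI + b * z.imJ * z.imK) ^ 2 - b * (z.re * z.imK + z.imJ * z.imI) ^ 2 -
        a * (z.imI ^ 2 - b * z.imK ^ 2) ^ 2 = (z.imI ^ 2 - b * z.imK ^ 2) *
        (z.re ^ 2 - a * z.imI ^ 2 - b * z.imJ ^ 2 + a * b * z.imK ^ 2) := by ring
    rw [e1]
    exact hz2.mul_left _

theorem CLA {R : Type} [CommRing R] [IsDomain R] [IsPrincipalIdealRing R] (h2 : IsUnit (2 : R))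
    (a b Q a' p : R[X]) (hQ : Q.Monic) [IsDomain (AdjoinRoot Q)]
    [IsPrincipalIdealRing (AdjoinRoot Q)] (haQ : a = Q * a') (ha' : IsUnit (AdjoinRoot.mk Q a'))
    (hp : Prime p) (hpa : ¬ p ∣ a * b) (hs : Spl a b p) (𝔮 : AdjoinRoot Q) (h𝔮 : Prime 𝔮)
    (hb : ∀ β : AdjoinRoot Q, ¬ 𝔮 ∣ AdjoinRoot.mk Q b - β ^ 2) :
    ∃ k : ℕ, 𝔮 ^ (2 * k) ∣ AdjoinRoot.mk Q p ∧ ¬ 𝔮 ^ (2 * k + 1) ∣ AdjoinRoot.mk Q p := by
  have hQ0 : Q ≠ 0 := hQ.ne_zero
  have hQp : Prime Q := by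
    rw [← Ideal.span_singleton_prime hQ0]
    exact (Ideal.Quotient.isDomain_iff_prime (Ideal.span {Q})).1 (inferInstanceAs
      (IsDomain (AdjoinRoot Q)))
  have h2' : IsUnit (2 : R[X]) := by
    have := h2.map (Polynomial.C : R →+* R[X])
    rwa [map_ofNat] at this
  have hpb : ¬ p ∣ b := fun h => hpa (h.mul_left _)
  have hpa' : ¬ p ∣ a := fun h => hpa (h.mul_right _)
  have hPQ : ¬ Q ∣ p := by
    intro h
    have h3 : p ∣ Q := (hQp.irreducible.dvd_symm hp.irreducible h)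
    exact hpa' (by rw [haQ]; exact h3.mul_right _)
  obtain ⟨u, v, d, hd, hs'⟩ := CLA_norm h2' a b p hp hpb hs
  rw [haQ] at hs'
  have hp0 : AdjoinRoot.mk Q p ≠ 0 := by
    rw [Ne, AdjoinRoot.mk_eq_zero]
    exact hPQ
  have hmax : (Ideal.span {𝔮}).IsMaximal :=
    PrincipalIdealRing.isMaximal_of_irreducible h𝔮.irreducible
  have hb' : ∀ r : AdjoinRoot Q, ¬ 𝔮 ∣ r ^ 2 - AdjoinRoot.mk Q b := by
    intro r h
    refine hb r ?_
    have h3 := (dvd_neg (a := 𝔮)).2 h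
    rwa [neg_sub] at h3
  have hev : Even (multiplicity 𝔮 (AdjoinRoot.mk Q p)) :=
    Pool.C2M.claimA_mult (A := R[X]) (P := p) (Q := Q) (a1 := a') (b := b) (u := u) (v := v)
      (d := d) hp hQp hPQ 𝔮 h𝔮 hmax
      (fun h => h𝔮.not_unit (isUnit_of_dvd_unit h ha')) hb' hd hs'
  have hfin : FiniteMultiplicity 𝔮 (AdjoinRoot.mk Q p) :=
    FiniteMultiplicity.of_not_isUnit h𝔮.not_unit hp0
  obtain ⟨k, hk⟩ := hev
  refine ⟨k, ?_, ?_⟩
  · rw [show 2 * k = multiplicity 𝔮 (AdjoinRoot.mk Q p) by omega]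
    exact pow_multiplicity_dvd _ _
  · rw [hfin.pow_dvd_iff_le_multiplicity]
    omega

/-- the same with the roles of `a` and `b` interchanged (apply `CLA` with the isomorphism
`i ↔ j`: `⟨z₀, z₁, z₂, z₃⟩ ↦ ⟨z₀, z₂, z₁, -z₃⟩`) -/
theorem Spl_swap {A : Type} [CommRing A] (a b q : A) : Spl a b q ↔ Spl b a q := by
  have key : ∀ a b : A, Spl a b q → Spl b a q := by
    rintro a b ⟨z, hz, hz2⟩
    refine ⟨⟨z.re, z.imJ, z.imI, -z.imK⟩, ?_, ?_⟩
    · rintro ⟨h0, h1, h2, h3⟩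
      exact hz ⟨h0, h2, h1, (dvd_neg).1 h3⟩
    · unfold nrm at hz2 ⊢
      have e1 : z.re ^ 2 - b * z.imJ ^ 2 - a * z.imI ^ 2 + b * a * (-z.imK) ^ 2 =
          z.re ^ 2 - a * z.imI ^ 2 - b * z.imJ ^ 2 + a * b * z.imK ^ 2 := by ring
      change q ∣ z.re ^ 2 - b * z.imJ ^ 2 - a * z.imI ^ 2 + b * a * (-z.imK) ^ 2
      rw [e1]
      exact hz2
  exact ⟨key a b, key b a⟩

end Pool.Agent.QCB
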