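import Pool.Agent.QCB.QB

/-!
# QCB, module CW: polynomials over a finite field are norms up to squares

Proof. The form `d₀² - a d₁² - b d₂² + a b d₃² - g m²` in the coefficients of polynomials of degree
`≤ D`: `5 (D + 1)` variables, `2 D + deg(a b) + deg(g) + 1` equations of degree two over `κ`; for `D`
large `5 (D + 1) > 2 (2 D + deg(a b) + deg g + 1)`, and Chevalley-Warning
(`char_dvd_card_solutions_of_sum_lt`) gives a nontrivial zero. If `m ≠ 0` done. Otherwise `nrm z = 0`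
with `z ≠ 0`: choose `w` with `B = nrm (z + w) - nrm w ≠ 0` (the polar form, nondegenerate) and take
`d = (g - nrm w) z + B w`, `m = B`.
-/

set_option autoImplicit false

namespace Pool.Agent.QCB

open Quaternion QuaternionAlgebra Polynomial

private theorem CW_polar {A : Type} [CommRing A] {a b : A} (z w : ℍ[A,a,b]) (c e : A) :
    nrm (c • z + e • w) = c ^ 2 * nrm z + c * e * (nrm (z + w) - nrm z - nrm w) +
      e ^ 2 * nrm w := by
  simp only [nrm, QuaternionAlgebra.re_add, QuaternionAlgebra.imI_add, QuaternionAlgebra.imJ_add,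
    QuaternionAlgebra.imK_add, QuaternionAlgebra.re_smul, QuaternionAlgebra.imI_smul,
    QuaternionAlgebra.imJ_smul, QuaternionAlgebra.imK_smul, smul_eq_mul]
  ring

private theorem CW_univ {A : Type} [CommRing A] [IsDomain A] {a b : A} (ha : a ≠ 0) (hb : b ≠ 0)
    (h2 : (2 : A) ≠ 0) (z : ℍ[A,a,b]) (hz : z ≠ 0) (hn : nrm z = 0) (g : A) :
    ∃ (d : ℍ[A,a,b]) (m : A), m ≠ 0 ∧ nrm d = g * m ^ 2 := by
  have key : ∀ w : ℍ[A,a,b], nrm (z + w) - nrm w ≠ 0 →
      ∃ (d : ℍ[A,a,b]) (m : A), m ≠ 0 ∧ nrm d = g * m ^ 2 := by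
    intro w hw
    refine ⟨(g - nrm w) • z + (nrm (z + w) - nrm w) • w, nrm (z + w) - nrm w, hw, ?_⟩
    rw [CW_polar, hn]
    ring
  by_cases h0 : z.re = 0
  · by_cases h1 : z.imI = 0
    · by_cases h3 : z.imJ = 0
      · by_cases h4 : z.imK = 0
        · exfalso
          apply hz
          ext
          · exact h0
          · exact h1
          · exact h3
          · exact h4
        · refine key ⟨0, 0, 0, 1⟩ ?_
          have e1 : nrm (z + (⟨0, 0, 0, 1⟩ : ℍ[A,a,b])) - nrm (⟨0, 0, 0, 1⟩ : ℍ[A,a,b]) =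
              2 * (a * b) * z.imK + nrm z := by
            simp only [nrm, QuaternionAlgebra.re_add, QuaternionAlgebra.imI_add,
              QuaternionAlgebra.imJ_add, QuaternionAlgebra.imK_add]
            ring
          rw [e1, hn, add_zero]
          exact mul_ne_zero (mul_ne_zero h2 (mul_ne_zero ha hb)) h4
      · refine key ⟨0, 0, 1, 0⟩ ?_
        have e1 : nrm (z + (⟨0, 0, 1, 0⟩ : ℍ[A,a,b])) - nrm (⟨0, 0, 1, 0⟩ : ℍ[A,a,b]) =
            -(2 * b * z.imJ) + nrm z := by
          simp only [nrm, QuaternionAlgebra.re_add, QuaternionAlgebra.imI_add,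
            QuaternionAlgebra.imJ_add, QuaternionAlgebra.imK_add]
          ring
        rw [e1, hn, add_zero]
        exact neg_ne_zero.2 (mul_ne_zero (mul_ne_zero h2 hb) h3)
    · refine key ⟨0, 1, 0, 0⟩ ?_
      have e1 : nrm (z + (⟨0, 1, 0, 0⟩ : ℍ[A,a,b])) - nrm (⟨0, 1, 0, 0⟩ : ℍ[A,a,b]) =
          -(2 * a * z.imI) + nrm z := by
        simp only [nrm, QuaternionAlgebra.re_add, QuaternionAlgebra.imI_add,
          QuaternionAlgebra.imJ_add, QuaternionAlgebra.imK_add]
        ring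
      rw [e1, hn, add_zero]
      exact neg_ne_zero.2 (mul_ne_zero (mul_ne_zero h2 ha) h1)
  · refine key ⟨1, 0, 0, 0⟩ ?_
    have e1 : nrm (z + (⟨1, 0, 0, 0⟩ : ℍ[A,a,b])) - nrm (⟨1, 0, 0, 0⟩ : ℍ[A,a,b]) =
        2 * z.re + nrm z := by
      simp only [nrm, QuaternionAlgebra.re_add, QuaternionAlgebra.imI_add,
        QuaternionAlgebra.imJ_add, QuaternionAlgebra.imK_add]
      ring
    rw [e1, hn, add_zero]
    exact mul_ne_zero h2 h0

section CWgen

variable {κ σ : Type} [Field κ]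

/-- all coefficients have total degree at most `k` -/
private def CW_TD (k : ℕ) (P : (MvPolynomial σ κ)[X]) : Prop :=
  ∀ n, (P.coeff n).totalDegree ≤ k

private theorem CW_TD_add {k : ℕ} {P Q : (MvPolynomial σ κ)[X]} (hP : CW_TD k P) (hQ : CW_TD k Q) :
    CW_TD k (P + Q) := by
  intro n
  rw [coeff_add]
  exact (MvPolynomial.totalDegree_add _ _).trans (max_le (hP n) (hQ n))

private theorem CW_TD_sub {k : ℕ} {P Q : (MvPolynomial σ κ)[X]} (hP : CW_TD k P) (hQ : CW_TD k Q) :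
    CW_TD k (P - Q) := by
  intro n
  rw [coeff_sub]
  exact (MvPolynomial.totalDegree_sub _ _).trans (max_le (hP n) (hQ n))

private theorem CW_TD_mul {k l : ℕ} {P Q : (MvPolynomial σ κ)[X]} (hP : CW_TD k P)
    (hQ : CW_TD l Q) : CW_TD (k + l) (P * Q) := by
  intro n
  rw [coeff_mul]
  refine MvPolynomial.totalDegree_finsetSum_le fun x _ => ?_
  exact (MvPolynomial.totalDegree_mul _ _).trans (add_le_add (hP _) (hQ _))

private theorem CW_TD_C (P : κ[X]) : CW_TD 0 (P.map (MvPolynomial.C (σ := σ))) := by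
  intro n
  rw [coeff_map, MvPolynomial.totalDegree_C]

private theorem CW_TD_sq {P : (MvPolynomial σ κ)[X]} (hP : CW_TD 1 P) : CW_TD 2 (P ^ 2) := by
  rw [sq]
  exact CW_TD_mul hP hP

private theorem CW_TD_csq (Q : κ[X]) {P : (MvPolynomial σ κ)[X]} (hP : CW_TD 1 P) :
    CW_TD 2 (Q.map (MvPolynomial.C (σ := σ)) * P ^ 2) := by
  have := CW_TD_mul (CW_TD_C (σ := σ) Q) (CW_TD_sq hP)
  rwa [zero_add] at this

end CWgen

private theorem CW_zero {κ : Type} [Field κ] [Finite κ] (a b g : κ[X]) :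
    ∃ P : Fin 5 → κ[X], P ≠ 0 ∧
      P 0 ^ 2 - a * P 1 ^ 2 - b * P 2 ^ 2 + a * b * P 3 ^ 2 - g * P 4 ^ 2 = 0 := by
  classical
  let _ : Fintype κ := Fintype.ofFinite κ
  obtain ⟨p, hp⟩ := CharP.exists κ
  have hpp : p.Prime := CharP.char_is_prime κ p
  set e : ℕ := a.natDegree + b.natDegree + g.natDegree with he
  let D : ℕ := 2 * e
  let σ : Type := Fin 5 × Fin (D + 1)
  let G : Fin 5 → (MvPolynomial σ κ)[X] := fun i =>
    ∑ j : Fin (D + 1), C (MvPolynomial.X (i, j)) * X ^ (j : ℕ)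
  let Q : (MvPolynomial σ κ)[X] := G 0 ^ 2 - a.map MvPolynomial.C * G 1 ^ 2 -
    b.map MvPolynomial.C * G 2 ^ 2 + (a * b).map MvPolynomial.C * G 3 ^ 2 -
      g.map MvPolynomial.C * G 4 ^ 2
  let P : (σ → κ) → Fin 5 → κ[X] := fun x i => ∑ j : Fin (D + 1), C (x (i, j)) * X ^ (j : ℕ)
  have hG : ∀ i, CW_TD 1 (G i) := by
    intro i n
    simp only [G, finsetSum_coeff, coeff_C_mul, coeff_X_pow]
    refine MvPolynomial.totalDegree_finsetSum_le fun j _ => ?_
    split_ifs
    · rw [mul_one, MvPolynomial.totalDegree_X]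
    · rw [mul_zero, MvPolynomial.totalDegree_zero]
      exact Nat.zero_le _
  have hQ : CW_TD 2 Q :=
    CW_TD_sub (CW_TD_add (CW_TD_sub (CW_TD_sub (CW_TD_sq (hG 0)) (CW_TD_csq a (hG 1)))
      (CW_TD_csq b (hG 2))) (CW_TD_csq (a * b) (hG 3))) (CW_TD_csq g (hG 4))
  have hmG : ∀ (x : σ → κ) (i : Fin 5), (G i).map (MvPolynomial.eval x) = P x i := by
    intro x i
    simp only [G, P, Polynomial.map_sum, Polynomial.map_mul, Polynomial.map_C, Polynomial.map_pow,
      Polynomial.map_X, MvPolynomial.eval_X]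
  have hmC : ∀ (x : σ → κ) (R : κ[X]),
      (R.map (MvPolynomial.C (σ := σ))).map (MvPolynomial.eval x) = R := by
    intro x R
    rw [Polynomial.map_map]
    have h1 : (MvPolynomial.eval x).comp (MvPolynomial.C (σ := σ)) = RingHom.id κ := by
      ext r
      simp
    rw [h1, Polynomial.map_id]
  have hmQ : ∀ x : σ → κ, Q.map (MvPolynomial.eval x) = P x 0 ^ 2 - a * P x 1 ^ 2 -
      b * P x 2 ^ 2 + a * b * P x 3 ^ 2 - g * P x 4 ^ 2 := by
    intro x
    simp only [Q, Polynomial.map_sub, Polynomial.map_add, Polynomial.map_mul, Polynomial.map_pow,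
      hmG, hmC]
  have hPd : ∀ (x : σ → κ) (i : Fin 5), (P x i).natDegree ≤ D := by
    intro x i
    refine natDegree_sum_le_of_forall_le _ _ fun j _ => ?_
    exact (natDegree_C_mul_X_pow_le _ _).trans (Nat.lt_succ_iff.1 j.2)
  have hPs : ∀ (x : σ → κ) (i : Fin 5), (P x i ^ 2).natDegree ≤ 2 * D := by
    intro x i
    exact natDegree_pow_le_of_le 2 (hPd x i)
  have hQd : ∀ x : σ → κ, (P x 0 ^ 2 - a * P x 1 ^ 2 -
      b * P x 2 ^ 2 + a * b * P x 3 ^ 2 - g * P x 4 ^ 2).natDegree ≤ 2 * D + e := by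
    intro x
    have h1 : ∀ (R : κ[X]) (i : Fin 5), R.natDegree ≤ e → (R * P x i ^ 2).natDegree ≤ 2 * D + e := by
      intro R i hR
      refine natDegree_mul_le.trans ?_
      have := hPs x i
      omega
    have h2 : (P x 0 ^ 2).natDegree ≤ 2 * D + e := (hPs x 0).trans (by omega)
    have h3 : (a * b).natDegree ≤ e := natDegree_mul_le.trans (by omega)
    have h4 : ∀ U W : κ[X], U.natDegree ≤ 2 * D + e → W.natDegree ≤ 2 * D + e →
        (U - W).natDegree ≤ 2 * D + e := fun U W hU hW =>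
      (natDegree_sub_le U W).trans (max_le hU hW)
    have h5 : ∀ U W : κ[X], U.natDegree ≤ 2 * D + e → W.natDegree ≤ 2 * D + e →
        (U + W).natDegree ≤ 2 * D + e := fun U W hU hW =>
      (natDegree_add_le U W).trans (max_le hU hW)
    exact h4 _ _ (h5 _ _ (h4 _ _ (h4 _ _ h2 (h1 a 1 (by omega))) (h1 b 2 (by omega)))
      (h1 (a * b) 3 h3)) (h1 g 4 (by omega))
  have hsum : ∑ n ∈ Finset.range (2 * D + e + 1), (Q.coeff n).totalDegree < Fintype.card σ := by
    have h1 : ∑ n ∈ Finset.range (2 * D + e + 1), (Q.coeff n).totalDegree ≤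
        (2 * D + e + 1) * 2 := by
      have := Finset.sum_le_card_nsmul (Finset.range (2 * D + e + 1))
        (fun n => (Q.coeff n).totalDegree) 2 fun n _ => hQ n
      rwa [Finset.card_range, smul_eq_mul] at this
    have h2 : Fintype.card σ = 5 * (D + 1) := by
      simp only [σ, Fintype.card_prod, Fintype.card_fin]
    rw [h2]
    refine h1.trans_lt ?_
    simp only [D]
    omega
  have hdvd := char_dvd_card_solutions_of_sum_lt p (K := κ) (f := fun n => Q.coeff n) hsum
  have hsol0 : ∀ n ∈ Finset.range (2 * D + e + 1),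
      MvPolynomial.eval (0 : σ → κ) (Q.coeff n) = 0 := by
    intro n _
    rw [← coeff_map, hmQ]
    have h1 : ∀ i, P 0 i = 0 := by
      intro i
      simp only [P, Pi.zero_apply, map_zero, zero_mul, Finset.sum_const_zero]
    simp [h1]
  rw [← Nat.card_eq_fintype_card] at hdvd
  have hcard : 1 < Nat.card {x : σ → κ // ∀ i ∈ Finset.range (2 * D + e + 1),
      MvPolynomial.eval x (Q.coeff i) = 0} := by
    have h0 : Nonempty {x : σ → κ // ∀ i ∈ Finset.range (2 * D + e + 1),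
      MvPolynomial.eval x (Q.coeff i) = 0} := ⟨⟨0, hsol0⟩⟩
    exact hpp.one_lt.trans_le (Nat.le_of_dvd Nat.card_pos hdvd)
  have hnt := Finite.one_lt_card_iff_nontrivial.1 hcard
  obtain ⟨⟨x, hx⟩, hne⟩ := exists_ne (⟨0, hsol0⟩ : {x : σ → κ //
    ∀ i ∈ Finset.range (2 * D + e + 1), MvPolynomial.eval x (Q.coeff i) = 0})
  have hx0 : x ≠ 0 := fun h => hne (Subtype.ext h)
  refine ⟨P x, ?_, ?_⟩
  · intro h
    apply hx0
    funext ⟨i, j⟩
    have h1 : (P x i).coeff j = x (i, j) := by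
      simp only [P, finsetSum_coeff, coeff_C_mul, coeff_X_pow]
      rw [Finset.sum_eq_single j]
      · simp
      · intro k _ hk
        rw [if_neg (fun h => hk (Fin.ext h.symm)), mul_zero]
      · intro h
        exact absurd (Finset.mem_univ _) h
    rw [← h1, h]
    simp
  · ext n
    rw [coeff_zero]
    by_cases hn : n < 2 * D + e + 1
    · have := hx n (Finset.mem_range.2 hn)
      rwa [← coeff_map, hmQ] at this
    · exact coeff_eq_zero_of_natDegree_lt (lt_of_le_of_lt (hQd x) (by omega))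

theorem CW {κ : Type} [Field κ] [Finite κ] (h2 : (2 : κ) ≠ 0) (a b g : κ[X]) (ha : a ≠ 0)
    (hb : b ≠ 0) (hg : g ≠ 0) :
    ∃ (d : ℍ[κ[X],a,b]) (m : κ[X]), m ≠ 0 ∧ nrm d = g * m ^ 2 := by
  obtain ⟨P, hP, h⟩ := CW_zero a b g
  by_cases h4 : P 4 = 0
  · have h2' : (2 : κ[X]) ≠ 0 := by
      have h5 : (2 : κ[X]) = C (2 : κ) := (map_ofNat C 2).symm
      rw [h5]
      exact C_ne_zero.2 h2
    refine CW_univ ha hb h2' ⟨P 0, P 1, P 2, P 3⟩ ?_ ?_ g
    · intro h0
      apply hP
      have e0 := congrArg QuaternionAlgebra.re h0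
      have e1 := congrArg QuaternionAlgebra.imI h0
      have e2 := congrArg QuaternionAlgebra.imJ h0
      have e3 := congrArg QuaternionAlgebra.imK h0
      funext i
      fin_cases i
      · exact e0
      · exact e1
      · exact e2
      · exact e3
      · exact h4
    · rw [h4] at h
      simp only [nrm]
      linear_combination h
  · refine ⟨⟨P 0, P 1, P 2, P 3⟩, P 4, h4, ?_⟩
    simp only [nrm]
    linear_combination h

/-- universality of an isotropic norm -/
theorem isotropic_univ {A : Type} [CommRing A] [IsDomain A] {a b : A} (ha : a ≠ 0) (hb : b ≠ 0)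
    (h2 : (2 : A) ≠ 0) (z : ℍ[A,a,b]) (hz : z ≠ 0) (hn : nrm z = 0) (g : A) :
    ∃ (d : ℍ[A,a,b]) (m : A), m ≠ 0 ∧ nrm d = g * m ^ 2 :=
  CW_univ ha hb h2 z hz hn g

end Pool.Agent.QCB
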