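import Pool.Agent.QCB.DXS

/-!
# QCB, module DX: good data exist after shrinking the base curve

`R` is infinite: choose `c₀ ∈ R` with `a(c₀) b(c₀) ≠ 0` and invert it. `exists_pid`, `DXS` twice, `SQF`, `fin_res`; at `c₀`: either
`nrm` is isotropic on `ℍ[R,a(c₀),b(c₀)]` or `LeftPID`. Choose one `r` divisible by everything.
-/

set_option autoImplicit false

namespace Pool.Agent.QCB

open Quaternion QuaternionAlgebra Polynomial Pool.Agent.Helper67.Bass

private theorem DX_eval {R S : Type} [CommRing R] [CommRing S] (f : R →+* S) (p : R[X]) (c : R) :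
    (p.map f).eval (f c) = f (p.eval c) := by
  rw [eval_map, eval₂_at_apply]

private theorem DX_iso {R S : Type} [CommRing R] [CommRing S] (f : R →+* S)
    (hf : Function.Injective f) (a b : R) (h : ∃ z : ℍ[R,a,b], z ≠ 0 ∧ nrm z = 0) :
    ∃ z : ℍ[S,f a,f b], z ≠ 0 ∧ nrm z = 0 := by
  obtain ⟨z, hz, hn⟩ := h
  refine ⟨⟨f z.re, f z.imI, f z.imJ, f z.imK⟩, ?_, ?_⟩
  · intro h0
    apply hz
    have h1 := congrArg QuaternionAlgebra.re h0
    have h2 := congrArg QuaternionAlgebra.imI h0
    have h3 := congrArg QuaternionAlgebra.imJ h0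
    have h4 := congrArg QuaternionAlgebra.imK h0
    simp only [QuaternionAlgebra.re_zero, QuaternionAlgebra.imI_zero,
      QuaternionAlgebra.imJ_zero, QuaternionAlgebra.imK_zero, map_eq_zero_iff f hf] at h1 h2 h3 h4
    ext
    · simpa using h1
    · simpa using h2
    · simpa using h3
    · simpa using h4
  · have := congrArg f hn
    simp only [nrm, map_add, map_sub, map_mul, map_pow, map_zero] at this ⊢
    exact this

theorem DX {R : Type} [CommRing R] [IsDomain R] [Algebra.FiniteType ℤ R] [Infinite R]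
    (hK : KroneckerLeOne (FractionRing R)) (h2 : (2 : R) ≠ 0) (hL : LeftPID R) (a b : R[X])
    (ha0 : a ≠ 0) (hb0 : b ≠ 0)
    (ha : Squarefree (a.map (algebraMap R (FractionRing R))))
    (hb : Squarefree (b.map (algebraMap R (FractionRing R))))
    (hab : IsCoprime (a.map (algebraMap R (FractionRing R)))
      (b.map (algebraMap R (FractionRing R)))) :
    ∃ r : R, r ≠ 0 ∧ ∃ c : Localization.Away r,
      ∃ _ : IsDomain (Localization.Away r),
      Dat (Localization.Away r) (a.map (algebraMap R (Localization.Away r)))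
        (b.map (algebraMap R (Localization.Away r))) c := by
  obtain ⟨r1, hr1, h1⟩ := DXP1 (R := R) (O := R) hK
  obtain ⟨r2, hr2, h3⟩ := DXS hK h2 a b ha ha0 hab
  obtain ⟨r3, hr3, h4⟩ := DXS hK h2 b a hb hb0 hab.symm
  obtain ⟨c, hc⟩ : ∃ c : R, (a * b).eval c ≠ 0 := by
    by_contra hcon
    simp only [not_exists, not_not] at hcon
    exact mul_ne_zero ha0 hb0 (Polynomial.funext fun r => by rw [hcon r, eval_zero])
  rw [eval_mul] at hc
  have hac : a.eval c ≠ 0 := left_ne_zero_of_mul hc
  have hbc : b.eval c ≠ 0 := right_ne_zero_of_mul hc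
  obtain ⟨r4, hr4, h5⟩ : ∃ r : R, r ≠ 0 ∧ ∀ r' : R, r' ≠ 0 → r ∣ r' →
      (∃ z : ℍ[Localization.Away r', algebraMap R (Localization.Away r') (a.eval c),
        algebraMap R (Localization.Away r') (b.eval c)], z ≠ 0 ∧ nrm z = 0) ∨
      IsPrincipalIdealRing ℍ[Localization.Away r', algebraMap R (Localization.Away r') (a.eval c),
        algebraMap R (Localization.Away r') (b.eval c)] := by
    by_cases hz : ∃ z : ℍ[R,a.eval c,b.eval c], z ≠ 0 ∧ nrm z = 0
    · refine ⟨1, one_ne_zero, fun r' hr' _ => Or.inl ?_⟩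
      exact DX_iso _ (IsLocalization.injective _
        (powers_le_nonZeroDivisors_of_noZeroDivisors hr')) _ _ hz
    · obtain ⟨r, hr, h⟩ := hL (a.eval c) (b.eval c) hac hbc (fun z hz0 => by
        by_contra hne
        exact hz ⟨z, hne, hz0⟩)
      exact ⟨r, hr, fun r' hr' hd => Or.inr (h r' hr' hd)⟩
  set r := 2 * (a.eval c * b.eval c) * r1 * r2 * r3 * r4 with hr
  have hr0 : r ≠ 0 := mul_ne_zero (mul_ne_zero (mul_ne_zero (mul_ne_zero (mul_ne_zero h2 hc) hr1)
    hr2) hr3) hr4
  have d4 : r4 ∣ r := Dvd.intro_left _ rfl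
  have e3 : 2 * (a.eval c * b.eval c) * r1 * r2 * r3 ∣ r := Dvd.intro _ rfl
  have d3 : r3 ∣ r := (Dvd.intro_left _ rfl).trans e3
  have e2 : 2 * (a.eval c * b.eval c) * r1 * r2 ∣ r := (Dvd.intro _ rfl).trans e3
  have d2 : r2 ∣ r := (Dvd.intro_left _ rfl).trans e2
  have e1 : 2 * (a.eval c * b.eval c) * r1 ∣ r := (Dvd.intro _ rfl).trans e2
  have d1 : r1 ∣ r := (Dvd.intro_left _ rfl).trans e1
  have e0 : 2 * (a.eval c * b.eval c) ∣ r := (Dvd.intro _ rfl).trans e1
  have d0 : 2 ∣ r := (Dvd.intro _ rfl).trans e0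
  have e' : a.eval c * b.eval c ∣ r := (Dvd.intro_left _ rfl).trans e0
  have da : a.eval c ∣ r := (Dvd.intro _ rfl).trans e'
  have db : b.eval c ∣ r := (Dvd.intro_left _ rfl).trans e'
  clear_value r
  have hdom : IsDomain (Localization.Away r) :=
    IsLocalization.isDomain_localization (powers_le_nonZeroDivisors_of_noZeroDivisors hr0)
  have hunit : ∀ t : R, t ∣ r → IsUnit (algebraMap R (Localization.Away r) t) := fun t ht =>
    isUnit_of_dvd_unit (map_dvd _ ht) (IsLocalization.Away.algebraMap_isUnit r)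
  obtain ⟨φ, ψ, χ, hφi, hφ, hψ, hχ⟩ := DXS_frac r hr0 (Localization.Away r)
  have f1 : Algebra.FiniteType R (Localization.Away r) := inferInstance
  have f3 : Algebra.FiniteType ℤ (Localization.Away r) := Algebra.FiniteType.trans (S := R)
    inferInstance inferInstance
  have f4 := DXS_int _ f3
  have hpid : IsPrincipalIdealRing (Localization.Away r) := h1 r hr0 d1
  refine ⟨r, hr0, algebraMap R (Localization.Away r) c, hdom, ?_⟩
  refine ⟨hpid, ?_, ?_, ?_, h3 r hr0 d2, h4 r hr0 d3, ?_, ?_, ?_, ?_⟩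
  · have := hunit 2 d0
    rwa [map_ofNat] at this
  · intro π hπ
    exact fin_res _ π hπ
  · exact SQF _ (KroneckerLeOne.of_hom ψ hK)
  · rw [DX_eval]; exact hunit _ da
  · rw [DX_eval]; exact hunit _ db
  · have hco := hab.map (Polynomial.mapRingHom χ)
    have hcomp : χ.comp (algebraMap R (FractionRing R)) =
        (algebraMap (Localization.Away r) (FractionRing (Localization.Away r))).comp
          (algebraMap R (Localization.Away r)) := RingHom.ext hχ
    rw [coe_mapRingHom, Polynomial.map_map, Polynomial.map_map, hcomp, ← Polynomial.map_map,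
      ← Polynomial.map_map] at hco
    exact hco
  · rw [DX_eval, DX_eval]
    exact h5 r hr0 d4

end Pool.Agent.QCB
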