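import Pool.Agent.QCB.DXP1

/-!
# QCB, module DXP: the rings `R[X]/Q` and their quadratic extensions after shrinking the base curve

`AdjoinRoot Q` is a domain (`Q` monic, irreducible over the fraction field), finite over `R`: `DXP1`, `DXP2`; its fraction
field has the same Kronecker dimension only through `R` (use `DXP1`, which needs only `R`). `DXP3`: if `b mod Q` is a square in
the fraction field of `AdjoinRoot Q`, it is a square in `AdjoinRoot Q` after inverting a denominator (which divides an
element of `R`); otherwise `X² - b` is irreducible there and `AdjoinRoot (X² - C b)` is a domain, finite over `R`.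
-/

set_option autoImplicit false

namespace Pool.Agent.QCB

open Polynomial Pool.Agent.Helper67.Bass

/-- the natural map -/
noncomputable def dxp_map {R : Type} (R' : Type) [CommRing R] [CommRing R'] [Algebra R R']
    (Q : R[X]) : AdjoinRoot Q →+* AdjoinRoot (Q.map (algebraMap R R')) :=
  AdjoinRoot.lift ((AdjoinRoot.of (Q.map (algebraMap R R'))).comp (algebraMap R R'))
    (AdjoinRoot.root (Q.map (algebraMap R R'))) (by
      rw [← Polynomial.eval₂_map]
      exact AdjoinRoot.eval₂_root _)

theorem dxp_map_mk {R : Type} (R' : Type) [CommRing R] [CommRing R'] [Algebra R R'] (Q f : R[X]) :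
    dxp_map R' Q (AdjoinRoot.mk Q f) =
      AdjoinRoot.mk (Q.map (algebraMap R R')) (f.map (algebraMap R R')) := by
  unfold dxp_map
  rw [AdjoinRoot.lift_mk, ← Polynomial.eval₂_map, ← AdjoinRoot.aeval_eq, Polynomial.aeval_def]
  rfl

theorem dxp_map_of {R : Type} (R' : Type) [CommRing R] [CommRing R'] [Algebra R R'] (Q : R[X])
    (r : R) : dxp_map R' Q (AdjoinRoot.of Q r) =
      AdjoinRoot.of (Q.map (algebraMap R R')) (algebraMap R R' r) := by
  unfold dxp_map
  rw [AdjoinRoot.lift_of]
  rfl

/-- the natural map is a localization -/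
theorem dxp_loc {R R' : Type} [CommRing R] [CommRing R'] [Algebra R R'] (r : R)
    [IsLocalization.Away r R'] (Q : R[X]) :
    letI := (dxp_map R' Q).toAlgebra
    IsLocalization.Away (AdjoinRoot.of Q r) (AdjoinRoot (Q.map (algebraMap R R'))) := by
  letI := (dxp_map R' Q).toAlgebra
  letI : Algebra R[X] R'[X] := Polynomial.algebra R R'
  have h0 : algebraMap R[X] R'[X] = mapRingHom (algebraMap R R') := rfl
  have h1 : IsLocalization ((Submonoid.powers r).map (C : R →+* R[X])) R'[X] :=
    Polynomial.isLocalization (Submonoid.powers r) R'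
  have h2 := IsLocalization.of_surjective ((Submonoid.powers r).map (C : R →+* R[X])) R'[X]
    (AdjoinRoot.mk Q) AdjoinRoot.mk_surjective (AdjoinRoot.mk (Q.map (algebraMap R R')))
    AdjoinRoot.mk_surjective (by
      refine RingHom.ext fun f => ?_
      rw [RingHom.comp_apply, RingHom.comp_apply, h0]
      exact (dxp_map_mk R' Q f).symm) (by
      have e1 : RingHom.ker (AdjoinRoot.mk (Q.map (algebraMap R R'))) =
        Ideal.span {Q.map (algebraMap R R')} := Ideal.mk_ker
      have e2 : RingHom.ker (AdjoinRoot.mk Q) = Ideal.span {Q} := Ideal.mk_ker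
      rw [e1, e2, Ideal.map_span, Set.image_singleton, h0]
      exact le_refl _)
  have h3 : ((Submonoid.powers r).map (C : R →+* R[X])).map (AdjoinRoot.mk Q) =
      Submonoid.powers (AdjoinRoot.of Q r) := by
    rw [Submonoid.map_powers, Submonoid.map_powers]
    rfl
  rw [h3] at h2
  exact h2

/-- a monic polynomial which is irreducible over a field is prime -/
theorem dxp_prime {R L : Type} [CommRing R] [IsDomain R] [Field L] (φ : R →+* L)
    (hφ : Function.Injective φ) (Q : R[X]) (hQ : Q.Monic) (hirr : Irreducible (Q.map φ)) :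
    Prime Q := by
  refine ⟨hQ.ne_zero, ?_, ?_⟩
  · intro h
    exact hirr.not_isUnit (h.map (mapRingHom φ))
  · intro f g h
    have h1 : Q.map φ ∣ f.map φ * g.map φ := by
      rw [← Polynomial.map_mul]
      exact (Polynomial.map_dvd_map φ hφ hQ).2 h
    rcases hirr.prime.dvd_or_dvd h1 with h2 | h2
    · exact Or.inl ((Polynomial.map_dvd_map φ hφ hQ).1 h2)
    · exact Or.inr ((Polynomial.map_dvd_map φ hφ hQ).1 h2)

theorem dxp_deg {R L : Type} [CommRing R] [IsDomain R] [Field L] (φ : R →+* L)
    (Q : R[X]) (hQ : Q.Monic) (hirr : Irreducible (Q.map φ)) : Q.degree ≠ 0 := by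
  have h1 := hirr.degree_pos
  rw [hQ.degree_map φ] at h1
  exact h1.ne'

/-- after shrinking, for a tower of a finite domain -/
theorem dxp_tow {R : Type} [CommRing R] [IsDomain R] [Algebra.FiniteType ℤ R]
    (hK : KroneckerLeOne (FractionRing R)) (O : Type) [CommRing O] [IsDomain O] [Algebra R O]
    [Module.Finite R O] (hinj : Function.Injective (algebraMap R O)) :
    ∃ r : R, r ≠ 0 ∧ ∀ r' : R, r' ≠ 0 → r ∣ r' → ∀ (O' : Type) [CommRing O'] [Algebra O O'],
      IsLocalization.Away (algebraMap R O r') O' → IsDomain O' ∧ IsPrincipalIdealRing O' := by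
  haveI : FaithfulSMul R O := (faithfulSMul_iff_algebraMap_injective R O).2 hinj
  obtain ⟨r, hr, h⟩ := DXP1 hK (O := O)
  refine ⟨r, hr, ?_⟩
  intro r' hr' hd O' _ _ hO'
  have h1 := h r' hr' hd
  have hne : algebraMap R O r' ≠ 0 := fun h2 => hr' (hinj (h2.trans (map_zero _).symm))
  refine ⟨IsLocalization.isDomain_of_le_nonZeroDivisors (S := O')
    (M := Submonoid.powers (algebraMap R O r')) (powers_le_nonZeroDivisors_of_noZeroDivisors hne), ?_⟩
  let e : Localization.Away (algebraMap R O r') ≃ₐ[O] O' :=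
    IsLocalization.algEquiv (Submonoid.powers (algebraMap R O r')) _ _
  exact IsPrincipalIdealRing.of_surjective e.toRingEquiv.toRingHom e.surjective

/-- `Q` monic and irreducible over the fraction field: `AdjoinRoot Q` is a domain, and a principal
ideal domain after shrinking `R` -/
theorem DXP {R : Type} [CommRing R] [IsDomain R] [Algebra.FiniteType ℤ R]
    (hK : KroneckerLeOne (FractionRing R)) (Q : R[X]) (hQ : Q.Monic)
    (hirr : Irreducible (Q.map (algebraMap R (FractionRing R)))) :
    ∃ r : R, r ≠ 0 ∧ ∀ r' : R, r' ≠ 0 → r ∣ r' →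
      IsDomain (AdjoinRoot (Q.map (algebraMap R (Localization.Away r')))) ∧
      IsPrincipalIdealRing (AdjoinRoot (Q.map (algebraMap R (Localization.Away r')))) := by
  have hp := dxp_prime _ (IsFractionRing.injective R (FractionRing R)) Q hQ hirr
  have hd := dxp_deg _ Q hQ hirr
  haveI : IsDomain (AdjoinRoot Q) := AdjoinRoot.isDomain_of_prime hp
  haveI : Module.Finite R (AdjoinRoot Q) := (AdjoinRoot.powerBasis' hQ).finite
  obtain ⟨r, hr, h⟩ := dxp_tow hK (AdjoinRoot Q) (AdjoinRoot.of.injective_of_degree_ne_zero hd)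
  refine ⟨r, hr, ?_⟩
  intro r' hr' hdv
  letI := (dxp_map (Localization.Away r') Q).toAlgebra
  exact h r' hr' hdv _ (dxp_loc r' Q)

/-- the quadratic extension of `AdjoinRoot Q` given by a square root of `b mod Q` -/
theorem DXP3 {R : Type} [CommRing R] [IsDomain R] [Algebra.FiniteType ℤ R]
    (hK : KroneckerLeOne (FractionRing R)) (h2 : (2 : R) ≠ 0) (Q b : R[X]) (hQ : Q.Monic)
    (hirr : Irreducible (Q.map (algebraMap R (FractionRing R)))) :
    ∃ r : R, r ≠ 0 ∧ ∀ r' : R, r' ≠ 0 → r ∣ r' →
      (IsSquare (AdjoinRoot.mk (Q.map (algebraMap R (Localization.Away r')))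
        (b.map (algebraMap R (Localization.Away r')))) ∨
      (IsDomain (AdjoinRoot (X ^ 2 - C (AdjoinRoot.mk (Q.map (algebraMap R (Localization.Away r')))
        (b.map (algebraMap R (Localization.Away r')))))) ∧
       IsPrincipalIdealRing (AdjoinRoot (X ^ 2 - C (AdjoinRoot.mk
        (Q.map (algebraMap R (Localization.Away r')))
        (b.map (algebraMap R (Localization.Away r')))))))) := by
  have hp := dxp_prime _ (IsFractionRing.injective R (FractionRing R)) Q hQ hirr
  have hd := dxp_deg _ Q hQ hirr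
  haveI : IsDomain (AdjoinRoot Q) := AdjoinRoot.isDomain_of_prime hp
  haveI : Module.Finite R (AdjoinRoot Q) := (AdjoinRoot.powerBasis' hQ).finite
  have hinj : Function.Injective (algebraMap R (AdjoinRoot Q)) :=
    AdjoinRoot.of.injective_of_degree_ne_zero hd
  set β := AdjoinRoot.mk Q b with hβ
  by_cases hsq : ∃ c : FractionRing (AdjoinRoot Q),
      c ^ 2 = algebraMap (AdjoinRoot Q) (FractionRing (AdjoinRoot Q)) β
  · obtain ⟨c, hc⟩ := hsq
    obtain ⟨u, v, hv, rfl⟩ := IsFractionRing.div_surjective (A := AdjoinRoot Q) c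
    have hv0 : v ≠ 0 := nonZeroDivisors.ne_zero hv
    have hv1 : algebraMap (AdjoinRoot Q) (FractionRing (AdjoinRoot Q)) v ≠ 0 := fun h =>
      hv0 (IsFractionRing.injective (AdjoinRoot Q) (FractionRing (AdjoinRoot Q))
        (h.trans (map_zero _).symm))
    have huv : u ^ 2 = β * v ^ 2 := by
      apply IsFractionRing.injective (AdjoinRoot Q) (FractionRing (AdjoinRoot Q))
      rw [map_pow, map_mul, map_pow, ← hc]
      field_simp
    haveI : Algebra.IsIntegral R (AdjoinRoot Q) := Algebra.IsIntegral.of_finite R _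
    obtain ⟨r, hr, w, hw⟩ := (Algebra.IsIntegral.isIntegral (R := R) v).isAlgebraic.exists_nonzero_dvd
      hv
    refine ⟨r, hr, ?_⟩
    intro r' hr' hdv
    left
    obtain ⟨t, rfl⟩ := hdv
    set R' := Localization.Away (r * t) with hR'
    have h1 : IsUnit (dxp_map R' Q v) := by
      have h3 : IsUnit (dxp_map R' Q (AdjoinRoot.of Q (r * t))) := by
        rw [dxp_map_of]
        exact (IsLocalization.Away.algebraMap_isUnit (r * t)).map _
      have h4 : AdjoinRoot.of Q (r * t) = v * (w * AdjoinRoot.of Q t) := by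
        rw [map_mul, ← mul_assoc, ← hw]
        rfl
      rw [h4, map_mul] at h3
      exact isUnit_of_mul_isUnit_left h3
    have h5 : dxp_map R' Q u ^ 2 = dxp_map R' Q β * dxp_map R' Q v ^ 2 := by
      rw [← map_pow, huv, map_mul, map_pow]
    rw [hβ, dxp_map_mk] at h5
    obtain ⟨v', hv'⟩ := h1
    refine ⟨dxp_map R' Q u * ((v'⁻¹ : (AdjoinRoot (Q.map (algebraMap R R')))ˣ) : _), ?_⟩
    have h6 : (dxp_map R' Q v) * ((v'⁻¹ : (AdjoinRoot (Q.map (algebraMap R R')))ˣ) : _) = 1 := by
      rw [← hv', Units.mul_inv]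
    calc AdjoinRoot.mk (Q.map (algebraMap R R')) (b.map (algebraMap R R'))
        = AdjoinRoot.mk (Q.map (algebraMap R R')) (b.map (algebraMap R R')) *
          ((dxp_map R' Q v) * ((v'⁻¹ : (AdjoinRoot (Q.map (algebraMap R R')))ˣ) : _)) ^ 2 := by
          rw [h6, one_pow, mul_one]
      _ = _ := by
          rw [mul_pow, ← mul_assoc, ← h5]
          ring
  · push Not at hsq
    have hm : (X ^ 2 - C β : (AdjoinRoot Q)[X]).Monic := monic_X_pow_sub_C β two_ne_zero
    have hi : Irreducible ((X ^ 2 - C β : (AdjoinRoot Q)[X]).map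
        (algebraMap (AdjoinRoot Q) (FractionRing (AdjoinRoot Q)))) := by
      rw [Polynomial.map_sub, Polynomial.map_pow, map_X, map_C]
      exact X_pow_sub_C_irreducible_of_prime Nat.prime_two hsq
    have hp2 := dxp_prime _ (IsFractionRing.injective (AdjoinRoot Q)
      (FractionRing (AdjoinRoot Q))) _ hm hi
    have hd2 := dxp_deg _ _ hm hi
    haveI : IsDomain (AdjoinRoot (X ^ 2 - C β : (AdjoinRoot Q)[X])) :=
      AdjoinRoot.isDomain_of_prime hp2
    haveI : Module.Finite (AdjoinRoot Q) (AdjoinRoot (X ^ 2 - C β : (AdjoinRoot Q)[X])) :=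
      (AdjoinRoot.powerBasis' hm).finite
    haveI : Module.Finite R (AdjoinRoot (X ^ 2 - C β : (AdjoinRoot Q)[X])) :=
      Module.Finite.trans (AdjoinRoot Q) _
    have hinj2 : Function.Injective
        (algebraMap R (AdjoinRoot (X ^ 2 - C β : (AdjoinRoot Q)[X]))) := by
      rw [IsScalarTower.algebraMap_eq R (AdjoinRoot Q)
        (AdjoinRoot (X ^ 2 - C β : (AdjoinRoot Q)[X]))]
      exact (AdjoinRoot.of.injective_of_degree_ne_zero hd2).comp hinj
    obtain ⟨r, hr, h⟩ := dxp_tow hK (AdjoinRoot (X ^ 2 - C β : (AdjoinRoot Q)[X])) hinj2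
    refine ⟨r, hr, ?_⟩
    intro r' hr' hdv
    right
    set R' := Localization.Away r' with hR'
    letI := (dxp_map R' Q).toAlgebra
    haveI := dxp_loc (R' := R') r' Q
    letI := (dxp_map (AdjoinRoot (Q.map (algebraMap R R'))) (X ^ 2 - C β)).toAlgebra
    have h3 := dxp_loc (R' := AdjoinRoot (Q.map (algebraMap R R'))) (AdjoinRoot.of Q r')
      (X ^ 2 - C β)
    have h4 := h r' hr' hdv _ h3
    have h5 : (X ^ 2 - C β : (AdjoinRoot Q)[X]).map (algebraMap (AdjoinRoot Q)
        (AdjoinRoot (Q.map (algebraMap R R')))) = X ^ 2 - C (AdjoinRoot.mk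
          (Q.map (algebraMap R R')) (b.map (algebraMap R R'))) := by
      rw [Polynomial.map_sub, Polynomial.map_pow, map_X, map_C]
      congr 2
      exact dxp_map_mk R' Q b
    rw [h5] at h4
    exact h4

end Pool.Agent.QCB
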