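import Pool.Agent.Helper67.Bass.Gen1
import Pool.Agent.Helper67.Bass.Gen2
import Pool.Agent.Helper67.Bass.Small

/-!
# QCB, module KLA: algebraic extensions of fields of Kronecker dimension at most one

First alternative of `KroneckerLeOne` (algebraic over the prime field): the same for `E` (`kronecker_of_alg0`,
`kronecker_of_algp`). Second alternative: `L` has transcendence degree at most one over `𝔽_p`, so `E` too:
`kronecker_of_trdeg`.
-/

set_option autoImplicit false

namespace Pool.Agent.QCB

open Pool.Agent.Helper67.Bass

open scoped Polynomial Cardinal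

/-- the second alternative -/
private theorem kla2 {L E : Type} [Field L] [Field E] [Algebra L E] [Algebra.IsAlgebraic L E]
    (p : ℕ) [Fact p.Prime] [Algebra (ZMod p) L] [Algebra (ZMod p) E] [IsScalarTower (ZMod p) L E]
    (h : ∀ x y : L, ¬ AlgebraicIndependent (ZMod p) ![x, y]) :
    ∀ x y : E, ¬ AlgebraicIndependent (ZMod p) ![x, y] := by
  intro x y hxy
  have h1 : Algebra.trdeg (ZMod p) L ≤ 1 := by
    unfold Algebra.trdeg
    refine ciSup_le' fun s => ?_
    rw [Cardinal.mk_le_one_iff_set_subsingleton]
    intro a ha b hb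
    by_contra hab
    apply h a b
    have h2 : AlgebraicIndependent (ZMod p) (fun i : s.1 => (i : L)) := s.2
    have h3 := h2.comp (![⟨a, ha⟩, ⟨b, hb⟩] : Fin 2 → s.1) (by
      intro i j hij
      fin_cases i <;> fin_cases j
      · rfl
      · exact absurd (congrArg Subtype.val hij) hab
      · exact absurd (congrArg Subtype.val hij).symm hab
      · rfl)
    convert h3 using 1
    funext i
    fin_cases i <;> rfl
  have h4 : Algebra.trdeg (ZMod p) L + Algebra.trdeg L E = Algebra.trdeg (ZMod p) E :=
    trdeg_add_eq (ZMod p) L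
  have h5 : Algebra.trdeg L E = 0 := trdeg_eq_zero
  have h6 := hxy.cardinalMk_le_trdeg
  rw [← h4, h5, add_zero] at h6
  have h7 : (2 : Cardinal) ≤ 1 := by
    refine le_trans ?_ (h6.trans h1)
    simp
  exact absurd h7 (by simp)

theorem KLA {L E : Type} [Field L] [Field E] [Algebra L E] [Algebra.IsAlgebraic L E]
    (h : KroneckerLeOne L) : KroneckerLeOne E := by
  rcases h with h | ⟨p, hp, hp0, h⟩
  · rcases CharP.exists' L with h0 | ⟨p, hp, hpc⟩
    · haveI := h0
      haveI : CharZero E := charZero_of_injective_algebraMap (algebraMap L E).injective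
      haveI : Algebra.IsAlgebraic ℤ L := ⟨fun x => by
        obtain ⟨f, hf, hfx⟩ := h x
        exact ⟨f, hf.ne_zero, hfx⟩⟩
      haveI : Algebra.IsAlgebraic ℤ E := Algebra.IsAlgebraic.trans ℤ L E
      exact kronecker_of_alg0 E fun x => Algebra.IsAlgebraic.isAlgebraic x
    · haveI := hp
      haveI := hpc
      letI := ZMod.algebra L p
      haveI : CharP E p := (Algebra.charP_iff L E p).1 hpc
      letI := ZMod.algebra E p
      haveI : IsScalarTower (ZMod p) L E := IsScalarTower.of_algebraMap_eq' (RingHom.ext_zmod _ _)
      haveI : Algebra.IsAlgebraic (ZMod p) L := ⟨fun x => by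
        obtain ⟨f, hf, hfx⟩ := h x
        refine ⟨f.map (Int.castRingHom (ZMod p)), ?_, ?_⟩
        · intro h1
          have h2 : (p : ℤ) ∣ f.content := by
            rw [Polynomial.dvd_content_iff_C_dvd, Polynomial.C_dvd_iff_dvd_coeff]
            intro i
            have h3 := congrArg (fun g => Polynomial.coeff g i) h1
            simp only [Polynomial.coeff_map, Polynomial.coeff_zero, eq_intCast] at h3
            exact (ZMod.intCast_zmod_eq_zero_iff_dvd _ p).1 h3
          rw [hf.content_eq_one] at h2
          have h3 := Int.isUnit_iff.1 (isUnit_of_dvd_one h2)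
          have h4 := hp.out.two_le
          omega
        · rw [Polynomial.aeval_def, Polynomial.eval₂_map, ← hfx, Polynomial.aeval_def]
          congr 1
          exact RingHom.ext_int _ _⟩
      haveI : Algebra.IsAlgebraic (ZMod p) E := Algebra.IsAlgebraic.trans (ZMod p) L E
      exact kronecker_of_algp p E fun x => Algebra.IsAlgebraic.isAlgebraic x
  · haveI := Fact.mk hp
    haveI : CharP L p := (CharP.charP_iff_prime_eq_zero hp).2 hp0
    letI := ZMod.algebra L p
    haveI : CharP E p := (Algebra.charP_iff L E p).1 inferInstance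
    letI := ZMod.algebra E p
    haveI : IsScalarTower (ZMod p) L E := IsScalarTower.of_algebraMap_eq' (RingHom.ext_zmod _ _)
    refine kronecker_of_trdeg p E (kla2 (L := L) p ?_)
    intro x y hxy
    obtain ⟨F, hF, hF0⟩ := h x y
    rw [algebraicIndependent_iff] at hxy
    have h1 := hxy (MvPolynomial.map (Int.castRingHom (ZMod p)) F) (by
      rw [MvPolynomial.aeval_def, MvPolynomial.eval₂_map, ← hF0, MvPolynomial.aeval_def]
      congr 1
      exact RingHom.ext_int _ _)
    apply hF
    rw [MvPolynomial.C_dvd_iff_map_hom_eq_zero (Int.castRingHom (ZMod p)) (p : ℤ)]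
    · exact h1
    · intro a
      rw [eq_intCast]
      exact ZMod.intCast_zmod_eq_zero_iff_dvd a p

end Pool.Agent.QCB
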