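import Pool.Agent.QCB.Dat
import Pool.Agent.Helper67.Bass.Small
import Pool.Agent.QCB.KLA

/-!
# QCB, module DXP1: principal ideal domains after shrinking the base curve
-/

set_option autoImplicit false

namespace Pool.Agent.QCB

open Polynomial Pool.Agent.Helper67.Bass

private theorem dxp1_jac : IsJacobsonRing ℤ := by
  rw [isJacobsonRing_iff_prime_eq]
  intro P hP
  by_cases hb : P = ⊥
  · subst hb
    rw [eq_bot_iff]
    intro x hx
    rw [Ideal.mem_bot]
    by_contra hx0
    obtain ⟨p, hp1, hp2⟩ := Nat.exists_infinite_primes (x.natAbs + 1)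
    have hprime : Prime (p : ℤ) := Nat.prime_iff_prime_int.1 hp2
    have hirr : Irreducible (p : ℤ) := hprime.irreducible
    have hmax : (Ideal.span {(p : ℤ)}).IsMaximal :=
      PrincipalIdealRing.isMaximal_of_irreducible hirr
    rw [Ideal.jacobson, Ideal.mem_sInf] at hx
    have := hx ⟨bot_le, hmax⟩
    rw [Ideal.mem_span_singleton] at this
    have h2 := Int.natAbs_dvd_natAbs.2 this
    have h3 := Nat.le_of_dvd (Int.natAbs_pos.2 hx0) h2
    simp at h3
    omega
  · have : P.IsMaximal := IsPrime.to_maximal_ideal hb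
    exact Ideal.jacobson_eq_self_of_isMaximal

/-- a field which is a finitely generated ring is finite -/
theorem dxp1_fin (k : Type) [Field k] [Algebra.FiniteType ℤ k] : Finite k := by
  haveI := dxp1_jac
  haveI h1 : Module.Finite ℤ k := finite_of_finite_type_of_isJacobsonRing ℤ k
  rcases CharP.exists' k with h0 | ⟨p, hp, hpc⟩
  · exfalso
    haveI : Algebra.IsIntegral ℤ k := Algebra.IsIntegral.of_finite ℤ k
    exact Int.not_isField (isField_of_isIntegral_of_isField
      (algebraMap ℤ k).injective_int (Field.toIsField k))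
  · haveI := hp
    haveI := hpc
    letI := ZMod.algebra k p
    haveI : IsScalarTower ℤ (ZMod p) k := by
      refine IsScalarTower.of_algebraMap_eq (fun x => ?_)
      simp
    haveI : Module.Finite (ZMod p) k := Module.Finite.of_restrictScalars_finite ℤ (ZMod p) k
    exact Module.finite_of_finite (ZMod p)

/-- residue fields of a finitely generated principal ideal domain are finite (a field which is a
finitely generated ring is finite) -/
theorem fin_res (O : Type) [CommRing O] [IsDomain O] [IsPrincipalIdealRing O]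
    [Algebra.FiniteType ℤ O] (q : O) (hq : Prime q) : Finite (O ⧸ Ideal.span {q}) := by
  haveI hmax : (Ideal.span {q}).IsMaximal :=
    PrincipalIdealRing.isMaximal_of_irreducible hq.irreducible
  have hft : Algebra.FiniteType ℤ (O ⧸ Ideal.span {q}) :=
    Algebra.FiniteType.of_surjective (Ideal.Quotient.mk (Ideal.span {q})).toIntAlgHom
      Ideal.Quotient.mk_surjective
  exact @dxp1_fin (O ⧸ Ideal.span {q}) (Ideal.Quotient.field _) hft

/-- localizations of principal ideal rings are principal ideal rings -/
theorem dxp1_pir {L₁ L₂ : Type} [CommRing L₁] [CommRing L₂] [IsPrincipalIdealRing L₁]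
    (φ : L₁ →+* L₂) (h : ∀ z : L₂, ∃ (w : L₁) (u : L₂), IsUnit u ∧ u * z = φ w) :
    IsPrincipalIdealRing L₂ := by
  refine ⟨fun J => ?_⟩
  obtain ⟨y, hy⟩ := (IsPrincipalIdealRing.principal (J.comap φ)).principal
  refine ⟨φ y, le_antisymm ?_ ?_⟩
  · intro z hz
    obtain ⟨w, u, ⟨u', rfl⟩, hu⟩ := h z
    have h1 : w ∈ J.comap φ := by
      rw [Ideal.mem_comap, ← hu]
      exact J.mul_mem_left _ hz
    rw [hy] at h1
    obtain ⟨c, hc⟩ := Submodule.mem_span_singleton.1 h1
    refine Submodule.mem_span_singleton.2 ⟨((u'⁻¹ : L₂ˣ) : L₂) * φ c, ?_⟩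
    rw [smul_eq_mul, mul_assoc, ← map_mul, ← smul_eq_mul (a := c), hc, ← hu, ← mul_assoc,
      Units.inv_mul, one_mul]
  · rw [Submodule.span_le, Set.singleton_subset_iff]
    have h1 : y ∈ J.comap φ := by
      rw [hy]
      exact Submodule.mem_span_singleton_self y
    exact h1

/-- `O` a domain, finite over `R`: `exists_pid` gives `x ∈ O`; `x` divides a nonzero element of `R` since `O` is integral;
localizations of principal ideal domains are principal ideal domains -/
theorem DXP1 {R : Type} [CommRing R] [IsDomain R] [Algebra.FiniteType ℤ R]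
    (hK : KroneckerLeOne (FractionRing R)) {O : Type} [CommRing O] [IsDomain O] [Algebra R O]
    [Module.Finite R O] [FaithfulSMul R O] :
    ∃ r : R, r ≠ 0 ∧ ∀ r' : R, r' ≠ 0 → r ∣ r' →
      IsPrincipalIdealRing (Localization.Away (algebraMap R O r')) := by
  haveI : Algebra.IsIntegral R O := Algebra.IsIntegral.of_finite R O
  haveI : Algebra.FiniteType ℤ O := Algebra.FiniteType.trans (S := R) inferInstance inferInstance
  have hinj : Function.Injective (algebraMap R O) := FaithfulSMul.algebraMap_injective R O
  have hinj' : Function.Injective (algebraMap R (FractionRing O)) := by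
    rw [IsScalarTower.algebraMap_eq R O (FractionRing O)]
    exact (IsFractionRing.injective O (FractionRing O)).comp hinj
  haveI : FaithfulSMul R (FractionRing O) := (faithfulSMul_iff_algebraMap_injective _ _).2 hinj'
  letI := FractionRing.liftAlgebra R (FractionRing O)
  haveI : IsScalarTower R (FractionRing R) (FractionRing O) :=
    FractionRing.isScalarTower_liftAlgebra R (FractionRing O)
  haveI : Algebra.IsAlgebraic R O := inferInstance
  haveI : Algebra.IsAlgebraic O (FractionRing O) :=
    (IsFractionRing.comap_isAlgebraic_iff (A := O) (K := FractionRing O)).2 inferInstance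
  haveI : Algebra.IsAlgebraic R (FractionRing O) := Algebra.IsAlgebraic.trans R O (FractionRing O)
  haveI : Algebra.IsAlgebraic (FractionRing R) (FractionRing O) :=
    (IsFractionRing.comap_isAlgebraic_iff (A := R) (K := FractionRing R)).1 inferInstance
  obtain ⟨x, hx, hpid⟩ := exists_pid O (FractionRing O) (KLA hK)
  obtain ⟨r, hr, hd⟩ := (Algebra.IsIntegral.isIntegral (R := R) x).isAlgebraic.exists_nonzero_dvd
    (mem_nonZeroDivisors_of_ne_zero hx)
  refine ⟨r, hr, ?_⟩
  intro r' hr' hrr
  have hxa : x ∣ algebraMap R O r' := hd.trans (map_dvd _ hrr)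
  have hu : IsUnit (algebraMap O (Localization.Away (algebraMap R O r')) x) :=
    isUnit_of_dvd_unit (map_dvd _ hxa)
      (IsLocalization.Away.algebraMap_isUnit (algebraMap R O r'))
  refine dxp1_pir (IsLocalization.Away.lift x hu : Localization.Away x →+* _) ?_
  intro z
  obtain ⟨⟨u, s⟩, hs⟩ := IsLocalization.surj (Submonoid.powers (algebraMap R O r')) z
  refine ⟨algebraMap O _ u, algebraMap O _ s, IsLocalization.map_units _ s, ?_⟩
  rw [IsLocalization.Away.lift_eq, mul_comm]
  exact hs

/-- the natural map -/
private noncomputable def dxp1_map {R : Type} (R' : Type) [CommRing R] [CommRing R'] [Algebra R R']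
    (Q : R[X]) : AdjoinRoot Q →+* AdjoinRoot (Q.map (algebraMap R R')) :=
  AdjoinRoot.lift ((AdjoinRoot.of (Q.map (algebraMap R R'))).comp (algebraMap R R'))
    (AdjoinRoot.root (Q.map (algebraMap R R'))) (by
      rw [← Polynomial.eval₂_map]
      exact AdjoinRoot.eval₂_root _)

private theorem dxp1_map_mk {R : Type} (R' : Type) [CommRing R] [CommRing R'] [Algebra R R']
    (Q f : R[X]) : dxp1_map R' Q (AdjoinRoot.mk Q f) =
      AdjoinRoot.mk (Q.map (algebraMap R R')) (f.map (algebraMap R R')) := by
  unfold dxp1_map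
  rw [AdjoinRoot.lift_mk, ← Polynomial.eval₂_map, ← AdjoinRoot.aeval_eq, Polynomial.aeval_def]
  rfl

/-- `AdjoinRoot` of the image of a monic polynomial over a localization `R'` of `R` is the
localization of `AdjoinRoot Q` -/
theorem DXP2 {R R' : Type} [CommRing R] [CommRing R'] [Algebra R R'] (r : R)
    [IsLocalization.Away r R'] (Q : R[X]) (hQ : Q.Monic) :
    Nonempty (AdjoinRoot (Q.map (algebraMap R R')) ≃+*
      Localization.Away (AdjoinRoot.of Q r)) := by
  letI := (dxp1_map R' Q).toAlgebra
  letI : Algebra R[X] R'[X] := Polynomial.algebra R R'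
  have h0 : algebraMap R[X] R'[X] = mapRingHom (algebraMap R R') := rfl
  have h1 : IsLocalization ((Submonoid.powers r).map (C : R →+* R[X])) R'[X] :=
    Polynomial.isLocalization (Submonoid.powers r) R'
  have h2 := IsLocalization.of_surjective ((Submonoid.powers r).map (C : R →+* R[X])) R'[X]
    (AdjoinRoot.mk Q) AdjoinRoot.mk_surjective (AdjoinRoot.mk (Q.map (algebraMap R R')))
    AdjoinRoot.mk_surjective (by
      refine RingHom.ext fun f => ?_
      rw [RingHom.comp_apply, RingHom.comp_apply, h0]
      exact (dxp1_map_mk R' Q f).symm) (by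
      have e1 : RingHom.ker (AdjoinRoot.mk (Q.map (algebraMap R R'))) =
        Ideal.span {Q.map (algebraMap R R')} := Ideal.mk_ker
      have e2 : RingHom.ker (AdjoinRoot.mk Q) = Ideal.span {Q} := Ideal.mk_ker
      rw [e1, e2, Ideal.map_span, Set.image_singleton, h0]
      exact le_refl _)
  have h3 : ((Submonoid.powers r).map (C : R →+* R[X])).map (AdjoinRoot.mk Q) =
      Submonoid.powers (AdjoinRoot.of Q r) := by
    rw [Submonoid.map_powers, Submonoid.map_powers]
    rfl
  rw [h3] at h2
  exact ⟨(IsLocalization.algEquiv (Submonoid.powers (AdjoinRoot.of Q r))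
    (AdjoinRoot (Q.map (algebraMap R R'))) (Localization.Away (AdjoinRoot.of Q r))).toRingEquiv⟩

end Pool.Agent.QCB
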