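import Pool.Agent.QCB.Dat
import Pool.Agent.Helper67.Bass.Small

/-!
# QCB, module SQp: unit groups, function fields

Choose a separating transcendental `x` as in `Helper67/Bass/Small.lean` (`pid_charp`, `pid_curve`; if there is none `O` is
finite), `E = Frac O` finite separable over `𝔽_p(x)`, `O ⊆ O_x[1/r]`, `O_x` = integral closure of `𝔽_p[x]`. Map a unit to its
valuations at the primes of `O_x` dividing `r` and at the primes over `1/x` of the integral closure of `𝔽_p[1/x]`: the
kernel consists of elements integral over `𝔽_p[x]` and over the localization of `𝔽_p[1/x]` at `1/x`; their minimal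
polynomial over `𝔽_p(x)` has coefficients in `𝔽_p`, so they are roots of finitely many polynomials of degree at most
`[E : 𝔽_p(x)]`: the kernel is finite.
-/

set_option autoImplicit false

namespace Pool.Agent.QCB

open Polynomial

open IsDedekindDomain

section aux

/-- a group with a homomorphism with finite kernel to a finitely generated abelian group -/
private theorem SQp_fg (G : Type) [CommGroup G] (M : Type) [AddCommGroup M] [Module.Finite ℤ M]
    (φ : Additive G →+ M) (h : Finite φ.ker) : Group.FG G := by
  have h1 : Module.Finite ℤ (Additive G) := by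
    rw [Module.finite_def]
    refine Submodule.fg_of_fg_map_of_fg_inf_ker φ.toIntLinearMap ?_ ?_
    · exact IsNoetherian.noetherian _
    · have h2 : Finite (LinearMap.ker φ.toIntLinearMap) := h
      rw [top_inf_eq]
      exact Module.Finite.iff_fg.1 (Module.Finite.of_finite)
  have h2 : AddGroup.FG (Additive G) := Module.Finite.iff_addGroup_fg.1 h1
  exact GroupFG.iff_add_fg.2 h2

private theorem SQp_D (p : ℕ) [Fact p.Prime] (E : Type) [Field E] [Algebra (ZMod p) E]
    [Algebra.EssFiniteType (ZMod p) E] (x : E) (hx : Transcendental (ZMod p) x)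
    (hsep : Algebra.IsSeparable (IntermediateField.adjoin (ZMod p) {x}) E) :
    ∃ (D : Type) (_ : CommRing D) (_ : IsDedekindDomain D) (_ : Algebra D E)
      (_ : IsFractionRing D E), (∀ b : (ZMod p)[X], ∃ t : D, algebraMap D E t = aeval x b) ∧
      (∀ V : ValuationSubring E, x ∈ V → ∀ d : D, algebraMap D E d ∈ V) ∧
      ∀ z : E, ∃ b : (ZMod p)[X], b ≠ 0 ∧ ∃ d : D, algebraMap D E d = aeval x b * z := by
  set L := IntermediateField.adjoin (ZMod p) ({x} : Set E) with hL
  let g : L := IntermediateField.AdjoinSimple.gen (ZMod p) x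
  let i1 : Algebra (ZMod p)[X] L := (Polynomial.aeval (R := ZMod p) g).toAlgebra
  let i2 : Algebra (ZMod p)[X] E := (Polynomial.aeval (R := ZMod p) x).toAlgebra
  have : IsScalarTower (ZMod p)[X] L E := by
    apply IsScalarTower.of_algebraMap_eq
    intro f
    show Polynomial.aeval x f = algebraMap L E (Polynomial.aeval g f)
    rw [← Polynomial.aeval_algebraMap_apply]
    rfl
  have hinj : Function.Injective (algebraMap (ZMod p)[X] E) := transcendental_iff_injective.1 hx
  have : FaithfulSMul (ZMod p)[X] L := by
    rw [faithfulSMul_iff_algebraMap_injective]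
    intro f f' hff
    apply hinj
    have := congrArg (algebraMap L E) hff
    rw [← IsScalarTower.algebraMap_apply, ← IsScalarTower.algebraMap_apply] at this
    exact this
  have : IsFractionRing (ZMod p)[X] L := by
    apply IsFractionRing.of_field
    intro z
    obtain ⟨r, s, h⟩ := (IntermediateField.mem_adjoin_simple_iff (ZMod p) (z : E)).1 z.2
    refine ⟨r, s, ?_⟩
    apply (algebraMap L E).injective
    rw [map_div₀, ← IsScalarTower.algebraMap_apply, ← IsScalarTower.algebraMap_apply]
    exact h
  have : Algebra.EssFiniteType L E := Algebra.EssFiniteType.of_comp (ZMod p) L E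
  have : FiniteDimensional L E := Pool.Agent.Helper67.Bass.finite_of_ess L E
  let D := integralClosure (ZMod p)[X] E
  have : IsDedekindDomain D := IsIntegralClosure.isDedekindDomain (ZMod p)[X] L E D
  have : IsFractionRing D E := integralClosure.isFractionRing_of_finite_extension L E
  refine ⟨D, inferInstance, inferInstance, inferInstance, inferInstance, fun b =>
    ⟨algebraMap (ZMod p)[X] D b, rfl⟩, ?_, ?_⟩
  · intro V hV d
    have hcl : IsIntegrallyClosed V := inferInstance
    have hb : ∀ b : (ZMod p)[X], algebraMap (ZMod p)[X] E b ∈ V := by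
      intro b
      show Polynomial.aeval x b ∈ V
      rw [Polynomial.aeval_eq_sum_range]
      refine V.toSubring.sum_mem fun i _ => ?_
      rw [Algebra.smul_def]
      refine V.mul_mem _ _ ?_ (pow_mem hV i)
      have h1 : algebraMap (ZMod p) E (b.coeff i) = (((b.coeff i).val : ℕ) : E) := by
        conv_lhs => rw [← ZMod.natCast_zmod_val (b.coeff i)]
        rw [map_natCast]
      rw [h1]
      exact natCast_mem V _
    let ψ : (ZMod p)[X] →+* V := (algebraMap (ZMod p)[X] E).codRestrict V.toSubring hb
    obtain ⟨f, hf, hf0⟩ := d.2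
    have h2 : IsIntegral V (d : E) := by
      refine ⟨f.map ψ, hf.map ψ, ?_⟩
      rw [Polynomial.eval₂_map]
      exact hf0
    obtain ⟨w, hw⟩ := IsIntegrallyClosed.isIntegral_iff.1 h2
    have h3 : (w : E) = (d : E) := hw
    show (d : E) ∈ V
    rw [← h3]
    exact w.2
  · intro z
    have h1 : IsAlgebraic (ZMod p)[X] z :=
      (IsFractionRing.isAlgebraic_iff (ZMod p)[X] L E).2 (Algebra.IsAlgebraic.isAlgebraic z)
    obtain ⟨b, hb, hz⟩ := h1.exists_integral_multiple
    refine ⟨b, hb, ⟨b • z, hz⟩, ?_⟩
    show b • z = Polynomial.aeval x b * z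
    rw [Algebra.smul_def]
    rfl

/-- the order at a prime of a Dedekind domain as a homomorphism on the units -/
private noncomputable def SQp_ord {O E D : Type} [CommRing O] [Field E] [Algebra O E]
    [FaithfulSMul O E]
    [CommRing D] [IsDedekindDomain D] [Algebra D E] [IsFractionRing D E]
    (P : HeightOneSpectrum D) : Additive Oˣ →+ ℤ where
  toFun u := WithZero.log (P.valuation E (algebraMap O E (u.toMul : Oˣ)))
  map_zero' := by simp
  map_add' u v := by
    have hu : ∀ w : Oˣ, P.valuation E (algebraMap O E (w : O)) ≠ 0 := by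
      intro w
      have h1 : IsUnit (algebraMap O E (w : O)) := w.isUnit.map _
      rw [(P.valuation E).ne_zero_iff]
      exact h1.ne_zero
    rw [toMul_add, Units.val_mul, map_mul, map_mul, WithZero.log_mul (hu _) (hu _)]

private theorem SQp_ord_eq {O E D : Type} [CommRing O] [Field E] [Algebra O E]
    [FaithfulSMul O E]
    [CommRing D] [IsDedekindDomain D] [Algebra D E] [IsFractionRing D E]
    (P : HeightOneSpectrum D) (u : Oˣ) (h : SQp_ord (E := E) P (Additive.ofMul u) = 0) :
    P.valuation E (algebraMap O E (u : O)) = 1 := by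
  have h1 : WithZero.log (P.valuation E (algebraMap O E (u : O))) = 0 := h
  have h2 : P.valuation E (algebraMap O E (u : O)) ≠ 0 := by
    have h1 : IsUnit (algebraMap O E (u : O)) := u.isUnit.map _
    rw [(P.valuation E).ne_zero_iff]
    exact h1.ne_zero
  rw [← WithZero.exp_log h2, h1]
  rfl

private theorem SQp_lift (p : ℕ) [Fact p.Prime] (E : Type) [Field E] [Algebra (ZMod p) E] (z : E)
    (h : ∀ V : ValuationSubring E, z ∈ V) : IsIntegral (ZMod p) z := by
  have h1 : z ∈ (⨅ V : {V : ValuationSubring E // (∅ : Set E) ⊆ V.toSubring}, V.1.toSubring) := by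
    rw [Subring.mem_iInf]
    exact fun V => h V.1
  rw [iInf_valuationSubring_superset] at h1
  obtain ⟨f, hf, hf0⟩ := (h1 : IsIntegral (Subring.closure (∅ : Set E)) z)
  have hcl : Subring.closure (∅ : Set E) ≤ (algebraMap (ZMod p) E).range :=
    Subring.closure_le.2 (Set.empty_subset _)
  set F := f.map (algebraMap (Subring.closure (∅ : Set E)) E) with hF
  have hFl : F ∈ Polynomial.lifts (algebraMap (ZMod p) E) := by
    rw [Polynomial.lifts_iff_coeff_lifts]
    intro n
    rw [hF, Polynomial.coeff_map]
    exact hcl (f.coeff n).2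
  obtain ⟨q, hq, -, hqm⟩ := Polynomial.lifts_and_natDegree_eq_and_monic hFl (hf.map _)
  refine ⟨q, hqm, ?_⟩
  rw [← Polynomial.eval_map, hq, hF, Polynomial.eval_map]
  exact hf0

private theorem SQp_curve (p : ℕ) [Fact p.Prime] (O : Type) [CommRing O] [IsDomain O]
    [Algebra.FiniteType ℤ O] [CharP O p]
    (E : Type) [Field E] [Algebra O E] [IsFractionRing O E] [Algebra (ZMod p) E]
    [Algebra.EssFiniteType (ZMod p) E] (x : E) (hx : Transcendental (ZMod p) x)
    (hsep : Algebra.IsSeparable (IntermediateField.adjoin (ZMod p) {x}) E) :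
    Group.FG Oˣ := by
  classical
  obtain ⟨D1, i1, i2, i3, i4, -, hV1, -⟩ := SQp_D p E x hx hsep
  set y : E := x⁻¹ with hy
  have hty : Transcendental (ZMod p) y := fun h => hx (by simpa [hy] using h.inv)
  have hadj : IntermediateField.adjoin (ZMod p) ({y} : Set E) =
      IntermediateField.adjoin (ZMod p) {x} := by
    apply le_antisymm
    · rw [IntermediateField.adjoin_simple_le_iff]
      exact inv_mem (IntermediateField.mem_adjoin_simple_self _ _)
    · rw [IntermediateField.adjoin_simple_le_iff]
      have := inv_mem (IntermediateField.mem_adjoin_simple_self (ZMod p) y)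
      rwa [hy, inv_inv] at this
  have hsep' : Algebra.IsSeparable (IntermediateField.adjoin (ZMod p) {y}) E := by
    rw [hadj]
    exact hsep
  obtain ⟨D2, j1, j2, j3, j4, hD2, hV2, hb2⟩ := SQp_D p E y hty hsep'
  have hx0 : x ≠ 0 := by
    rintro rfl
    exact hx isAlgebraic_zero
  -- the primes
  obtain ⟨gs, hgs⟩ := (Algebra.FiniteType.out : (⊤ : Subalgebra ℤ O).FG)
  set S1 : Set (HeightOneSpectrum D1) :=
    ⋃ g ∈ gs, HeightOneSpectrum.Support D1 (algebraMap O E g) with hS1d
  have hS1 : S1.Finite :=
    Set.Finite.biUnion gs.finite_toSet fun g _ => HeightOneSpectrum.Support.finite D1 _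
  set S2 : Set (HeightOneSpectrum D2) := HeightOneSpectrum.Support D2 x with hS2d
  have hS2 : S2.Finite := HeightOneSpectrum.Support.finite D2 _
  have hf1 : Fintype S1 := hS1.fintype
  have hf2 : Fintype S2 := hS2.fintype
  have hO1 : ∀ P : HeightOneSpectrum D1, P ∉ S1 → ∀ o : O,
      P.valuation E (algebraMap O E o) ≤ 1 := by
    intro P hP o
    have h1 : (⊤ : Subalgebra ℤ O) ≤
        subalgebraOfSubring ((P.valuation E).integer.comap (algebraMap O E)) := by
      rw [← hgs, Algebra.adjoin_le_iff]
      intro g hg
      show P.valuation E (algebraMap O E g) ≤ 1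
      by_contra hcon
      apply hP
      rw [hS1d, Set.mem_iUnion₂]
      exact ⟨g, hg, not_le.1 hcon⟩
    exact h1 (Algebra.mem_top : o ∈ (⊤ : Subalgebra ℤ O))
  have hfs : FaithfulSMul O E := inferInstance
  let φ : Additive Oˣ →+ (S1 → ℤ) × (S2 → ℤ) :=
    (AddMonoidHom.pi fun P : S1 => SQp_ord (E := E) P.1).prod
      (AddMonoidHom.pi fun P : S2 => SQp_ord (E := E) P.1)
  have halgO : Algebra (ZMod p) O := ZMod.algebra O p
  refine SQp_fg Oˣ _ φ ?_
  -- elements of the kernel are algebraic
  have hker : ∀ u : Oˣ, Additive.ofMul u ∈ φ.ker → IsIntegral (ZMod p) (u : O) := by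
    intro u hu
    have hu1 : ∀ P ∈ S1, P.valuation E (algebraMap O E (u : O)) = 1 := by
      intro P hP
      refine SQp_ord_eq P u ?_
      have h1 := congrArg (fun z : (S1 → ℤ) × (S2 → ℤ) => z.1 ⟨P, hP⟩) (AddMonoidHom.mem_ker.1 hu)
      exact h1
    have hu2 : ∀ P ∈ S2, P.valuation E (algebraMap O E (u : O)) = 1 := by
      intro P hP
      refine SQp_ord_eq P u ?_
      have h1 := congrArg (fun z : (S1 → ℤ) × (S2 → ℤ) => z.2 ⟨P, hP⟩) (AddMonoidHom.mem_ker.1 hu)
      exact h1
    set z : E := algebraMap O E (u : O) with hz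
    have hzD1 : z ∈ (algebraMap D1 E).range := by
      refine HeightOneSpectrum.mem_integers_of_valuation_le_one E z fun P => ?_
      by_cases hP : P ∈ S1
      · exact (hu1 P hP).le
      · exact hO1 P hP _
    obtain ⟨d1, hd1⟩ := hzD1
    -- clearing denominators prime to `y`
    have hle : ∀ (P : HeightOneSpectrum D2) (b : (ZMod p)[X]),
        P.valuation E (aeval y b) ≤ 1 := by
      intro P b
      obtain ⟨t, ht⟩ := hD2 b
      rw [← ht]
      exact P.valuation_le_one t
    have hb' : ∀ n : ℕ, ∀ b : (ZMod p)[X], b.natDegree ≤ n → b ≠ 0 →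
        (∃ d : D2, algebraMap D2 E d = aeval y b * z) →
        ∃ b' : (ZMod p)[X], b'.coeff 0 ≠ 0 ∧ ∃ d : D2, algebraMap D2 E d = aeval y b' * z := by
      intro n
      induction n with
      | zero =>
        intro b hbn hb0 hd
        refine ⟨b, ?_, hd⟩
        intro h0
        apply hb0
        rw [Polynomial.eq_C_of_natDegree_le_zero hbn, h0, map_zero]
      | succ n ih =>
        intro b hbn hb0 hd
        by_cases h0 : b.coeff 0 = 0
        · have hbX : b.divX * X = b := by
            have h1 := Polynomial.divX_mul_X_add b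
            rw [h0, map_zero, add_zero] at h1
            exact h1
          have hdx : b.divX ≠ 0 := by
            intro h
            apply hb0
            rw [← hbX, h, zero_mul]
          refine ih b.divX ?_ hdx ?_
          · rw [Polynomial.natDegree_divX_eq_natDegree_tsub_one]
            omega
          · obtain ⟨d, hd⟩ := hd
            have hd' : algebraMap D2 E d = y * (aeval y b.divX * z) := by
              rw [hd]
              conv_lhs => rw [← hbX]
              rw [map_mul, aeval_X]
              ring
            have h2 := HeightOneSpectrum.mem_integers_of_valuation_le_one (R := D2) E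
              (aeval y b.divX * z) (by
                intro P
                by_cases hP : P ∈ S2
                · rw [map_mul, hu2 P hP, mul_one]
                  exact hle P _
                · have hPx : P.valuation E x ≤ 1 := not_lt.1 hP
                  have hPy : P.valuation E y ≤ 1 := by
                    have := hle P X
                    rwa [aeval_X] at this
                  have hxy : P.valuation E x * P.valuation E y = 1 := by
                    rw [← map_mul, hy, mul_inv_cancel₀ hx0, map_one]
                  have hPy1 : P.valuation E y = 1 := by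
                    refine le_antisymm hPy ?_
                    rw [← hxy]
                    exact mul_le_of_le_one_left' hPx
                  have h3 : P.valuation E (algebraMap D2 E d) ≤ 1 := P.valuation_le_one d
                  rw [hd', map_mul, hPy1, one_mul] at h3
                  exact h3)
            exact h2
        · exact ⟨b, h0, hd⟩
    obtain ⟨b0, hb0, hd0⟩ := hb2 z
    obtain ⟨b, hb, d, hd⟩ := hb' _ b0 le_rfl hb0 hd0
    have hz1 : IsIntegral (ZMod p) z := by
      refine SQp_lift p E z fun V => ?_
      by_cases hxV : x ∈ V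
      · rw [← hd1]
        exact hV1 V hxV d1
      · have hyV : y ∈ V := (V.mem_or_inv_mem x).resolve_left hxV
        have hdV : aeval y b * z ∈ V := by
          rw [← hd]
          exact hV2 V hyV d
        -- `b(y)` is a unit of `V`
        have hvy : V.valuation y < 1 := by
          refine lt_of_le_of_ne ((V.valuation_le_one_iff y).2 hyV) fun h => hxV ?_
          rw [← V.valuation_le_one_iff]
          have h1 : V.valuation x * V.valuation y = 1 := by
            rw [← map_mul, hy, mul_inv_cancel₀ hx0, map_one]
          rw [h, mul_one] at h1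
          exact h1.le
        have hc : V.valuation (algebraMap (ZMod p) E (b.coeff 0)) = 1 := by
          have h1 : ∀ c : ZMod p, V.valuation (algebraMap (ZMod p) E c) ≤ 1 := by
            intro c
            rw [V.valuation_le_one_iff]
            have h1 : algebraMap (ZMod p) E c = ((c.val : ℕ) : E) := by
              conv_lhs => rw [← ZMod.natCast_zmod_val c]
              rw [map_natCast]
            rw [h1]
            exact natCast_mem V _
          refine le_antisymm (h1 _) ?_
          have h2 : V.valuation (algebraMap (ZMod p) E (b.coeff 0)) *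
              V.valuation (algebraMap (ZMod p) E (b.coeff 0)⁻¹) = 1 := by
            rw [← map_mul, ← map_mul, mul_inv_cancel₀ hb, map_one, map_one]
          rw [← h2]
          exact mul_le_of_le_one_right' (h1 _)
        have hby : V.valuation (aeval y b) = 1 := by
          have h1 : aeval y b = aeval y b.divX * y + algebraMap (ZMod p) E (b.coeff 0) := by
            conv_lhs => rw [← Polynomial.divX_mul_X_add b]
            rw [map_add, map_mul, aeval_X, aeval_C]
          have h2 : V.valuation (aeval y b.divX * y) < 1 := by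
            rw [map_mul]
            have h3 : V.valuation (aeval y b.divX) ≤ 1 := by
              rw [V.valuation_le_one_iff]
              obtain ⟨t, ht⟩ := hD2 b.divX
              rw [← ht]
              exact hV2 V hyV t
            exact mul_lt_one_of_nonneg_of_lt_one_right h3 zero_le hvy
          rw [h1, Valuation.map_add_eq_of_lt_right _ (by rw [hc]; exact h2), hc]
        rw [← V.valuation_le_one_iff] at hdV ⊢
        rwa [map_mul, hby, one_mul] at hdV
    have htow : IsScalarTower (ZMod p) O E := by
      refine IsScalarTower.of_algebraMap_eq' ?_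
      exact Subsingleton.elim _ _
    exact (isIntegral_algebraMap_iff (IsFractionRing.injective O E)).1 hz1
  -- the kernel embeds in a residue field
  obtain ⟨m, hm⟩ := Ideal.exists_maximal O
  have hfin : Finite (O ⧸ m) := by
    let _ : Field (O ⧸ m) := Ideal.Quotient.field m
    have h1 : Algebra.FiniteType ℤ (O ⧸ m) := inferInstance
    have h2 : Algebra.FiniteType (ZMod p) (O ⧸ m) :=
      Algebra.FiniteType.of_restrictScalars_finiteType ℤ (ZMod p) (O ⧸ m)
    have h3 : Module.Finite (ZMod p) (O ⧸ m) :=
      finite_of_finite_type_of_isJacobsonRing (ZMod p) (O ⧸ m)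
    exact Module.finite_of_finite (ZMod p)
  refine Finite.of_injective (fun u : φ.ker => Ideal.Quotient.mk m ((u.1.toMul : Oˣ) : O)) ?_
  intro u v huv
  have h1 : ((u.1.toMul : Oˣ) : O) - ((v.1.toMul : Oˣ) : O) ∈ m := (Ideal.Quotient.eq).1 huv
  set w : Oˣ := (u.1.toMul : Oˣ) * (v.1.toMul : Oˣ)⁻¹ with hw
  have hwk : Additive.ofMul w ∈ φ.ker := by
    have h2 : Additive.ofMul w = u.1 - v.1 := by
      rw [hw, ofMul_mul, ofMul_inv, ofMul_toMul, ofMul_toMul, sub_eq_add_neg]
    rw [h2]
    exact φ.ker.sub_mem u.2 v.2
  have h3 : IsIntegral (ZMod p) ((w : O) - 1) := (hker w hwk).sub isIntegral_one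
  have h4 : (w : O) - 1 ∈ m := by
    have h5 : (w : O) - 1 = (((u.1.toMul : Oˣ) : O) - ((v.1.toMul : Oˣ) : O)) *
        (((v.1.toMul : Oˣ)⁻¹ : Oˣ) : O) := by
      rw [hw, Units.val_mul, sub_mul, Units.mul_inv]
    rw [h5]
    exact m.mul_mem_right _ h1
  have h5 : (w : O) - 1 = 0 := by
    by_contra hne
    exact hm.ne_top (Ideal.eq_top_of_isUnit_mem m h4 (h3.isUnit hne))
  have h6 : w = 1 := Units.ext (sub_eq_zero.1 h5)
  rw [hw, mul_inv_eq_one] at h6
  exact Subtype.ext (Additive.toMul.injective h6)

end aux

private theorem SQp_main (p : ℕ) [Fact p.Prime] (O : Type) [CommRing O] [IsDomain O]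
    [Algebra.FiniteType ℤ O] (hp : (p : O) = 0) (K : Type) [Field K] [Algebra O K]
    [IsFractionRing O K] (h : Pool.Agent.Helper67.Bass.KroneckerLeOne K) : Group.FG Oˣ := by
  have hpp : p.Prime := Fact.out
  have hpK : (p : K) = 0 := by
    have h1 := congrArg (algebraMap O K) hp
    rwa [map_natCast, map_zero] at h1
  have hcK : CharP K p := by
    have h1 : ringChar K ∣ p := ringChar.dvd hpK
    rcases (Nat.dvd_prime hpp).1 h1 with h2 | h2
    · exact absurd h2 (CharP.ringChar_ne_one (R := K))
    · exact ringChar.of_eq h2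
  have hcO : CharP O p := by
    have h1 : ringChar O ∣ p := ringChar.dvd hp
    rcases (Nat.dvd_prime hpp).1 h1 with h2 | h2
    · exact absurd h2 (CharP.ringChar_ne_one (R := O))
    · exact ringChar.of_eq h2
  have hrel : ∀ x y : K, ∃ F : MvPolynomial (Fin 2) ℤ,
      ¬ (MvPolynomial.C (p : ℤ) ∣ F) ∧ MvPolynomial.aeval ![x, y] F = 0 := by
    rcases h with h | ⟨p', hp', hp0, h⟩
    · intro x y
      obtain ⟨f, hf, hfx⟩ := h x
      refine ⟨Polynomial.aeval (MvPolynomial.X 0 : MvPolynomial (Fin 2) ℤ) f, ?_, ?_⟩
      · intro hdvd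
        obtain ⟨g, hg⟩ := hdvd
        have h1 := congrArg (MvPolynomial.aeval (R := ℤ)
          (![Polynomial.X, 0] : Fin 2 → ℤ[X])) hg
        rw [← Polynomial.aeval_algHom_apply, MvPolynomial.aeval_X, map_mul,
          MvPolynomial.aeval_C] at h1
        simp only [Matrix.cons_val_zero, Polynomial.aeval_X_left_apply] at h1
        have h2 := hf (p : ℤ) ⟨_, h1⟩
        have h3 := Int.isUnit_iff.1 h2
        have h4 := hpp.two_le
        omega
      · rw [← Polynomial.aeval_algHom_apply, MvPolynomial.aeval_X]
        exact hfx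
    · have h1 : p ∣ p' := (CharP.cast_eq_zero_iff K p p').1 hp0
      have h2 : p = p' := (Nat.prime_dvd_prime_iff_eq hpp hp').1 h1
      rw [h2]
      exact h
  let _ : Algebra (ZMod p) K := ZMod.algebra K p
  have hess := Pool.Agent.Helper67.Bass.ess_int O K
  have hess' : Algebra.EssFiniteType (ZMod p) K := Algebra.EssFiniteType.of_comp ℤ (ZMod p) K
  obtain ⟨s, hs, hsep⟩ := exists_isTranscendenceBasis_and_isSeparable_of_perfectField (ZMod p) K
  have hsub : ∀ x ∈ s, ∀ y ∈ s, x = y := by
    intro x hx y hy
    by_contra hxy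
    obtain ⟨F, hF, hF0⟩ := hrel x y
    have h1 := hs.1.comp (![⟨x, hx⟩, ⟨y, hy⟩] : Fin 2 → s) (by
        intro i j hij
        fin_cases i <;> fin_cases j <;> simp at hij ⊢
        · exact hxy hij
        · exact hxy hij.symm)
    have h2 : (Subtype.val ∘ (![⟨x, hx⟩, ⟨y, hy⟩] : Fin 2 → s)) = ![x, y] := by
      ext i
      fin_cases i <;> rfl
    rw [h2] at h1
    have hind : AlgebraicIndependent (ZMod p) ![x, y] := h1
    apply hF
    rw [MvPolynomial.C_dvd_iff_map_hom_eq_zero (Int.castRingHom (ZMod p)) (p : ℤ)]
    · apply hind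
      rw [map_zero, ← hF0, MvPolynomial.aeval_def, MvPolynomial.aeval_def,
        MvPolynomial.eval₂_map]
      congr 1
      exact RingHom.ext_int _ _
    · intro a
      rw [eq_intCast]
      exact ZMod.intCast_zmod_eq_zero_iff_dvd a p
  by_cases hse : s = ∅
  · subst hse
    have halg : Algebra.IsAlgebraic (ZMod p) K := by
      have h1 : IntermediateField.adjoin (ZMod p) (((∅ : Finset K) : Set K)) = ⊥ := by simp
      rw [h1] at hsep
      have h2 : Algebra.IsAlgebraic (⊥ : IntermediateField (ZMod p) K) K := inferInstance
      have h3 : Algebra.IsAlgebraic (ZMod p) (⊥ : IntermediateField (ZMod p) K) := inferInstance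
      exact Algebra.IsAlgebraic.trans (ZMod p) (⊥ : IntermediateField (ZMod p) K) K
    have hfd : FiniteDimensional (ZMod p) K :=
      Pool.Agent.Helper67.Bass.finite_of_ess (ZMod p) K
    have hfK : Finite K := Module.finite_of_finite (ZMod p)
    have hfO : Finite O := Finite.of_injective _ (IsFractionRing.injective O K)
    infer_instance
  · obtain ⟨x, hx⟩ := Finset.nonempty_iff_ne_empty.2 hse
    have hsx : (s : Set K) = {x} := by
      ext y
      simp only [Finset.mem_coe, Set.mem_singleton_iff]
      exact ⟨fun hy => hsub y hy x hx, fun hy => hy ▸ hx⟩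
    rw [hsx] at hsep
    have htr : Transcendental (ZMod p) x := hs.1.transcendental ⟨x, hx⟩
    exact SQp_curve p O K x htr hsep

theorem SQp (p : ℕ) [Fact p.Prime] (O : Type) [CommRing O] [IsDomain O] [Algebra.FiniteType ℤ O]
    (hp : (p : O) = 0) (h : Pool.Agent.Helper67.Bass.KroneckerLeOne (FractionRing O)) :
    Group.FG Oˣ := by
  exact SQp_main p O hp (FractionRing O) h

end Pool.Agent.QCB
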