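import Pool.Agent.QCB.SQ0
import Pool.Agent.QCB.SQp

/-!
# QCB, module SQF: unit groups modulo squares
-/

set_option autoImplicit false

namespace Pool.Agent.QCB

open Polynomial

theorem SQF (O : Type) [CommRing O] [IsDomain O] [Algebra.FiniteType ℤ O]
    (h : Pool.Agent.Helper67.Bass.KroneckerLeOne (FractionRing O)) : SqFin O := by
  obtain ⟨p, hp⟩ := CharP.exists O
  rcases CharP.char_is_prime_or_zero O p with h0 | h0
  · have : Fact p.Prime := ⟨h0⟩
    exact SqFin.of_fg O (SQp p O (CharP.cast_eq_zero O p) h)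
  · subst h0
    have h1 : CharZero O := CharP.charP_to_charZero O
    have h2 : CharZero (FractionRing O) :=
      charZero_of_injective_algebraMap (IsFractionRing.injective O (FractionRing O))
    refine SqFin.of_fg O (SQ0 O fun x => ?_)
    rcases h with h | ⟨q, hq, hq0, -⟩
    · obtain ⟨f, hf, hx⟩ := h x
      refine ⟨f, hf.ne_zero, ?_⟩
      have h3 : ∀ g₁ g₂ : ℤ →+* FractionRing O, eval₂ g₁ x f = 0 → eval₂ g₂ x f = 0 := by
        intro g₁ g₂ hg
        rwa [Subsingleton.elim g₂ g₁]
      exact h3 _ _ hx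
    · exact absurd (Nat.cast_eq_zero.1 hq0) hq.ne_zero

end Pool.Agent.QCB
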