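import Pool.Agent.QCB.DXP
import Pool.Agent.QCB.SQF

/-!
# QCB, module DXS: one half of the good data

Over `L = Frac R` write `a = lc * ∏ Q` with `Q` monic irreducible, distinct (squarefree); after inverting denominators and
`lc` all is over `R`. `b mod Q` is nonzero in a domain finite over `R`, so a unit after inverting an element of `R`; the same
for the other factors. `DXP`, `DXP3`, `SQF`, `fin_res` (all rings are finitely generated domains, and the fraction field of
`AdjoinRoot Q` is algebraic over `L`, so it has Kronecker dimension at most one).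
-/

set_option autoImplicit false

namespace Pool.Agent.QCB

open Quaternion QuaternionAlgebra Polynomial Pool.Agent.Helper67.Bass

/-- after shrinking the curve a quaternion order in a division algebra is a left principal ideal
ring (from the Jordan-Zassenhaus modules) -/
def LeftPID (R : Type) [CommRing R] [IsDomain R] : Prop :=
  ∀ a b : R, a ≠ 0 → b ≠ 0 → (∀ z : ℍ[R,a,b], nrm z = 0 → z = 0) →
    ∃ r : R, r ≠ 0 ∧ ∀ r' : R, r' ≠ 0 → r ∣ r' →
      IsPrincipalIdealRing ℍ[Localization.Away r', algebraMap R (Localization.Away r') a,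
        algebraMap R (Localization.Away r') b]

theorem DXS_sqfin {O O' : Type} [CommRing O] [CommRing O'] (e : O ≃+* O') (h : SqFin O) :
    SqFin O' := by
  classical
  obtain ⟨F, hF⟩ := h
  refine ⟨F.image (Units.mapEquiv e.toMulEquiv), fun u => ?_⟩
  obtain ⟨w, hw, v, hv⟩ := hF ((Units.mapEquiv e.toMulEquiv).symm u)
  refine ⟨Units.mapEquiv e.toMulEquiv w, Finset.mem_image_of_mem _ hw,
    Units.mapEquiv e.toMulEquiv v, ?_⟩
  rw [← map_pow, ← map_mul, ← hv, MulEquiv.apply_symm_apply]

theorem DXS_adj {O O' : Type} [CommRing O] [CommRing O'] (e : O ≃+* O') (Q : O[X]) :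
    ∃ e' : AdjoinRoot Q ≃+* AdjoinRoot (Q.map (e : O →+* O')), ∀ p : O[X],
      e' (AdjoinRoot.mk Q p) = AdjoinRoot.mk (Q.map (e : O →+* O')) (p.map (e : O →+* O')) := by
  refine ⟨AdjoinRoot.mapRingEquiv e Q _ (Associated.refl _), fun p => ?_⟩
  have : (AdjoinRoot.mapRingEquiv e Q (Q.map (e : O →+* O')) (Associated.refl _)).toRingHom.comp
      (AdjoinRoot.mk Q) = (AdjoinRoot.mk (Q.map (e : O →+* O'))).comp
      (Polynomial.mapRingHom (e : O →+* O')) := by
    apply Polynomial.ringHom_ext
    · intro a
      simp [AdjoinRoot.mapRingEquiv, AdjoinRoot.map]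
    · simp [AdjoinRoot.mapRingEquiv, AdjoinRoot.map]
  exact DFunLike.congr_fun this p

theorem DXS_fin {O O' : Type} [CommRing O] [CommRing O'] (e : O ≃+* O')
    (h : ∀ q : O, Prime q → Finite (O ⧸ Ideal.span {q})) (q : O') (hq : Prime q) :
    Finite (O' ⧸ Ideal.span {q}) := by
  have h1 : Prime (e.symm q) := (MulEquiv.prime_iff e.symm.toMulEquiv).2 hq
  have := h _ h1
  refine Finite.of_equiv _ (Ideal.quotientEquiv (Ideal.span {e.symm q}) (Ideal.span {q}) e
    ?_).toEquiv
  rw [Ideal.map_span]
  simp

theorem DXS_side {R R' : Type} [CommRing R] [CommRing R'] (e : R ≃+* R') (a b : R[X])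
    (h : Side a b) : Side (a.map (e : R →+* R')) (b.map (e : R →+* R')) := by
  classical
  obtain ⟨u, F, ha, hF⟩ := h
  have hinj : Function.Injective (Polynomial.map (e : R →+* R')) :=
    Polynomial.map_injective _ e.injective
  refine ⟨Units.mapEquiv e.toMulEquiv u, F.image (Polynomial.map (e : R →+* R')), ?_, ?_⟩
  · rw [Finset.prod_image hinj.injOn, ha, Polynomial.map_mul, Polynomial.map_prod, map_C]
    rfl
  · intro Q1 hQ1
    obtain ⟨Q, hQ, rfl⟩ := Finset.mem_image.1 hQ1
    obtain ⟨h1, h2, h3, h4, h5, h6, h7, h8⟩ := hF Q hQ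
    obtain ⟨e', he'⟩ := DXS_adj e Q
    refine ⟨h1.map _, e'.symm.toMulEquiv.isDomain _, ?_, DXS_sqfin e' h4, DXS_fin e' h5, ?_, ?_, ?_⟩
    · exact IsPrincipalIdealRing.of_surjective e'.toRingHom e'.surjective
    · rw [← he']; exact h6.map e'
    · intro Q2 hQ2 hne
      obtain ⟨Q', hQ', rfl⟩ := Finset.mem_image.1 hQ2
      rw [← he']
      exact (h7 Q' hQ' (fun h => hne (by rw [h]))).map e'
    · rcases h8 with h8 | ⟨h8, h9⟩
      · left; rw [← he']; exact h8.map e'
      · right
        obtain ⟨e'', -⟩ := DXS_adj e' (X ^ 2 - C (AdjoinRoot.mk Q b))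
        have hh : (X ^ 2 - C (AdjoinRoot.mk Q b)).map (e' : AdjoinRoot Q →+*
            AdjoinRoot (Q.map (e : R →+* R'))) = X ^ 2 - C (AdjoinRoot.mk (Q.map (e : R →+* R'))
              (b.map (e : R →+* R'))) := by
          rw [Polynomial.map_sub, Polynomial.map_pow, map_X, map_C]
          congr 2
          exact he' b
        rw [hh] at e''
        exact ⟨e''.symm.toMulEquiv.isDomain _,
          IsPrincipalIdealRing.of_surjective e''.toRingHom e''.surjective⟩

theorem DXS_away {R T : Type} [CommRing R] [CommRing T] [Algebra R T] (x y : R)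
    [IsLocalization.Away (x * y) T] (h : y ∣ x) : IsLocalization.Away x T := by
  obtain ⟨k, hk⟩ := h
  have hu : IsUnit (algebraMap R T (x * y)) := IsLocalization.Away.algebraMap_isUnit (x * y)
  refine ⟨?_, ?_, ?_⟩
  · rintro ⟨_, n, rfl⟩
    simp only [map_pow]
    rw [map_mul] at hu
    exact (isUnit_of_mul_isUnit_left hu).pow n
  · intro z
    obtain ⟨n, a, ha⟩ := IsLocalization.Away.surj (x * y) z
    refine ⟨⟨a * k ^ n, ⟨x ^ (2 * n), 2 * n, rfl⟩⟩, ?_⟩
    have h1 : x ^ (2 * n) = (x * y) ^ n * k ^ n := by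
      rw [two_mul, pow_add, mul_pow, mul_assoc, ← mul_pow y k, ← hk]
    simp only [h1]
    rw [map_mul, map_mul, ← ha, map_pow]
    ring
  · intro u v huv
    obtain ⟨n, hn⟩ := IsLocalization.Away.exists_of_eq (x * y) huv
    refine ⟨⟨x ^ (2 * n), 2 * n, rfl⟩, ?_⟩
    have h1 : x ^ (2 * n) = (x * y) ^ n * k ^ n := by
      rw [two_mul, pow_add, mul_pow, mul_assoc, ← mul_pow y k, ← hk]
    simp only [h1]
    calc (x * y) ^ n * k ^ n * u = ((x * y) ^ n * u) * k ^ n := by ring
      _ = _ := by rw [hn]; ring

theorem DXS_transfer {R : Type} [CommRing R] [IsDomain R] (d : R) (hd : d ≠ 0) (a b : R[X])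
    (h : ∃ r : Localization.Away d, r ≠ 0 ∧ ∀ r' : Localization.Away d, r' ≠ 0 → r ∣ r' →
      Side ((a.map (algebraMap R (Localization.Away d))).map
          (algebraMap (Localization.Away d) (Localization.Away r')))
        ((b.map (algebraMap R (Localization.Away d))).map
          (algebraMap (Localization.Away d) (Localization.Away r')))) :
    ∃ r : R, r ≠ 0 ∧ ∀ r' : R, r' ≠ 0 → r ∣ r' →
      Side (a.map (algebraMap R (Localization.Away r')))
        (b.map (algebraMap R (Localization.Away r'))) := by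
  have hdom : IsDomain (Localization.Away d) :=
    IsLocalization.isDomain_localization (powers_le_nonZeroDivisors_of_noZeroDivisors hd)
  have hinj : Function.Injective (algebraMap R (Localization.Away d)) :=
    IsLocalization.injective _ (powers_le_nonZeroDivisors_of_noZeroDivisors hd)
  obtain ⟨r, hr0, hr⟩ := h
  obtain ⟨n, x, hx⟩ := IsLocalization.Away.surj d r
  have hx0 : x ≠ 0 := by
    rintro rfl
    rw [map_zero] at hx
    refine mul_ne_zero hr0 (pow_ne_zero n ?_) hx
    rw [Ne, map_eq_zero_iff _ hinj]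
    exact hd
  refine ⟨d * x, mul_ne_zero hd hx0, fun r' hr'0 hdvd => ?_⟩
  have h1 : r ∣ algebraMap R (Localization.Away d) r' :=
    (Dvd.intro _ hx).trans (map_dvd _ ((Dvd.intro_left _ rfl).trans hdvd))
  have h2 : algebraMap R (Localization.Away d) r' ≠ 0 := by
    rw [Ne, map_eq_zero_iff _ hinj]; exact hr'0
  have h3 := hr _ h2 h1
  rw [Polynomial.map_map, Polynomial.map_map,
    ← IsScalarTower.algebraMap_eq R (Localization.Away d)
      (Localization.Away (algebraMap R (Localization.Away d) r'))] at h3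
  have h4 : IsLocalization.Away (r' * d)
      (Localization.Away (algebraMap R (Localization.Away d) r')) :=
    IsLocalization.Away.mul (Localization.Away d) _ d r'
  have h5 : IsLocalization.Away r'
      (Localization.Away (algebraMap R (Localization.Away d) r')) :=
    DXS_away r' d ((Dvd.intro _ rfl).trans hdvd)
  have e := IsLocalization.algEquiv (Submonoid.powers r')
    (Localization.Away (algebraMap R (Localization.Away d) r')) (Localization.Away r')
  have h6 := DXS_side e.toRingEquiv _ _ h3
  rw [Polynomial.map_map, Polynomial.map_map] at h6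
  have h7 : ((e.toRingEquiv : Localization.Away (algebraMap R (Localization.Away d) r') →+*
      Localization.Away r')).comp (algebraMap R
        (Localization.Away (algebraMap R (Localization.Away d) r'))) =
      algebraMap R (Localization.Away r') := by
    ext x
    exact e.commutes x
  rw [h7] at h6
  exact h6

theorem DXS_clear {R : Type} [CommRing R] [IsDomain R] (p : (FractionRing R)[X]) :
    ∃ d : R, d ≠ 0 ∧ ∃ P : R[X], P.map (algebraMap R (FractionRing R)) =
      C (algebraMap R (FractionRing R) d) * p := by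
  obtain ⟨b, hb, h⟩ := IsLocalization.integerNormalization_spec (nonZeroDivisors R) p
  refine ⟨b, nonZeroDivisors.ne_zero hb,
    IsLocalization.integerNormalization (nonZeroDivisors R) p, ?_⟩
  rw [h, ← Polynomial.smul_eq_C_mul, algebraMap_smul]

/-- the maps between the fraction fields of `R` and of a localization -/
theorem DXS_frac {R : Type} [CommRing R] [IsDomain R] (d : R) (hd : d ≠ 0)
    (S : Type) [CommRing S] [Algebra R S] [IsLocalization.Away d S] [IsDomain S] :
    ∃ (φ : S →+* FractionRing R) (ψ : FractionRing S →+* FractionRing R)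
      (χ : FractionRing R →+* FractionRing S), Function.Injective φ ∧
      (∀ x, φ (algebraMap R S x) = algebraMap R (FractionRing R) x) ∧
      (∀ x, ψ (algebraMap S (FractionRing S) x) = φ x) ∧
      (∀ x, χ (algebraMap R (FractionRing R) x) =
        algebraMap S (FractionRing S) (algebraMap R S x)) := by
  have hle : Submonoid.powers d ≤ nonZeroDivisors R :=
    powers_le_nonZeroDivisors_of_noZeroDivisors hd
  have hinj : Function.Injective (algebraMap R S) := IsLocalization.injective _ hle
  have hu : IsUnit (algebraMap R (FractionRing R) d) := by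
    apply IsUnit.mk0
    rw [Ne, map_eq_zero_iff _ (IsFractionRing.injective R (FractionRing R))]
    exact hd
  obtain ⟨φ, hφ⟩ : ∃ φ : S →+* FractionRing R, ∀ x, φ (algebraMap R S x) =
      algebraMap R (FractionRing R) x :=
    ⟨IsLocalization.Away.lift (S := S) d hu, fun x => IsLocalization.Away.lift_eq d hu x⟩
  have hφi : Function.Injective φ := by
    rw [injective_iff_map_eq_zero]
    intro z hz
    obtain ⟨n, x, hx⟩ := IsLocalization.Away.surj d z
    have h1 : algebraMap R (FractionRing R) x = 0 := by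
      rw [← hφ, ← hx, map_mul, hz, zero_mul]
    rw [map_eq_zero_iff _ (IsFractionRing.injective R (FractionRing R))] at h1
    rw [h1, map_zero] at hx
    refine (mul_eq_zero.1 hx).resolve_right (pow_ne_zero n ?_)
    rw [Ne, map_eq_zero_iff _ hinj]
    exact hd
  have hc : Function.Injective ((algebraMap S (FractionRing S)).comp (algebraMap R S)) :=
    (IsFractionRing.injective S (FractionRing S)).comp hinj
  exact ⟨φ, IsFractionRing.lift hφi, IsFractionRing.lift hc, hφi, hφ,
    fun x => IsFractionRing.lift_algebraMap hφi x, fun x => IsFractionRing.lift_algebraMap hc x⟩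

theorem DXS_fac {R : Type} [CommRing R] [IsDomain R] (a : R[X]) (ha0 : a ≠ 0)
    (ha : Squarefree (a.map (algebraMap R (FractionRing R)))) :
    ∃ d : R, d ≠ 0 ∧ ∃ (F : Finset (Localization.Away d)[X]) (u : Localization.Away d),
      u ≠ 0 ∧ a.map (algebraMap R (Localization.Away d)) = C u * ∏ Q ∈ F, Q ∧
      ∀ Q ∈ F, Q.Monic ∧ Irreducible (Q.map (algebraMap (Localization.Away d)
        (FractionRing (Localization.Away d)))) := by
  classical
  set K := FractionRing R with hKdef
  have hinjK : Function.Injective (algebraMap R K) := IsFractionRing.injective R K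
  set a' := a.map (algebraMap R K) with ha'
  have ha'0 : a' ≠ 0 := by
    intro h
    exact ha0 (Polynomial.map_injective _ hinjK (by rw [← ha', h, Polynomial.map_zero]))
  set F := (UniqueFactorizationMonoid.normalizedFactors a').toFinset with hF
  have hnd : (UniqueFactorizationMonoid.normalizedFactors a').Nodup :=
    (UniqueFactorizationMonoid.squarefree_iff_nodup_normalizedFactors ha'0).1 ha
  have hprod : C a'.leadingCoeff * ∏ Q ∈ F, Q = a' := by
    refine Eq.trans ?_ (leadingCoeff_mul_prod_normalizedFactors a')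
    congr 1
    rw [hF, Finset.prod, Multiset.toFinset_val, hnd.dedup, Multiset.map_id']
  have hFm : ∀ Q ∈ F, Irreducible Q ∧ Q.Monic := by
    intro Q hQ
    rw [hF, Multiset.mem_toFinset, Polynomial.mem_normalizedFactors_iff ha'0] at hQ
    exact ⟨hQ.1, hQ.2.1⟩
  choose dd hdd PP hPP using fun p : K[X] => DXS_clear (R := R) p
  set d := ∏ Q ∈ F, dd Q with hd
  have hd0 : d ≠ 0 := Finset.prod_ne_zero_iff.2 fun Q _ => hdd Q
  have hdom : IsDomain (Localization.Away d) :=
    IsLocalization.isDomain_localization (powers_le_nonZeroDivisors_of_noZeroDivisors hd0)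
  obtain ⟨φ, ψ, χ, hφi, hφ, hψ, hχ⟩ := DXS_frac d hd0 (Localization.Away d)
  have hφK : φ.comp (algebraMap R (Localization.Away d)) = algebraMap R K :=
    RingHom.ext hφ
  have hs : ∀ Q : K[X], ∃ Q₁ : (Localization.Away d)[X], Q ∈ F → Q₁.map φ = Q := by
    intro Q
    by_cases hQ : Q ∈ F
    · have hu : IsUnit (algebraMap R (Localization.Away d) (dd Q)) :=
        isUnit_of_dvd_unit (map_dvd _ (Finset.dvd_prod_of_mem dd hQ))
          (IsLocalization.Away.algebraMap_isUnit d)
      obtain ⟨w, hw⟩ := hu
      refine ⟨C ((w⁻¹ : (Localization.Away d)ˣ) : Localization.Away d) *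
        (PP Q).map (algebraMap R (Localization.Away d)), fun _ => ?_⟩
      rw [Polynomial.map_mul, Polynomial.map_map, hφK, map_C, hPP, ← mul_assoc, ← C_mul]
      have : φ ((w⁻¹ : (Localization.Away d)ˣ) : Localization.Away d) *
          algebraMap R K (dd Q) = 1 := by
        rw [← hφ, ← hw, ← map_mul, Units.inv_mul, map_one]
      rw [this, C_1, one_mul]
    · exact ⟨0, fun h => absurd h hQ⟩
  choose s hs using hs
  refine ⟨d, hd0, F.image s, algebraMap R (Localization.Away d) a.leadingCoeff, ?_, ?_, ?_⟩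
  · intro h0
    have h1 := congrArg φ h0
    rw [hφ, map_zero, map_eq_zero_iff _ hinjK, leadingCoeff_eq_zero] at h1
    exact ha0 h1
  · have hinj : Set.InjOn s F := by
      intro Q hQ Q' hQ' hss
      rw [← hs Q hQ, ← hs Q' hQ', hss]
    rw [Finset.prod_image hinj]
    apply Polynomial.map_injective φ hφi
    rw [Polynomial.map_map, hφK, Polynomial.map_mul, Polynomial.map_prod, map_C, hφ,
      Finset.prod_congr rfl fun Q hQ => hs Q hQ]
    rw [← ha', ← hprod, ha', leadingCoeff_map_of_injective hinjK]
  · intro Q1 hQ1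
    obtain ⟨Q, hQ, rfl⟩ := Finset.mem_image.1 hQ1
    obtain ⟨h1, h2⟩ := hFm Q hQ
    have hm : (s Q).Monic := by
      apply Polynomial.monic_of_injective hφi
      rw [hs Q hQ]; exact h2
    refine ⟨hm, ?_⟩
    apply Polynomial.Monic.irreducible_of_irreducible_map ψ _ (hm.map _)
    have : ψ.comp (algebraMap (Localization.Away d) (FractionRing (Localization.Away d))) = φ :=
      RingHom.ext hψ
    rw [Polynomial.map_map, this, hs Q hQ]
    exact h1

theorem DXS_unit {R : Type} [CommRing R] [IsDomain R] (Q b : R[X])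
    (h : IsCoprime (Q.map (algebraMap R (FractionRing R)))
      (b.map (algebraMap R (FractionRing R)))) :
    ∃ r : R, r ≠ 0 ∧ ∀ r' : R, r' ≠ 0 → r ∣ r' →
      IsUnit (AdjoinRoot.mk (Q.map (algebraMap R (Localization.Away r')))
        (b.map (algebraMap R (Localization.Away r')))) := by
  obtain ⟨u, v, huv⟩ := h
  obtain ⟨d1, hd1, U, hU⟩ := DXS_clear u
  obtain ⟨d2, hd2, V, hV⟩ := DXS_clear v
  have hrel : C (d1 * d2) = (C d2 * U) * Q + (C d1 * V) * b := by
    apply Polynomial.map_injective _ (IsFractionRing.injective R (FractionRing R))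
    simp only [Polynomial.map_mul, Polynomial.map_add, map_C, map_mul, hU, hV]
    calc C ((algebraMap R (FractionRing R)) d1) * C ((algebraMap R (FractionRing R)) d2)
        = C ((algebraMap R (FractionRing R)) d1) * C ((algebraMap R (FractionRing R)) d2) *
          (u * Q.map (algebraMap R (FractionRing R)) +
            v * b.map (algebraMap R (FractionRing R))) := by rw [huv, mul_one]
      _ = _ := by ring
  refine ⟨d1 * d2, mul_ne_zero hd1 hd2, fun r' hr' hdvd => ?_⟩
  have hu : IsUnit (algebraMap R (Localization.Away r') (d1 * d2)) :=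
    isUnit_of_dvd_unit (map_dvd _ hdvd) (IsLocalization.Away.algebraMap_isUnit r')
  have h1 := congrArg (fun p : R[X] => AdjoinRoot.mk (Q.map (algebraMap R (Localization.Away r')))
    (p.map (algebraMap R (Localization.Away r')))) hrel
  simp only [Polynomial.map_mul, Polynomial.map_add, map_C, map_add, map_mul, AdjoinRoot.mk_self,
    mul_zero, zero_add] at h1
  have h2 : IsUnit (AdjoinRoot.mk (Q.map (algebraMap R (Localization.Away r')))
      (C (algebraMap R (Localization.Away r') (d1 * d2)))) := (hu.map C).map _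
  rw [map_mul (algebraMap R (Localization.Away r')), map_mul, map_mul, h1] at h2
  exact isUnit_of_mul_isUnit_right h2

theorem DXS_all {R ι : Type} [CommRing R] [IsDomain R] (F : Finset ι) (P : ι → R → Prop)
    (h : ∀ i ∈ F, ∃ r : R, r ≠ 0 ∧ ∀ r' : R, r' ≠ 0 → r ∣ r' → P i r') :
    ∃ r : R, r ≠ 0 ∧ ∀ r' : R, r' ≠ 0 → r ∣ r' → ∀ i ∈ F, P i r' := by
  classical
  induction F using Finset.induction_on with
  | empty => exact ⟨1, one_ne_zero, fun r' _ _ i hi => absurd hi (Finset.notMem_empty i)⟩
  | insert j F hj ih =>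
    obtain ⟨r1, hr1, h1⟩ := ih fun i hi => h i (Finset.mem_insert_of_mem hi)
    obtain ⟨r2, hr2, h2⟩ := h j (Finset.mem_insert_self j F)
    refine ⟨r1 * r2, mul_ne_zero hr1 hr2, fun r' hr' hd i hi => ?_⟩
    rcases Finset.mem_insert.1 hi with rfl | hi
    · exact h2 r' hr' ((Dvd.intro_left _ rfl).trans hd)
    · exact h1 r' hr' ((Dvd.intro _ rfl).trans hd) i hi

theorem DXS_res {R : Type} [CommRing R] [IsDomain R] [Algebra.FiniteType ℤ R]
    (hK : KroneckerLeOne (FractionRing R)) (r' : R) (hr' : r' ≠ 0)
    (Q : (Localization.Away r')[X]) (hQ : Q.Monic) (hdom : IsDomain (AdjoinRoot Q))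
    (hpid : IsPrincipalIdealRing (AdjoinRoot Q)) (hdeg : Q.degree ≠ 0) :
    SqFin (AdjoinRoot Q) ∧
      ∀ q : AdjoinRoot Q, Prime q → Finite (AdjoinRoot Q ⧸ Ideal.span {q}) := by
  have hd' : IsDomain (Localization.Away r') :=
    IsLocalization.isDomain_localization (powers_le_nonZeroDivisors_of_noZeroDivisors hr')
  have hinj : Function.Injective (algebraMap R (Localization.Away r')) :=
    IsLocalization.injective _ (powers_le_nonZeroDivisors_of_noZeroDivisors hr')
  have f1 : Algebra.FiniteType R (Localization.Away r') := inferInstance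
  have f2 : Module.Finite (Localization.Away r') (AdjoinRoot Q) := hQ.finite_adjoinRoot
  have f3 : Algebra.FiniteType ℤ (Localization.Away r') := Algebra.FiniteType.trans (S := R)
    inferInstance inferInstance
  have f4 : Algebra.FiniteType ℤ (AdjoinRoot Q) := Algebra.FiniteType.trans
    (S := Localization.Away r') inferInstance inferInstance
  have f5 : @Algebra.FiniteType ℤ (AdjoinRoot Q) _ (CommRing.toCommSemiring.toSemiring)
      (Ring.toIntAlgebra _) := by
    have : (AdjoinRoot.instAlgebra Q : Algebra ℤ (AdjoinRoot Q)) = Ring.toIntAlgebra _ :=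
      Subsingleton.elim _ _
    rw [← this]
    exact f4
  have hinj2 : Function.Injective (algebraMap (Localization.Away r') (AdjoinRoot Q)) :=
    AdjoinRoot.of.injective_of_degree_ne_zero hdeg
  refine ⟨?_, fun q hq => fin_res _ q hq⟩
  apply SQF
  let _ : Algebra R (AdjoinRoot Q) := inferInstance
  have t1 : IsScalarTower R (Localization.Away r') (AdjoinRoot Q) := inferInstance
  have a1 : Algebra.IsAlgebraic R (Localization.Away r') :=
    IsLocalization.isAlgebraic _ (Submonoid.powers r')
  have a2 : Algebra.IsAlgebraic (Localization.Away r') (AdjoinRoot Q) := inferInstance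
  have hinj3 : Function.Injective (algebraMap R (AdjoinRoot Q)) := by
    rw [IsScalarTower.algebraMap_eq R (Localization.Away r') (AdjoinRoot Q)]
    exact hinj2.comp hinj
  have fs : FaithfulSMul R (AdjoinRoot Q) := (faithfulSMul_iff_algebraMap_injective _ _).2 hinj3
  have fs' : FaithfulSMul R (FractionRing (AdjoinRoot Q)) := inferInstance
  have a3 : Algebra.IsAlgebraic R (AdjoinRoot Q) :=
    Algebra.IsAlgebraic.trans R (Localization.Away r') (AdjoinRoot Q)
  have a4' : Algebra.IsAlgebraic (AdjoinRoot Q) (FractionRing (AdjoinRoot Q)) :=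
    IsLocalization.isAlgebraic _ (nonZeroDivisors (AdjoinRoot Q))
  have a4 : Algebra.IsAlgebraic R (FractionRing (AdjoinRoot Q)) :=
    Algebra.IsAlgebraic.trans R (AdjoinRoot Q) _
  let _ : Algebra (FractionRing R) (FractionRing (AdjoinRoot Q)) := FractionRing.liftAlgebra R _
  have t2 : IsScalarTower R (FractionRing R) (FractionRing (AdjoinRoot Q)) := inferInstance
  have a5 : Algebra.IsAlgebraic (FractionRing R) (FractionRing (AdjoinRoot Q)) :=
    (IsFractionRing.comap_isAlgebraic_iff (A := R)).1 a4
  exact KLA hK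

/-- the structure of `ℤ`-algebra does not matter -/
theorem DXS_int {O : Type} [CommRing O] (i : Algebra ℤ O) (h : @Algebra.FiniteType ℤ O _ _ i) :
    @Algebra.FiniteType ℤ O _ _ (Ring.toIntAlgebra O) := by
  have : i = Ring.toIntAlgebra O := Subsingleton.elim _ _
  rw [this] at h
  exact h

theorem DXS_main {R : Type} [CommRing R] [IsDomain R] [Algebra.FiniteType ℤ R]
    (hK : KroneckerLeOne (FractionRing R)) (h2 : (2 : R) ≠ 0) (u : R) (hu : u ≠ 0)
    (F : Finset R[X]) (b : R[X])
    (hF : ∀ Q ∈ F, Q.Monic ∧ Irreducible (Q.map (algebraMap R (FractionRing R))))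
    (hFb : ∀ Q ∈ F, IsCoprime (Q.map (algebraMap R (FractionRing R)))
      (b.map (algebraMap R (FractionRing R)))) :
    ∃ r : R, r ≠ 0 ∧ ∀ r' : R, r' ≠ 0 → r ∣ r' →
      Side ((C u * ∏ Q ∈ F, Q).map (algebraMap R (Localization.Away r')))
        (b.map (algebraMap R (Localization.Away r'))) := by
  classical
  have hinjK : Function.Injective (Polynomial.map (algebraMap R (FractionRing R))) :=
    Polynomial.map_injective _ (IsFractionRing.injective R (FractionRing R))
  obtain ⟨r1, hr1, h1⟩ := DXS_all F (fun Q r' =>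
      IsDomain (AdjoinRoot (Q.map (algebraMap R (Localization.Away r')))) ∧
      IsPrincipalIdealRing (AdjoinRoot (Q.map (algebraMap R (Localization.Away r')))))
    fun Q hQ => DXP hK Q (hF Q hQ).1 (hF Q hQ).2
  obtain ⟨r2, hr2, h3⟩ := DXS_all F (fun Q r' =>
      (IsSquare (AdjoinRoot.mk (Q.map (algebraMap R (Localization.Away r')))
        (b.map (algebraMap R (Localization.Away r')))) ∨
      (IsDomain (AdjoinRoot (X ^ 2 - C (AdjoinRoot.mk (Q.map (algebraMap R (Localization.Away r')))
        (b.map (algebraMap R (Localization.Away r')))))) ∧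
       IsPrincipalIdealRing (AdjoinRoot (X ^ 2 - C (AdjoinRoot.mk
        (Q.map (algebraMap R (Localization.Away r')))
        (b.map (algebraMap R (Localization.Away r')))))))))
    fun Q hQ => DXP3 hK h2 Q b (hF Q hQ).1 (hF Q hQ).2
  obtain ⟨r3, hr3, h4⟩ := DXS_all F (fun Q r' =>
      IsUnit (AdjoinRoot.mk (Q.map (algebraMap R (Localization.Away r')))
        (b.map (algebraMap R (Localization.Away r')))))
    fun Q hQ => DXS_unit Q b (hFb Q hQ)
  obtain ⟨r4, hr4, h5⟩ := DXS_all F (fun Q r' => ∀ Q' ∈ F.erase Q,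
      IsUnit (AdjoinRoot.mk (Q.map (algebraMap R (Localization.Away r')))
        (Q'.map (algebraMap R (Localization.Away r')))))
    fun Q hQ => DXS_all (F.erase Q) (fun Q' r' =>
      IsUnit (AdjoinRoot.mk (Q.map (algebraMap R (Localization.Away r')))
        (Q'.map (algebraMap R (Localization.Away r'))))) fun Q' hQ' => by
      obtain ⟨hne, hQ'⟩ := Finset.mem_erase.1 hQ'
      apply DXS_unit
      rw [(hF Q hQ).2.coprime_iff_not_dvd]
      intro hdvd
      have := (hF Q hQ).2.associated_of_dvd (hF Q' hQ').2 hdvd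
      exact hne (hinjK (eq_of_monic_of_associated ((hF Q hQ).1.map _)
        ((hF Q' hQ').1.map _) this)).symm
  refine ⟨u * r1 * r2 * r3 * r4, mul_ne_zero (mul_ne_zero (mul_ne_zero (mul_ne_zero hu hr1) hr2)
    hr3) hr4, fun r' hr' hd => ?_⟩
  have d4 : r4 ∣ r' := (Dvd.intro_left _ rfl).trans hd
  have hd3 : u * r1 * r2 * r3 ∣ r' := (Dvd.intro _ rfl).trans hd
  have d3 : r3 ∣ r' := (Dvd.intro_left _ rfl).trans hd3
  have hd2 : u * r1 * r2 ∣ r' := (Dvd.intro _ rfl).trans hd3
  have d2 : r2 ∣ r' := (Dvd.intro_left _ rfl).trans hd2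
  have hd1 : u * r1 ∣ r' := (Dvd.intro _ rfl).trans hd2
  have d1 : r1 ∣ r' := (Dvd.intro_left _ rfl).trans hd1
  have d0 : u ∣ r' := (Dvd.intro _ rfl).trans hd1
  have hu' : IsUnit (algebraMap R (Localization.Away r') u) :=
    isUnit_of_dvd_unit (map_dvd _ d0) (IsLocalization.Away.algebraMap_isUnit r')
  obtain ⟨v, hv⟩ := hu'
  have hinj : Function.Injective (Polynomial.map (algebraMap R (Localization.Away r'))) :=
    Polynomial.map_injective _ (IsLocalization.injective _
      (powers_le_nonZeroDivisors_of_noZeroDivisors hr'))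
  have hdom : IsDomain (Localization.Away r') :=
    IsLocalization.isDomain_localization (powers_le_nonZeroDivisors_of_noZeroDivisors hr')
  refine ⟨v, F.image (Polynomial.map (algebraMap R (Localization.Away r'))), ?_, ?_⟩
  · rw [Finset.prod_image hinj.injOn, Polynomial.map_mul, Polynomial.map_prod, map_C, hv]
  · intro Q1 hQ1
    obtain ⟨Q, hQ, rfl⟩ := Finset.mem_image.1 hQ1
    obtain ⟨g1, g2⟩ := h1 r' hr' d1 Q hQ
    have hdeg : (Q.map (algebraMap R (Localization.Away r'))).degree ≠ 0 := by
      rw [(hF Q hQ).1.degree_map, ← (hF Q hQ).1.degree_map (algebraMap R (FractionRing R))]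
      exact (degree_pos_of_irreducible (hF Q hQ).2).ne'
    obtain ⟨g3, g4⟩ := DXS_res hK r' hr' (Q.map (algebraMap R (Localization.Away r')))
      ((hF Q hQ).1.map _) g1 g2 hdeg
    refine ⟨(hF Q hQ).1.map _, g1, g2, g3, g4, h4 r' hr' d3 Q hQ, ?_, h3 r' hr' d2 Q hQ⟩
    intro Q2 hQ2 hne
    obtain ⟨Q', hQ', rfl⟩ := Finset.mem_image.1 hQ2
    exact h5 r' hr' d4 Q hQ Q' (Finset.mem_erase.2 ⟨fun h => hne (by rw [h]), hQ'⟩)

/-- one half of `Dat` -/
theorem DXS {R : Type} [CommRing R] [IsDomain R] [Algebra.FiniteType ℤ R]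
    (hK : KroneckerLeOne (FractionRing R)) (h2 : (2 : R) ≠ 0) (a b : R[X])
    (ha : Squarefree (a.map (algebraMap R (FractionRing R)))) (ha0 : a ≠ 0)
    (hab : IsCoprime (a.map (algebraMap R (FractionRing R)))
      (b.map (algebraMap R (FractionRing R)))) :
    ∃ r : R, r ≠ 0 ∧ ∀ r' : R, r' ≠ 0 → r ∣ r' →
      Side (a.map (algebraMap R (Localization.Away r')))
        (b.map (algebraMap R (Localization.Away r'))) := by
  obtain ⟨d, hd, F, u, hu, hfac, hF⟩ := DXS_fac a ha0 ha
  have hdom : IsDomain (Localization.Away d) :=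
    IsLocalization.isDomain_localization (powers_le_nonZeroDivisors_of_noZeroDivisors hd)
  obtain ⟨φ, ψ, χ, hφi, hφ, hψ, hχ⟩ := DXS_frac d hd (Localization.Away d)
  apply DXS_transfer d hd a b
  rw [hfac]
  have f1 : Algebra.FiniteType R (Localization.Away d) := inferInstance
  have f3 : Algebra.FiniteType ℤ (Localization.Away d) := Algebra.FiniteType.trans (S := R)
    inferInstance inferInstance
  have f4 := DXS_int _ f3
  refine DXS_main (KroneckerLeOne.of_hom ψ hK) ?_ u hu F _ hF ?_
  · intro h0
    have h1 := congrArg φ h0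
    rw [map_zero, map_ofNat, ← map_ofNat (algebraMap R (FractionRing R)),
      map_eq_zero_iff _ (IsFractionRing.injective R (FractionRing R))] at h1
    exact h2 h1
  · intro Q hQ
    have hco := hab.map (Polynomial.mapRingHom χ)
    have hcomp : χ.comp (algebraMap R (FractionRing R)) =
        (algebraMap (Localization.Away d) (FractionRing (Localization.Away d))).comp
          (algebraMap R (Localization.Away d)) := RingHom.ext hχ
    rw [coe_mapRingHom, Polynomial.map_map, Polynomial.map_map, hcomp, ← Polynomial.map_map,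
      ← Polynomial.map_map, hfac, Polynomial.map_mul, Polynomial.map_prod] at hco
    exact (IsCoprime.prod_left_iff.1 hco.of_mul_left_right) Q hQ

end Pool.Agent.QCB
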