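import Pool.Agent.QCB.QB

/-!
# QCB: good data on an arithmetic curve
-/

set_option autoImplicit false

namespace Pool.Agent.QCB

open Quaternion QuaternionAlgebra Polynomial

/-- the units modulo squares are finite -/
def SqFin (O : Type) [CommRing O] : Prop :=
  ∃ F : Finset Oˣ, ∀ u : Oˣ, ∃ w ∈ F, ∃ v : Oˣ, u = w * v ^ 2

/-- the conditions at the prime factors of `a` (the other polynomial is `b`) -/
def Side {R : Type} [CommRing R] (a b : R[X]) : Prop :=
  ∃ (u : Rˣ) (F : Finset R[X]), a = C (u : R) * ∏ Q ∈ F, Q ∧ ∀ Q ∈ F,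
    Q.Monic ∧ IsDomain (AdjoinRoot Q) ∧ IsPrincipalIdealRing (AdjoinRoot Q) ∧
    SqFin (AdjoinRoot Q) ∧ (∀ q : AdjoinRoot Q, Prime q → Finite (AdjoinRoot Q ⧸ Ideal.span {q})) ∧
    IsUnit (AdjoinRoot.mk Q b) ∧ (∀ Q' ∈ F, Q' ≠ Q → IsUnit (AdjoinRoot.mk Q Q')) ∧
    (IsSquare (AdjoinRoot.mk Q b) ∨
      (IsDomain (AdjoinRoot (X ^ 2 - C (AdjoinRoot.mk Q b))) ∧
        IsPrincipalIdealRing (AdjoinRoot (X ^ 2 - C (AdjoinRoot.mk Q b)))))

/-- good data: `R` is a principal ideal domain (an arithmetic curve, made small), `a`, `b`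
are polynomials over `R`, `c ∈ R` is a good point -/
structure Dat (R : Type) [CommRing R] [IsDomain R] (a b : R[X]) (c : R) : Prop where
  pid : IsPrincipalIdealRing R
  two : IsUnit (2 : R)
  fin : ∀ π : R, Prime π → Finite (R ⧸ Ideal.span {π})
  sq : SqFin R
  left : Side a b
  right : Side b a
  ac : IsUnit (a.eval c)
  bc : IsUnit (b.eval c)
  cop : IsCoprime (a.map (algebraMap R (FractionRing R))) (b.map (algebraMap R (FractionRing R)))
  pt : (∃ z : ℍ[R,a.eval c,b.eval c], z ≠ 0 ∧ nrm z = 0) ∨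
    IsPrincipalIdealRing ℍ[R,a.eval c,b.eval c]

end Pool.Agent.QCB
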