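import Pool.Agent.QCB.QB

/-!
# QCB, module FD: an additive function on `Λ / Λ d`

Proof. `Λ ⊃ Λ y ⊃ Λ x y`, right multiplication by `y` gives `Λ / Λ x ≅ Λ y / Λ x y`
(`mul_right_inj'`), so the function is additive on products (`FD2`); all the modules are killed by
`nrm (x * y)` (`star d * d = nrm d`). With `u` from `conj_elem`:
`θ(u d) = θ(u) + θ(d)` and `u d = star d u`, so `θ(d) = θ(star d)`, and `nrm d = star d * d`.
`FD0`: `ψ(Λ) = ψ(Λ d) + ψ(Λ / Λ d)` and `Λ d ≅ Λ`.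
-/

set_option autoImplicit false
set_option linter.unusedSectionVars false

namespace Pool.Agent.QCB

open Quaternion QuaternionAlgebra

universe u

variable {A : Type} [CommRing A] [IsDomain A] {a b : A} {Γ : Type u} [AddCommGroup Γ]

theorem FD0 (ψ : NAdd ℍ[A,a,b] Γ) (d : ℍ[A,a,b]) (hd : nrm d ≠ 0) :
    ψ.val (ℍ[A,a,b] ⧸ Ideal.span {d}) = 0 := by
  have h := ψ.add ℍ[A,a,b] ℍ[A,a,b] (ℍ[A,a,b] ⧸ Ideal.span {d})
    (LinearMap.toSpanSingleton ℍ[A,a,b] ℍ[A,a,b] d) (Submodule.mkQ (Ideal.span {d}))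
    (by
      rw [injective_iff_map_eq_zero]
      intro x hx
      exact mul_right_inj' hd hx)
    (Submodule.mkQ_surjective _)
    (by
      rw [LinearMap.exact_iff, Submodule.ker_mkQ, LinearMap.range_toSpanSingleton])
  exact left_eq_add.1 h

private theorem fd_kil (x : ℍ[A,a,b]) :
    Kil (A := A) (Λ := ℍ[A,a,b]) (nrm x) (ℍ[A,a,b] ⧸ Ideal.span {x}) := by
  intro m
  obtain ⟨z, rfl⟩ := Submodule.mkQ_surjective _ m
  rw [← map_smul]
  rw [Submodule.mkQ_apply, Submodule.Quotient.mk_eq_zero]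
  rw [smul_eq_mul, central, ← star_mul_self', ← mul_assoc]
  exact Ideal.mul_mem_left _ _ (Ideal.mem_span_singleton_self _)

theorem FD2 (θ : TAdd A ℍ[A,a,b] Γ) (x y : ℍ[A,a,b]) (hx : nrm x ≠ 0) (hy : nrm y ≠ 0) :
    θ.val (ℍ[A,a,b] ⧸ Ideal.span {x * y}) =
      θ.val (ℍ[A,a,b] ⧸ Ideal.span {x}) + θ.val (ℍ[A,a,b] ⧸ Ideal.span {y}) := by
  have mem : ∀ w z : ℍ[A,a,b], z ∈ Ideal.span {w} ↔ ∃ c, c * w = z := fun w z =>
    Submodule.mem_span_singleton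
  let f : (ℍ[A,a,b] ⧸ Ideal.span {x}) →ₗ[ℍ[A,a,b]] (ℍ[A,a,b] ⧸ Ideal.span {x * y}) :=
    Submodule.mapQ _ _ (LinearMap.toSpanSingleton ℍ[A,a,b] ℍ[A,a,b] y) (by
      intro z hz
      obtain ⟨c, rfl⟩ := (mem _ _).1 hz
      rw [Submodule.mem_comap, LinearMap.toSpanSingleton_apply, smul_eq_mul, mul_assoc]
      exact (mem _ _).2 ⟨c, rfl⟩)
  let g : (ℍ[A,a,b] ⧸ Ideal.span {x * y}) →ₗ[ℍ[A,a,b]] (ℍ[A,a,b] ⧸ Ideal.span {y}) :=
    Submodule.mapQ _ _ LinearMap.id (by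
      intro z hz
      obtain ⟨c, rfl⟩ := (mem _ _).1 hz
      rw [Submodule.mem_comap, LinearMap.id_apply, ← mul_assoc]
      exact (mem _ _).2 ⟨c * x, rfl⟩)
  have hf : ∀ z : ℍ[A,a,b], f (Submodule.Quotient.mk z) = Submodule.Quotient.mk (z * y) :=
    fun z => rfl
  have hg : ∀ z : ℍ[A,a,b], g (Submodule.Quotient.mk z) = Submodule.Quotient.mk z :=
    fun z => rfl
  refine θ.add _ _ _ f g ?_ ?_ ?_ ⟨nrm (x * y), ?_, fd_kil _⟩
  · rw [injective_iff_map_eq_zero]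
    intro m hm
    obtain ⟨z, rfl⟩ := Submodule.Quotient.mk_surjective _ m
    rw [hf, Submodule.Quotient.mk_eq_zero] at hm
    obtain ⟨c, hc⟩ := (mem _ _).1 hm
    rw [Submodule.Quotient.mk_eq_zero]
    refine (mem _ _).2 ⟨c, ?_⟩
    have h1 : (c * x - z) * y = 0 := by rw [sub_mul, mul_assoc, hc, sub_self]
    exact sub_eq_zero.1 (mul_right_inj' hy h1)
  · intro m
    obtain ⟨z, rfl⟩ := Submodule.Quotient.mk_surjective _ m
    exact ⟨Submodule.Quotient.mk z, rfl⟩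
  · intro m
    obtain ⟨z, rfl⟩ := Submodule.Quotient.mk_surjective _ m
    rw [hg, Submodule.Quotient.mk_eq_zero]
    constructor
    · intro h
      obtain ⟨c, rfl⟩ := (mem _ _).1 h
      exact ⟨Submodule.Quotient.mk c, rfl⟩
    · rintro ⟨m', hm'⟩
      obtain ⟨c, rfl⟩ := Submodule.Quotient.mk_surjective _ m'
      rw [hf, ← sub_eq_zero, ← Submodule.Quotient.mk_sub, Submodule.Quotient.mk_eq_zero] at hm'
      obtain ⟨e, he⟩ := (mem _ _).1 hm'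
      refine (mem _ _).2 ⟨c - e * x, ?_⟩
      rw [sub_mul, mul_assoc, he]
      abel
  · rw [nrm_mul]
    exact mul_ne_zero hx hy

theorem FD (ha : a ≠ 0) (hb : b ≠ 0) (h2 : (2 : A) ≠ 0) (θ : TAdd A ℍ[A,a,b] Γ) (d : ℍ[A,a,b])
    (hd : nrm d ≠ 0) :
    2 • θ.val (ℍ[A,a,b] ⧸ Ideal.span {d}) =
      θ.val (ℍ[A,a,b] ⧸ Ideal.span {algebraMap A ℍ[A,a,b] (nrm d)}) := by
  obtain ⟨u, hu, hud⟩ := conj_elem ha hb h2 d
  have hd' : nrm (star d) ≠ 0 := by rwa [nrm_star]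
  have h1 := FD2 θ u d hu hd
  have h3 := FD2 θ (star d) u hd' hu
  rw [hud, h3, add_comm] at h1
  have h4 := add_left_cancel h1
  rw [← star_mul_self', FD2 θ _ _ hd' hd, h4, two_nsmul]

end Pool.Agent.QCB
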