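import Pool.Agent.QCB.TQ
import Pool.Agent.QCB.FD

/-!
# QCB, module FORM: torsion modules over a unique factorization domain

Proof. Choose `l = LEN q` and `t q = ` the element of `TQ` (for `q` prime; `0` otherwise); `t q` depends
only on the associate class (`TQ` for associated `q, q'`: the same modules; if `Spl` take a module with
`l = 2`, e.g. `(Λ z + q Λ) / q Λ`; otherwise both are `0`): or choose `t` on normalized
representatives (`Associates.out`-like choice) to make this automatic.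
Claim: if a product `m` of primes kills `N` then `ψ(N) = ∑ (l_q(N) / 2) • t q` over representatives `q` of
the primes in `m`, and `l_q(N)` is even: induction on `m` with `0 → q N → N → N / q N → 0`;
`l_{q'}(N / q N) = 0` for `q'` not associated to `q`.
For `d`: `N = Λ / Λ d` is killed by `nrm d`, `ψ(N) = 0` by `FD0`, and `2 l_q(N) = l_q(Λ / nrm d) =
4 v_q(nrm d)` by `FD`, `FD2` and `l_q(Λ / q Λ) = 4`, `l_q(Λ / q' Λ) = 0`.
-/

set_option autoImplicit false

namespace Pool.Agent.QCB

open Quaternion QuaternionAlgebra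

/-- `N` is torsion and supported in codimension at least two -/
def PNull {A : Type} [CommRing A] (a b : A) (N : Type) [AddCommGroup N] [Module ℍ[A,a,b] N] :
    Prop :=
  (∃ s : A, s ≠ 0 ∧ Kil (Λ := ℍ[A,a,b]) s N) ∧
    ∀ q : A, Prime q → ∃ s : A, ¬ q ∣ s ∧ Kil (Λ := ℍ[A,a,b]) s N

/-! ### representatives of the associate classes -/

/-- a representative of the associate class -/
private noncomputable def FORM_rep {A : Type} [CommRing A] (q : A) : A :=
  Quot.out (Associates.mk q)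

private theorem FORM_rep_assoc {A : Type} [CommRing A] (q : A) : Associated (FORM_rep q) q := by
  unfold FORM_rep
  rw [← Associates.mk_eq_mk_iff_associated]
  exact Associates.quot_out _

private theorem FORM_rep_eq {A : Type} [CommRing A] {q q' : A} (h : Associated q q') :
    FORM_rep q = FORM_rep q' := by
  unfold FORM_rep
  rw [Associates.mk_eq_mk_iff_associated.2 h]

private theorem FORM_rep_prime {A : Type} [CommRing A] {q : A} (h : Prime q) :
    Prime (FORM_rep q) := (FORM_rep_assoc q).symm.prime h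

private theorem FORM_Spl {A : Type} [CommRing A] {a b q q' : A} (h : Associated q q')
    (h1 : Spl a b q) : Spl a b q' := by
  obtain ⟨z, hz, hz2⟩ := h1
  refine ⟨z, fun hd => hz ?_, h.symm.dvd.trans hz2⟩
  exact ⟨h.dvd.trans hd.1, h.dvd.trans hd.2.1, h.dvd.trans hd.2.2.1, h.dvd.trans hd.2.2.2⟩

/-! ### modules -/

/-- multiplication by an element of the center -/
private def FORM_mul {A Λ : Type} [CommRing A] [Ring Λ] [Algebra A Λ] (p : A) (N : Type)
    [AddCommGroup N] [Module Λ N] : N →ₗ[Λ] N where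
  toFun x := algebraMap A Λ p • x
  map_add' x y := smul_add _ x y
  map_smul' c x := by
    rw [smul_smul, RingHom.id_apply, smul_smul, Algebra.commutes]

private theorem FORM_kil {A Λ : Type} [CommRing A] [Ring Λ] [Algebra A Λ] (c : A) (d : Λ)
    (h : ∃ y : Λ, y * d = algebraMap A Λ c) : Kil (Λ := Λ) c (Λ ⧸ Ideal.span {d}) := by
  intro x
  obtain ⟨x, rfl⟩ := Submodule.Quotient.mk_surjective _ x
  obtain ⟨y, hy⟩ := h
  rw [← Submodule.Quotient.mk_smul, Submodule.Quotient.mk_eq_zero, smul_eq_mul,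
    Algebra.commutes, ← hy, ← mul_assoc]
  exact Ideal.mem_span_singleton'.2 ⟨x * y, rfl⟩

/-- the trivial additive function -/
private def FORM_triv (A Λ : Type) [CommRing A] [Ring Λ] [Algebra A Λ] : TAdd A Λ ℤ where
  val := fun _ _ _ => 0
  add := fun _ _ _ _ _ _ _ _ _ _ _ _ _ _ _ _ _ _ => (add_zero 0).symm

private theorem FORM_vec {A : Type} [CommRing A] {a b : A} (c : Fin 4 → A) :
    ∑ i, algebraMap A ℍ[A,a,b] (c i) *
      (![⟨1, 0, 0, 0⟩, ⟨0, 1, 0, 0⟩, ⟨0, 0, 1, 0⟩, ⟨0, 0, 0, 1⟩] : Fin 4 → ℍ[A,a,b]) i =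
      ⟨c 0, c 1, c 2, c 3⟩ := by
  rw [Fin.sum_univ_four]
  simp only [QuaternionAlgebra.algebraMap_eq]
  ext <;> simp

theorem FORM {A : Type} [CommRing A] [IsDomain A] [IsNoetherianRing A]
    [UniqueFactorizationMonoid A] {a b : A} (ha : IsUnit a) (hb : IsUnit b) (h2 : IsUnit (2 : A))
    {Γ : Type 1} [AddCommGroup Γ] (ψ : NAdd ℍ[A,a,b] Γ)
    (hpn : ∀ (N : Type) [AddCommGroup N] [Module ℍ[A,a,b] N] [Module.Finite ℍ[A,a,b] N],
      PNull a b N → ψ.val N = 0) :
    ∃ t : A → Γ, (∀ q, 2 • t q = 0) ∧ (∀ q, Prime q → ¬ Spl a b q → t q = 0) ∧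
      (∀ q q', Associated q q' → t q = t q') ∧
      (∀ (d : ℍ[A,a,b]) (m : Multiset A), (∀ q ∈ m, Prime q) → Associated (nrm d) m.prod →
        (m.map t).sum = 0) ∧
      ∀ (N : Type) [AddCommGroup N] [Module ℍ[A,a,b] N] [Module.Finite ℍ[A,a,b] N],
        (∃ s : A, s ≠ 0 ∧ Kil (Λ := ℍ[A,a,b]) s N) →
          ψ.val N ∈ AddSubgroup.closure (t '' {q | Prime q}) := by
  classical
  -- the data at a prime element
  have hdat : ∀ q : A, ∃ (l : TAdd A ℍ[A,a,b] ℤ) (T : Γ), 2 • T = 0 ∧ (Prime q →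
      (∀ (N : Type) [AddCommGroup N] [Module ℍ[A,a,b] N] [Module.Finite ℍ[A,a,b] N] (s : A),
        ¬ q ∣ s → Kil (Λ := ℍ[A,a,b]) s N → l.val N = 0) ∧
      (∀ (N : Type) [AddCommGroup N] [Module ℍ[A,a,b] N] [Module.Finite ℍ[A,a,b] N],
        Kil (Λ := ℍ[A,a,b]) q N → ∀ (r : ℕ) (e : Fin r → N),
          (∀ c : Fin r → A, ∑ i, algebraMap A ℍ[A,a,b] (c i) • e i = 0 → ∀ i, q ∣ c i) →
          (∃ s : A, ¬ q ∣ s ∧ ∀ x : N, ∃ c : Fin r → A,
            algebraMap A ℍ[A,a,b] s • x = ∑ i, algebraMap A ℍ[A,a,b] (c i) • e i) →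
          l.val N = r) ∧
      (¬ Spl a b q → T = 0) ∧
      (∀ (N : Type) [AddCommGroup N] [Module ℍ[A,a,b] N] [Module.Finite ℍ[A,a,b] N],
        Kil (Λ := ℍ[A,a,b]) q N → ∃ r : ℕ, l.val N = 2 * r ∧ ψ.val N = r • T)) := by
    intro q
    by_cases hq : Prime q
    · obtain ⟨l, l0, l1, l2, l3⟩ := LEN (Λ := ℍ[A,a,b]) q hq
      obtain ⟨T, hT, hT1, hT2⟩ := TQ ha hb h2 ψ q hq l l0 l1 l2 l3 (by
        intro N _ _ _ hkq hks
        obtain ⟨s, hs, hks⟩ := hks
        refine hpn N ⟨⟨q, hq.ne_zero, hkq⟩, fun q' hq' => ?_⟩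
        by_cases h : q' ∣ q
        · have h1 : Associated q' q := hq'.associated_of_dvd hq h
          exact ⟨s, fun h2 => hs (h1.symm.dvd.trans h2), hks⟩
        · exact ⟨q, h, hkq⟩)
      exact ⟨l, T, hT, fun _ => ⟨l1, l3, hT1, hT2⟩⟩
    · exact ⟨FORM_triv A ℍ[A,a,b], 0, smul_zero _, fun h => absurd h hq⟩
  choose l T hT hdat' using hdat
  -- the main claim
  have hG : ∀ s : A, s ≠ 0 → ∀ (N : Type) [AddCommGroup N] [Module ℍ[A,a,b] N]
      [Module.Finite ℍ[A,a,b] N], Kil (Λ := ℍ[A,a,b]) s N → ∃ r : A →₀ ℕ,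
      (∀ q, r q ≠ 0 → Prime q ∧ FORM_rep q = q) ∧
      (∀ q, Prime q → FORM_rep q = q → (l q).val N = 2 * (r q : ℤ)) ∧
      ψ.val N = r.sum fun q n => n • T q := by
    intro s
    refine UniqueFactorizationMonoid.induction_on_prime s (fun h => absurd rfl h) ?_ ?_
    · intro u hu hu0 N _ _ _ hk
      have hnd : ∀ q, Prime q → ¬ q ∣ u := fun q hq h => hq.not_isUnit (isUnit_of_dvd_unit h hu)
      refine ⟨0, fun q h => absurd rfl h, fun q hq _ => ?_, ?_⟩
      · rw [(hdat' q hq).1 N u (hnd q hq) hk]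
        simp
      · rw [hpn N ⟨⟨u, hu0, hk⟩, fun q hq => ⟨u, hnd q hq, hk⟩⟩, Finsupp.sum_zero_index]
    · intro s' p hs' hp ih hps N _ _ _ hk
      have hp' := FORM_rep_prime hp
      obtain ⟨r', h1, h2, h3⟩ := ih hs' (LinearMap.range (FORM_mul (Λ := ℍ[A,a,b]) p N)) (by
        rintro ⟨x, y, rfl⟩
        refine Subtype.ext ?_
        show algebraMap A ℍ[A,a,b] s' • (algebraMap A ℍ[A,a,b] p • y) = 0
        rw [smul_smul, ← map_mul, mul_comm]
        exact hk y)
      have hkil : Kil (Λ := ℍ[A,a,b]) (FORM_rep p)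
          (N ⧸ LinearMap.range (FORM_mul (Λ := ℍ[A,a,b]) p N)) := by
        intro x
        obtain ⟨x, rfl⟩ := Submodule.Quotient.mk_surjective _ x
        rw [← Submodule.Quotient.mk_smul, Submodule.Quotient.mk_eq_zero]
        obtain ⟨u, hu⟩ := (FORM_rep_assoc p).symm.dvd
        refine ⟨algebraMap A ℍ[A,a,b] u • x, ?_⟩
        show algebraMap A ℍ[A,a,b] p • (algebraMap A ℍ[A,a,b] u • x) = _
        rw [smul_smul, ← map_mul, ← hu]
      obtain ⟨r0, h4, h5⟩ := (hdat' _ hp').2.2.2 _ hkil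
      have hex := LinearMap.exact_subtype_mkQ (LinearMap.range (FORM_mul (Λ := ℍ[A,a,b]) p N))
      have hi : Function.Injective (LinearMap.range (FORM_mul (Λ := ℍ[A,a,b]) p N)).subtype :=
        Submodule.injective_subtype _
      have hsu : Function.Surjective (LinearMap.range (FORM_mul (Λ := ℍ[A,a,b]) p N)).mkQ :=
        Submodule.mkQ_surjective _
      refine ⟨r' + Finsupp.single (FORM_rep p) r0, ?_, ?_, ?_⟩
      · intro q hq
        by_cases hqp : q = FORM_rep p
        · rw [hqp]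
          exact ⟨hp', FORM_rep_eq (FORM_rep_assoc p)⟩
        · refine h1 q fun h => hq ?_
          rw [Finsupp.add_apply, h, Finsupp.single_eq_of_ne hqp, add_zero]
      · intro q hq hqr
        rw [(l q).add _ _ _ _ _ hi hsu hex ⟨p * s', hps, hk⟩, h2 q hq hqr, Finsupp.add_apply]
        by_cases hqp : q = FORM_rep p
        · rw [hqp, h4, Finsupp.single_eq_same]
          push_cast
          ring
        · rw [Finsupp.single_eq_of_ne hqp, (hdat' q hq).1 _ (FORM_rep p) (fun h => hqp ?_) hkil]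
          · push_cast
            ring
          · have h6 : Associated q (FORM_rep p) := hq.associated_of_dvd hp' h
            rw [← hqr, FORM_rep_eq h6]
            exact FORM_rep_eq (FORM_rep_assoc p)
      · rw [ψ.add _ _ _ _ _ hi hsu hex, h3, h5,
          Finsupp.sum_add_index' (h := fun q n => n • T q) (fun q => zero_smul ℕ _)
            (fun q m n => add_smul m n _),
          Finsupp.sum_single_index (h := fun q n => n • T q) (zero_smul ℕ _)]
  -- the lengths of cyclic modules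
  have h4 : ∀ q p, Prime q → Associated q p →
      (l q).val (ℍ[A,a,b] ⧸ Ideal.span {algebraMap A ℍ[A,a,b] p}) = 4 := by
    intro q p hq hqp
    have hk : Kil (Λ := ℍ[A,a,b]) q (ℍ[A,a,b] ⧸ Ideal.span {algebraMap A ℍ[A,a,b] p}) := by
      refine FORM_kil q _ ?_
      obtain ⟨u, hu⟩ := hqp.symm.dvd
      exact ⟨algebraMap A ℍ[A,a,b] u, by rw [← map_mul, hu, mul_comm]⟩
    have hlin : ∀ c : Fin 4 → A, ∑ i, algebraMap A ℍ[A,a,b] (c i) •
        (Submodule.Quotient.mk ((![⟨1, 0, 0, 0⟩, ⟨0, 1, 0, 0⟩, ⟨0, 0, 1, 0⟩, ⟨0, 0, 0, 1⟩] :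
          Fin 4 → ℍ[A,a,b]) i) : ℍ[A,a,b] ⧸ Ideal.span {algebraMap A ℍ[A,a,b] p}) =
        Submodule.Quotient.mk (⟨c 0, c 1, c 2, c 3⟩ : ℍ[A,a,b]) := by
      intro c
      rw [← FORM_vec c]
      have : ∀ x : ℍ[A,a,b], (Submodule.Quotient.mk x :
          ℍ[A,a,b] ⧸ Ideal.span {algebraMap A ℍ[A,a,b] p}) =
          (Ideal.span {algebraMap A ℍ[A,a,b] p}).mkQ x := fun _ => rfl
      simp only [this]
      rw [map_sum]
      refine Finset.sum_congr rfl fun i _ => ?_
      rw [← smul_eq_mul, map_smul]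
    refine (hdat' q hq).2.1 _ hk 4 (fun i => Submodule.Quotient.mk ((![⟨1, 0, 0, 0⟩,
      ⟨0, 1, 0, 0⟩, ⟨0, 0, 1, 0⟩, ⟨0, 0, 0, 1⟩] : Fin 4 → ℍ[A,a,b]) i)) ?_ ?_
    · intro c hc
      rw [hlin c, Submodule.Quotient.mk_eq_zero] at hc
      obtain ⟨y, hy⟩ := Ideal.mem_span_singleton'.1 hc
      have hqp' : q ∣ p := hqp.dvd
      have e0 := congrArg QuaternionAlgebra.re hy
      have e1 := congrArg QuaternionAlgebra.imI hy
      have e2 := congrArg QuaternionAlgebra.imJ hy
      have e3 := congrArg QuaternionAlgebra.imK hy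
      simp only [QuaternionAlgebra.algebraMap_eq, QuaternionAlgebra.re_mul,
        QuaternionAlgebra.imI_mul, QuaternionAlgebra.imJ_mul, QuaternionAlgebra.imK_mul,
        mul_zero, add_zero, sub_zero, zero_add] at e0 e1 e2 e3
      intro i
      fin_cases i
      · show q ∣ c 0
        rw [← e0]
        exact hqp'.mul_left _
      · show q ∣ c 1
        rw [← e1]
        exact hqp'.mul_left _
      · show q ∣ c 2
        rw [← e2]
        exact hqp'.mul_left _
      · show q ∣ c 3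
        rw [← e3]
        exact hqp'.mul_left _
    · refine ⟨1, fun h => hq.not_isUnit (isUnit_of_dvd_one h), fun x => ?_⟩
      obtain ⟨x, rfl⟩ := Submodule.Quotient.mk_surjective _ x
      refine ⟨![x.re, x.imI, x.imJ, x.imK], ?_⟩
      rw [hlin, map_one, one_smul]
      rfl
  have hD : ∀ q, Prime q → FORM_rep q = q → ∀ m : Multiset A, (∀ p ∈ m, Prime p) →
      ∀ c, Associated c m.prod →
      (l q).val (ℍ[A,a,b] ⧸ Ideal.span {algebraMap A ℍ[A,a,b] c}) =
        4 * ((m.map FORM_rep).count q : ℤ) := by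
    intro q hq hqr m
    induction m using Multiset.induction_on with
    | empty =>
      intro _ c hc
      rw [Multiset.prod_zero] at hc
      have hcu : IsUnit c := hc.symm.isUnit isUnit_one
      rw [(hdat' q hq).1 _ c (fun h => hq.not_isUnit (isUnit_of_dvd_unit h hcu))
        (FORM_kil c _ ⟨1, one_mul _⟩)]
      simp
    | cons p m ih =>
      intro hm c hc
      have hp : Prime p := hm p (Multiset.mem_cons_self _ _)
      have hm' : ∀ p ∈ m, Prime p := fun p hp => hm p (Multiset.mem_cons_of_mem hp)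
      rw [Multiset.prod_cons] at hc
      obtain ⟨u, hu⟩ := hc.symm
      have hcc : c = p * (m.prod * u) := by rw [← hu, mul_assoc]
      have hc' : Associated (m.prod * (u : A)) m.prod := Associated.symm ⟨u, rfl⟩
      have hc0 : m.prod * (u : A) ≠ 0 := by
        refine mul_ne_zero ?_ u.ne_zero
        exact Multiset.prod_ne_zero fun h => (hm' 0 h).ne_zero rfl
      rw [hcc, map_mul, FD2 _ _ _ (by
          rw [nrm_algebraMap]
          exact pow_ne_zero _ hp.ne_zero) (by
          rw [nrm_algebraMap]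
          exact pow_ne_zero _ hc0), ih hm' _ hc', Multiset.map_cons, Multiset.count_cons]
      by_cases hqp : Associated q p
      · rw [h4 q p hq hqp, if_pos (by rw [← hqr]; exact FORM_rep_eq hqp)]
        push_cast
        ring
      · have h6 : ¬ q ∣ p := fun h => hqp (hq.associated_of_dvd hp h)
        rw [(hdat' q hq).1 _ p h6 (FORM_kil p _ ⟨1, one_mul _⟩), if_neg]
        · push_cast
          ring
        · intro h7
          exact hqp (h7 ▸ FORM_rep_assoc p)
  refine ⟨fun q => T (FORM_rep q), fun q => hT _, ?_, ?_, ?_, ?_⟩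
  · intro q hq hs
    exact (hdat' _ (FORM_rep_prime hq)).2.2.1 fun h => hs (FORM_Spl (FORM_rep_assoc q) h)
  · intro q q' h
    show T (FORM_rep q) = T (FORM_rep q')
    rw [FORM_rep_eq h]
  · intro d m hm hd
    have hm0 : m.prod ≠ 0 := Multiset.prod_ne_zero fun h => (hm 0 h).ne_zero rfl
    have hd0 : nrm d ≠ 0 := fun h => hm0 ((Associated.eq_zero_iff hd).1 h)
    obtain ⟨r, h1, h2', h3⟩ := hG (nrm d) hd0 (ℍ[A,a,b] ⧸ Ideal.span {d})
      (FORM_kil _ _ ⟨star d, star_mul_self' d⟩)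
    rw [FD0 ψ d hd0] at h3
    have hcount : ∀ q, Prime q → FORM_rep q = q → r q = (m.map FORM_rep).count q := by
      intro q hq hqr
      have e1 := FD ha.ne_zero hb.ne_zero h2.ne_zero (l q) d hd0
      rw [hD q hq hqr m hm _ hd, h2' q hq hqr] at e1
      have e2 : (2 : ℤ) * (2 * (r q : ℤ)) = 4 * ((m.map FORM_rep).count q : ℤ) := by
        rw [← e1]
        simp
      have e3 : (r q : ℤ) = ((m.map FORM_rep).count q : ℤ) := by linarith
      exact_mod_cast e3
    have e1 : (m.map fun q => T (FORM_rep q)) = (m.map FORM_rep).map T := by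
      rw [Multiset.map_map]
      rfl
    rw [e1, Finset.sum_multiset_map_count, h3]
    unfold Finsupp.sum
    have hmem : ∀ q, q ∈ m.map FORM_rep → Prime q ∧ FORM_rep q = q := by
      intro q hq
      obtain ⟨p, hp, rfl⟩ := Multiset.mem_map.1 hq
      exact ⟨FORM_rep_prime (hm p hp), FORM_rep_eq (FORM_rep_assoc p)⟩
    have hset : (m.map FORM_rep).toFinset = r.support := by
      ext q
      rw [Multiset.mem_toFinset, Finsupp.mem_support_iff]
      constructor
      · intro hq
        obtain ⟨h4, h5⟩ := hmem q hq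
        rw [hcount q h4 h5]
        exact (Multiset.count_pos.2 hq).ne'
      · intro hq
        obtain ⟨h4, h5⟩ := h1 q hq
        rw [hcount q h4 h5] at hq
        exact Multiset.count_pos.1 (Nat.pos_of_ne_zero hq)
    rw [hset]
    refine Finset.sum_congr rfl fun q hq => ?_
    obtain ⟨h4, h5⟩ := h1 q (Finsupp.mem_support_iff.1 hq)
    rw [hcount q h4 h5]
  · rintro N _ _ _ ⟨s, hs, hk⟩
    obtain ⟨r, h1, -, h3⟩ := hG s hs N hk
    rw [h3]
    unfold Finsupp.sum
    refine AddSubgroup.sum_mem _ fun q hq => ?_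
    obtain ⟨h4, h5⟩ := h1 q (Finsupp.mem_support_iff.1 hq)
    have h6 : T q ∈ (fun q => T (FORM_rep q)) '' {q | Prime q} := by
      refine ⟨q, h4, ?_⟩
      show T (FORM_rep q) = T q
      rw [h5]
    exact AddSubgroup.nsmul_mem _ (AddSubgroup.subset_closure h6) _

end Pool.Agent.QCB
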