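import Pool.Agent.QCB.QB

/-!
# QCB, module GLOC: `GFG` and localization

Proof. For an `ℍ[A,a,b]`-module `N` the localization `N_s` (`LocalizedModule (Submonoid.powers s) N`) is a `B`-module with
operators `i`, `j`, `k` (functoriality), so an `ℍ[B,a,b]`-module: `x • n = x₀ n + x₁ i n + x₂ j n + x₃ k n`. It is exact in
`N`. `ψ'(N) = ψ(N_s)` is additive. Every finitely generated `ℍ[B,a,b]`-module `M` is `N_s` for `N` = the `ℍ[A,a,b]`-span of
generators.
-/

set_option autoImplicit false

namespace Pool.Agent.QCB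

open Quaternion QuaternionAlgebra TensorProduct

section defs

variable {A : Type} [CommRing A] {a b : A} (B : Type) [CommRing B] [Algebra A B]

/-- the ring homomorphism between the quaternion algebras -/
def GLOCphi (a b : A) : ℍ[A,a,b] →ₐ[A] ℍ[B,algebraMap A B a,algebraMap A B b] :=
  (QuaternionAlgebra.lift (R := A) (A := ℍ[B,algebraMap A B a,algebraMap A B b])
    { i := ⟨0, 1, 0, 0⟩
      j := ⟨0, 0, 1, 0⟩
      k := ⟨0, 0, 0, 1⟩
      i_mul_i := by ext <;> simp [Algebra.algebraMap_eq_smul_one]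
      j_mul_j := by ext <;> simp [Algebra.algebraMap_eq_smul_one]
      i_mul_j := by ext <;> simp
      j_mul_i := by ext <;> simp })

theorem GLOCphi_am (r : A) :
    algebraMap A ℍ[B,algebraMap A B a,algebraMap A B b] r = ⟨algebraMap A B r, 0, 0, 0⟩ := rfl

theorem GLOCphi_apply (x : ℍ[A,a,b]) :
    GLOCphi B a b x = ⟨algebraMap A B x.re, algebraMap A B x.imI, algebraMap A B x.imJ,
      algebraMap A B x.imK⟩ := by
  show algebraMap A ℍ[B,algebraMap A B a,algebraMap A B b] x.re + x.imI • (⟨0, 1, 0, 0⟩ : ℍ[B,algebraMap A B a,algebraMap A B b])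
    + x.imJ • (⟨0, 0, 1, 0⟩ : ℍ[B,algebraMap A B a,algebraMap A B b]) + x.imK • (⟨0, 0, 0, 1⟩ : ℍ[B,algebraMap A B a,algebraMap A B b]) = _
  rw [GLOCphi_am]
  ext <;> simp [Algebra.algebraMap_eq_smul_one]

variable (N : Type) [AddCommGroup N] [Module A N] [Module ℍ[A,a,b] N] [IsScalarTower A ℍ[A,a,b] N]

/-- the operators on the scalar extension -/
noncomputable def GLOCop (a b : A) (N : Type) [AddCommGroup N] [Module A N] [Module ℍ[A,a,b] N]
    [IsScalarTower A ℍ[A,a,b] N] : ℍ[A,a,b] →ₐ[A] Module.End B (B ⊗[A] N) :=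
  (Module.End.baseChangeHom A B N).comp (Algebra.lsmul A A N)

variable {N} in
theorem GLOCop_tmul (x : ℍ[A,a,b]) (c : B) (n : N) :
    GLOCop B a b N x (c ⊗ₜ[A] n) = c ⊗ₜ[A] (x • n) := rfl

/-- the basis of operators -/
noncomputable def GLOCbb (a b : A) (N : Type) [AddCommGroup N] [Module A N] [Module ℍ[A,a,b] N]
    [IsScalarTower A ℍ[A,a,b] N] :
    Basis (Module.End B (B ⊗[A] N)) (algebraMap A B a) 0 (algebraMap A B b) :=
  let q := (Basis.self A).compHom (GLOCop B a b N)
  { i := q.i
    j := q.j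
    k := q.k
    i_mul_i := by rw [q.i_mul_i, algebraMap_smul, zero_smul, zero_smul]
    j_mul_j := by rw [q.j_mul_j, algebraMap_smul]
    i_mul_j := q.i_mul_j
    j_mul_i := by rw [q.j_mul_i, zero_smul, zero_smul] }

/-- the module structure on the scalar extension -/
@[reducible] noncomputable def GLOCmod (a b : A) (N : Type) [AddCommGroup N] [Module A N]
    [Module ℍ[A,a,b] N] [IsScalarTower A ℍ[A,a,b] N] :
    Module ℍ[B,algebraMap A B a,algebraMap A B b] (B ⊗[A] N) :=
  Module.compHom _ (QuaternionAlgebra.lift (GLOCbb B a b N)).toRingHom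

attribute [local instance] GLOCmod

variable {N} in
theorem GLOCsmul (x : ℍ[B,algebraMap A B a,algebraMap A B b]) (c : B) (n : N) :
    x • (c ⊗ₜ[A] n) = (x.re * c) ⊗ₜ[A] n + (x.imI * c) ⊗ₜ[A] ((⟨0, 1, 0, 0⟩ : ℍ[A,a,b]) • n) +
      (x.imJ * c) ⊗ₜ[A] ((⟨0, 0, 1, 0⟩ : ℍ[A,a,b]) • n) +
      (x.imK * c) ⊗ₜ[A] ((⟨0, 0, 0, 1⟩ : ℍ[A,a,b]) • n) := by
  rfl

theorem GLOCphi_smul (x : ℍ[A,a,b]) (m : B ⊗[A] N) :
    GLOCphi B a b x • m = GLOCop B a b N x m := by
  induction m using TensorProduct.induction_on with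
  | zero => rw [smul_zero, map_zero]
  | add u v hu hv => rw [smul_add, map_add, hu, hv]
  | tmul c n =>
    rw [GLOCphi_apply, GLOCsmul, GLOCop_tmul]
    simp only [← Algebra.smul_def, TensorProduct.smul_tmul, ← TensorProduct.tmul_add, ← smul_assoc]
    rw [← algebraMap_smul ℍ[A,a,b] x.re n, ← add_smul, ← add_smul, ← add_smul]
    congr 2
    ext <;> simp

/-- scalars of `B` -/
theorem GLOCB_smul (c : B) (m : B ⊗[A] N) :
    (algebraMap B ℍ[B,algebraMap A B a,algebraMap A B b] c) • m = c • m := by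
  induction m using TensorProduct.induction_on with
  | zero => rw [smul_zero, smul_zero]
  | add u v hu hv => rw [smul_add, smul_add, hu, hv]
  | tmul d n =>
    rw [GLOCsmul, QuaternionAlgebra.algebraMap_eq]
    simp [TensorProduct.smul_tmul']

variable {N}
variable {N' : Type} [AddCommGroup N'] [Module A N'] [Module ℍ[A,a,b] N'] [IsScalarTower A ℍ[A,a,b] N']

/-- functoriality -/
noncomputable def GLOCmap (f : N →ₗ[ℍ[A,a,b]] N') :
    (B ⊗[A] N) →ₗ[ℍ[B,algebraMap A B a,algebraMap A B b]] (B ⊗[A] N') :=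
  { (f.restrictScalars A).lTensor B with
    map_smul' := fun x m => by
      show (f.restrictScalars A).lTensor B (x • m) = x • (f.restrictScalars A).lTensor B m
      induction m using TensorProduct.induction_on with
      | zero => simp
      | add u v hu hv => rw [smul_add, map_add, hu, hv, map_add, smul_add]
      | tmul d n =>
        rw [GLOCsmul, LinearMap.lTensor_tmul, GLOCsmul]
        simp }

theorem GLOCmap_coe (f : N →ₗ[ℍ[A,a,b]] N') :
    ⇑(GLOCmap B f) = (f.restrictScalars A).lTensor B := rfl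

theorem GLOCfin [Module.Finite ℍ[A,a,b] N] :
    Module.Finite ℍ[B,algebraMap A B a,algebraMap A B b] (B ⊗[A] N) := by
  classical
  obtain ⟨S, hS⟩ := Module.Finite.fg_top (R := ℍ[A,a,b]) (M := N)
  refine ⟨⟨S.image (fun n => (1 : B) ⊗ₜ[A] n), ?_⟩⟩
  rw [eq_top_iff]
  rintro m -
  set P := Submodule.span ℍ[B,algebraMap A B a,algebraMap A B b]
    (S.image (fun n => (1 : B) ⊗ₜ[A] n) : Set (B ⊗[A] N)) with hP
  have h1 : ∀ n : N, (1 : B) ⊗ₜ[A] n ∈ P := by
    intro n
    have hn : n ∈ Submodule.span ℍ[A,a,b] (S : Set N) := hS ▸ Submodule.mem_top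
    induction hn using Submodule.span_induction with
    | mem x hx =>
      refine Submodule.subset_span ?_
      simp only [Finset.coe_image]
      exact ⟨x, hx, rfl⟩
    | zero => rw [TensorProduct.tmul_zero]; exact zero_mem _
    | add x y _ _ hx hy => rw [TensorProduct.tmul_add]; exact add_mem hx hy
    | smul r x _ hx =>
      rw [← GLOCop_tmul, ← GLOCphi_smul]
      exact P.smul_mem _ hx
  induction m using TensorProduct.induction_on with
  | zero => exact zero_mem _
  | add u v hu hv => exact add_mem hu hv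
  | tmul c n =>
    have : c ⊗ₜ[A] n = (algebraMap B ℍ[B,algebraMap A B a,algebraMap A B b] c) •
        ((1 : B) ⊗ₜ[A] n) := by
      rw [GLOCB_smul, TensorProduct.smul_tmul', smul_eq_mul, mul_one]
    rw [this]
    exact P.smul_mem _ (h1 n)

/-- the comparison map for a submodule of an `ℍ[B]`-module -/
theorem GLOCcmp (s : A) [IsLocalization.Away s B] (M : Type) [AddCommGroup M] [Module B M]
    [Module ℍ[B,algebraMap A B a,algebraMap A B b] M]
    [IsScalarTower B ℍ[B,algebraMap A B a,algebraMap A B b] M]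
    (i : N →+ M) (hi : Function.Injective i)
    (hl : ∀ (x : ℍ[A,a,b]) (n : N), i (x • n) = GLOCphi B a b x • i n)
    (hs : Submodule.span ℍ[B,algebraMap A B a,algebraMap A B b] (Set.range i) = ⊤) :
    ∃ e : (B ⊗[A] N) →ₗ[ℍ[B,algebraMap A B a,algebraMap A B b]] M,
      Function.Bijective e := by
  let _ : Module A M := Module.compHom M (algebraMap A B)
  have _ : IsScalarTower A B M := ⟨fun r x m => by
    rw [Algebra.smul_def, mul_smul]; rfl⟩
  have hA : ∀ (r : A) (n : N), i (r • n) = r • i n := by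
    intro r n
    rw [← algebraMap_smul ℍ[A,a,b] r n, hl, AlgHom.commutes,
      IsScalarTower.algebraMap_apply A B ℍ[B,algebraMap A B a,algebraMap A B b], algebraMap_smul,
      algebraMap_smul]
  let iA : N →ₗ[A] M := { i with map_smul' := hA }
  let g : (B ⊗[A] N) →ₗ[B] M := iA.liftBaseChange B
  have hg : ∀ (c : B) (n : N), g (c ⊗ₜ[A] n) = c • i n := fun c n => rfl
  have hgl : ∀ (x : ℍ[B,algebraMap A B a,algebraMap A B b]) (m : B ⊗[A] N),
      g (x • m) = x • g m := by
    intro x m
    induction m using TensorProduct.induction_on with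
    | zero => rw [smul_zero, map_zero, smul_zero]
    | add u v hu hv => rw [smul_add, map_add, hu, hv, map_add, smul_add]
    | tmul c n =>
      rw [GLOCsmul, map_add, map_add, map_add, hg, hg, hg, hg, hg, hl, hl, hl]
      simp only [GLOCphi_apply, map_zero, map_one]
      generalize i n = y
      rw [← algebraMap_smul ℍ[B,algebraMap A B a,algebraMap A B b] (x.re * c) y,
        ← algebraMap_smul ℍ[B,algebraMap A B a,algebraMap A B b] c y,
        ← algebraMap_smul ℍ[B,algebraMap A B a,algebraMap A B b] (x.imI * c),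
        ← algebraMap_smul ℍ[B,algebraMap A B a,algebraMap A B b] (x.imJ * c),
        ← algebraMap_smul ℍ[B,algebraMap A B a,algebraMap A B b] (x.imK * c),
        ← mul_smul, ← mul_smul, ← mul_smul, ← mul_smul, ← add_smul, ← add_smul, ← add_smul]
      congr 1
      rw [QuaternionAlgebra.algebraMap_eq, QuaternionAlgebra.algebraMap_eq,
        QuaternionAlgebra.algebraMap_eq, QuaternionAlgebra.algebraMap_eq,
        QuaternionAlgebra.algebraMap_eq]
      ext <;> simp
  refine ⟨{ g with map_smul' := hgl }, ?_, ?_⟩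
  · rw [injective_iff_map_eq_zero]
    intro m hm
    have hm' : g m = 0 := hm
    have hloc : IsLocalizedModule (Submonoid.powers s) (TensorProduct.mk A B N 1) :=
      (isLocalizedModule_iff_isBaseChange (Submonoid.powers s) B _).2
        (TensorProduct.isBaseChange A N B)
    obtain ⟨⟨n, t⟩, hn⟩ := hloc.surj m
    have hn' : t.1 • m = (1 : B) ⊗ₜ[A] n := hn
    have h1 : i n = 0 := by
      rw [← one_smul B (i n), ← hg, ← hn', ← algebraMap_smul B t.1 m, map_smul, hm', smul_zero]
    have h2 : n = 0 := hi (by rw [h1, map_zero])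
    rw [h2, TensorProduct.tmul_zero] at hn'
    have h3 : IsUnit (algebraMap A B t.1) := IsLocalization.map_units B t
    rw [← algebraMap_smul B t.1 m] at hn'
    exact (h3.smul_eq_zero).1 hn'
  · intro y
    have hy : y ∈ Submodule.span ℍ[B,algebraMap A B a,algebraMap A B b] (Set.range i) :=
      hs ▸ Submodule.mem_top
    induction hy using Submodule.span_induction with
    | mem x hx =>
      obtain ⟨n, rfl⟩ := hx
      exact ⟨(1 : B) ⊗ₜ[A] n, by show g _ = _; rw [hg, one_smul]⟩
    | zero => exact ⟨0, map_zero _⟩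
    | add x y _ _ hx hy =>
      obtain ⟨u, rfl⟩ := hx
      obtain ⟨v, rfl⟩ := hy
      exact ⟨u + v, map_add _ _ _⟩
    | smul r x _ hx =>
      obtain ⟨u, rfl⟩ := hx
      exact ⟨r • u, hgl r u⟩

end defs

section main

variable {A B : Type} [CommRing A] [CommRing B] [Algebra A B] {a b : A} {Γ : Type 1}
  [AddCommGroup Γ]

theorem GLOC_zero {Λ : Type} [Ring Λ] (ψ : NAdd Λ Γ) : ψ.val PUnit = 0 := by
  have h := ψ.add PUnit PUnit PUnit 0 0 (Function.injective_of_subsingleton _)
    (Function.surjective_to_subsingleton _) (fun y => ⟨fun _ => ⟨y, rfl⟩, fun _ => rfl⟩)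
  exact left_eq_add.1 h

theorem GLOC_equiv {Λ : Type} [Ring Λ] (ψ : NAdd Λ Γ) (N M : Type) [AddCommGroup N] [Module Λ N]
    [AddCommGroup M] [Module Λ M] [Module.Finite Λ N] [Module.Finite Λ M] (e : N →ₗ[Λ] M)
    (he : Function.Bijective e) : ψ.val N = ψ.val M := by
  have h := ψ.add PUnit N M 0 e (Function.injective_of_subsingleton _) he.2
    (fun y => ⟨fun h => ⟨0, by
      rw [LinearMap.zero_apply]
      exact (he.1 (by rw [h, map_zero])).symm⟩, by
        rintro ⟨x, rfl⟩
        rw [LinearMap.zero_apply, map_zero]⟩)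
  rw [h, GLOC_zero, zero_add]

/-- the `A`-module underlying an `ℍ[A,a,b]`-module -/
@[reducible] def GLOCmA (a b : A) (N : Type) [AddCommGroup N] [Module ℍ[A,a,b] N] : Module A N :=
  Module.compHom N (algebraMap A ℍ[A,a,b])

theorem GLOCtower (a b : A) (N : Type) [AddCommGroup N] [Module ℍ[A,a,b] N] :
    letI := GLOCmA a b N
    IsScalarTower A ℍ[A,a,b] N := by
  letI := GLOCmA a b N
  exact ⟨fun r x n => by rw [Algebra.smul_def, mul_smul]; rfl⟩

/-- the induced additive function -/
noncomputable def GLOCind (s : A) [IsLocalization.Away s B]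
    (ψ : NAdd ℍ[B,algebraMap A B a,algebraMap A B b] Γ) : NAdd ℍ[A,a,b] Γ where
  val := fun N i1 i2 =>
    @NAdd.val ℍ[B,algebraMap A B a,algebraMap A B b] _ Γ _ ψ
      (@TensorProduct A _ B N _ _ _ (@GLOCmA A _ a b N i1 i2))
      (@TensorProduct.addCommGroup A _ B N _ _ _ (@GLOCmA A _ a b N i1 i2))
      (@GLOCmod A _ B _ _ a b N i1 (@GLOCmA A _ a b N i1 i2) i2 (@GLOCtower A _ a b N i1 i2))
  add := by
    intro N' N N'' _ _ _ _ _ _ _ _ _ f g hf hg hfg
    let _ : Module A N' := GLOCmA a b N'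
    let _ : Module A N := GLOCmA a b N
    let _ : Module A N'' := GLOCmA a b N''
    have _ : IsScalarTower A ℍ[A,a,b] N' := GLOCtower a b N'
    have _ : IsScalarTower A ℍ[A,a,b] N := GLOCtower a b N
    have _ : IsScalarTower A ℍ[A,a,b] N'' := GLOCtower a b N''
    let _ := GLOCmod B a b N'
    let _ := GLOCmod B a b N
    let _ := GLOCmod B a b N''
    have _ : Module.Finite ℍ[B,algebraMap A B a,algebraMap A B b] (B ⊗[A] N') := GLOCfin B
    have _ : Module.Finite ℍ[B,algebraMap A B a,algebraMap A B b] (B ⊗[A] N) := GLOCfin B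
    have _ : Module.Finite ℍ[B,algebraMap A B a,algebraMap A B b] (B ⊗[A] N'') := GLOCfin B
    have _ : Module.Flat A B := IsLocalization.flat B (Submonoid.powers s)
    refine ψ.add (B ⊗[A] N') (B ⊗[A] N) (B ⊗[A] N'') (GLOCmap B f) (GLOCmap B g) ?_ ?_ ?_
    · rw [GLOCmap_coe]
      exact Module.Flat.lTensor_preserves_injective_linearMap _ hf
    · rw [GLOCmap_coe]
      exact LinearMap.lTensor_surjective _ hg
    · rw [GLOCmap_coe, GLOCmap_coe]
      exact lTensor_exact B (f := f.restrictScalars A) (g := g.restrictScalars A) hfg hg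

end main

theorem GLOC {A B : Type} [CommRing A] [CommRing B] [Algebra A B] [IsNoetherianRing A] (s : A)
    [IsLocalization.Away s B] (a b : A) (h : GFG ℍ[A,a,b]) :
    GFG ℍ[B,algebraMap A B a,algebraMap A B b] := by
  intro Γ _ ψ
  obtain ⟨H, hH, hval⟩ := h Γ (GLOCind s ψ)
  refine ⟨H, hH, ?_⟩
  intro M _ _ _
  let _ : Module B M := Module.compHom M (algebraMap B ℍ[B,algebraMap A B a,algebraMap A B b])
  have _ : IsScalarTower B ℍ[B,algebraMap A B a,algebraMap A B b] M :=
    ⟨fun r x n => by rw [Algebra.smul_def, mul_smul]; rfl⟩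
  let _ : Module ℍ[A,a,b] M := Module.compHom M (GLOCphi B a b).toRingHom
  obtain ⟨S, hS⟩ := Module.Finite.fg_top (R := ℍ[B,algebraMap A B a,algebraMap A B b]) (M := M)
  let N : Submodule ℍ[A,a,b] M := Submodule.span ℍ[A,a,b] (S : Set M)
  have _ : Module.Finite ℍ[A,a,b] N := Module.Finite.span_finset _ S
  let _ : Module A N := GLOCmA a b N
  have _ : IsScalarTower A ℍ[A,a,b] N := GLOCtower a b N
  let _ := GLOCmod B a b N
  have _ : Module.Finite ℍ[B,algebraMap A B a,algebraMap A B b] (B ⊗[A] N) := GLOCfin B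
  obtain ⟨e, he⟩ := GLOCcmp (a := a) (b := b) B (N := N) s M N.subtype.toAddMonoidHom
    N.injective_subtype (fun x n => rfl) (by
      rw [eq_top_iff, ← hS]
      refine Submodule.span_mono ?_
      intro y hy
      exact ⟨⟨y, Submodule.subset_span hy⟩, rfl⟩)
  rw [← GLOC_equiv ψ _ M e he]
  exact hval N

end Pool.Agent.QCB
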