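import Pool.Agent.QCB.QB
import Pool.Agent.C2M.Main

/-!
# QCB, module LM: Lemma M for quaternion algebras
-/

set_option autoImplicit false

namespace Pool.Agent.QCB

open Quaternion QuaternionAlgebra Polynomial

/-- the statement of Lemma M (block C2M) -/
def LemmaM (L : Type) [Field L] : Prop :=
  ∀ (a b h : L[X]) (c : L), Squarefree a → Squarefree b → Squarefree h → IsCoprime a b →
    IsCoprime h (a * b) → (a * b * h).eval c ≠ 0 → (∀ x : ℍ[L[X],a,b], nrm x = 0 → x = 0) →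
    (∀ P, Irreducible P → P ∣ h → Spl a b P) →
    (∀ Q, Irreducible Q → Q ∣ a → ∃ u v : L[X], Q ∣ u ^ 2 - b * v ^ 2 - h) →
    (∀ Q, Irreducible Q → Q ∣ b → ∃ u v : L[X], Q ∣ u ^ 2 - a * v ^ 2 - h) →
    (∃ w : ℍ[L,a.eval c,b.eval c], nrm w = h.eval c) →
    ∃ (d : ℍ[L[X],a,b]) (g : L[X]), g ≠ 0 ∧ nrm d = h * g ^ 2

theorem lemmaM (L : Type) [Field L] : LemmaM L := by
  intro a b h c ha hb hh hab hhab hc hN hP hQa hQb hcn
  obtain ⟨v, g, hg, hv⟩ := Pool.C2M.lemmaM a b h ha hb hh hab hhab c hc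
    (fun p hp => by
      have h1 := hN ⟨p 0, p 1, p 2, p 3⟩ hp
      have e0 := congrArg QuaternionAlgebra.re h1
      have e1 := congrArg QuaternionAlgebra.imI h1
      have e2 := congrArg QuaternionAlgebra.imJ h1
      have e3 := congrArg QuaternionAlgebra.imK h1
      funext i
      fin_cases i
      · exact e0
      · exact e1
      · exact e2
      · exact e3)
    (fun P hPi hPh => by
      obtain ⟨z, hz, hz2⟩ := hP P hPi hPh
      refine ⟨![z.re, z.imI, z.imJ, z.imK], fun hall => hz ⟨?_, ?_, ?_, ?_⟩, ?_⟩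
      · exact hall 0
      · exact hall 1
      · exact hall 2
      · exact hall 3
      · exact hz2)
    hQa hQb
    (by
      obtain ⟨w, hw⟩ := hcn
      exact ⟨![w.re, w.imI, w.imJ, w.imK], hw⟩)
  exact ⟨⟨v 0, v 1, v 2, v 3⟩, g, hg, hv⟩

end Pool.Agent.QCB
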