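import Pool.Agent.QCB.Dat
import Pool.Agent.QCB.CW

/-!
# QCB, module NRM: norms from quadratic extensions and from quaternion orders over a PID

Proof of `NRM2`. If `b = β²`: `h = x² - b y²` with `x = (h + 1) / 2`, `y = (h - 1) / (2 β)`. Otherwise
`O' = AdjoinRoot (X² - C b)` is a principal ideal domain; `h` is a unit times a product of primes. A
prime `𝔮` with `b` a nonsquare mod `𝔮` occurs to an even power, `𝔮² = 𝔮² - b 0²`. If
`b = β² mod 𝔮`: `(𝔮, √b - β) = (λ)`, `𝔮 = λ μ`, so `𝔮² = N(λ) N(μ)`; `N(λ)` is not a unit (else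
`(𝔮, √b - β) = 1`, but `O' / (𝔮, √b - β) = O / 𝔮`), `N(μ)` is not a unit (else `(λ) = (𝔮)`, which does not
contain `√b - β`), so `N(λ) = unit 𝔮`. Norms are multiplicative.
Proof of `NRM4`. If `nrm` is isotropic: universal (`isotropic_univ` in module CW, or directly
`h = nrm d / m²`). Otherwise `Λ = ℍ[R,a,b]` is a left principal ideal ring. For a prime `π`: `R / π` is a
finite field, so some `z`, not divisible by `π`, has `π ∣ nrm z` (`FiniteField.exists_root_sum_quadratic`);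
`Λ π + Λ z = Λ w`, `π = μ w`, `π² = nrm μ nrm w`, and as before `nrm w = unit π`.
-/

set_option autoImplicit false

namespace Pool.Agent.QCB

open Quaternion QuaternionAlgebra Polynomial

/-- the even valuation condition for the quotient by a factor with even valuation -/
private theorem NRM_even {O : Type} [CommRing O] [IsDomain O] [IsPrincipalIdealRing O] {q c h : O}
    (hq : Prime q) {j k : ℕ} (hj : emultiplicity q c = ((2 * j : ℕ) : ℕ∞))
    (hk : q ^ (2 * k) ∣ c * h ∧ ¬ q ^ (2 * k + 1) ∣ c * h) :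
    ∃ i : ℕ, q ^ (2 * i) ∣ h ∧ ¬ q ^ (2 * i + 1) ∣ h := by
  have h1 : emultiplicity q (c * h) = ((2 * k : ℕ) : ℕ∞) := emultiplicity_eq_coe.mpr hk
  rw [emultiplicity_mul hq, hj] at h1
  have h2 : emultiplicity q h ≠ ⊤ := by
    intro h3
    rw [h3, add_top] at h1
    exact ENat.top_ne_coe _ h1
  obtain ⟨n, hn⟩ := ENat.ne_top_iff_exists.mp h2
  rw [← hn] at h1
  have h3 : 2 * j + n = 2 * k := by exact_mod_cast h1
  refine ⟨k - j, ?_⟩
  rw [← emultiplicity_eq_coe, ← hn]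
  congr 1
  omega

section quad

variable {O : Type} [CommRing O]

private theorem NRM_surj [Nontrivial O] (b : O) (z : AdjoinRoot (X ^ 2 - C b : O[X])) :
    ∃ x y : O, z = AdjoinRoot.of _ x + AdjoinRoot.of _ y * AdjoinRoot.root _ := by
  have hm : (X ^ 2 - C b : O[X]).Monic := monic_X_pow_sub_C b (by norm_num)
  have hd : (X ^ 2 - C b : O[X]).natDegree = 2 := natDegree_X_pow_sub_C
  obtain ⟨p, rfl⟩ := AdjoinRoot.mk_surjective z
  have h1 : AdjoinRoot.mk (X ^ 2 - C b : O[X]) p =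
      AdjoinRoot.mk (X ^ 2 - C b : O[X]) (p %ₘ (X ^ 2 - C b)) := by
    conv_lhs => rw [← modByMonic_add_div p (X ^ 2 - C b : O[X])]
    rw [map_add, map_mul, AdjoinRoot.mk_self, zero_mul, add_zero]
  have h2 : (p %ₘ (X ^ 2 - C b)).natDegree ≤ 1 := by
    have := natDegree_modByMonic_lt p hm (by
      intro h
      rw [h] at hd
      simp at hd)
    rw [hd] at this
    omega
  obtain ⟨y, x, hxy⟩ := exists_eq_X_add_C_of_natDegree_le_one h2
  refine ⟨x, y, ?_⟩
  rw [h1, hxy, map_add, map_mul, AdjoinRoot.mk_C, AdjoinRoot.mk_C, AdjoinRoot.mk_X, add_comm]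

private theorem NRM_inj [Nontrivial O] (b : O) {x y : O}
    (h : AdjoinRoot.of (X ^ 2 - C b : O[X]) x + AdjoinRoot.of _ y * AdjoinRoot.root _ = 0) :
    x = 0 ∧ y = 0 := by
  have hm : (X ^ 2 - C b : O[X]).Monic := monic_X_pow_sub_C b (by norm_num)
  have hd : (X ^ 2 - C b : O[X]).natDegree = 2 := natDegree_X_pow_sub_C
  have h1 : AdjoinRoot.mk (X ^ 2 - C b : O[X]) (C y * X + C x) = 0 := by
    rw [map_add, map_mul, AdjoinRoot.mk_C, AdjoinRoot.mk_C, AdjoinRoot.mk_X, add_comm]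
    exact h
  rw [AdjoinRoot.mk_eq_zero] at h1
  have h2 : C y * X + C x = 0 := by
    by_contra h0
    refine hm.not_dvd_of_natDegree_lt h0 ?_ h1
    rw [hd]
    exact lt_of_le_of_lt natDegree_linear_le (by norm_num)
  constructor
  · have := congrArg (fun p => coeff p 0) h2
    simpa using this
  · have := congrArg (fun p => coeff p 1) h2
    simpa [coeff_C] using this

private theorem NRM_root (b : O) :
    AdjoinRoot.root (X ^ 2 - C b : O[X]) * AdjoinRoot.root _ = AdjoinRoot.of _ b := by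
  have h := AdjoinRoot.eval₂_root (X ^ 2 - C b : O[X])
  rw [eval₂_sub, eval₂_X_pow, eval₂_C] at h
  rw [← sq]
  exact sub_eq_zero.mp h

private theorem NRM_mul (b x y x' y' : O) :
    (AdjoinRoot.of (X ^ 2 - C b : O[X]) x + AdjoinRoot.of _ y * AdjoinRoot.root _) *
      (AdjoinRoot.of (X ^ 2 - C b : O[X]) x' + AdjoinRoot.of _ y' * AdjoinRoot.root _) =
    AdjoinRoot.of _ (x * x' + b * (y * y')) +
      AdjoinRoot.of _ (x * y' + y * x') * AdjoinRoot.root _ := by
  simp only [map_add, map_mul]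
  linear_combination (AdjoinRoot.of (X ^ 2 - C b : O[X]) y *
    AdjoinRoot.of (X ^ 2 - C b : O[X]) y') * NRM_root b

private theorem NRM_ext [Nontrivial O] (b : O) {x y x' y' : O}
    (h : AdjoinRoot.of (X ^ 2 - C b : O[X]) x + AdjoinRoot.of _ y * AdjoinRoot.root _ =
      AdjoinRoot.of _ x' + AdjoinRoot.of _ y' * AdjoinRoot.root _) : x = x' ∧ y = y' := by
  have h1 : AdjoinRoot.of (X ^ 2 - C b : O[X]) (x - x') +
      AdjoinRoot.of _ (y - y') * AdjoinRoot.root _ = 0 := by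
    rw [map_sub, map_sub]
    linear_combination h
  obtain ⟨h2, h3⟩ := NRM_inj b h1
  exact ⟨sub_eq_zero.mp h2, sub_eq_zero.mp h3⟩

/-- an element of unit norm is a unit -/
private theorem NRM_unit (b x y : O) (h : IsUnit (x ^ 2 - b * y ^ 2)) :
    ∃ x' y' : O, (AdjoinRoot.of (X ^ 2 - C b : O[X]) x + AdjoinRoot.of _ y * AdjoinRoot.root _) *
      (AdjoinRoot.of (X ^ 2 - C b : O[X]) x' + AdjoinRoot.of _ y' * AdjoinRoot.root _) = 1 := by
  obtain ⟨e, he⟩ := h.exists_right_inv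
  refine ⟨x * e, -y * e, ?_⟩
  rw [NRM_mul]
  have e1 : x * (x * e) + b * (y * (-y * e)) = 1 := by linear_combination he
  have e2 : x * (-y * e) + y * (x * e) = 0 := by ring
  rw [e1, e2, map_one, map_zero, zero_mul, add_zero]

end quad

/-- a prime modulo which `b` is a square is a norm -/
private theorem NRM_good {O : Type} [CommRing O] [IsDomain O] [IsPrincipalIdealRing O] (b : O)
    (hP : IsPrincipalIdealRing (AdjoinRoot (X ^ 2 - C b : O[X]))) (q β : O) (hq : Prime q)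
    (hβ : q ∣ b - β ^ 2) : ∃ (u : Oˣ) (x y : O), q = u * (x ^ 2 - b * y ^ 2) := by
  obtain ⟨⟨lam, hlam⟩⟩ := hP.principal (Ideal.span
    {AdjoinRoot.of (X ^ 2 - C b : O[X]) q,
      AdjoinRoot.root (X ^ 2 - C b : O[X]) - AdjoinRoot.of _ β})
  have hlam' : Ideal.span {AdjoinRoot.of (X ^ 2 - C b : O[X]) q,
      AdjoinRoot.root (X ^ 2 - C b : O[X]) - AdjoinRoot.of _ β} = Ideal.span {lam} := hlam
  have hq1 : AdjoinRoot.of (X ^ 2 - C b : O[X]) q ∈ Ideal.span {lam} := by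
    rw [← hlam']
    exact Ideal.subset_span (Set.mem_insert _ _)
  have hr1 : AdjoinRoot.root (X ^ 2 - C b : O[X]) - AdjoinRoot.of _ β ∈ Ideal.span {lam} := by
    rw [← hlam']
    exact Ideal.subset_span (Set.mem_insert_of_mem _ rfl)
  obtain ⟨mu, hmu⟩ := Ideal.mem_span_singleton'.mp hq1
  obtain ⟨nu, hnu⟩ := Ideal.mem_span_singleton'.mp hr1
  have hl : lam ∈ Ideal.span {AdjoinRoot.of (X ^ 2 - C b : O[X]) q,
      AdjoinRoot.root (X ^ 2 - C b : O[X]) - AdjoinRoot.of _ β} := by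
    rw [hlam']
    exact Ideal.subset_span rfl
  obtain ⟨al, ga, hag⟩ := Ideal.mem_span_pair.mp hl
  obtain ⟨x, y, hxy⟩ := NRM_surj b lam
  obtain ⟨x', y', hxy'⟩ := NRM_surj b mu
  have hN : (x' ^ 2 - b * y' ^ 2) * (x ^ 2 - b * y ^ 2) = q ^ 2 := by
    rw [hxy, hxy', NRM_mul] at hmu
    have h1 : AdjoinRoot.of (X ^ 2 - C b : O[X]) (x' * x + b * (y' * y)) +
        AdjoinRoot.of _ (x' * y + y' * x) * AdjoinRoot.root _ =
        AdjoinRoot.of _ q + AdjoinRoot.of _ 0 * AdjoinRoot.root _ := by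
      rw [hmu, map_zero, zero_mul, add_zero]
    obtain ⟨h2, h3⟩ := NRM_ext b h1
    linear_combination (x' * x + b * (y' * y) + q) * h2 - b * (x' * y + y' * x) * h3
  have hdvd : x ^ 2 - b * y ^ 2 ∣ q ^ 2 := Dvd.intro_left _ hN
  obtain ⟨i, hi, hass⟩ := (dvd_prime_pow hq 2).mp hdvd
  have hi3 : i = 0 ∨ i = 1 ∨ i = 2 := by omega
  rcases hi3 with rfl | rfl | rfl
  · -- unit norm
    exfalso
    rw [pow_zero, associated_one_iff_isUnit] at hass
    obtain ⟨x1, y1, h1⟩ := NRM_unit b x y hass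
    rw [← hxy, ← hag] at h1
    obtain ⟨a0, a1, ha⟩ := NRM_surj b (al * (AdjoinRoot.of (X ^ 2 - C b : O[X]) x1 +
      AdjoinRoot.of _ y1 * AdjoinRoot.root _))
    obtain ⟨c0, c1, hc⟩ := NRM_surj b (ga * (AdjoinRoot.of (X ^ 2 - C b : O[X]) x1 +
      AdjoinRoot.of _ y1 * AdjoinRoot.root _))
    have h2 : (AdjoinRoot.of (X ^ 2 - C b : O[X]) a0 + AdjoinRoot.of _ a1 * AdjoinRoot.root _) *
        AdjoinRoot.of _ q + (AdjoinRoot.of (X ^ 2 - C b : O[X]) c0 +
        AdjoinRoot.of _ c1 * AdjoinRoot.root _) * (AdjoinRoot.root _ - AdjoinRoot.of _ β) = 1 := by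
      rw [← ha, ← hc]
      linear_combination h1
    have h3 : AdjoinRoot.of (X ^ 2 - C b : O[X]) (a0 * q + c1 * b - β * c0) +
        AdjoinRoot.of _ (a1 * q + c0 - β * c1) * AdjoinRoot.root _ =
        AdjoinRoot.of _ 1 + AdjoinRoot.of _ 0 * AdjoinRoot.root _ := by
      simp only [map_add, map_sub, map_mul, map_one, map_zero]
      linear_combination h2 - AdjoinRoot.of (X ^ 2 - C b : O[X]) c1 * NRM_root b
    obtain ⟨h4, h5⟩ := NRM_ext b h3
    obtain ⟨t, ht⟩ := hβ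
    apply hq.not_isUnit
    rw [isUnit_iff_dvd_one]
    refine ⟨a0 + β * a1 + c1 * t, ?_⟩
    linear_combination -h4 - β * h5 + c1 * ht
  · obtain ⟨u, hu⟩ := hass
    rw [pow_one] at hu
    exact ⟨u, x, y, by rw [← hu, mul_comm]⟩
  · -- the cofactor is a unit
    exfalso
    obtain ⟨u, hu⟩ := hass
    have hq2 : q ^ 2 ≠ 0 := pow_ne_zero 2 hq.ne_zero
    have h0 : IsUnit (x' ^ 2 - b * y' ^ 2) := by
      refine IsUnit.of_mul_eq_one (↑u⁻¹ : O) ?_
      apply mul_right_cancel₀ hq2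
      rw [one_mul]
      calc (x' ^ 2 - b * y' ^ 2) * ↑u⁻¹ * q ^ 2 =
            (x' ^ 2 - b * y' ^ 2) * (x ^ 2 - b * y ^ 2) * (↑u * ↑u⁻¹) := by rw [← hu]; ring
        _ = q ^ 2 := by rw [Units.mul_inv, mul_one, hN]
    obtain ⟨x1, y1, h1⟩ := NRM_unit b x' y' h0
    rw [← hxy'] at h1
    obtain ⟨a0, a1, ha⟩ := NRM_surj b (nu * (AdjoinRoot.of (X ^ 2 - C b : O[X]) x1 +
      AdjoinRoot.of _ y1 * AdjoinRoot.root _))
    have h2 : AdjoinRoot.root (X ^ 2 - C b : O[X]) - AdjoinRoot.of _ β =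
        (AdjoinRoot.of (X ^ 2 - C b : O[X]) a0 + AdjoinRoot.of _ a1 * AdjoinRoot.root _) *
          AdjoinRoot.of _ q := by
      rw [← ha, ← hmu, ← hnu]
      linear_combination -(nu * lam) * h1
    have h3 : AdjoinRoot.of (X ^ 2 - C b : O[X]) (-β) +
        AdjoinRoot.of _ 1 * AdjoinRoot.root _ =
        AdjoinRoot.of _ (a0 * q) + AdjoinRoot.of _ (a1 * q) * AdjoinRoot.root _ := by
      simp only [map_neg, map_mul, map_one]
      linear_combination h2
    obtain ⟨-, h5⟩ := NRM_ext b h3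
    apply hq.not_isUnit
    rw [isUnit_iff_dvd_one]
    exact ⟨a1, by rw [h5, mul_comm]⟩

theorem NRM2 {O : Type} [CommRing O] [IsDomain O] [IsPrincipalIdealRing O] (h2 : IsUnit (2 : O))
    (b : O) (hb : IsUnit b) (hO : IsSquare b ∨ (IsDomain (AdjoinRoot (X ^ 2 - C b : O[X])) ∧
      IsPrincipalIdealRing (AdjoinRoot (X ^ 2 - C b : O[X])))) (h : O) (h0 : h ≠ 0)
    (hh : ∀ 𝔮 : O, Prime 𝔮 → (∀ β : O, ¬ 𝔮 ∣ b - β ^ 2) →
      ∃ k : ℕ, 𝔮 ^ (2 * k) ∣ h ∧ ¬ 𝔮 ^ (2 * k + 1) ∣ h) :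
    ∃ (u : Oˣ) (x y m : O), m ≠ 0 ∧ h * m ^ 2 = u * (x ^ 2 - b * y ^ 2) := by
  rcases hO with ⟨β, hβ⟩ | ⟨-, hP⟩
  · rw [hβ] at hb
    have hβu : IsUnit β := isUnit_of_mul_isUnit_left hb
    obtain ⟨e, he⟩ := h2.exists_right_inv
    obtain ⟨f, hf⟩ := hβu.exists_right_inv
    refine ⟨1, (h + 1) * e, (h - 1) * (e * f), 1, one_ne_zero, ?_⟩
    rw [Units.val_one, one_mul, one_pow, mul_one, hβ]
    have e1 : ((h + 1) * e) ^ 2 - β * β * ((h - 1) * (e * f)) ^ 2 =
        ((h + 1) ^ 2 - (h - 1) ^ 2 * (β * f) ^ 2) * e ^ 2 := by ring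
    rw [e1, hf]
    have e2 : ((h + 1) ^ 2 - (h - 1) ^ 2 * 1 ^ 2) * e ^ 2 = h * (2 * e) ^ 2 := by ring
    rw [e2, he]
    ring
  · revert h0 hh
    refine (wellFounded_dvdNotUnit (α := O)).induction (C := fun h => h ≠ 0 →
      (∀ 𝔮 : O, Prime 𝔮 → (∀ β : O, ¬ 𝔮 ∣ b - β ^ 2) →
        ∃ k : ℕ, 𝔮 ^ (2 * k) ∣ h ∧ ¬ 𝔮 ^ (2 * k + 1) ∣ h) →
      ∃ (u : Oˣ) (x y m : O), m ≠ 0 ∧ h * m ^ 2 = u * (x ^ 2 - b * y ^ 2)) h ?_
    intro h ih h0 hh
    by_cases hu : IsUnit h
    · obtain ⟨u, hu⟩ := hu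
      exact ⟨u, 1, 0, 1, one_ne_zero, by rw [← hu]; ring⟩
    obtain ⟨q, hqi, h', rfl⟩ := WfDvdMonoid.exists_irreducible_factor hu h0
    have hq : Prime q := hqi.prime
    have h'0 : h' ≠ 0 := right_ne_zero_of_mul h0
    by_cases hg : ∃ β : O, q ∣ b - β ^ 2
    · obtain ⟨β, hβ⟩ := hg
      obtain ⟨u, x, y, hxy⟩ := NRM_good b hP q β hq hβ
      obtain ⟨u', x', y', m, hm, hxy'⟩ := ih h' ⟨h'0, q, hq.not_isUnit, mul_comm _ _⟩ h'0 (by
        intro 𝔮 h𝔮 hbad
        obtain ⟨k, hk⟩ := hh 𝔮 h𝔮 hbad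
        refine NRM_even h𝔮 (j := 0) (c := q) ?_ hk
        rw [mul_zero, Nat.cast_zero, emultiplicity_eq_zero]
        intro hd
        have hass := (h𝔮.dvd_prime_iff_associated hq).mp hd
        exact hbad β (hass.dvd.trans hβ))
      refine ⟨u * u', x * x' + b * (y * y'), x * y' + y * x', m, hm, ?_⟩
      rw [Units.val_mul]
      calc q * h' * m ^ 2 = q * (h' * m ^ 2) := by ring
        _ = (u * (x ^ 2 - b * y ^ 2)) * (u' * (x' ^ 2 - b * y' ^ 2)) := by rw [hxy', ← hxy]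
        _ = _ := by ring
    · push Not at hg
      obtain ⟨k, hk1, hk2⟩ := hh q hq hg
      have hk0 : k ≠ 0 := by
        rintro rfl
        apply hk2
        rw [mul_zero, zero_add, pow_one]
        exact Dvd.intro _ rfl
      have hqd : q ∣ h' := by
        have h1 : q * q ∣ q * h' := by
          rw [← sq]
          exact (pow_dvd_pow q (by omega)).trans hk1
        exact (mul_dvd_mul_iff_left hq.ne_zero).mp h1
      obtain ⟨h'', rfl⟩ := hqd
      have h''0 : h'' ≠ 0 := right_ne_zero_of_mul h'0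
      obtain ⟨u', x', y', m, hm, hxy'⟩ := ih h'' ⟨h''0, q * q, fun hu2 =>
          hq.not_isUnit (isUnit_of_mul_isUnit_left hu2), by ring⟩ h''0 (by
        intro 𝔮 h𝔮 hbad
        obtain ⟨k, hk⟩ := hh 𝔮 h𝔮 hbad
        obtain ⟨j, hj⟩ := ENat.ne_top_iff_exists.mp
          (finiteMultiplicity_iff_emultiplicity_ne_top.mp
            (FiniteMultiplicity.of_prime_left h𝔮 hq.ne_zero))
        refine NRM_even h𝔮 (j := j) (c := q ^ 2) ?_ (k := k) ?_
        · rw [emultiplicity_pow h𝔮, ← hj]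
          push_cast
          rfl
        · rw [show q ^ 2 * h'' = q * (q * h'') by ring]
          exact hk)
      refine ⟨u', q * x', q * y', m, hm, ?_⟩
      calc q * (q * h'') * m ^ 2 = q ^ 2 * (h'' * m ^ 2) := by ring
        _ = q ^ 2 * (u' * (x' ^ 2 - b * y' ^ 2)) := by rw [hxy']
        _ = _ := by ring

/-- a prime is a norm from a left principal quaternion ring -/
private theorem NRM_prime {R : Type} [CommRing R] [IsDomain R] [IsPrincipalIdealRing R]
    (h2 : IsUnit (2 : R)) (hfin : ∀ π : R, Prime π → Finite (R ⧸ Ideal.span {π})) (a b : R)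
    (ha : IsUnit a) (hP : IsPrincipalIdealRing ℍ[R,a,b]) (π : R) (hπ : Prime π) :
    ∃ (u : Rˣ) (w : ℍ[R,a,b]), π = u * nrm w := by
  classical
  -- an isotropic vector modulo `π`
  have hz : ∃ x y t : R, x ^ 2 - a * y ^ 2 - b = π * t := by
    haveI hpr : (Ideal.span {π}).IsPrime := (Ideal.span_singleton_prime hπ.ne_zero).mpr hπ
    haveI hmax : (Ideal.span {π}).IsMaximal := hpr.isMaximal (by
      intro h
      rw [Ideal.span_singleton_eq_bot] at h
      exact hπ.ne_zero h)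
    letI : Field (R ⧸ Ideal.span {π}) := Ideal.Quotient.field _
    haveI := hfin π hπ
    letI : Fintype (R ⧸ Ideal.span {π}) := Fintype.ofFinite _
    have h2' : (2 : R ⧸ Ideal.span {π}) ≠ 0 := by
      have := h2.map (Ideal.Quotient.mk (Ideal.span {π}))
      rw [map_ofNat] at this
      exact this.ne_zero
    have ha' : Ideal.Quotient.mk (Ideal.span {π}) a ≠ 0 :=
      (ha.map (Ideal.Quotient.mk (Ideal.span {π}))).ne_zero
    have hodd : Fintype.card (R ⧸ Ideal.span {π}) % 2 = 1 :=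
      FiniteField.odd_card_of_char_ne_two (fun h => h2' (by
        have h3 := ringChar.Nat.cast_ringChar (R := R ⧸ Ideal.span {π})
        rw [h] at h3
        exact_mod_cast h3))
    obtain ⟨x, y, hxy⟩ := FiniteField.exists_root_sum_quadratic
      (f := (X ^ 2 - C (Ideal.Quotient.mk (Ideal.span {π}) b)))
      (g := (C (-Ideal.Quotient.mk (Ideal.span {π}) a) * X ^ 2))
      (degree_X_pow_sub_C (by norm_num) _)
      (degree_C_mul_X_pow 2 (neg_ne_zero.mpr ha')) hodd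
    obtain ⟨x0, rfl⟩ := Ideal.Quotient.mk_surjective x
    obtain ⟨y0, rfl⟩ := Ideal.Quotient.mk_surjective y
    have h3 : Ideal.Quotient.mk (Ideal.span {π}) (x0 ^ 2 - a * y0 ^ 2 - b) = 0 := by
      simp only [eval_sub, eval_pow, eval_X, eval_C, eval_mul] at hxy
      simp only [map_sub, map_mul, map_pow]
      linear_combination hxy
    rw [Ideal.Quotient.eq_zero_iff_mem, Ideal.mem_span_singleton] at h3
    obtain ⟨t, ht⟩ := h3
    exact ⟨x0, y0, t, ht⟩
  obtain ⟨x, y, t, hxyt⟩ := hz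
  obtain ⟨z, hz⟩ : ∃ z : ℍ[R,a,b], z = ⟨x, y, 1, 0⟩ := ⟨_, rfl⟩
  have hnz : nrm z = π * t := by
    rw [hz]
    simp only [nrm]
    linear_combination hxyt
  have hnd : ∀ v : ℍ[R,a,b], z ≠ π • v := by
    intro v hv
    have h1 := congrArg QuaternionAlgebra.imJ hv
    rw [hz, QuaternionAlgebra.imJ_smul] at h1
    apply hπ.not_isUnit
    rw [isUnit_iff_dvd_one]
    exact ⟨v.imJ, h1⟩
  -- the generator
  obtain ⟨⟨w, hw⟩⟩ := hP.principal (Ideal.span {algebraMap R ℍ[R,a,b] π, z})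
  have hw' : Ideal.span {algebraMap R ℍ[R,a,b] π, z} = Ideal.span {w} := hw
  have hπ1 : algebraMap R ℍ[R,a,b] π ∈ Ideal.span {w} := by
    rw [← hw']
    exact Ideal.subset_span (Set.mem_insert _ _)
  have hz1 : z ∈ Ideal.span {w} := by
    rw [← hw']
    exact Ideal.subset_span (Set.mem_insert_of_mem _ rfl)
  obtain ⟨mu, hmu⟩ := Ideal.mem_span_singleton'.mp hπ1
  obtain ⟨nu, hnu⟩ := Ideal.mem_span_singleton'.mp hz1
  have hN : nrm mu * nrm w = π ^ 2 := by
    rw [← nrm_mul, hmu, nrm_algebraMap]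
  obtain ⟨i, hi, hass⟩ := (dvd_prime_pow hπ 2).mp (Dvd.intro_left _ hN)
  have hi3 : i = 0 ∨ i = 1 ∨ i = 2 := by omega
  rcases hi3 with rfl | rfl | rfl
  · exfalso
    rw [pow_zero, associated_one_iff_isUnit] at hass
    obtain ⟨e, he⟩ := hass.exists_right_inv
    have h1 : (1 : ℍ[R,a,b]) ∈ Ideal.span {algebraMap R ℍ[R,a,b] π, z} := by
      rw [hw', Ideal.mem_span_singleton']
      refine ⟨algebraMap R _ e * star w, ?_⟩
      rw [mul_assoc, star_mul_self', ← map_mul, mul_comm e, he, map_one]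
    obtain ⟨al, ga, hag⟩ := Ideal.mem_span_pair.mp h1
    apply hnd (star (al * star z + algebraMap R _ t * ga))
    have h3 : star z = π • (al * star z + algebraMap R _ t * ga) := by
      calc star z = (al * algebraMap R _ π + ga * z) * star z := by rw [hag, one_mul]
        _ = al * algebraMap R _ π * star z + ga * (z * star z) := by rw [add_mul, mul_assoc ga]
        _ = al * algebraMap R _ π * star z + ga * algebraMap R _ (π * t) := by
            rw [mul_star_self', hnz]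
        _ = π • (al * star z + algebraMap R _ t * ga) := by
            rw [Algebra.smul_def, mul_add, map_mul, ← central π al, mul_assoc,
              ← mul_assoc ga, ← central π ga, mul_assoc _ ga, ← central t ga, ← mul_assoc]
    have h4 := congrArg star h3
    rw [star_star, QuaternionAlgebra.star_smul] at h4
    exact h4
  · obtain ⟨u, hu⟩ := hass
    rw [pow_one] at hu
    exact ⟨u, w, by rw [← hu, mul_comm]⟩
  · exfalso
    obtain ⟨u, hu⟩ := hass
    have hq2 : π ^ 2 ≠ 0 := pow_ne_zero 2 hπ.ne_zero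
    have h0 : nrm mu * (↑u⁻¹ : R) = 1 := by
      apply mul_right_cancel₀ hq2
      rw [one_mul]
      calc nrm mu * ↑u⁻¹ * π ^ 2 = nrm mu * nrm w * (↑u * ↑u⁻¹) := by rw [← hu]; ring
        _ = π ^ 2 := by rw [Units.mul_inv, mul_one, hN]
    have h1 : (algebraMap R ℍ[R,a,b] (↑u⁻¹ : R) * star mu) * mu = 1 := by
      rw [mul_assoc, star_mul_self', ← map_mul, mul_comm (↑u⁻¹ : R), h0, map_one]
    apply hnd (nu * (algebraMap R _ (↑u⁻¹ : R) * star mu))
    have h3 : w = (algebraMap R ℍ[R,a,b] (↑u⁻¹ : R) * star mu) * algebraMap R _ π := by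
      rw [← hmu, ← mul_assoc, h1, one_mul]
    rw [← hnu]
    conv_lhs => rw [h3]
    rw [← mul_assoc, ← central π, ← Algebra.smul_def]

theorem NRM4 {R : Type} [CommRing R] [IsDomain R] [IsPrincipalIdealRing R] (h2 : IsUnit (2 : R))
    (hfin : ∀ π : R, Prime π → Finite (R ⧸ Ideal.span {π})) (a b : R) (ha : IsUnit a)
    (hb : IsUnit b) (hO : (∃ z : ℍ[R,a,b], z ≠ 0 ∧ nrm z = 0) ∨ IsPrincipalIdealRing ℍ[R,a,b])
    (h : R) (h0 : h ≠ 0) :
    ∃ (u : Rˣ) (w : ℍ[R,a,b]) (m : R), m ≠ 0 ∧ h * m ^ 2 = u * nrm w := by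
  rcases hO with ⟨z, hz, hn⟩ | hP
  · obtain ⟨d, m, hm, hd⟩ := isotropic_univ ha.ne_zero hb.ne_zero h2.ne_zero z hz hn h
    exact ⟨1, d, m, hm, by rw [Units.val_one, one_mul, hd]⟩
  · revert h0
    refine UniqueFactorizationMonoid.induction_on_prime h ?_ ?_ ?_
    · intro h0
      exact absurd rfl h0
    · rintro x ⟨u, rfl⟩ -
      exact ⟨u, 1, 1, one_ne_zero, by rw [nrm_one]; ring⟩
    · intro x π hx hπ ih _
      obtain ⟨u, w, m, hm, hw⟩ := ih hx
      obtain ⟨v, w', hw'⟩ := NRM_prime h2 hfin a b ha hP π hπ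
      refine ⟨v * u, w' * w, m, hm, ?_⟩
      rw [Units.val_mul, nrm_mul]
      calc π * x * m ^ 2 = π * (x * m ^ 2) := by ring
        _ = (v * nrm w') * (u * nrm w) := by rw [hw, ← hw']
        _ = _ := by ring

end Pool.Agent.QCB
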