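import Pool.Agent.QCB.QS
import Pool.Agent.QCB.FD

/-!
# QCB, module NT: reduction to torsion modules

Proof. Case 1: `nrm` is anisotropic on `Λ = ℍ[A,a,b]`: `t₀ = ψ(Λ)`. Case 2: `nrm z = 0`, `z ≠ 0`:
`T = Λ z`, `t₀ = ψ(T)`. Let `N` be finitely generated, not torsion (no `s ≠ 0` kills it; equivalently the
torsion submodule, which is a `Λ`-submodule killed by one `s ≠ 0`, is not everything); divide by the
torsion submodule. Case 1: for `0 ≠ n` the map `Λ → N`, `x ↦ x n` is injective (`star x * x = nrm x`).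
Case 2: some `n` has `z n ≠ 0` (`QS1` with `q = 0`), and `T → N`, `y z ↦ y z n` is injective: every nonzero
submodule of a torsion free module has rank at least two (`QS2` with `q = 0`) and `T` has rank two
(`QS3` with `q = 0`). Induct on the rank of `N` over `A`.
-/

set_option autoImplicit false

namespace Pool.Agent.QCB

open Quaternion QuaternionAlgebra

/-- embeddings of a fixed left ideal -/
private theorem NT_key {A : Type} [CommRing A] [IsDomain A] {a b : A} (ha : IsUnit a)
    (hb : IsUnit b) (h2 : IsUnit (2 : A)) :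
    ∃ z : ℍ[A,a,b], ∀ (M : Type) [AddCommGroup M] [Module ℍ[A,a,b] M],
      (∀ (s : A) (m : M), s ≠ 0 → algebraMap A ℍ[A,a,b] s • m = 0 → m = 0) →
      (∃ m : M, m ≠ 0) → ∃ n : M, z • n ≠ 0 ∧ ∀ y : ℍ[A,a,b], (y * z) • n = 0 → y * z = 0 := by
  by_cases hiso : ∀ z : ℍ[A,a,b], nrm z = 0 → z = 0
  · refine ⟨1, fun M _ _ ht hM => ?_⟩
    obtain ⟨m, hm⟩ := hM
    refine ⟨m, by rwa [one_smul], fun y hy => ?_⟩
    rw [mul_one] at hy ⊢
    apply hiso
    by_contra hn
    apply hm
    apply ht _ _ hn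
    rw [← star_mul_self', mul_smul, hy, smul_zero]
  · push Not at hiso
    obtain ⟨z, hz, hz0⟩ := hiso
    refine ⟨z, fun M _ _ ht hM => ?_⟩
    have hd : ∀ x : ℍ[A,a,b], Dvd4 (0 : A) x ↔ x = 0 := by
      intro x
      unfold Dvd4
      simp only [zero_dvd_iff]
      constructor
      · rintro ⟨h0, h1, h3, h4⟩
        ext
        · exact h0
        · exact h1
        · exact h3
        · exact h4
      · rintro rfl
        exact ⟨rfl, rfl, rfl, rfl⟩
    have hq : (Ideal.span {(0 : A)}).IsPrime := by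
      rw [Ideal.span_singleton_eq_bot.2 rfl]
      exact Ideal.isPrime_bot
    obtain ⟨m, hm⟩ := hM
    obtain ⟨n, hn⟩ : ∃ n : M, z • n ≠ 0 := by
      by_contra hcon
      push Not at hcon
      obtain ⟨s, hs, hk⟩ := QS1 ha hb h2 0 z (fun h => hz0 ((hd z).1 h)) M hcon
      rw [zero_dvd_iff] at hs
      exact hm (ht s m hs (hk m))
    refine ⟨n, hn, fun y hy => ?_⟩
    by_contra hy0
    have htΛ : ∀ (s : A) (x : ℍ[A,a,b]), s ≠ 0 → algebraMap A ℍ[A,a,b] s • x = 0 → x = 0 := by
      intro s x hs hx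
      rw [smul_eq_mul, ← Algebra.smul_def] at hx
      have e0 := congrArg QuaternionAlgebra.re hx
      have e1 := congrArg QuaternionAlgebra.imI hx
      have e2 := congrArg QuaternionAlgebra.imJ hx
      have e3 := congrArg QuaternionAlgebra.imK hx
      simp only [QuaternionAlgebra.re_smul, QuaternionAlgebra.imI_smul,
        QuaternionAlgebra.imJ_smul, QuaternionAlgebra.imK_smul, smul_eq_mul,
        QuaternionAlgebra.re_zero, QuaternionAlgebra.imI_zero, QuaternionAlgebra.imJ_zero,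
        QuaternionAlgebra.imK_zero, mul_eq_zero, hs, false_or] at e0 e1 e2 e3
      ext
      · exact e0
      · exact e1
      · exact e2
      · exact e3
    obtain ⟨w', hw'⟩ := QS2 ha hb h2 0 hq ℍ[A,a,b] (fun x => by rw [map_zero, zero_smul])
      (fun s x hs hx => htΛ s x (fun h => hs (zero_dvd_iff.2 h)) hx) (y * z) hy0
    obtain ⟨w, hw, s, hs, hsx⟩ := QS3 ha hb h2 0 hq z (fun h => hz0 ((hd z).1 h))
      (by rw [hz])
    rw [zero_dvd_iff] at hs
    simp only [hd, sub_eq_zero] at hsx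
    simp only [zero_dvd_iff, Algebra.smul_def, smul_eq_mul] at hw' hsx
    obtain ⟨c1, d1, e1⟩ := hsx y
    obtain ⟨c2, d2, e2⟩ := hsx (w' * y)
    set al := algebraMap A ℍ[A,a,b] with hal
    rw [mul_assoc w' y z] at e2
    -- the determinant
    have f1 : al (d2 * s) * (y * z) - al (d1 * s) * (w' * (y * z)) =
        al (c1 * d2 - c2 * d1) * z := by
      have g1 : al (d2 * s) * (y * z) = al d2 * (al c1 * z + al d1 * (w * z)) := by
        rw [← e1, map_mul, mul_assoc]
      have g2 : al (d1 * s) * (w' * (y * z)) = al d1 * (al c2 * z + al d2 * (w * z)) := by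
        rw [← e2, map_mul, mul_assoc]
      rw [g1, g2, map_sub, map_mul, map_mul, mul_add, mul_add, ← mul_assoc, ← mul_assoc,
        ← mul_assoc (al d1), ← mul_assoc (al d1), ← map_mul, ← map_mul, ← map_mul, ← map_mul,
        ← map_mul, ← map_mul, mul_comm d2 c1, mul_comm d2 d1, mul_comm d1 c2, sub_mul]
      abel
    have f2 : al (c2 * s) * (y * z) - al (c1 * s) * (w' * (y * z)) =
        -(al (c1 * d2 - c2 * d1) * (w * z)) := by
      have g1 : al (c2 * s) * (y * z) = al c2 * (al c1 * z + al d1 * (w * z)) := by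
        rw [← e1, map_mul, mul_assoc]
      have g2 : al (c1 * s) * (w' * (y * z)) = al c1 * (al c2 * z + al d2 * (w * z)) := by
        rw [← e2, map_mul, mul_assoc]
      rw [g1, g2, map_sub, map_mul, map_mul, mul_add, mul_add, ← mul_assoc, ← mul_assoc,
        ← mul_assoc (al c1), ← mul_assoc (al c1), ← map_mul, ← map_mul, ← map_mul, ← map_mul,
        mul_comm c2 c1, sub_mul]
      abel
    have hD : c1 * d2 - c2 * d1 ≠ 0 := by
      intro h0
      rw [h0, map_zero, zero_mul, sub_eq_add_neg, ← neg_mul, ← map_neg] at f1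
      rw [h0, map_zero, zero_mul, neg_zero, sub_eq_add_neg, ← neg_mul, ← map_neg] at f2
      obtain ⟨k1, k2⟩ := hw' _ _ f1
      obtain ⟨k3, k4⟩ := hw' _ _ f2
      have hd1 : d1 = 0 := by
        rw [neg_eq_zero, mul_eq_zero] at k2
        exact k2.resolve_right hs
      have hc1 : c1 = 0 := by
        rw [neg_eq_zero, mul_eq_zero] at k4
        exact k4.resolve_right hs
      rw [hc1, hd1, map_zero, zero_mul, zero_mul, add_zero] at e1
      exact hy0 (htΛ s _ hs e1)
    apply hn
    apply ht _ _ hD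
    rw [← mul_smul, ← f1, sub_smul, mul_smul, hy, smul_zero, mul_smul, mul_smul, hy, smul_zero,
      smul_zero, sub_zero]

theorem NT {A : Type} [CommRing A] [IsDomain A] [IsNoetherianRing A] {a b : A} (ha : IsUnit a)
    (hb : IsUnit b) (h2 : IsUnit (2 : A)) {Γ : Type 1} [AddCommGroup Γ] (ψ : NAdd ℍ[A,a,b] Γ) :
    ∃ t₀ : Γ, ∀ H : AddSubgroup Γ, t₀ ∈ H →
      (∀ (N : Type) [AddCommGroup N] [Module ℍ[A,a,b] N] [Module.Finite ℍ[A,a,b] N],
        (∃ s : A, s ≠ 0 ∧ Kil (Λ := ℍ[A,a,b]) s N) → ψ.val N ∈ H) →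
      ∀ (N : Type) [AddCommGroup N] [Module ℍ[A,a,b] N] [Module.Finite ℍ[A,a,b] N],
        ψ.val N ∈ H := by
  obtain ⟨z, hz⟩ := NT_key (a := a) (b := b) ha hb h2
  set T : Submodule ℍ[A,a,b] ℍ[A,a,b] :=
    LinearMap.range (LinearMap.toSpanSingleton ℍ[A,a,b] ℍ[A,a,b] z) with hT
  refine ⟨ψ.val T, fun H hH htors N _ _ _ => ?_⟩
  have hnoeth : IsNoetherianRing ℍ[A,a,b] := by
    have h1 : IsNoetherian A ℍ[A,a,b] := inferInstance
    exact isNoetherian_of_tower A h1
  have hN : IsNoetherian ℍ[A,a,b] N := isNoetherian_of_isNoetherianRing_of_finite _ _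
  -- extensions
  have hex : ∀ (K : Submodule ℍ[A,a,b] N) (L : Type) [AddCommGroup L] [Module ℍ[A,a,b] L]
      [Module.Finite ℍ[A,a,b] L] (f : L →ₗ[ℍ[A,a,b]] (N ⧸ K)), Function.Injective f →
      (∃ x, f x ≠ 0) → ψ.val L ∈ H →
      (∀ K' > K, ψ.val (N ⧸ K') ∈ H) → ψ.val (N ⧸ K) ∈ H := by
    intro K L _ _ _ f hf hx hL hK
    set K' : Submodule ℍ[A,a,b] N := (LinearMap.range f).comap K.mkQ with hK'
    have hle : K ≤ K' := by
      intro k hk
      rw [hK', Submodule.mem_comap]
      have : K.mkQ k = 0 := (Submodule.Quotient.mk_eq_zero K).2 hk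
      rw [this]
      exact zero_mem _
    have hlt : K < K' := by
      refine lt_of_le_of_ne hle fun h => ?_
      obtain ⟨x, hx⟩ := hx
      obtain ⟨k, hk⟩ := Submodule.mkQ_surjective K (f x)
      have h1 : k ∈ K' := by
        rw [hK', Submodule.mem_comap, hk]
        exact ⟨x, rfl⟩
      rw [← h] at h1
      rw [← hk] at hx
      exact hx ((Submodule.Quotient.mk_eq_zero K).2 h1)
    have h3 := ψ.add L (N ⧸ K) (N ⧸ K') f (Submodule.factor hle) hf
      (Submodule.factor_surjective hle) (by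
        intro y
        obtain ⟨k, rfl⟩ := Submodule.mkQ_surjective K y
        have h4 : Submodule.factor hle (K.mkQ k) = K'.mkQ k := rfl
        rw [h4, Submodule.mkQ_apply, Submodule.Quotient.mk_eq_zero, hK', Submodule.mem_comap]
        rfl)
    rw [h3]
    exact add_mem hL (hK K' hlt)
  -- the induction
  have hall : ∀ K : Submodule ℍ[A,a,b] N, ψ.val (N ⧸ K) ∈ H := by
    intro K
    induction K using IsNoetherian.induction with
    | hgt K ih =>
      by_cases h0 : ∃ m : N ⧸ K, m ≠ 0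
      · by_cases h1 : ∃ (s : A) (m : N ⧸ K), s ≠ 0 ∧ m ≠ 0 ∧ algebraMap A ℍ[A,a,b] s • m = 0
        · obtain ⟨s, m, hs, hm, hsm⟩ := h1
          refine hex K (LinearMap.range (LinearMap.toSpanSingleton ℍ[A,a,b] (N ⧸ K) m))
            (Submodule.subtype _) (Submodule.injective_subtype _) ⟨⟨m, ⟨1, one_smul _ _⟩⟩, hm⟩
            (htors _ ⟨s, hs, ?_⟩) ih
          rintro ⟨_, ⟨x, rfl⟩⟩
          refine Subtype.ext ?_
          show algebraMap A ℍ[A,a,b] s • (x • m) = 0
          rw [← mul_smul, central, mul_smul, hsm, smul_zero]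
        · push Not at h1
          obtain ⟨n, hn, hy⟩ := hz (N ⧸ K) (fun s m hs hsm => by
            by_contra hm
            exact h1 s m hs hm hsm) h0
          refine hex K T ((LinearMap.toSpanSingleton ℍ[A,a,b] (N ⧸ K) n).comp T.subtype) ?_
            ⟨⟨z, ⟨1, one_smul _ _⟩⟩, hn⟩ hH ih
          rw [injective_iff_map_eq_zero]
          rintro ⟨_, ⟨y, rfl⟩⟩ hx
          exact Subtype.ext (hy y hx)
      · push Not at h0
        refine htors _ ⟨1, one_ne_zero, fun m => ?_⟩
        rw [h0 m, smul_zero]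
  have h3 := ψ.add PUnit (N ⧸ (⊥ : Submodule ℍ[A,a,b] N)) N 0
    (Submodule.quotEquivOfEqBot ⊥ rfl).toLinearMap (fun x y _ => Subsingleton.elim x y)
    (Submodule.quotEquivOfEqBot ⊥ rfl).surjective (by
      intro y
      constructor
      · intro h
        exact ⟨0, ((Submodule.quotEquivOfEqBot ⊥ rfl).map_eq_zero_iff.1 h).symm⟩
      · rintro ⟨x, rfl⟩
        exact map_zero _)
  have h4 : ψ.val PUnit = 0 := by
    have h5 := ψ.add PUnit PUnit PUnit 0 0 (fun x y _ => Subsingleton.elim x y)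
      (fun x => ⟨0, Subsingleton.elim _ _⟩)
      (fun x => ⟨fun _ => ⟨x, rfl⟩, fun _ => Subsingleton.elim _ _⟩)
    exact left_eq_add.1 h5
  rw [h4, zero_add] at h3
  rw [← h3]
  exact hall ⊥

end Pool.Agent.QCB
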