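import Pool.Agent.QCB.FORM
import Pool.Agent.QCB.CW

/-!
# QCB, module PT1: torsion modules over a vertical line

Proof. `A` is a localization of the principal ideal domain `κ[X]`, so a principal ideal domain;
`FORM` applies since `PNull` modules are zero. Every prime `g` of `A` is associated to the image of a
prime of `κ[X]`; `CW` (with numerators of `a`, `b`: `a = a₀ / sⁿ`, replace `i` by `sⁿ i`, i.e. `a` by a
square times `a`) gives `d` over `A` with `nrm d = g m²`, `m ≠ 0`, so `t g = 0` by the relation and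
`2 t = 0`. So all `t q = 0`.
-/

set_option autoImplicit false

namespace Pool.Agent.QCB

open Quaternion QuaternionAlgebra Polynomial

theorem PT1 {κ : Type} [Field κ] [Finite κ] (h2 : (2 : κ) ≠ 0) {A : Type} [CommRing A]
    [IsDomain A] [Algebra κ[X] A] (s : κ[X]) (hs : s ≠ 0) [IsLocalization.Away s A] {a b : A}
    (ha : IsUnit a) (hb : IsUnit b) {Γ : Type 1} [AddCommGroup Γ] (ψ : NAdd ℍ[A,a,b] Γ)
    (N : Type) [AddCommGroup N] [Module ℍ[A,a,b] N] [Module.Finite ℍ[A,a,b] N]
    (hN : ∃ x : A, x ≠ 0 ∧ Kil (Λ := ℍ[A,a,b]) x N) : ψ.val N = 0 := by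
  classical
  -- `A` is a principal ideal domain
  have hpid : IsPrincipalIdealRing A := by
    refine ⟨fun I => ?_⟩
    obtain ⟨g, hg⟩ := (IsPrincipalIdealRing.principal (I.comap (algebraMap κ[X] A))).principal
    refine ⟨algebraMap κ[X] A g, ?_⟩
    have h1 : (I.comap (algebraMap κ[X] A)).map (algebraMap κ[X] A) = I :=
      IsLocalization.map_under (Submonoid.powers s) A I
    have h3 : I.comap (algebraMap κ[X] A) = Ideal.span {g} := hg
    rw [h3, Ideal.map_span, Set.image_singleton] at h1
    exact h1.symm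
  have hinj : Function.Injective (algebraMap κ[X] A) :=
    IsLocalization.injective A (powers_le_nonZeroDivisors_of_noZeroDivisors hs)
  have hsu : IsUnit (algebraMap κ[X] A s) := IsLocalization.Away.algebraMap_isUnit s
  have h2A : IsUnit (2 : A) := by
    have h3 : IsUnit (algebraMap κ[X] A (C (2 : κ))) :=
      ((isUnit_iff_ne_zero.2 h2).map C).map (algebraMap κ[X] A)
    have h4 : algebraMap κ[X] A (C (2 : κ)) = 2 := by
      rw [show (C (2 : κ) : κ[X]) = 2 from map_ofNat C 2, map_ofNat]
    rwa [h4] at h3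
  obtain ⟨t, ht2, -, hta, htd, htN⟩ := FORM ha hb h2A ψ (fun N _ _ _ hP => by
    -- a module with zero support is trivial
    obtain ⟨⟨s', hs', hk'⟩, hq⟩ := hP
    let I : Ideal A :=
      { carrier := {x | Kil (Λ := ℍ[A,a,b]) x N}
        add_mem' := fun {x y} hx hy n => by rw [map_add, add_smul, hx n, hy n, add_zero]
        zero_mem' := fun n => by rw [map_zero, zero_smul]
        smul_mem' := fun c x hx n => by
          rw [smul_eq_mul, map_mul, mul_smul, hx n, smul_zero] }
    obtain ⟨g, hg⟩ := (IsPrincipalIdealRing.principal I).principal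
    have hmem : ∀ x : A, Kil (Λ := ℍ[A,a,b]) x N ↔ g ∣ x := by
      intro x
      have h3 : x ∈ I ↔ x ∈ Ideal.span {g} := by
        rw [hg]
      exact h3.trans Ideal.mem_span_singleton
    have hg0 : g ≠ 0 := by
      intro h0
      have h3 := (hmem s').1 hk'
      rw [h0, zero_dvd_iff] at h3
      exact hs' h3
    have hgu : IsUnit g := by
      by_contra hgu
      obtain ⟨q, hq1, hq2⟩ := WfDvdMonoid.exists_irreducible_factor hgu hg0
      obtain ⟨x, hx1, hx2⟩ := hq q hq1.prime
      exact hx1 (hq2.trans ((hmem x).1 hx2))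
    have h1 : Kil (Λ := ℍ[A,a,b]) (1 : A) N := (hmem 1).2 hgu.dvd
    have hsub : Subsingleton N := by
      refine ⟨fun x y => ?_⟩
      have hx := h1 x
      have hy := h1 y
      rw [map_one, one_smul] at hx hy
      rw [hx, hy]
    have h3 := ψ.add N N N (LinearMap.id) (LinearMap.id) (fun x y _ => Subsingleton.elim x y)
      (fun x => ⟨x, rfl⟩) (fun x => ⟨fun _ => ⟨x, rfl⟩, fun _ => Subsingleton.elim _ _⟩)
    exact left_eq_add.1 h3)
  -- all `t q` are zero
  have htq : ∀ q : A, Prime q → t q = 0 := by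
    intro q hq
    obtain ⟨n, g0, hg0⟩ := IsLocalization.Away.surj s q
    obtain ⟨n1, a0, ha0⟩ := IsLocalization.Away.surj s a
    obtain ⟨n2, b0, hb0⟩ := IsLocalization.Away.surj s b
    set φ := algebraMap κ[X] A with hφ
    have hsn : ∀ n : ℕ, φ s ^ n ≠ 0 := fun n => pow_ne_zero _ hsu.ne_zero
    have hne : ∀ {x : κ[X]} {y : A} {n : ℕ}, y * φ s ^ n = φ x → y ≠ 0 → x ≠ 0 := by
      intro x y n h hy hx
      rw [hx, map_zero] at h
      exact mul_ne_zero hy (hsn n) h
    obtain ⟨d0, m0, hm0, hd0⟩ := CW h2 (a0 * s ^ n1) (b0 * s ^ n2) g0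
      (mul_ne_zero (hne ha0 ha.ne_zero) (pow_ne_zero _ hs))
      (mul_ne_zero (hne hb0 hb.ne_zero) (pow_ne_zero _ hs)) (hne hg0 hq.ne_zero)
    set d : ℍ[A,a,b] := ⟨φ d0.re, φ s ^ n1 * φ d0.imI, φ s ^ n2 * φ d0.imJ,
      φ s ^ n1 * φ s ^ n2 * φ d0.imK⟩ with hd
    have hnd : nrm d = q * (φ s ^ n * φ m0 ^ 2) := by
      have h3 := congrArg φ hd0
      simp only [nrm, map_add, map_sub, map_mul, map_pow] at h3
      rw [← hg0, ← ha0, ← hb0] at h3
      unfold nrm
      rw [hd]
      linear_combination h3
    have hm1 : φ m0 ≠ 0 := by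
      rw [Ne, map_eq_zero_iff φ hinj]
      exact hm0
    obtain ⟨mm, hmm, hmp⟩ := UniqueFactorizationMonoid.exists_prime_factors (φ m0) hm1
    have h3 := htd d (q ::ₘ (mm + mm)) (by
      intro p hp
      rw [Multiset.mem_cons, Multiset.mem_add] at hp
      rcases hp with rfl | hp | hp
      · exact hq
      · exact hmm p hp
      · exact hmm p hp) (by
      rw [hnd, Multiset.prod_cons, Multiset.prod_add]
      refine Associated.mul_left q ?_
      have h4 : Associated (φ s ^ n * φ m0 ^ 2) (φ m0 ^ 2) := by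
        have h5 : IsUnit (φ s ^ n) := hsu.pow n
        exact associated_unit_mul_left _ _ h5
      refine h4.trans ?_
      rw [← sq]
      exact (Associated.pow_pow hmp).symm)
    rw [Multiset.map_cons, Multiset.sum_cons, Multiset.map_add, Multiset.sum_add] at h3
    have h4 : ∀ m : Multiset A, (m.map t).sum + (m.map t).sum = 0 := by
      intro m
      induction m using Multiset.induction_on with
      | empty => simp
      | cons p m ih =>
        rw [Multiset.map_cons, Multiset.sum_cons]
        calc t p + (m.map t).sum + (t p + (m.map t).sum) =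
            2 • t p + ((m.map t).sum + (m.map t).sum) := by
              rw [two_nsmul]
              abel
          _ = 0 := by rw [ht2, ih, add_zero]
    rw [h4, add_zero] at h3
    exact h3
  have h5 := htN N hN
  have h6 : AddSubgroup.closure (t '' {q | Prime q}) ≤ ⊥ := by
    rw [AddSubgroup.closure_le]
    rintro _ ⟨q, hq, rfl⟩
    exact htq q hq
  exact h6 h5

end Pool.Agent.QCB
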