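import Pool.Agent.QCB.PT1

/-!
# QCB, module PT2: modules supported in codimension two

Proof. Let `I` be the annihilator of `N` in `A`. `I` is not contained in `(q)` for a prime `q`. With
`L = Frac R`, the extension of `I` to the principal ideal domain `L[X]_s` is the unit ideal (otherwise
it is contained in `(q)` for a primitive irreducible `q ∈ R[X]`, prime in `R[X]` by Gauss and in `A`), so
`I` contains a nonzero `r ∈ R` (or `s ^ n r`). Filter `N` by the prime factors `π` of `r`: `N / π N`, `π N`.
A module killed by `π` and by `I` is a module over `ℍ[A / π]`, `A / π = (R / π)[X]_s`, with `s` nonzero mod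
`π` or `N = 0`, `R / π` a finite field; an element of `I` outside `(π)` gives a nonzero element of `A / π`
killing it: `PT1`, applied to the additive function obtained by restriction of scalars along
`ℍ[A,a,b] → ℍ[A / π,a,b]`.
-/

set_option autoImplicit false

namespace Pool.Agent.QCB

open Quaternion QuaternionAlgebra Polynomial

/-! ### additive functions -/

private theorem PT2_zero {Λ : Type} [Ring Λ] {Γ : Type 1} [AddCommGroup Γ] (ψ : NAdd Λ Γ)
    (N : Type) [AddCommGroup N] [Module Λ N] [Subsingleton N] : ψ.val N = 0 := by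
  have h := ψ.add N N N LinearMap.id (0 : N →ₗ[Λ] N) Function.injective_id
    (fun x => ⟨0, Subsingleton.elim _ _⟩) (fun x => ⟨fun _ => ⟨x, rfl⟩, fun _ => rfl⟩)
  exact left_eq_add.1 h

/-- finite generation and restriction of scalars along a surjection -/
private theorem PT2_fin {Λ Λ' : Type} [Ring Λ] [Ring Λ'] (f : Λ →+* Λ')
    (hf : Function.Surjective f) (N : Type) [AddCommGroup N] [Module Λ' N]
    [Module.Finite Λ' N] : @Module.Finite Λ N _ _ (Module.compHom N f) := by
  let _ : Module Λ N := Module.compHom N f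
  obtain ⟨S, hS⟩ := Module.Finite.fg_top (R := Λ') (M := N)
  refine ⟨⟨S, ?_⟩⟩
  rw [eq_top_iff]
  rintro x -
  have hx : x ∈ Submodule.span Λ' (S : Set N) := by
    rw [hS]
    trivial
  induction hx using Submodule.span_induction with
  | mem y hy => exact Submodule.subset_span hy
  | zero => exact Submodule.zero_mem _
  | add y z _ _ h1 h2 => exact Submodule.add_mem _ h1 h2
  | smul a y _ h1 =>
    obtain ⟨c, rfl⟩ := hf a
    exact Submodule.smul_mem _ c h1

/-- restriction of scalars along a surjection -/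
private def PT2_res {Λ Λ' : Type} [Ring Λ] [Ring Λ'] (f : Λ →+* Λ')
    (hf : Function.Surjective f) {Γ : Type 1} [AddCommGroup Γ] (ψ : NAdd Λ Γ) : NAdd Λ' Γ where
  val N _ _ := @NAdd.val Λ _ Γ _ ψ N _ (Module.compHom N f)
  add N' N N'' _ _ _ _ _ _ _ _ _ g h hg hh hgh := by
    have f1 := PT2_fin f hf N'
    have f2 := PT2_fin f hf N
    have f3 := PT2_fin f hf N''
    let _ : Module Λ N' := Module.compHom N' f
    let _ : Module Λ N := Module.compHom N f
    let _ : Module Λ N'' := Module.compHom N'' f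
    let g' : N' →ₗ[Λ] N :=
      { toFun := g
        map_add' := map_add g
        map_smul' := fun c x => map_smul g (f c) x }
    let h' : N →ₗ[Λ] N'' :=
      { toFun := h
        map_add' := map_add h
        map_smul' := fun c x => map_smul h (f c) x }
    exact ψ.add N' N N'' g' h' hg hh hgh

/-- the module structure over a quotient -/
private theorem PT2_quot {Λ Λ' : Type} [Ring Λ] [Ring Λ'] (f : Λ →+* Λ')
    (hf : Function.Surjective f) (N : Type) [AddCommGroup N] [Module Λ N]
    (hk : ∀ c : Λ, f c = 0 → ∀ x : N, c • x = 0) :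
    ∃ i : Module Λ' N, ∀ (c : Λ) (x : N), i.toSMul.smul (f c) x = c • x := by
  let _ : SMul Λ' N := ⟨fun c x => Function.surjInv hf c • x⟩
  have h : ∀ (c : Λ) (x : N), f c • x = c • x := by
    intro c x
    change Function.surjInv hf (f c) • x = c • x
    rw [← sub_eq_zero, ← sub_smul]
    refine hk _ ?_ x
    rw [map_sub, Function.surjInv_eq hf, sub_self]
  exact ⟨Function.Surjective.moduleLeft f hf h, h⟩

/-! ### quaternion algebras -/

/-- a homomorphism of quaternion algebras -/
private def PT2_map {A B : Type} [CommRing A] [CommRing B] (f : A →+* B) (a b : A) :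
    ℍ[A,a,b] →+* ℍ[B,f a,f b] where
  toFun x := ⟨f x.re, f x.imI, f x.imJ, f x.imK⟩
  map_one' := by ext <;> simp
  map_zero' := by ext <;> simp
  map_add' x y := by ext <;> simp
  map_mul' x y := by ext <;> simp

private theorem PT2_map_surj {A B : Type} [CommRing A] [CommRing B] (f : A →+* B)
    (hf : Function.Surjective f) (a b : A) : Function.Surjective (PT2_map f a b) := by
  intro y
  obtain ⟨y0, h0⟩ := hf y.re
  obtain ⟨y1, h1⟩ := hf y.imI
  obtain ⟨y2, h2⟩ := hf y.imJ
  obtain ⟨y3, h3⟩ := hf y.imK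
  exact ⟨⟨y0, y1, y2, y3⟩, QuaternionAlgebra.ext h0 h1 h2 h3⟩

private theorem PT2_map_alg {A B : Type} [CommRing A] [CommRing B] (f : A →+* B) (a b : A)
    (x : A) : PT2_map f a b (algebraMap A _ x) = algebraMap B _ (f x) := by
  rw [QuaternionAlgebra.algebraMap_eq, QuaternionAlgebra.algebraMap_eq]
  exact QuaternionAlgebra.ext rfl (map_zero f) (map_zero f) (map_zero f)

/-! ### commutative algebra -/

private theorem PT2_prime {R A : Type} [CommRing R] [IsDomain R] [CommRing A] [IsDomain A]
    [Algebra R A] (s : R) (hs : s ≠ 0) [IsLocalization.Away s A] (g : R) (hg : Prime g)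
    (h : ¬ g ∣ s) : Prime (algebraMap R A g) := by
  have hinj : Function.Injective (algebraMap R A) :=
    IsLocalization.injective A (powers_le_nonZeroDivisors_of_noZeroDivisors hs)
  have h0 : algebraMap R A g ≠ 0 := by
    intro h0
    exact hg.ne_zero (hinj (by rw [h0, map_zero]))
  rw [← Ideal.span_singleton_prime h0, ← Set.image_singleton, ← Ideal.map_span]
  refine IsLocalization.isPrime_of_isPrime_disjoint (Submonoid.powers s) A _
    ((Ideal.span_singleton_prime hg.ne_zero).2 hg) ?_
  rw [Set.disjoint_left]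
  rintro x ⟨n, rfl⟩ hx
  exact h (hg.dvd_of_dvd_pow (Ideal.mem_span_singleton.1 hx))

private theorem PT2_bez {R : Type} [CommRing R] [IsDomain R] [IsPrincipalIdealRing R]
    (g h : R[X]) (hg : Irreducible g) (hd : g.natDegree ≠ 0) (hgh : ¬ g ∣ h) :
    ∃ (r : R) (u v : R[X]), r ≠ 0 ∧ u * g + v * h = C r := by
  have hp : g.IsPrimitive := hg.isPrimitive hd
  have hi : Irreducible (g.map (algebraMap R (FractionRing R))) :=
    (hp.irreducible_iff_irreducible_map_fraction_map (K := FractionRing R)).1 hg
  have hn : ¬ g.map (algebraMap R (FractionRing R)) ∣ h.map (algebraMap R (FractionRing R)) :=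
    fun h1 => hgh (hp.dvd_of_fraction_map_dvd_fraction_map h1)
  obtain ⟨u, v, huv⟩ := (hi.coprime_iff_not_dvd).2 hn
  obtain ⟨c, hc, hu⟩ := IsLocalization.integerNormalization_spec (nonZeroDivisors R) u
  obtain ⟨d, hd', hv⟩ := IsLocalization.integerNormalization_spec (nonZeroDivisors R) v
  refine ⟨c * d, C d * IsLocalization.integerNormalization (nonZeroDivisors R) u,
    C c * IsLocalization.integerNormalization (nonZeroDivisors R) v,
    mul_ne_zero (nonZeroDivisors.ne_zero hc) (nonZeroDivisors.ne_zero hd'), ?_⟩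
  apply map_injective (algebraMap R (FractionRing R))
    (FaithfulSMul.algebraMap_injective R (FractionRing R))
  rw [Polynomial.map_add, Polynomial.map_mul, Polynomial.map_mul, Polynomial.map_mul,
    Polynomial.map_mul, hu, hv, map_C, map_C, map_C, map_mul, map_mul, Algebra.smul_def,
    Algebra.smul_def, Polynomial.algebraMap_apply, Polynomial.algebraMap_apply]
  linear_combination (C (algebraMap R (FractionRing R) c) *
    C (algebraMap R (FractionRing R) d)) * huv

/-- an ideal which is not contained in a principal prime ideal contains a constant -/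
private theorem PT2_const {R : Type} [CommRing R] [IsDomain R] [IsPrincipalIdealRing R]
    {A : Type} [CommRing A] [IsDomain A] [Algebra R[X] A] (s : R[X]) (hs : s ≠ 0)
    [IsLocalization.Away s A] (I : Ideal A) (h0 : ∃ x ∈ I, x ≠ 0)
    (hI : ∀ q : A, Prime q → ∃ x ∈ I, ¬ q ∣ x) :
    ∃ r : R, r ≠ 0 ∧ algebraMap R[X] A (C r) ∈ I := by
  have key : ∀ f : R[X], f ≠ 0 → ∃ (r : R) (y : A), r ≠ 0 ∧
      algebraMap R[X] A (C r) - y * algebraMap R[X] A f ∈ I := by
    intro f
    refine UniqueFactorizationMonoid.induction_on_prime f (fun h => absurd rfl h) ?_ ?_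
    · intro u hu _
      obtain ⟨u, rfl⟩ := hu
      refine ⟨1, algebraMap R[X] A (u⁻¹ : (R[X])ˣ), one_ne_zero, ?_⟩
      rw [← map_mul, Units.inv_mul, map_one, sub_self]
      exact I.zero_mem
    · intro f g hf hg ih _
      obtain ⟨r, y, hr, hry⟩ := ih hf
      -- the prime `g`
      obtain ⟨t, z, ht, htz⟩ : ∃ (t : R) (z : A), t ≠ 0 ∧
          algebraMap R[X] A (C t) - z * algebraMap R[X] A g ∈ I := by
        by_cases hd : g.natDegree = 0
        · rw [natDegree_eq_zero] at hd
          obtain ⟨t, ht⟩ := hd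
          refine ⟨t, 1, ?_, ?_⟩
          · rintro rfl
            rw [map_zero] at ht
            exact hg.ne_zero ht.symm
          · rw [ht, one_mul, sub_self]
            exact I.zero_mem
        · by_cases hgs : g ∣ s
          · obtain ⟨w, hw⟩ := hgs
            have hu : IsUnit (algebraMap R[X] A g) := by
              have h1 : IsUnit (algebraMap R[X] A s) := IsLocalization.Away.algebraMap_isUnit s
              rw [hw, map_mul] at h1
              exact isUnit_of_mul_isUnit_left h1
            obtain ⟨v, hv⟩ := hu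
            refine ⟨1, (v⁻¹ : Aˣ), one_ne_zero, ?_⟩
            rw [← hv, Units.inv_mul, map_one, map_one, sub_self]
            exact I.zero_mem
          · obtain ⟨x, hx, hgx⟩ := hI _ (PT2_prime (A := A) s hs g hg hgs)
            obtain ⟨n, h, hh⟩ := IsLocalization.Away.surj s x
            have hgh : ¬ g ∣ h := by
              intro h1
              apply hgx
              have hu : IsUnit (algebraMap R[X] A s ^ n) :=
                (IsLocalization.Away.algebraMap_isUnit s).pow n
              rw [← hu.dvd_mul_right (b := x), hh]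
              exact map_dvd _ h1
            obtain ⟨t, u, v, ht, huv⟩ := PT2_bez g h hg.irreducible hd hgh
            refine ⟨t, algebraMap R[X] A u, ht, ?_⟩
            rw [← huv, map_add, map_mul, map_mul, add_sub_cancel_left, ← hh]
            exact I.mul_mem_left _ (I.mul_mem_right _ hx)
      refine ⟨t * r, z * y, mul_ne_zero ht hr, ?_⟩
      have e1 : algebraMap R[X] A (C (t * r)) - z * y * algebraMap R[X] A (g * f) =
          (algebraMap R[X] A (C t) - z * algebraMap R[X] A g) * algebraMap R[X] A (C r) +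
          z * algebraMap R[X] A g * (algebraMap R[X] A (C r) - y * algebraMap R[X] A f) := by
        rw [map_mul C, map_mul, map_mul]
        ring
      rw [e1]
      exact I.add_mem (I.mul_mem_right _ htz) (I.mul_mem_left _ hry)
  obtain ⟨x, hx, hx0⟩ := h0
  obtain ⟨n, f, hf⟩ := IsLocalization.Away.surj s x
  have hf0 : f ≠ 0 := by
    rintro rfl
    rw [map_zero] at hf
    have hu : IsUnit (algebraMap R[X] A s ^ n) :=
      (IsLocalization.Away.algebraMap_isUnit s).pow n
    exact hx0 ((hu.mul_left_eq_zero).1 hf)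
  obtain ⟨r, y, hr, hry⟩ := key f hf0
  refine ⟨r, hr, ?_⟩
  have e1 : algebraMap R[X] A (C r) = (algebraMap R[X] A (C r) - y * algebraMap R[X] A f) +
      y * algebraMap R[X] A f := by ring
  rw [e1, ← hf]
  rw [← hf] at hry
  exact I.add_mem hry (I.mul_mem_left _ (I.mul_mem_right _ hx))

/-! ### the reduction modulo a constant -/

private theorem PT2_red {R : Type} [CommRing R] [IsDomain R] [IsPrincipalIdealRing R]
    (π : R) {κ : Type} [Field κ] (f0 : R →+* κ) (hf0 : Function.Surjective f0)
    (hk0 : ∀ r, f0 r = 0 ↔ π ∣ r) {A : Type} [CommRing A] [IsDomain A] [Algebra R[X] A]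
    (s : R[X]) [IsLocalization.Away s A] {A' : Type} [CommRing A']
    [IsDomain A'] [Algebra κ[X] A'] (hs' : s.map f0 ≠ 0) [IsLocalization.Away (s.map f0) A'] :
    ∃ F : A →+* A', Function.Surjective F ∧
      ∀ x : A, F x = 0 ↔ ∃ y, x = algebraMap R[X] A (C π) * y := by
  have hu : IsUnit (((algebraMap κ[X] A').comp (mapRingHom f0)) s) :=
    IsLocalization.Away.algebraMap_isUnit (s.map f0)
  let F : A →+* A' := IsLocalization.Away.lift s hu
  have hF : ∀ f : R[X], F (algebraMap R[X] A f) = algebraMap κ[X] A' (f.map f0) := fun f =>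
    IsLocalization.Away.lift_eq s hu f
  have hinj : Function.Injective (algebraMap κ[X] A') :=
    IsLocalization.injective A' (powers_le_nonZeroDivisors_of_noZeroDivisors hs')
  have hus : IsUnit (algebraMap R[X] A s) := IsLocalization.Away.algebraMap_isUnit s
  obtain ⟨v, hv⟩ := hus
  refine ⟨F, ?_, ?_⟩
  · intro y
    obtain ⟨n, f, hf⟩ := IsLocalization.Away.surj (s.map f0) y
    obtain ⟨f, rfl⟩ := Polynomial.map_surjective f0 hf0 f
    refine ⟨(v⁻¹ ^ n : Aˣ) * algebraMap R[X] A f, ?_⟩
    have hw : IsUnit (algebraMap κ[X] A' (s.map f0) ^ n) :=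
      (IsLocalization.Away.algebraMap_isUnit (s.map f0)).pow n
    refine hw.mul_right_cancel ?_
    rw [hf, map_mul, hF, ← hF s, ← map_pow, mul_right_comm, ← map_mul, ← hv, ← Units.val_pow_eq_pow_val,
      ← Units.val_mul, ← mul_pow, inv_mul_cancel, one_pow, Units.val_one, map_one, one_mul]
  · intro x
    constructor
    · intro hx
      obtain ⟨n, f, hf⟩ := IsLocalization.Away.surj s x
      have h1 : f.map f0 = 0 := by
        apply hinj
        rw [map_zero, ← hF, ← hf, map_mul, hx, zero_mul]
      have h2 : C π ∣ f := by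
        rw [C_dvd_iff_dvd_coeff]
        intro i
        rw [← hk0, ← coeff_map, h1, coeff_zero]
      obtain ⟨g, hg⟩ := h2
      refine ⟨algebraMap R[X] A g * (v⁻¹ ^ n : Aˣ), ?_⟩
      have h3 : x = x * algebraMap R[X] A s ^ n * (v⁻¹ ^ n : Aˣ) := by
        rw [← hv, mul_assoc, ← Units.val_pow_eq_pow_val, ← Units.val_mul, ← mul_pow,
          mul_inv_cancel, one_pow, Units.val_one, mul_one]
      rw [h3, hf, hg, map_mul, mul_assoc]
    · rintro ⟨y, rfl⟩
      rw [map_mul, hF, map_C, (hk0 π).2 dvd_rfl, map_zero, map_zero, zero_mul]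

/-- modules which are killed by a prime constant -/
private theorem PT2_pi {R : Type} [CommRing R] [IsDomain R] [IsPrincipalIdealRing R]
    (h2 : IsUnit (2 : R)) (π : R) (hπ : Prime π) (hfin : Finite (R ⧸ Ideal.span {π}))
    {A : Type} [CommRing A] [IsDomain A] [Algebra R[X] A] (s : R[X]) (hs : s ≠ 0)
    [IsLocalization.Away s A] {a b : A} (ha : IsUnit a) (hb : IsUnit b) {Γ : Type 1}
    [AddCommGroup Γ] (ψ : NAdd ℍ[A,a,b] Γ) (N : Type) [AddCommGroup N] [Module ℍ[A,a,b] N]
    [Module.Finite ℍ[A,a,b] N] (hN : PNull a b N)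
    (hk : Kil (Λ := ℍ[A,a,b]) (algebraMap R[X] A (C π)) N) : ψ.val N = 0 := by
  classical
  have hmax : (Ideal.span {π}).IsMaximal := PrincipalIdealRing.isMaximal_of_irreducible hπ.irreducible
  let _ : Field (R ⧸ Ideal.span {π}) := Ideal.Quotient.field (Ideal.span {π})
  obtain ⟨f0, hf0⟩ : ∃ f0 : R →+* (R ⧸ Ideal.span {π}), f0 = Ideal.Quotient.mk (Ideal.span {π}) :=
    ⟨_, rfl⟩
  have hsurj : Function.Surjective f0 := by
    rw [hf0]
    exact Ideal.Quotient.mk_surjective
  have hk0 : ∀ r, f0 r = 0 ↔ π ∣ r := by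
    intro r
    rw [hf0, Ideal.Quotient.eq_zero_iff_mem, Ideal.mem_span_singleton]
  by_cases hs' : s.map f0 = 0
  · -- `π` is a unit in `A`
    have h1 : C π ∣ s := by
      rw [C_dvd_iff_dvd_coeff]
      intro i
      rw [← hk0, ← coeff_map, hs', coeff_zero]
    obtain ⟨g, hg⟩ := h1
    have h3 : IsUnit (algebraMap R[X] A (C π)) := by
      have h4 : IsUnit (algebraMap R[X] A s) := IsLocalization.Away.algebraMap_isUnit s
      rw [hg, map_mul] at h4
      exact isUnit_of_mul_isUnit_left h4
    obtain ⟨v, hv⟩ := h3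
    have h5 : Subsingleton N := by
      refine subsingleton_of_forall_eq 0 fun x => ?_
      have h6 := hk ((algebraMap A ℍ[A,a,b] (v⁻¹ : Aˣ)) • x)
      rwa [← mul_smul, ← map_mul, ← hv, Units.mul_inv, map_one, one_smul] at h6
    exact PT2_zero ψ N
  · have hdom : IsDomain (Localization.Away (s.map f0)) :=
      IsLocalization.isDomain_localization (powers_le_nonZeroDivisors_of_noZeroDivisors hs')
    obtain ⟨F, hF, hFk⟩ := PT2_red π f0 hsurj hk0 (A := A) s
      (A' := Localization.Away (s.map f0)) hs'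
    have hΦs := PT2_map_surj F hF a b
    have hker : ∀ c : ℍ[A,a,b], PT2_map F a b c = 0 → ∀ x : N, c • x = 0 := by
      intro c hc x
      obtain ⟨y0, h0⟩ := (hFk _).1 (congrArg QuaternionAlgebra.re hc)
      obtain ⟨y1, h1⟩ := (hFk _).1 (congrArg QuaternionAlgebra.imI hc)
      obtain ⟨y2, h3⟩ := (hFk _).1 (congrArg QuaternionAlgebra.imJ hc)
      obtain ⟨y3, h4⟩ := (hFk _).1 (congrArg QuaternionAlgebra.imK hc)
      have e : c = algebraMap A ℍ[A,a,b] (algebraMap R[X] A (C π)) *
          (⟨y0, y1, y2, y3⟩ : ℍ[A,a,b]) := by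
        rw [← Algebra.smul_def]
        exact QuaternionAlgebra.ext h0 h1 h3 h4
      rw [e, mul_smul]
      exact hk _
    obtain ⟨i, hi⟩ := PT2_quot (PT2_map F a b) hΦs N hker
    have hi' : ∀ (c : ℍ[A,a,b]) (x : N), PT2_map F a b c • x = c • x := hi
    have hprime : Prime (algebraMap R[X] A (C π)) := by
      refine PT2_prime s hs (C π) (prime_C_iff.2 hπ) fun h1 => hs' ?_
      rw [C_dvd_iff_dvd_coeff] at h1
      ext j
      rw [coeff_map, coeff_zero, hk0]
      exact h1 j
    obtain ⟨x, hx, hxk⟩ := hN.2 _ hprime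
    have hfinN : Module.Finite ℍ[Localization.Away (s.map f0),F a,F b] N := by
      obtain ⟨S, hS⟩ := Module.Finite.fg_top (R := ℍ[A,a,b]) (M := N)
      refine ⟨⟨S, ?_⟩⟩
      rw [eq_top_iff]
      rintro x -
      have hx : x ∈ Submodule.span ℍ[A,a,b] (S : Set N) := by
        rw [hS]
        trivial
      induction hx using Submodule.span_induction with
      | mem y hy => exact Submodule.subset_span hy
      | zero => exact Submodule.zero_mem _
      | add y z _ _ h1 h2 => exact Submodule.add_mem _ h1 h2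
      | smul c y _ h1 =>
        rw [← hi' c y]
        exact Submodule.smul_mem _ _ h1
    have h2' : (2 : R ⧸ Ideal.span {π}) ≠ 0 := by
      have h1 : IsUnit (f0 2) := h2.map f0
      rw [map_ofNat] at h1
      exact h1.ne_zero
    have h := PT1 (κ := R ⧸ Ideal.span {π}) h2' (s.map f0) hs'
      (A := Localization.Away (s.map f0)) (ha.map F) (hb.map F)
      (PT2_res (PT2_map F a b) hΦs ψ) N ⟨F x, fun h1 => hx ?_, fun n => ?_⟩
    · change @NAdd.val _ _ Γ _ ψ N _ (Module.compHom N (PT2_map F a b)) = 0 at h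
      have e : Module.compHom N (PT2_map F a b) = (inferInstance : Module ℍ[A,a,b] N) :=
        Module.ext' _ _ fun c y => hi' c y
      rw [e] at h
      exact h
    · obtain ⟨y, hy⟩ := (hFk x).1 h1
      exact ⟨y, hy⟩
    · rw [← PT2_map_alg, hi']
      exact hxk n

/-! ### the filtration -/

/-- multiplication by an element of the center -/
private def PT2_mul {A Λ : Type} [CommRing A] [Ring Λ] [Algebra A Λ] (p : A) (N : Type)
    [AddCommGroup N] [Module Λ N] : N →ₗ[Λ] N where
  toFun x := algebraMap A Λ p • x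
  map_add' x y := smul_add _ x y
  map_smul' c x := by
    rw [smul_smul, RingHom.id_apply, smul_smul, Algebra.commutes]

private theorem PT2_null {A : Type} [CommRing A] {a b : A} (N M : Type) [AddCommGroup N]
    [Module ℍ[A,a,b] N] [AddCommGroup M] [Module ℍ[A,a,b] M]
    (h : ∀ s : A, Kil (Λ := ℍ[A,a,b]) s N → Kil (Λ := ℍ[A,a,b]) s M) (hN : PNull a b N) :
    PNull a b M := by
  obtain ⟨⟨s, hs, hk⟩, h2⟩ := hN
  refine ⟨⟨s, hs, h s hk⟩, fun q hq => ?_⟩
  obtain ⟨t, ht, hk⟩ := h2 q hq
  exact ⟨t, ht, h t hk⟩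

theorem PT2 {R : Type} [CommRing R] [IsDomain R] [IsPrincipalIdealRing R]
    (hfin : ∀ π : R, Prime π → Finite (R ⧸ Ideal.span {π})) (h2 : IsUnit (2 : R))
    {A : Type} [CommRing A] [IsDomain A] [Algebra R[X] A] (s : R[X]) (hs : s ≠ 0)
    [IsLocalization.Away s A] {a b : A} (ha : IsUnit a) (hb : IsUnit b) {Γ : Type 1}
    [AddCommGroup Γ] (ψ : NAdd ℍ[A,a,b] Γ) (N : Type) [AddCommGroup N] [Module ℍ[A,a,b] N]
    [Module.Finite ℍ[A,a,b] N] (hN : PNull a b N) : ψ.val N = 0 := by
  classical
  -- the claim for modules killed by a constant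
  have key : ∀ r : R, r ≠ 0 → ∀ (N : Type) [AddCommGroup N] [Module ℍ[A,a,b] N]
      [Module.Finite ℍ[A,a,b] N], PNull a b N →
      Kil (Λ := ℍ[A,a,b]) (algebraMap R[X] A (C r)) N → ψ.val N = 0 := by
    intro r
    refine UniqueFactorizationMonoid.induction_on_prime r (fun h => absurd rfl h) ?_ ?_
    · intro u hu _ N _ _ _ _ hk
      obtain ⟨u, rfl⟩ := hu
      have h5 : Subsingleton N := by
        refine subsingleton_of_forall_eq 0 fun x => ?_
        have h6 := hk ((algebraMap A ℍ[A,a,b] (algebraMap R[X] A (C (u⁻¹ : Rˣ)))) • x)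
        rwa [← mul_smul, ← map_mul, ← map_mul, ← map_mul, Units.mul_inv, map_one, map_one,
          map_one, one_smul] at h6
      exact PT2_zero ψ N
    · intro r π hr hπ ih _ N _ _ _ hN hk
      let M := LinearMap.range (PT2_mul (Λ := ℍ[A,a,b]) (algebraMap R[X] A (C π)) N)
      have hM : PNull a b M := PT2_null N M (fun t ht x => Subtype.ext (ht x.1)) hN
      have hQ : PNull a b (N ⧸ M) := PT2_null N (N ⧸ M) (fun t ht x => by
        obtain ⟨x, rfl⟩ := Submodule.Quotient.mk_surjective _ x
        rw [← Submodule.Quotient.mk_smul, ht x, Submodule.Quotient.mk_zero]) hN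
      have h1 : ψ.val M = 0 := by
        refine ih hr M hM ?_
        rintro ⟨x, y, rfl⟩
        refine Subtype.ext ?_
        change algebraMap A ℍ[A,a,b] (algebraMap R[X] A (C r)) •
          (algebraMap A ℍ[A,a,b] (algebraMap R[X] A (C π)) • y) = 0
        rw [smul_smul, ← map_mul, ← map_mul, ← map_mul, mul_comm]
        exact hk y
      have h3 : ψ.val (N ⧸ M) = 0 := by
        refine PT2_pi h2 π hπ (hfin π hπ) s hs ha hb ψ (N ⧸ M) hQ ?_
        intro x
        obtain ⟨x, rfl⟩ := Submodule.Quotient.mk_surjective _ x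
        rw [← Submodule.Quotient.mk_smul, Submodule.Quotient.mk_eq_zero]
        exact ⟨x, rfl⟩
      rw [ψ.add M N (N ⧸ M) M.subtype M.mkQ (Submodule.injective_subtype _)
        (Submodule.mkQ_surjective _) (LinearMap.exact_subtype_mkQ M), h1, h3, add_zero]
  -- the annihilator
  let I : Ideal A :=
    { carrier := {x | Kil (Λ := ℍ[A,a,b]) x N}
      add_mem' := fun {x y} hx hy n => by
        rw [map_add, add_smul, hx n, hy n, add_zero]
      zero_mem' := fun n => by
        rw [map_zero, zero_smul]
      smul_mem' := fun c x hx n => by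
        rw [smul_eq_mul, map_mul, mul_smul, hx n, smul_zero] }
  obtain ⟨⟨x, hx, hxk⟩, hN2⟩ := hN
  obtain ⟨r, hr, hrk⟩ := PT2_const s hs I ⟨x, hxk, hx⟩ fun q hq => by
    obtain ⟨t, ht, htk⟩ := hN2 q hq
    exact ⟨t, htk, ht⟩
  exact key r hr N ⟨⟨x, hx, hxk⟩, hN2⟩ hrk

end Pool.Agent.QCB
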