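import Pool.Agent.QCB.Defs

/-!
# QCB, module QB: quaternion algebras over commutative rings
-/

set_option autoImplicit false

namespace Pool.Agent.QCB

open Quaternion QuaternionAlgebra

variable {A : Type} [CommRing A] {a b : A}

theorem nrm_mul (x y : ℍ[A,a,b]) : nrm (x * y) = nrm x * nrm y := by
  simp only [nrm, QuaternionAlgebra.re_mul, QuaternionAlgebra.imI_mul,
    QuaternionAlgebra.imJ_mul, QuaternionAlgebra.imK_mul]
  ring

theorem nrm_star (x : ℍ[A,a,b]) : nrm (star x) = nrm x := by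
  simp only [nrm, QuaternionAlgebra.re_star, QuaternionAlgebra.imI_star,
    QuaternionAlgebra.imJ_star, QuaternionAlgebra.imK_star]
  ring

theorem nrm_algebraMap (r : A) : nrm (algebraMap A ℍ[A,a,b] r) = r ^ 2 := by
  simp [nrm, QuaternionAlgebra.algebraMap_eq]

theorem nrm_one : nrm (1 : ℍ[A,a,b]) = 1 := by
  simp [nrm]

theorem nrm_zero : nrm (0 : ℍ[A,a,b]) = 0 := by
  simp [nrm]

theorem nrm_smul (r : A) (x : ℍ[A,a,b]) : nrm (r • x) = r ^ 2 * nrm x := by
  simp only [nrm, QuaternionAlgebra.re_smul, QuaternionAlgebra.imI_smul,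
    QuaternionAlgebra.imJ_smul, QuaternionAlgebra.imK_smul, smul_eq_mul]
  ring

theorem star_mul_self' (x : ℍ[A,a,b]) : star x * x = algebraMap A _ (nrm x) := by
  rw [QuaternionAlgebra.algebraMap_eq]
  ext <;> simp [nrm] <;> ring

theorem mul_star_self' (x : ℍ[A,a,b]) : x * star x = algebraMap A _ (nrm x) := by
  rw [QuaternionAlgebra.algebraMap_eq]
  ext <;> simp [nrm] <;> ring

theorem central (r : A) (x : ℍ[A,a,b]) : algebraMap A _ r * x = x * algebraMap A _ r :=
  Algebra.commutes r x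

/-- a right multiplication with nonzero norm is injective -/
theorem mul_right_inj' [IsDomain A] {d : ℍ[A,a,b]} (hd : nrm d ≠ 0) {x : ℍ[A,a,b]}
    (h : x * d = 0) : x = 0 := by
  have h1 : x * (d * star d) = 0 := by rw [← mul_assoc, h, zero_mul]
  rw [mul_star_self', ← central, ← Algebra.smul_def] at h1
  have hre := congrArg QuaternionAlgebra.re h1
  have hi := congrArg QuaternionAlgebra.imI h1
  have hj := congrArg QuaternionAlgebra.imJ h1
  have hk := congrArg QuaternionAlgebra.imK h1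
  simp only [QuaternionAlgebra.re_smul, QuaternionAlgebra.imI_smul,
    QuaternionAlgebra.imJ_smul, QuaternionAlgebra.imK_smul, smul_eq_mul,
    QuaternionAlgebra.re_zero, QuaternionAlgebra.imI_zero, QuaternionAlgebra.imJ_zero,
    QuaternionAlgebra.imK_zero, mul_eq_zero, hd, false_or] at hre hi hj hk
  ext <;> simp [hre, hi, hj, hk]

/-- a left multiplication with nonzero norm is injective -/
theorem mul_left_inj' [IsDomain A] {d : ℍ[A,a,b]} (hd : nrm d ≠ 0) {x : ℍ[A,a,b]}
    (h : d * x = 0) : x = 0 := by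
  have h1 : star x * star d = 0 := by rw [← star_mul, h, star_zero]
  have h2 := mul_right_inj' (by rwa [nrm_star]) h1
  rw [← star_star x, h2, star_zero]

/-- `d` and its conjugate are conjugate by an element of nonzero norm -/
theorem conj_elem [IsDomain A] (ha : a ≠ 0) (hb : b ≠ 0) (h2 : (2 : A) ≠ 0) (x : ℍ[A,a,b]) :
    ∃ u : ℍ[A,a,b], nrm u ≠ 0 ∧ u * x = star x * u := by
  let u1 : ℍ[A,a,b] := ⟨0, b * x.imJ, - (a * x.imI), 0⟩
  let u2 : ℍ[A,a,b] := ⟨0, b * x.imK, 0, x.imI⟩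
  let u3 : ℍ[A,a,b] := ⟨0, 0, a * x.imK, x.imJ⟩
  have e1 : u1 * x = star x * u1 := by ext <;> simp [u1] <;> ring
  have e2 : u2 * x = star x * u2 := by ext <;> simp [u2] <;> ring
  have e3 : u3 * x = star x * u3 := by ext <;> simp [u3] <;> ring
  by_cases n1 : nrm u1 ≠ 0
  · exact ⟨u1, n1, e1⟩
  by_cases n2 : nrm u2 ≠ 0
  · exact ⟨u2, n2, e2⟩
  by_cases n3 : nrm u3 ≠ 0
  · exact ⟨u3, n3, e3⟩
  simp only [not_not] at n1 n2 n3
  have m1 : a * b * (b * x.imJ ^ 2 + a * x.imI ^ 2) = 0 := by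
    have : nrm u1 = -(a * b * (b * x.imJ ^ 2 + a * x.imI ^ 2)) := by
      simp [nrm, u1]; ring
    rw [this] at n1
    exact neg_eq_zero.1 n1
  have m2 : a * b * (x.imI ^ 2 - b * x.imK ^ 2) = 0 := by
    have : nrm u2 = a * b * (x.imI ^ 2 - b * x.imK ^ 2) := by
      simp [nrm, u2]; ring
    rwa [this] at n2
  have m3 : a * b * (x.imJ ^ 2 - a * x.imK ^ 2) = 0 := by
    have : nrm u3 = a * b * (x.imJ ^ 2 - a * x.imK ^ 2) := by
      simp [nrm, u3]; ring
    rwa [this] at n3
  have hab : a * b ≠ 0 := mul_ne_zero ha hb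
  have k1 := (mul_eq_zero.1 m1).resolve_left hab
  have k2 := sub_eq_zero.1 ((mul_eq_zero.1 m2).resolve_left hab)
  have k3 := sub_eq_zero.1 ((mul_eq_zero.1 m3).resolve_left hab)
  have k4 : 2 * (a * b) * x.imK ^ 2 = 0 := by
    rw [k2, k3] at k1
    linear_combination k1
  have hK : x.imK = 0 := by
    have := (mul_eq_zero.1 k4).resolve_left (mul_ne_zero h2 hab)
    exact pow_eq_zero_iff (n := 2) (by norm_num) |>.1 this
  rw [hK] at k2 k3
  have hI : x.imI = 0 := pow_eq_zero_iff (n := 2) (by norm_num) |>.1 (by rw [k2]; ring)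
  have hJ : x.imJ = 0 := pow_eq_zero_iff (n := 2) (by norm_num) |>.1 (by rw [k3]; ring)
  refine ⟨1, by rw [nrm_one]; exact one_ne_zero, ?_⟩
  rw [one_mul, mul_one]
  ext <;> simp [hK, hI, hJ]

end Pool.Agent.QCB
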