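import Pool.Agent.QCB.TYPE
import Pool.Agent.QCB.PT2
import Pool.Agent.QCB.NT

/-!
# QCB, module ZFIN: `G₀` of a quaternion order over a good surface

Proof. `A = R[X][1/(a b)]` is a noetherian UFD. `PT2` gives the hypothesis of `FORM`; let `t` be its function and `t₀` the
element of `NT`; `H` = closure of `{t₀}` and all `t q`, `q` prime. The set `{t q}` is finite: `t q = 0` if `¬ Spl`; each
prime of `A` is associated to the image of a prime `p` of `R[X]` not dividing `a b`; for `Spl` primes `p`, `p'` of the same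
type (`TYPE`), `p(c), p'(c) ≠ 0`, not associated: `nrm d = p p' m²` and the relation of `FORM` gives
`t p + t p' + 2 (…) = 0`, so `t p = t p'`; `p(c) = 0` only for `p` associated to `X - c`.
-/

set_option autoImplicit false

namespace Pool.Agent.QCB

open Quaternion QuaternionAlgebra Polynomial

section loc

variable {P : Type} [CommRing P] [IsDomain P] {s : P} {A : Type} [CommRing A] [Algebra P A]
  [IsLocalization.Away s A]

private theorem ZFIN_inj (hs : s ≠ 0) : Function.Injective (algebraMap P A) :=
  IsLocalization.injective A (M := Submonoid.powers s)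
    (powers_le_nonZeroDivisors_of_noZeroDivisors hs)

omit [IsDomain P] in
private theorem ZFIN_unit : IsUnit (algebraMap P A s) :=
  IsLocalization.map_units (M := Submonoid.powers s) A ⟨s, Submonoid.mem_powers s⟩

omit [IsDomain P] in
private theorem ZFIN_surj (z : A) : ∃ (n : ℕ) (x : P),
    algebraMap P A x = algebraMap P A s ^ n * z := by
  obtain ⟨⟨x, m⟩, hx⟩ := IsLocalization.surj (Submonoid.powers s) z
  obtain ⟨n, hn⟩ := m.2
  refine ⟨n, x, ?_⟩
  rw [← hx, mul_comm, ← map_pow]
  congr 2
  exact hn.symm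

private theorem ZFIN_dvd (hs : s ≠ 0) {p f : P} (hp : Prime p) (hps : ¬ p ∣ s)
    (h : algebraMap P A p ∣ algebraMap P A f) : p ∣ f := by
  obtain ⟨z, hz⟩ := h
  obtain ⟨n, x, hx⟩ := ZFIN_surj (s := s) z
  have h1 : p ∣ s ^ n * f := by
    refine ⟨x, ZFIN_inj (A := A) hs ?_⟩
    rw [map_mul, map_mul, map_pow, hz, hx]
    ring
  rcases hp.dvd_or_dvd h1 with h2 | h2
  · exact absurd (hp.dvd_of_dvd_pow h2) hps
  · exact h2

private theorem ZFIN_prime (hs : s ≠ 0) {p : P} (hp : Prime p) (hps : ¬ p ∣ s) :
    Prime (algebraMap P A p) := by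
  refine ⟨?_, ?_, ?_⟩
  · intro h
    exact hp.ne_zero (ZFIN_inj (A := A) hs (h.trans (map_zero _).symm))
  · intro h
    have h1 : algebraMap P A p ∣ algebraMap P A 1 := by
      rw [map_one]
      exact h.dvd
    exact hp.not_isUnit (isUnit_of_dvd_one (ZFIN_dvd hs hp hps h1))
  · intro x y hxy
    obtain ⟨n, x', hx⟩ := ZFIN_surj (s := s) x
    obtain ⟨m, y', hy⟩ := ZFIN_surj (s := s) y
    have hu : ∀ k : ℕ, IsUnit (algebraMap P A s ^ k) := fun k => (ZFIN_unit (s := s)).pow k
    have h1 : algebraMap P A p ∣ algebraMap P A (x' * y') := by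
      rw [map_mul, hx, hy]
      have e1 : algebraMap P A s ^ n * x * (algebraMap P A s ^ m * y) =
          x * y * (algebraMap P A s ^ n * algebraMap P A s ^ m) := by ring
      rw [e1]
      exact hxy.mul_right _
    rcases hp.dvd_or_dvd (ZFIN_dvd hs hp hps h1) with h2 | h2
    · left
      have h3 := map_dvd (algebraMap P A) h2
      rw [hx] at h3
      exact (hu n).dvd_mul_left.1 h3
    · right
      have h3 := map_dvd (algebraMap P A) h2
      rw [hy] at h3
      exact (hu m).dvd_mul_left.1 h3

/-- every prime element of the localisation comes from a prime element -/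
private theorem ZFIN_rep [UniqueFactorizationMonoid P] (hs : s ≠ 0) {q : A} (hq : Prime q) :
    ∃ p : P, Prime p ∧ ¬ p ∣ s ∧ Associated (algebraMap P A p) q := by
  obtain ⟨n, x, hx⟩ := ZFIN_surj (s := s) q
  have hu : IsUnit (algebraMap P A s ^ n) := (ZFIN_unit (s := s)).pow n
  have hxq : Associated (algebraMap P A x) q := by
    rw [hx]
    exact (associated_unit_mul_left q _ hu)
  have hx0 : x ≠ 0 := by
    rintro rfl
    rw [map_zero] at hxq
    exact hq.ne_zero (hxq.symm.eq_zero_iff.2 rfl)
  obtain ⟨f, hf, hfx⟩ := UniqueFactorizationMonoid.exists_prime_factors x hx0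
  have h1 : q ∣ (f.map (algebraMap P A)).prod := by
    rw [← map_multiset_prod]
    exact hxq.symm.dvd.trans (map_dvd (algebraMap P A) hfx.symm.dvd)
  obtain ⟨p', hp', hqp'⟩ := hq.exists_mem_multiset_dvd h1
  obtain ⟨p, hp, rfl⟩ := Multiset.mem_map.1 hp'
  have hps : ¬ p ∣ s := by
    intro h
    refine hq.not_isUnit (isUnit_of_dvd_unit hqp' (isUnit_of_dvd_unit (map_dvd (algebraMap P A) h)
      (ZFIN_unit (s := s))))
  haveI : IsDomain A := IsLocalization.isDomain_of_le_nonZeroDivisors A
    (powers_le_nonZeroDivisors_of_noZeroDivisors hs)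
  refine ⟨p, hf p hp, hps, ?_⟩
  exact (hq.associated_of_dvd (ZFIN_prime hs (hf p hp) hps) hqp').symm

/-- split primes -/
private theorem ZFIN_spl (hs : s ≠ 0) {a b p : P} (hp : Prime p) (hps : ¬ p ∣ s)
    (h : Spl (algebraMap P A a) (algebraMap P A b) (algebraMap P A p)) : Spl a b p := by
  obtain ⟨z, hz, hz2⟩ := h
  obtain ⟨n0, x0, h0⟩ := ZFIN_surj (s := s) z.re
  obtain ⟨n1, x1, h1⟩ := ZFIN_surj (s := s) z.imI
  obtain ⟨n2, x2, h2⟩ := ZFIN_surj (s := s) z.imJ
  obtain ⟨n3, x3, h3⟩ := ZFIN_surj (s := s) z.imK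
  have hu : ∀ k : ℕ, IsUnit (algebraMap P A s ^ k) := fun k => (ZFIN_unit (s := s)).pow k
  refine ⟨⟨s ^ (n1 + n2 + n3) * x0, s ^ (n0 + n2 + n3) * x1, s ^ (n0 + n1 + n3) * x2,
    s ^ (n0 + n1 + n2) * x3⟩, ?_, ?_⟩
  · rintro ⟨g0, g1, g2, g3⟩
    refine hz ⟨?_, ?_, ?_, ?_⟩
    · have := map_dvd (algebraMap P A) g0
      change algebraMap P A p ∣ algebraMap P A (s ^ (n1 + n2 + n3) * x0) at this
      rw [map_mul, map_pow, h0] at this
      exact (hu _).dvd_mul_left.1 ((hu _).dvd_mul_left.1 this)
    · have := map_dvd (algebraMap P A) g1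
      change algebraMap P A p ∣ algebraMap P A (s ^ (n0 + n2 + n3) * x1) at this
      rw [map_mul, map_pow, h1] at this
      exact (hu _).dvd_mul_left.1 ((hu _).dvd_mul_left.1 this)
    · have := map_dvd (algebraMap P A) g2
      change algebraMap P A p ∣ algebraMap P A (s ^ (n0 + n1 + n3) * x2) at this
      rw [map_mul, map_pow, h2] at this
      exact (hu _).dvd_mul_left.1 ((hu _).dvd_mul_left.1 this)
    · have := map_dvd (algebraMap P A) g3
      change algebraMap P A p ∣ algebraMap P A (s ^ (n0 + n1 + n2) * x3) at this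
      rw [map_mul, map_pow, h3] at this
      exact (hu _).dvd_mul_left.1 ((hu _).dvd_mul_left.1 this)
  · refine ZFIN_dvd (A := A) hs hp hps ?_
    unfold nrm at hz2 ⊢
    have e1 : algebraMap P A ((s ^ (n1 + n2 + n3) * x0) ^ 2 - a * (s ^ (n0 + n2 + n3) * x1) ^ 2 -
        b * (s ^ (n0 + n1 + n3) * x2) ^ 2 + a * b * (s ^ (n0 + n1 + n2) * x3) ^ 2) =
        (algebraMap P A s ^ (n0 + n1 + n2 + n3)) ^ 2 * (z.re ^ 2 - algebraMap P A a * z.imI ^ 2 -
          algebraMap P A b * z.imJ ^ 2 + algebraMap P A a * algebraMap P A b * z.imK ^ 2) := by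
      simp only [map_add, map_sub, map_mul, map_pow, h0, h1, h2, h3]
      ring
    change algebraMap P A p ∣ algebraMap P A ((s ^ (n1 + n2 + n3) * x0) ^ 2 -
      a * (s ^ (n0 + n2 + n3) * x1) ^ 2 - b * (s ^ (n0 + n1 + n3) * x2) ^ 2 +
      a * b * (s ^ (n0 + n1 + n2) * x3) ^ 2)
    rw [e1]
    exact hz2.mul_left _

end loc

theorem ZFIN {R : Type} [CommRing R] [IsDomain R] (a b : R[X]) (c : R) (hD : Dat R a b c) :
    GFG ℍ[Localization.Away (a * b), algebraMap R[X] (Localization.Away (a * b)) a,
      algebraMap R[X] (Localization.Away (a * b)) b] := by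
  classical
  haveI := hD.pid
  have ha0 : a ≠ 0 := by
    rintro rfl
    have := hD.ac
    rw [Polynomial.eval_zero] at this
    exact not_isUnit_zero this
  have hb0 : b ≠ 0 := by
    rintro rfl
    have := hD.bc
    rw [Polynomial.eval_zero] at this
    exact not_isUnit_zero this
  have hs : a * b ≠ 0 := mul_ne_zero ha0 hb0
  haveI : IsDomain (Localization.Away (a * b)) :=
    IsLocalization.isDomain_of_le_nonZeroDivisors _
      (powers_le_nonZeroDivisors_of_noZeroDivisors hs)
  haveI : IsNoetherianRing (Localization.Away (a * b)) :=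
    IsLocalization.isNoetherianRing (Submonoid.powers (a * b)) _ inferInstance
  haveI : UniqueFactorizationMonoid (Localization.Away (a * b)) := inferInstance
  have hu : IsUnit (algebraMap R[X] (Localization.Away (a * b)) (a * b)) :=
    ZFIN_unit (s := a * b)
  have hua : IsUnit (algebraMap R[X] (Localization.Away (a * b)) a) := by
    rw [map_mul] at hu
    exact isUnit_of_mul_isUnit_left hu
  have hub : IsUnit (algebraMap R[X] (Localization.Away (a * b)) b) := by
    rw [map_mul] at hu
    exact isUnit_of_mul_isUnit_right hu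
  have h2 : IsUnit (2 : Localization.Away (a * b)) := by
    have h3 := (hD.two.map (C : R →+* R[X])).map (algebraMap R[X] (Localization.Away (a * b)))
    rwa [map_ofNat, map_ofNat] at h3
  intro Γ _ ψ
  obtain ⟨t, ht2, htn, hta, htr, htc⟩ := FORM hua hub h2 ψ (fun N _ _ _ hN =>
    PT2 hD.fin hD.two (a * b) hs hua hub ψ N hN)
  obtain ⟨t0, ht0⟩ := NT hua hub h2 ψ
  obtain ⟨n, τ, hτ⟩ := TYPE a b c hD
  -- the good primes
  set V : R[X] → Prop := fun p => Prime p ∧ Spl a b p ∧ ¬ p ∣ a * b ∧ p.eval c ≠ 0 with hV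
  have hVt : ∀ p p' : R[X], V p → V p' → τ p = τ p' →
      t (algebraMap R[X] (Localization.Away (a * b)) p) =
        t (algebraMap R[X] (Localization.Away (a * b)) p') := by
    rintro p p' ⟨hp, hps, hpa, hpc⟩ ⟨hp', hps', hpa', hpc'⟩ hpp
    by_cases has : Associated p p'
    · exact hta _ _ (has.map (algebraMap R[X] (Localization.Away (a * b))))
    · obtain ⟨d, m, hm, hd⟩ := hτ p p' hp hp' hps hps' hpa hpa' hpc hpc' has hpp
      have hm0 : algebraMap R[X] (Localization.Away (a * b)) m ≠ 0 := by
        intro h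
        exact hm (ZFIN_inj (A := Localization.Away (a * b)) hs (h.trans (map_zero _).symm))
      obtain ⟨f, hf, hfm⟩ := UniqueFactorizationMonoid.exists_prime_factors _ hm0
      have h1 := htr (⟨algebraMap R[X] (Localization.Away (a * b)) d.re,
        algebraMap R[X] (Localization.Away (a * b)) d.imI,
        algebraMap R[X] (Localization.Away (a * b)) d.imJ,
        algebraMap R[X] (Localization.Away (a * b)) d.imK⟩)
        (algebraMap R[X] (Localization.Away (a * b)) p ::ₘ
          algebraMap R[X] (Localization.Away (a * b)) p' ::ₘ (f + f)) ?_ ?_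
      · rw [Multiset.map_cons, Multiset.map_cons, Multiset.sum_cons, Multiset.sum_cons,
          Multiset.map_add, Multiset.sum_add, ← two_nsmul, ← Multiset.sum_map_nsmul] at h1
        have h3 : (Multiset.map (fun i => 2 • t i) f).sum = 0 := by
          rw [Multiset.map_congr rfl (fun i _ => ht2 i), Multiset.sum_map_zero]
        rw [h3, add_zero] at h1
        have h4 := ht2 (algebraMap R[X] (Localization.Away (a * b)) p')
        rw [two_nsmul] at h4
        exact add_right_cancel (h1.trans h4.symm)
      · intro q hq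
        rw [Multiset.mem_cons, Multiset.mem_cons, Multiset.mem_add, or_self] at hq
        rcases hq with rfl | rfl | hq
        · exact ZFIN_prime hs hp hpa
        · exact ZFIN_prime hs hp' hpa'
        · exact hf q hq
      · rw [Multiset.prod_cons, Multiset.prod_cons, Multiset.prod_add]
        have e1 : nrm (⟨algebraMap R[X] (Localization.Away (a * b)) d.re,
            algebraMap R[X] (Localization.Away (a * b)) d.imI,
            algebraMap R[X] (Localization.Away (a * b)) d.imJ,
            algebraMap R[X] (Localization.Away (a * b)) d.imK⟩ :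
              ℍ[Localization.Away (a * b), algebraMap R[X] (Localization.Away (a * b)) a,
                algebraMap R[X] (Localization.Away (a * b)) b]) =
            algebraMap R[X] (Localization.Away (a * b)) (nrm d) := by
          unfold nrm
          simp only [map_add, map_sub, map_mul, map_pow]
        rw [e1, hd, map_mul, map_mul, map_pow, ← mul_assoc]
        refine Associated.mul_left _ ?_
        rw [sq]
        exact (hfm.symm.mul_mul hfm.symm)
  -- the finite set
  have hrep : ∀ i : Fin n, ∃ p : R[X], ∀ p', V p' → τ p' = i →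
      t (algebraMap R[X] (Localization.Away (a * b)) p') =
        t (algebraMap R[X] (Localization.Away (a * b)) p) := by
    intro i
    by_cases h : ∃ p, V p ∧ τ p = i
    · obtain ⟨p, hp, hpi⟩ := h
      exact ⟨p, fun p' hp' hi => hVt p' p hp' hp (hi.trans hpi.symm)⟩
    · exact ⟨0, fun p' hp' hi => absurd ⟨p', hp', hi⟩ h⟩
  choose r hr using hrep
  have hfin : (t '' {q | Prime q}).Finite := by
    have hfs : (insert (0 : Γ) (insert (t (algebraMap R[X] (Localization.Away (a * b)) (X - C c)))
        (Set.range fun i => t (algebraMap R[X] (Localization.Away (a * b)) (r i))))).Finite :=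
      ((Set.finite_range _).insert _).insert _
    refine hfs.subset ?_
    rintro _ ⟨q, hq, rfl⟩
    by_cases hS : Spl (algebraMap R[X] (Localization.Away (a * b)) a)
        (algebraMap R[X] (Localization.Away (a * b)) b) q
    · obtain ⟨p, hp, hps, hpq⟩ := ZFIN_rep hs hq
      rw [← hta _ _ hpq]
      by_cases hpc : p.eval c = 0
      · refine Or.inr (Or.inl ?_)
        have h1 : X - C c ∣ p := dvd_iff_isRoot.2 hpc
        have h2 : Associated (X - C c) p :=
          (Polynomial.prime_X_sub_C c).associated_of_dvd hp h1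
        exact hta _ _ (h2.symm.map (algebraMap R[X] (Localization.Away (a * b))))
      · refine Or.inr (Or.inr ⟨τ p, ?_⟩)
        have hS' : Spl (algebraMap R[X] (Localization.Away (a * b)) a)
            (algebraMap R[X] (Localization.Away (a * b)) b)
            (algebraMap R[X] (Localization.Away (a * b)) p) := by
          obtain ⟨z, hz, hz2⟩ := hS
          exact ⟨z, fun h => hz ⟨hpq.symm.dvd.trans h.1, hpq.symm.dvd.trans h.2.1,
            hpq.symm.dvd.trans h.2.2.1, hpq.symm.dvd.trans h.2.2.2⟩, hpq.dvd.trans hz2⟩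
        exact (hr (τ p) p ⟨hp, ZFIN_spl hs hp hps hS', hps, hpc⟩ rfl).symm
    · exact Or.inl (htn q hq hS)
  refine ⟨AddSubgroup.closure (insert t0 (t '' {q | Prime q})), ?_, ?_⟩
  · exact (AddSubgroup.fg_iff _).2 ⟨_, rfl, hfin.insert _⟩
  · refine ht0 _ (AddSubgroup.subset_closure (Set.mem_insert _ _)) ?_
    intro N _ _ _ hN
    exact AddSubgroup.closure_mono (Set.subset_insert _ _) (htc N hN)

end Pool.Agent.QCB
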