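import Pool.Agent.QCB.DX
import Pool.Agent.QCB.ZFIN
import Pool.Agent.QCB.QI
import Pool.Agent.QCB.GLOC

/-!
# QCB, module QORD: quaternion orders over arithmetic surfaces `R[X]`

Proof. `L = Frac R`. Over `L`: `a = λ² a₁`, `b = μ² b₁` with `a₁`, `b₁` squarefree, `g = gcd(a₁,b₁)`, `a₁ = g a'`, `b₁ = g b'`;
`g - a' = 0` would make `a₁ = g²` (then `a` is a square and everything is split: replace `a` by `1`);
otherwise `b₂ =` the squarefree part of `b' (g - a')`, which is coprime to `a₁` (`b'` and `g`, `b'` and `a'` coprime; `g - a'`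
coprime to `g` and `a'`). Clear denominators: all in `R[X]` up to nonzero constants in `R` and squares. `DX` gives `r` and good data for `a₁, b₂`
over `R_r`; `ZFIN`: `GFG ℍ[R_r[X]_(a₁ b₂), a₁, b₂]`; `GLOC` to `R[X]_s'` for suitable multiples `s'`; `QI1`, `QI2`, `QI3`
identify it with `ℍ[R[X]_s', a, b]`.
-/

set_option autoImplicit false

namespace Pool.Agent.QCB

open Quaternion QuaternionAlgebra Polynomial Pool.Agent.Helper67.Bass

private theorem QORD_sqf {M : Type} [CommRing M] [IsDomain M] [UniqueFactorizationMonoid M] (x : M)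
    (hx : x ≠ 0) : ∃ y z : M, x = y ^ 2 * z ∧ Squarefree z := by
  induction x using UniqueFactorizationMonoid.induction_on_prime with
  | h₁ => exact absurd rfl hx
  | h₂ x hu => exact ⟨1, x, by simp, hu.squarefree⟩
  | h₃ x p hx0 hp ih =>
    obtain ⟨y, z, hxy, hz⟩ := ih hx0
    by_cases h : p ∣ z
    · obtain ⟨w, rfl⟩ := h
      exact ⟨p * y, w, by rw [hxy]; ring, hz.squarefree_of_dvd (Dvd.intro_left p rfl)⟩
    · refine ⟨y, p * z, by rw [hxy]; ring, ?_⟩
      rw [squarefree_mul_iff]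
      exact ⟨(hp.irreducible.isRelPrime_iff_not_dvd).2 h, hp.irreducible.squarefree, hz⟩

private theorem QORD_clear {R : Type} [CommRing R] [IsDomain R] (p : (FractionRing R)[X]) :
    ∃ d : R, d ≠ 0 ∧ ∃ P : R[X], P.map (algebraMap R (FractionRing R)) =
      C (algebraMap R (FractionRing R) d) * p := by
  obtain ⟨b, hb, h⟩ := IsLocalization.integerNormalization_spec (nonZeroDivisors R) p
  refine ⟨b, nonZeroDivisors.ne_zero hb,
    IsLocalization.integerNormalization (nonZeroDivisors R) p, ?_⟩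
  rw [h, ← Polynomial.smul_eq_C_mul, algebraMap_smul]

/-- the quaternion algebras of the two pairs are isomorphic after a localization -/
private def QORDRel {P : Type} [CommRing P] (a b a₂ b₂ : P) : Prop :=
  ∃ s : P, s ≠ 0 ∧ ∀ (A : Type) [CommRing A] [Algebra P A], IsUnit (algebraMap P A s) →
    Nonempty (ℍ[A,algebraMap P A a,algebraMap P A b] ≃+*
      ℍ[A,algebraMap P A a₂,algebraMap P A b₂])

private theorem QORDRel.trans {P : Type} [CommRing P] [IsDomain P] {a b a₂ b₂ a₃ b₃ : P}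
    (h : QORDRel a b a₂ b₂) (h' : QORDRel a₂ b₂ a₃ b₃) : QORDRel a b a₃ b₃ := by
  obtain ⟨s, hs, h⟩ := h
  obtain ⟨s', hs', h'⟩ := h'
  refine ⟨s * s', mul_ne_zero hs hs', fun A _ _ hu => ?_⟩
  rw [map_mul] at hu
  obtain ⟨e⟩ := h A (isUnit_of_mul_isUnit_left hu)
  obtain ⟨e'⟩ := h' A (isUnit_of_mul_isUnit_right hu)
  exact ⟨e.trans e'⟩

private theorem QORD_sq {P A : Type} [CommRing P] [CommRing A] [Algebra P A]
    {a a₁ d l : P} (h : d ^ 2 * a = l ^ 2 * a₁) (hu : IsUnit (algebraMap P A (d * l))) :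
    ∃ u : A, IsUnit u ∧ algebraMap P A a = u ^ 2 * algebraMap P A a₁ := by
  rw [map_mul] at hu
  have hd : IsUnit (algebraMap P A d) := isUnit_of_mul_isUnit_left hu
  have hl : IsUnit (algebraMap P A l) := isUnit_of_mul_isUnit_right hu
  obtain ⟨v, hv⟩ := hd
  have h1 := congrArg (algebraMap P A) h
  rw [map_mul, map_mul, map_pow, map_pow, ← hv] at h1
  refine ⟨algebraMap P A l * ((v⁻¹ : Aˣ) : A), hl.mul (Units.isUnit _), ?_⟩
  have h2 : (((v⁻¹ : Aˣ) : A)) * (v : A) = 1 := Units.inv_mul v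
  calc algebraMap P A a = ((((v⁻¹ : Aˣ) : A)) * (v : A)) ^ 2 * algebraMap P A a := by
        rw [h2]; ring
    _ = (((v⁻¹ : Aˣ) : A)) ^ 2 * ((v : A) ^ 2 * algebraMap P A a) := by ring
    _ = _ := by rw [h1]; ring

private theorem QORDRel.left {P : Type} [CommRing P] [IsDomain P] {a a₁ d l : P} (b : P)
    (hd : d ≠ 0) (hl : l ≠ 0) (h : d ^ 2 * a = l ^ 2 * a₁) : QORDRel a b a₁ b := by
  refine ⟨d * l, mul_ne_zero hd hl, fun A _ _ hu => ?_⟩
  obtain ⟨u, hu1, hu2⟩ := QORD_sq h hu
  rw [hu2]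
  exact QI1 _ _ u hu1

private theorem QORDRel.right {P : Type} [CommRing P] [IsDomain P] {b b₁ d l : P} (a : P)
    (hd : d ≠ 0) (hl : l ≠ 0) (h : d ^ 2 * b = l ^ 2 * b₁) : QORDRel a b a b₁ := by
  refine ⟨d * l, mul_ne_zero hd hl, fun A _ _ hu => ?_⟩
  obtain ⟨u, hu1, hu2⟩ := QORD_sq h hu
  rw [hu2]
  exact QI2 _ _ u hu1

private theorem QORDRel.swap {P : Type} [CommRing P] [IsDomain P] (g a b : P)
    (hg : g ≠ 0) (hga : g - a ≠ 0) : QORDRel (g * a) (g * b) (g * a) (b * (g - a)) := by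
  refine ⟨g * (g - a), mul_ne_zero hg hga, fun A _ _ hu => ?_⟩
  rw [map_mul] at hu
  rw [map_mul, map_mul, map_mul, map_sub]
  refine QI3 _ _ _ (isUnit_of_mul_isUnit_left hu) ?_
  rw [← map_sub]
  exact isUnit_of_mul_isUnit_right hu

private theorem QORD_inj {R : Type} [CommRing R] [IsDomain R] :
    Function.Injective (Polynomial.map (algebraMap R (FractionRing R))) :=
  Polynomial.map_injective _ (IsFractionRing.injective R (FractionRing R))

private theorem QORD_rep {R : Type} [CommRing R] [IsDomain R] (x P : R[X])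
    (l p : (FractionRing R)[X]) (e : R) (he : e ≠ 0)
    (hP : P.map (algebraMap R (FractionRing R)) = C (algebraMap R (FractionRing R) e) ^ 2 * p)
    (hx : x.map (algebraMap R (FractionRing R)) = l ^ 2 * p) (hx0 : x ≠ 0) :
    ∃ d k : R[X], d ≠ 0 ∧ k ≠ 0 ∧ d ^ 2 * x = k ^ 2 * P := by
  obtain ⟨f, hf, M, hM⟩ := QORD_clear l
  have hL : l ≠ 0 := by
    rintro rfl
    apply hx0
    apply QORD_inj
    rw [hx]; simp
  have hfC : (C (algebraMap R (FractionRing R) f) : (FractionRing R)[X]) ≠ 0 := by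
    rw [Ne, C_eq_zero, map_eq_zero_iff _ (IsFractionRing.injective R (FractionRing R))]
    exact hf
  refine ⟨C (e * f), M, ?_, ?_, ?_⟩
  · rw [Ne, C_eq_zero]; exact mul_ne_zero he hf
  · rintro rfl
    rw [Polynomial.map_zero] at hM
    exact mul_ne_zero hfC hL hM.symm
  · apply QORD_inj
    simp only [Polynomial.map_mul, Polynomial.map_pow, map_C, map_mul, hM, hP, hx]
    ring

private theorem QORD_unit {R : Type} [CommRing R] [IsDomain R] {d : R} (hd : d ≠ 0) :
    IsUnit (C (algebraMap R (FractionRing R) d) ^ 2 : (FractionRing R)[X]) := by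
  apply IsUnit.pow
  rw [isUnit_C]
  apply IsUnit.mk0
  rw [Ne, map_eq_zero_iff _ (IsFractionRing.injective R (FractionRing R))]
  exact hd

private theorem QORD_nf {R : Type} [CommRing R] [IsDomain R] (a b : R[X]) (ha0 : a ≠ 0)
    (hb0 : b ≠ 0) : ∃ a₂ b₂ : R[X], a₂ ≠ 0 ∧ b₂ ≠ 0 ∧
      Squarefree (a₂.map (algebraMap R (FractionRing R))) ∧
      Squarefree (b₂.map (algebraMap R (FractionRing R))) ∧
      IsCoprime (a₂.map (algebraMap R (FractionRing R)))
        (b₂.map (algebraMap R (FractionRing R))) ∧ QORDRel a b a₂ b₂ := by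
  classical
  have ha0' : a.map (algebraMap R (FractionRing R)) ≠ 0 := by
    intro h; exact ha0 (QORD_inj (by rw [h, Polynomial.map_zero]))
  have hb0' : b.map (algebraMap R (FractionRing R)) ≠ 0 := by
    intro h; exact hb0 (QORD_inj (by rw [h, Polynomial.map_zero]))
  obtain ⟨l, a₁, h1, hsq1⟩ := QORD_sqf _ ha0'
  obtain ⟨m, b₁, h2, hsq2⟩ := QORD_sqf _ hb0'
  let _ : GCDMonoid (FractionRing R)[X] := UniqueFactorizationMonoid.toGCDMonoid _
  obtain ⟨a', b', ha', hb', hu⟩ := extract_gcd a₁ b₁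
  rw [gcd_isUnit_iff] at hu
  set g := gcd a₁ b₁ with hgdef
  clear_value g
  have ha₁0 : a₁ ≠ 0 := by rintro rfl; exact ha0' (by rw [h1]; ring)
  have hb₁0 : b₁ ≠ 0 := by rintro rfl; exact hb0' (by rw [h2]; ring)
  have hg0 : g ≠ 0 := by rintro rfl; exact ha₁0 (by rw [ha']; ring)
  have ha'0 : a' ≠ 0 := by rintro rfl; exact ha₁0 (by rw [ha']; ring)
  have hb'0 : b' ≠ 0 := by rintro rfl; exact hb₁0 (by rw [hb']; ring)
  by_cases hga : g = a'
  · -- `a` is a square
    obtain ⟨d, hd, P, hP⟩ := QORD_clear b₁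
    have hP2 : (C d * P).map (algebraMap R (FractionRing R)) =
        C (algebraMap R (FractionRing R) d) ^ 2 * b₁ := by
      rw [Polynomial.map_mul, map_C, hP]; ring
    refine ⟨1, C d * P, one_ne_zero, ?_, ?_, ?_, ?_, ?_⟩
    · intro h0
      rw [h0, Polynomial.map_zero] at hP2
      exact mul_ne_zero (QORD_unit hd).ne_zero hb₁0 hP2.symm
    · rw [Polynomial.map_one]; exact squarefree_one
    · rw [hP2]
      exact (hsq2.squarefree_of_dvd (((QORD_unit hd).mul_left_dvd).2 dvd_rfl))
    · rw [Polynomial.map_one]; exact isCoprime_one_left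
    · have h1' : a.map (algebraMap R (FractionRing R)) = (l * g) ^ 2 * 1 := by
        rw [h1, ha', ← hga]; ring
      obtain ⟨d1, k1, hd1, hk1, e1⟩ := QORD_rep a 1 (l * g) 1 1 one_ne_zero (by simp) h1' ha0
      obtain ⟨d2, k2, hd2, hk2, e2⟩ := QORD_rep b (C d * P) m b₁ d hd hP2 h2 hb0
      exact (QORDRel.left b hd1 hk1 e1).trans (QORDRel.right 1 hd2 hk2 e2)
  · have hga0 : g - a' ≠ 0 := sub_ne_zero.2 hga
    obtain ⟨n, b₂, h3, hsq3⟩ := QORD_sqf (b' * (g - a')) (mul_ne_zero hb'0 hga0)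
    obtain ⟨dg, hdg, G, hG⟩ := QORD_clear g
    obtain ⟨da, hda, A', hA'⟩ := QORD_clear a'
    obtain ⟨db, hdb, B', hB'⟩ := QORD_clear b'
    obtain ⟨e, he, P, hP⟩ := QORD_clear b₂
    have hsqa : Squarefree (g * a') := by rw [← ha']; exact hsq1
    have hsqb : Squarefree (g * b') := by rw [← hb']; exact hsq2
    have hco1 : IsCoprime g a' := (IsRelPrime.of_squarefree_mul hsqa).isCoprime
    have hco2 : IsCoprime g b' := (IsRelPrime.of_squarefree_mul hsqb).isCoprime
    have hco3 : IsCoprime g (g - a') := by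
      obtain ⟨u, v, huv⟩ := hco1
      exact ⟨u + v, -v, by rw [← huv]; ring⟩
    have hco4 : IsCoprime a' (g - a') := by
      obtain ⟨u, v, huv⟩ := hco1
      exact ⟨u + v, u, by rw [← huv]; ring⟩
    have hco5 : IsCoprime (g * a') (b' * (g - a')) :=
      (hco2.mul_right hco3).mul_left (hu.mul_right hco4)
    have hco6 : IsCoprime a₁ b₂ := by
      rw [ha']
      rw [h3] at hco5
      exact hco5.of_mul_right_right
    set d := dg * da * db with hd
    have hd0 : d ≠ 0 := mul_ne_zero (mul_ne_zero hdg hda) hdb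
    set G1 : R[X] := C (da * db) * G with hG1
    set A1 : R[X] := C (dg * db) * A' with hA1
    set B1 : R[X] := C (dg * da) * B' with hB1
    have eG : G1.map (algebraMap R (FractionRing R)) =
        C (algebraMap R (FractionRing R) d) * g := by
      simp only [hG1, hd, Polynomial.map_mul, map_C, map_mul, hG]; ring
    have eA : A1.map (algebraMap R (FractionRing R)) =
        C (algebraMap R (FractionRing R) d) * a' := by
      simp only [hA1, hd, Polynomial.map_mul, map_C, map_mul, hA']; ring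
    have eB : B1.map (algebraMap R (FractionRing R)) =
        C (algebraMap R (FractionRing R) d) * b' := by
      simp only [hB1, hd, Polynomial.map_mul, map_C, map_mul, hB']; ring
    have eGA : (G1 * A1).map (algebraMap R (FractionRing R)) =
        C (algebraMap R (FractionRing R) d) ^ 2 * a₁ := by
      rw [Polynomial.map_mul, eG, eA, ha']; ring
    have eGB : (G1 * B1).map (algebraMap R (FractionRing R)) =
        C (algebraMap R (FractionRing R) d) ^ 2 * b₁ := by
      rw [Polynomial.map_mul, eG, eB, hb']; ring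
    have eBG : (B1 * (G1 - A1)).map (algebraMap R (FractionRing R)) =
        (C (algebraMap R (FractionRing R) d) * n) ^ 2 * b₂ := by
      rw [Polynomial.map_mul, Polynomial.map_sub, eG, eA, eB, ← mul_sub]
      calc _ = C (algebraMap R (FractionRing R) d) ^ 2 * (b' * (g - a')) := by ring
        _ = _ := by rw [h3]; ring
    have eP : (C e * P).map (algebraMap R (FractionRing R)) =
        C (algebraMap R (FractionRing R) e) ^ 2 * b₂ := by
      rw [Polynomial.map_mul, map_C, hP]; ring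
    have hb₂0 : b₂ ≠ 0 := by
      rintro rfl
      exact mul_ne_zero hb'0 hga0 (by rw [h3]; ring)
    have hdC : (C (algebraMap R (FractionRing R) d) : (FractionRing R)[X]) ≠ 0 := by
      intro h0
      have := (QORD_unit hd0).ne_zero
      rw [h0] at this
      exact this (by ring)
    have hG1A1 : G1 - A1 ≠ 0 := by
      intro h0
      have : (G1 - A1).map (algebraMap R (FractionRing R)) = 0 := by
        rw [h0, Polynomial.map_zero]
      rw [Polynomial.map_sub, eG, eA, ← mul_sub] at this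
      exact mul_ne_zero hdC hga0 this
    have hG10 : G1 ≠ 0 := by
      intro h0
      rw [h0, Polynomial.map_zero] at eG
      exact mul_ne_zero hdC hg0 eG.symm
    have hA10 : A1 ≠ 0 := by
      intro h0
      rw [h0, Polynomial.map_zero] at eA
      exact mul_ne_zero hdC ha'0 eA.symm
    have hB10 : B1 ≠ 0 := by
      intro h0
      rw [h0, Polynomial.map_zero] at eB
      exact mul_ne_zero hdC hb'0 eB.symm
    refine ⟨G1 * A1, C e * P, mul_ne_zero hG10 hA10, ?_, ?_, ?_, ?_, ?_⟩
    · intro h0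
      rw [h0, Polynomial.map_zero] at eP
      exact mul_ne_zero (QORD_unit he).ne_zero hb₂0 eP.symm
    · rw [eGA]
      exact (hsq1.squarefree_of_dvd (((QORD_unit hd0).mul_left_dvd).2 dvd_rfl))
    · rw [eP]
      exact (hsq3.squarefree_of_dvd (((QORD_unit he).mul_left_dvd).2 dvd_rfl))
    · rw [eGA, eP, isCoprime_mul_unit_left_left (QORD_unit hd0),
        isCoprime_mul_unit_left_right (QORD_unit he)]
      exact hco6
    · obtain ⟨d1, k1, hd1, hk1, e1⟩ := QORD_rep a (G1 * A1) l a₁ d hd0 eGA h1 ha0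
      obtain ⟨d2, k2, hd2, hk2, e2⟩ := QORD_rep b (G1 * B1) m b₁ d hd0 eGB h2 hb0
      obtain ⟨d3, k3, hd3, hk3, e3⟩ := QORD_rep (B1 * (G1 - A1)) (C e * P) _ b₂ e he eP eBG
        (mul_ne_zero hB10 hG1A1)
      exact (((QORDRel.left b hd1 hk1 e1).trans (QORDRel.right (G1 * A1) hd2 hk2 e2)).trans
        (QORDRel.swap G1 A1 B1 hG10 hG1A1)).trans (QORDRel.right (G1 * A1) hd3 hk3 e3)

/-- localizations of localizations -/
private theorem QORD_away {P B A : Type} [CommRing P] [CommRing B] [CommRing A] [Algebra P A]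
    [Algebra B A] (f : P →+* B) (hf : (algebraMap B A).comp f = algebraMap P A) (s x : P)
    [IsLocalization.Away s A] (hx : IsUnit (f x))
    (hB : ∀ z : B, ∃ (n : ℕ) (y : P), z * f x ^ n = f y) : IsLocalization.Away (f s) A := by
  have hfa : ∀ y : P, algebraMap B A (f y) = algebraMap P A y := fun y => by rw [← hf]; rfl
  refine ⟨?_, ?_, ?_⟩
  · rintro ⟨_, n, rfl⟩
    simp only [map_pow]
    rw [hfa]
    exact (IsLocalization.Away.algebraMap_isUnit s).pow n
  · intro z
    obtain ⟨n, y, hy⟩ := IsLocalization.Away.surj s z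
    refine ⟨⟨f y, ⟨f s ^ n, n, rfl⟩⟩, ?_⟩
    simp only [map_pow, hfa]
    exact hy
  · intro u v huv
    obtain ⟨n, y, hy⟩ := hB (u - v)
    have h1 : algebraMap P A y = algebraMap P A 0 := by
      rw [← hfa, ← hy, map_mul, map_sub, huv, sub_self, zero_mul, map_zero]
    obtain ⟨k, hk⟩ := IsLocalization.Away.exists_of_eq s h1
    refine ⟨⟨f s ^ k, k, rfl⟩, ?_⟩
    have h2 : f s ^ k * (u - v) * f x ^ n = 0 := by
      rw [mul_assoc, hy, ← map_pow, ← map_mul, hk, mul_zero, map_zero]
    have h3 : f s ^ k * (u - v) = 0 := by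
      have := (hx.pow n)
      exact (this.mul_left_eq_zero).1 h2
    rw [mul_sub, sub_eq_zero] at h3
    exact h3

private theorem QORD_glue {R Rr A B : Type} [CommRing R] [CommRing Rr] [CommRing A] [CommRing B]
    [Algebra R Rr] [Algebra R[X] A] [Algebra Rr[X] B] (r : R) [IsLocalization.Away r Rr]
    (q₀ : R[X]) [IsLocalization.Away (q₀.map (algebraMap R Rr)) B] (s' : R[X])
    [IsLocalization.Away s' A] (d5 : C r ∣ s') (d6 : q₀ ∣ s') :
    ∃ h : B →+* A, (∀ x : R[X], h (algebraMap Rr[X] B (x.map (algebraMap R Rr))) =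
      algebraMap R[X] A x) ∧ (let _ : Algebra B A := h.toAlgebra;
        IsLocalization.Away (algebraMap Rr[X] B (s'.map (algebraMap R Rr))) A) := by
  have hunit : ∀ t : R[X], t ∣ s' → IsUnit (algebraMap R[X] A t) := by
    intro t ht
    exact isUnit_of_dvd_unit (map_dvd _ ht) (IsLocalization.Away.algebraMap_isUnit s')
  have hg : IsUnit (((algebraMap R[X] A).comp C) r) := hunit (C r) d5
  obtain ⟨g₁, hg₁⟩ : ∃ g₁ : Rr →+* A, ∀ x, g₁ (algebraMap R Rr x) = algebraMap R[X] A (C x) :=
    ⟨IsLocalization.Away.lift (S := Rr) r hg, fun x => IsLocalization.Away.lift_eq r hg x⟩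
  obtain ⟨g₂, hg₂⟩ : ∃ g₂ : Rr[X] →+* A, ∀ x : R[X], g₂ (x.map (algebraMap R Rr)) =
      algebraMap R[X] A x := by
    refine ⟨eval₂RingHom g₁ (algebraMap R[X] A X), fun x => ?_⟩
    have : (eval₂RingHom g₁ (algebraMap R[X] A X)).comp (mapRingHom (algebraMap R Rr)) =
        algebraMap R[X] A := by
      apply Polynomial.ringHom_ext
      · intro x
        simp only [RingHom.comp_apply, coe_mapRingHom, map_C, coe_eval₂RingHom, eval₂_C]
        exact hg₁ x
      · simp
    exact DFunLike.congr_fun this x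
  have hg₃ : IsUnit (g₂ (q₀.map (algebraMap R Rr))) := by
    rw [hg₂]
    exact hunit _ d6
  obtain ⟨h, hh⟩ : ∃ h : B →+* A, ∀ x, h (algebraMap Rr[X] B x) = g₂ x :=
    ⟨IsLocalization.Away.lift (S := B) (q₀.map (algebraMap R Rr)) hg₃,
      fun x => IsLocalization.Away.lift_eq _ hg₃ x⟩
  refine ⟨h, fun x => by rw [hh, hg₂], ?_⟩
  intro _
  have hfr : IsUnit (algebraMap Rr[X] B ((C r : R[X]).map (algebraMap R Rr))) := by
    have h1 : IsUnit (algebraMap R Rr r) := IsLocalization.Away.algebraMap_isUnit r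
    rw [map_C]
    exact (h1.map C).map _
  have hfq : IsUnit (algebraMap Rr[X] B (q₀.map (algebraMap R Rr))) :=
    IsLocalization.Away.algebraMap_isUnit _
  refine QORD_away ((algebraMap Rr[X] B).comp (mapRingHom (algebraMap R Rr))) ?_ s'
    (C r * q₀) ?_ ?_
  · refine RingHom.ext fun x => ?_
    exact (hh _).trans (hg₂ x)
  · rw [map_mul]; exact hfr.mul hfq
  · intro z
    obtain ⟨n, P, hP⟩ := IsLocalization.Away.surj (q₀.map (algebraMap R Rr)) z
    obtain ⟨_, ⟨k, rfl⟩, hb⟩ := IsLocalization.integerNormalization_spec (Submonoid.powers r) P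
    set P₀ := IsLocalization.integerNormalization (Submonoid.powers r) P with hP₀
    refine ⟨n + k, P₀ * (C r ^ n * q₀ ^ k), ?_⟩
    simp only [RingHom.comp_apply, coe_mapRingHom, map_mul, map_pow]
    have e1 : algebraMap Rr[X] B (P₀.map (algebraMap R Rr)) =
        algebraMap Rr[X] B ((C r : R[X]).map (algebraMap R Rr)) ^ k * algebraMap Rr[X] B P := by
      have : P₀.map (algebraMap R Rr) = (C r : R[X]).map (algebraMap R Rr) ^ k * P := by
        rw [hb, map_C, ← C_pow, ← map_pow, ← Polynomial.smul_eq_C_mul, algebraMap_smul]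
      rw [this, map_mul, map_pow]
    rw [e1, ← hP]
    ring

theorem QORD {R : Type} [CommRing R] [IsDomain R] [Algebra.FiniteType ℤ R] [Infinite R]
    (hK : KroneckerLeOne (FractionRing R)) (h2 : (2 : R) ≠ 0) (hL : LeftPID R) (a b : R[X]) (ha0 : a ≠ 0)
    (hb0 : b ≠ 0) :
    ∃ s : R[X], s ≠ 0 ∧ ∀ s' : R[X], s' ≠ 0 → s ∣ s' →
      IsUnit (algebraMap R[X] (Localization.Away s') a) ∧
      IsUnit (algebraMap R[X] (Localization.Away s') b) ∧
      GFG ℍ[Localization.Away s', algebraMap R[X] (Localization.Away s') a,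
        algebraMap R[X] (Localization.Away s') b] := by
  obtain ⟨a₂, b₂, ha₂, hb₂, hsa, hsb, hco, s₀, hs₀, hrel⟩ := QORD_nf a b ha0 hb0
  obtain ⟨r, hr, c, hdom, hdat⟩ := DX hK h2 hL a₂ b₂ ha₂ hb₂ hsa hsb hco
  have hZ := ZFIN _ _ c hdat
  have hCr : (C r : R[X]) ≠ 0 := by rw [Ne, C_eq_zero]; exact hr
  refine ⟨s₀ * (C r * (a₂ * b₂)) * (a * b), mul_ne_zero (mul_ne_zero hs₀
    (mul_ne_zero hCr (mul_ne_zero ha₂ hb₂))) (mul_ne_zero ha0 hb0), fun s' hs' hdvd => ?_⟩
  have hunit : ∀ t : R[X], t ∣ s' → IsUnit (algebraMap R[X] (Localization.Away s') t) := by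
    intro t ht
    exact isUnit_of_dvd_unit (map_dvd _ ht) (IsLocalization.Away.algebraMap_isUnit s')
  have d1 : s₀ * (C r * (a₂ * b₂)) ∣ s' := (Dvd.intro _ rfl).trans hdvd
  have d2 : a * b ∣ s' := (Dvd.intro_left _ rfl).trans hdvd
  have d3 : s₀ ∣ s' := (Dvd.intro _ rfl).trans d1
  have d4 : C r * (a₂ * b₂) ∣ s' := (Dvd.intro_left _ rfl).trans d1
  have d5 : C r ∣ s' := (Dvd.intro _ rfl).trans d4
  have d6 : a₂ * b₂ ∣ s' := (Dvd.intro_left _ rfl).trans d4
  refine ⟨hunit a ((Dvd.intro _ rfl).trans d2), hunit b ((Dvd.intro_left _ rfl).trans d2), ?_⟩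
  obtain ⟨e⟩ := hrel (Localization.Away s') (hunit s₀ d3)
  refine GFG.of_equiv e.symm ?_
  have hRn : IsNoetherianRing R := Algebra.FiniteType.isNoetherianRing ℤ R
  have hRr : IsNoetherianRing (Localization.Away r) :=
    IsLocalization.isNoetherianRing (Submonoid.powers r) _ inferInstance
  obtain ⟨B, iB, iAB, hloc, hnoe, hfin⟩ : ∃ (B : Type) (_ : CommRing B)
      (_ : Algebra (Localization.Away r)[X] B)
      (_ : IsLocalization.Away ((a₂ * b₂).map (algebraMap R (Localization.Away r))) B)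
      (_ : IsNoetherianRing B), GFG ℍ[B, algebraMap (Localization.Away r)[X] B
        (a₂.map (algebraMap R (Localization.Away r))),
        algebraMap (Localization.Away r)[X] B (b₂.map (algebraMap R (Localization.Away r)))] := by
    refine ⟨Localization.Away (a₂.map (algebraMap R (Localization.Away r)) *
      b₂.map (algebraMap R (Localization.Away r))), inferInstance, inferInstance, ?_, ?_, hZ⟩
    · rw [Polynomial.map_mul]
      infer_instance
    · exact IsLocalization.isNoetherianRing (Submonoid.powers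
        (a₂.map (algebraMap R (Localization.Away r)) *
        b₂.map (algebraMap R (Localization.Away r)))) _ inferInstance
  obtain ⟨h, hh, hA⟩ := QORD_glue (Rr := Localization.Away r) (A := Localization.Away s') (B := B) r (a₂ * b₂) s' d5 d6
  let _ : Algebra B (Localization.Away s') := h.toAlgebra
  have := GLOC (A := B) (B := Localization.Away s')
    (algebraMap (Localization.Away r)[X] B (s'.map (algebraMap R (Localization.Away r)))) _ _ hfin
  have e1 := hh a₂
  have e2 := hh b₂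
  rw [← e1, ← e2]
  exact this

end Pool.Agent.QCB
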