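import Pool.Agent.QCB.QB

/-!
# QCB, module QS: modules over a quaternion algebra, elementary facts

`QS1`: the two-sided ideal generated by `z` contains `8 a b z_l` for each coordinate (up to a unit):
`a z + i z i = 2 a (z₀ + z₁ i)`, `b w + j w j = 2 b w₀` for `w = w₀ + w₁ i`; multiply `z` first by
`i`, `j`, `k` to move a coordinate to the real part. `QS2`: if `c • n`, `i n`, `j n` are
proportional then `λ μ = - λ μ` for the eigenvalues, while `λ² = a`, `μ² = b` are units. Apart from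
primes `q` the lemmas are used for `q = 0` (then `q ∣ s` means `s = 0`).
-/

set_option autoImplicit false
set_option linter.unusedSectionVars false

namespace Pool.Agent.QCB

open Quaternion QuaternionAlgebra

variable {A : Type} [CommRing A] [IsDomain A] {a b : A}

omit [IsDomain A] in
private theorem QS_re (w : ℍ[A,a,b]) (N : Type) [AddCommGroup N] [Module ℍ[A,a,b] N]
    (h : ∀ n : N, w • n = 0) (n : N) :
    algebraMap A ℍ[A,a,b] (4 * a * b * w.re) • n = 0 := by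
  have h1 : algebraMap A ℍ[A,a,b] (4 * a * b * w.re) =
      algebraMap A ℍ[A,a,b] b * (algebraMap A ℍ[A,a,b] a * w +
        (⟨0, 1, 0, 0⟩ : ℍ[A,a,b]) * (w * (⟨0, 1, 0, 0⟩ : ℍ[A,a,b]))) +
      (⟨0, 0, 1, 0⟩ : ℍ[A,a,b]) * ((algebraMap A ℍ[A,a,b] a * w +
        (⟨0, 1, 0, 0⟩ : ℍ[A,a,b]) * (w * (⟨0, 1, 0, 0⟩ : ℍ[A,a,b]))) *
          (⟨0, 0, 1, 0⟩ : ℍ[A,a,b])) := by
    rw [QuaternionAlgebra.algebraMap_eq, QuaternionAlgebra.algebraMap_eq,
      QuaternionAlgebra.algebraMap_eq]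
    ext <;> simp
    ring
  rw [h1]
  simp only [add_smul, mul_smul, h, smul_zero, add_zero]

/-- if `N` is a module in which `z n = 0` for all `n`, some central element not divisible by `q`
kills `N` -/
theorem QS1 (ha : IsUnit a) (hb : IsUnit b) (h2 : IsUnit (2 : A)) (q : A) (z : ℍ[A,a,b])
    (hz : ¬ Dvd4 q z) (N : Type) [AddCommGroup N] [Module ℍ[A,a,b] N] (h : ∀ n : N, z • n = 0) :
    ∃ s : A, ¬ q ∣ s ∧ Kil (Λ := ℍ[A,a,b]) s N := by
  have h4 : IsUnit (4 : A) := by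
    have : (4 : A) = 2 * 2 := by norm_num
    rw [this]
    exact h2.mul h2
  have hu : IsUnit (4 * a * b) := (h4.mul ha).mul hb
  have hmul : ∀ (y : ℍ[A,a,b]) (n : N), (y * z) • n = 0 := fun y n => by
    rw [mul_smul, h, smul_zero]
  have hdvd : ∀ u s : A, IsUnit u → ¬ q ∣ s → ¬ q ∣ u * s := by
    intro u s hu hs hd
    exact hs ((IsUnit.dvd_mul_left hu).1 hd)
  unfold Dvd4 at hz
  by_cases h0 : q ∣ z.re
  · by_cases h1 : q ∣ z.imI
    · by_cases h3 : q ∣ z.imJ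
      · have h5 : ¬ q ∣ z.imK := fun h5 => hz ⟨h0, h1, h3, h5⟩
        refine ⟨4 * a * b * ((⟨0, 0, 0, 1⟩ : ℍ[A,a,b]) * z).re, ?_, fun n =>
          QS_re _ N (hmul _) n⟩
        have e : ((⟨0, 0, 0, 1⟩ : ℍ[A,a,b]) * z).re = -(a * b) * z.imK := by
          simp
        rw [e]
        exact hdvd _ _ hu (hdvd _ _ (ha.mul hb).neg h5)
      · refine ⟨4 * a * b * ((⟨0, 0, 1, 0⟩ : ℍ[A,a,b]) * z).re, ?_, fun n =>
          QS_re _ N (hmul _) n⟩
        have e : ((⟨0, 0, 1, 0⟩ : ℍ[A,a,b]) * z).re = b * z.imJ := by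
          simp
        rw [e]
        exact hdvd _ _ hu (hdvd _ _ hb h3)
    · refine ⟨4 * a * b * ((⟨0, 1, 0, 0⟩ : ℍ[A,a,b]) * z).re, ?_, fun n =>
          QS_re _ N (hmul _) n⟩
      have e : ((⟨0, 1, 0, 0⟩ : ℍ[A,a,b]) * z).re = a * z.imI := by
        simp
      rw [e]
      exact hdvd _ _ hu (hdvd _ _ ha h1)
  · exact ⟨4 * a * b * z.re, hdvd _ _ hu h0, fun n => QS_re _ N h n⟩

/-- a nonzero element of a module over `Λ / q Λ` without `A / q`-torsion generates a submodule of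
rank at least two: one of `n, i n` and `n, j n` is independent over `A / q` -/
theorem QS2 (ha : IsUnit a) (hb : IsUnit b) (h2 : IsUnit (2 : A)) (q : A)
    (hq : (Ideal.span {q}).IsPrime) (N : Type) [AddCommGroup N] [Module ℍ[A,a,b] N] (hN : Kil (Λ := ℍ[A,a,b]) q N)
    (ht : ∀ (s : A) (n : N), ¬ q ∣ s → algebraMap A ℍ[A,a,b] s • n = 0 → n = 0) (n : N)
    (hn : n ≠ 0) :
    ∃ w : ℍ[A,a,b], ∀ c d : A,
      algebraMap A ℍ[A,a,b] c • n + algebraMap A ℍ[A,a,b] d • (w • n) = 0 → q ∣ c ∧ q ∣ d := by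
  have hu : ∀ u : A, IsUnit u → ¬ q ∣ u := by
    intro u hu hd
    exact hq.ne_top (Ideal.eq_top_of_isUnit_mem _ (Ideal.mem_span_singleton.2 hd) hu)
  have hmul : ∀ s t : A, ¬ q ∣ s → ¬ q ∣ t → ¬ q ∣ s * t := by
    intro s t hs ht' hd
    rcases hq.mem_or_mem (Ideal.mem_span_singleton.2 hd) with h | h
    · exact hs (Ideal.mem_span_singleton.1 h)
    · exact ht' (Ideal.mem_span_singleton.1 h)
  have hkil : ∀ (s : A) (m : N), q ∣ s → algebraMap A ℍ[A,a,b] s • m = 0 := by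
    rintro s m ⟨t, rfl⟩
    rw [map_mul, mul_smul]
    exact hN _
  set i : ℍ[A,a,b] := ⟨0, 1, 0, 0⟩ with hi
  set j : ℍ[A,a,b] := ⟨0, 0, 1, 0⟩ with hj
  by_contra hcon
  push Not at hcon
  -- the coefficients for one `w`
  have hc : ∀ w : ℍ[A,a,b], ∃ c d : A, ¬ q ∣ d ∧
      algebraMap A ℍ[A,a,b] c • n + algebraMap A ℍ[A,a,b] d • (w • n) = 0 := by
    intro w
    obtain ⟨c, d, h1, h3⟩ := hcon w
    refine ⟨c, d, fun hd => ?_, h1⟩
    rw [hkil d _ hd, add_zero] at h1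
    by_cases hcq : q ∣ c
    · exact h3 hcq hd
    · exact hn (ht c n hcq h1)
  obtain ⟨c1, d1, hd1, e1⟩ := hc i
  obtain ⟨c2, d2, hd2, e2⟩ := hc j
  have hij : i * j + j * i = 0 := by
    rw [hi, hj]
    ext <;> simp
  have hk : (i * j) * (i * j) = algebraMap A ℍ[A,a,b] (-(a * b)) := by
    rw [hi, hj, QuaternionAlgebra.algebraMap_eq]
    ext <;> simp
  -- `d1 d2 (i j) n = c1 c2 n = d1 d2 (j i) n`
  have f1 : algebraMap A ℍ[A,a,b] d1 • (i • n) = -(algebraMap A ℍ[A,a,b] c1 • n) := by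
    rw [eq_neg_iff_add_eq_zero, add_comm]
    exact e1
  have f2 : algebraMap A ℍ[A,a,b] d2 • (j • n) = -(algebraMap A ℍ[A,a,b] c2 • n) := by
    rw [eq_neg_iff_add_eq_zero, add_comm]
    exact e2
  have hcomm : ∀ (s : A) (w : ℍ[A,a,b]) (m : N), algebraMap A ℍ[A,a,b] s • (w • m) =
      w • (algebraMap A ℍ[A,a,b] s • m) := by
    intro s w m
    rw [← mul_smul, ← mul_smul, central]
  have g1 : algebraMap A ℍ[A,a,b] (d1 * d2) • ((i * j) • n) =
      algebraMap A ℍ[A,a,b] (c1 * c2) • n := by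
    rw [map_mul, mul_smul, mul_smul, hcomm d2 i, f2, smul_neg, smul_neg,
      ← hcomm c2 i n, ← mul_smul, ← map_mul, mul_comm d1 c2, map_mul, mul_smul, f1, smul_neg,
      neg_neg, ← mul_smul, ← map_mul, mul_comm c2 c1]
  have g2 : algebraMap A ℍ[A,a,b] (d1 * d2) • ((j * i) • n) =
      algebraMap A ℍ[A,a,b] (c1 * c2) • n := by
    rw [mul_comm d1 d2, map_mul, mul_smul, mul_smul, hcomm d1 j, f1, smul_neg, smul_neg,
      ← hcomm c1 j n, ← mul_smul, ← map_mul, mul_comm d2 c1, map_mul, mul_smul, f2, smul_neg,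
      neg_neg, ← mul_smul, ← map_mul]
  have g3 : algebraMap A ℍ[A,a,b] (2 * (d1 * d2)) • ((i * j) • n) = 0 := by
    have h5 : (j * i) • n = -((i * j) • n) := by
      rw [eq_neg_iff_add_eq_zero, add_comm, ← add_smul, hij, zero_smul]
    rw [h5, smul_neg] at g2
    have h6 : algebraMap A ℍ[A,a,b] (2 * (d1 * d2)) • ((i * j) • n) =
        algebraMap A ℍ[A,a,b] (d1 * d2) • ((i * j) • n) +
          algebraMap A ℍ[A,a,b] (d1 * d2) • ((i * j) • n) := by
      rw [two_mul, map_add, add_smul]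
    rw [h6]
    nth_rewrite 1 [g1]
    rw [← g2, neg_add_cancel]
  have g4 : (i * j) • n = 0 := ht _ _ (hmul _ _ (hu 2 h2) (hmul _ _ hd1 hd2)) g3
  have g5 : algebraMap A ℍ[A,a,b] (-(a * b)) • n = 0 := by
    rw [← hk, mul_smul, g4, smul_zero]
  exact hn (ht _ _ (hu _ (ha.mul hb).neg) g5)

/-! ### reduction modulo `q` -/

omit [IsDomain A] in
private theorem QS_dvd_mul {q : A} {y : ℍ[A,a,b]} (h : Dvd4 q y) (z : ℍ[A,a,b]) :
    Dvd4 q (y * z) := by
  obtain ⟨⟨y0, h0⟩, ⟨y1, h1⟩, ⟨y2, h2⟩, ⟨y3, h3⟩⟩ := h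
  have e : y = q • (⟨y0, y1, y2, y3⟩ : ℍ[A,a,b]) := by
    ext <;> simp [h0, h1, h2, h3]
  rw [e, smul_mul_assoc]
  exact ⟨⟨_, rfl⟩, ⟨_, rfl⟩, ⟨_, rfl⟩, ⟨_, rfl⟩⟩

omit [IsDomain A] in
private theorem QS_dvd_iff {q : A} {y : ℍ[A,a,b]} : Dvd4 q y ↔
    ∃ x : ℍ[A,a,b], x * algebraMap A ℍ[A,a,b] q = y := by
  constructor
  · rintro ⟨⟨y0, h0⟩, ⟨y1, h1⟩, ⟨y2, h2⟩, ⟨y3, h3⟩⟩
    refine ⟨⟨y0, y1, y2, y3⟩, ?_⟩
    rw [← central, ← Algebra.smul_def]
    ext <;> simp [h0, h1, h2, h3]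
  · rintro ⟨x, rfl⟩
    rw [← central, ← Algebra.smul_def]
    exact ⟨⟨_, rfl⟩, ⟨_, rfl⟩, ⟨_, rfl⟩, ⟨_, rfl⟩⟩

private theorem QS_one (ha : IsUnit a) (hb : IsUnit b) (h2 : IsUnit (2 : A)) (q : A)
    (hq : (Ideal.span {q}).IsPrime) (z : ℍ[A,a,b]) (hz : ¬ Dvd4 q z) :
    ∃ w : ℍ[A,a,b], ∀ c d : A, Dvd4 q (c • z + d • (w * z)) → q ∣ c ∧ q ∣ d := by
  set I : Submodule ℍ[A,a,b] ℍ[A,a,b] := Submodule.span ℍ[A,a,b] {algebraMap A ℍ[A,a,b] q} with hI
  have hmem : ∀ y : ℍ[A,a,b], y ∈ I ↔ Dvd4 q y := by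
    intro y
    rw [hI, Submodule.mem_span_singleton, QS_dvd_iff]
    rfl
  have hmk : ∀ (s : A) (y : ℍ[A,a,b]), algebraMap A ℍ[A,a,b] s • (Submodule.Quotient.mk y : _ ⧸ I) =
      Submodule.Quotient.mk (s • y) := by
    intro s y
    rw [← Submodule.Quotient.mk_smul, smul_eq_mul, ← Algebra.smul_def]
  obtain ⟨w, hw⟩ := QS2 ha hb h2 q hq (_ ⧸ I) (fun x => by
    induction x using Submodule.Quotient.induction_on with
    | _ y =>
      rw [hmk, Submodule.Quotient.mk_eq_zero, hmem]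
      exact ⟨⟨_, rfl⟩, ⟨_, rfl⟩, ⟨_, rfl⟩, ⟨_, rfl⟩⟩) (fun s x hs hx => by
    induction x using Submodule.Quotient.induction_on with
    | _ y =>
      rw [hmk, Submodule.Quotient.mk_eq_zero, hmem] at hx
      rw [Submodule.Quotient.mk_eq_zero, hmem]
      have key : ∀ t : A, q ∣ s * t → q ∣ t := by
        intro t ht
        rcases hq.mem_or_mem (Ideal.mem_span_singleton.2 ht) with h | h
        · exact absurd (Ideal.mem_span_singleton.1 h) hs
        · exact Ideal.mem_span_singleton.1 h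
      exact ⟨key _ hx.1, key _ hx.2.1, key _ hx.2.2.1, key _ hx.2.2.2⟩)
    (Submodule.Quotient.mk z) (fun h => hz (by
      rwa [Submodule.Quotient.mk_eq_zero, hmem] at h))
  refine ⟨w, fun c d h => hw c d ?_⟩
  rw [← Submodule.Quotient.mk_smul I w z, smul_eq_mul, hmk, hmk, ← Submodule.Quotient.mk_add,
    Submodule.Quotient.mk_eq_zero, hmem]
  exact h

/-- a nonzero element with isotropic norm modulo `q`: the left ideal `Λ z` modulo `q` has rank
exactly two -/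
theorem QS3 (ha : IsUnit a) (hb : IsUnit b) (h2 : IsUnit (2 : A)) (q : A)
    (hq : (Ideal.span {q}).IsPrime) (z : ℍ[A,a,b]) (hz : ¬ Dvd4 q z) (hqz : q ∣ nrm z) :
    ∃ w : ℍ[A,a,b], (∀ c d : A, Dvd4 q (c • z + d • (w * z)) → q ∣ c ∧ q ∣ d) ∧
      ∃ s : A, ¬ q ∣ s ∧ ∀ x : ℍ[A,a,b], ∃ c d : A, Dvd4 q (s • (x * z) - (c • z + d • (w * z))) := by
  obtain ⟨w, hw⟩ := QS_one ha hb h2 q hq z hz
  have hz' : ¬ Dvd4 q (star z) := by
    rintro ⟨h0, h1, h3, h4⟩
    refine hz ⟨?_, ?_, ?_, ?_⟩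
    · simpa using h0
    · simpa using h1
    · simpa using h3
    · simpa using h4
  obtain ⟨w', hw'⟩ := QS_one ha hb h2 q hq (star z) hz'
  refine ⟨w, hw, ?_⟩
  -- the four elements
  set e : Fin 4 → ℍ[A,a,b] := ![1, w, star z, w' * star z] with he
  set co : ℍ[A,a,b] → Fin 4 → A := fun x => ![x.re, x.imI, x.imJ, x.imK] with hco
  set M : Matrix (Fin 4) (Fin 4) A := Matrix.of fun i j => co (e i) j with hM
  have hvm : ∀ v : Fin 4 → A, Matrix.vecMul v M = co (∑ i, v i • e i) := by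
    intro v
    funext j
    fin_cases j <;>
      simp [Matrix.vecMul, dotProduct, hM, hco, Fin.sum_univ_four]
  have hmulz : ∀ v : Fin 4 → A, (∑ i, v i • e i) * z =
      v 0 • z + v 1 • (w * z) + nrm z • (algebraMap A ℍ[A,a,b] (v 2) + v 3 • w') := by
    intro v
    rw [Fin.sum_univ_four]
    simp only [he, Matrix.cons_val_zero, Matrix.cons_val_one, Matrix.cons_val]
    have h5 : star z * z = nrm z • (1 : ℍ[A,a,b]) := by
      rw [star_mul_self', Algebra.algebraMap_eq_smul_one]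
    rw [add_mul, add_mul, add_mul, smul_mul_assoc, smul_mul_assoc, smul_mul_assoc, smul_mul_assoc,
      one_mul, mul_assoc w', h5, mul_smul_comm, mul_one, smul_add, add_assoc,
      Algebra.algebraMap_eq_smul_one, smul_comm (nrm z) (v 2), smul_comm (nrm z) (v 3)]
  have hdn : ∀ y : ℍ[A,a,b], Dvd4 q (nrm z • y) := by
    intro y
    exact ⟨Dvd.dvd.mul_right hqz _, Dvd.dvd.mul_right hqz _, Dvd.dvd.mul_right hqz _,
      Dvd.dvd.mul_right hqz _⟩
  have hadd : ∀ x y : ℍ[A,a,b], Dvd4 q y → (Dvd4 q (x + y) ↔ Dvd4 q x) := by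
    rintro x y ⟨h0, h1, h3, h4⟩
    unfold Dvd4
    rw [QuaternionAlgebra.re_add, QuaternionAlgebra.imI_add, QuaternionAlgebra.imJ_add,
      QuaternionAlgebra.imK_add, dvd_add_left h0, dvd_add_left h1, dvd_add_left h3,
      dvd_add_left h4]
  have hind : ∀ v : Fin 4 → A, Dvd4 q (∑ i, v i • e i) → ∀ i, q ∣ v i := by
    intro v hv
    have h5 := QS_dvd_mul hv z
    rw [hmulz, hadd _ _ (hdn _)] at h5
    obtain ⟨h0, h1⟩ := hw _ _ h5
    have hs : ∀ (c : A) (y : ℍ[A,a,b]), q ∣ c → Dvd4 q (c • y) := fun c y hc =>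
      ⟨Dvd.dvd.mul_right hc _, Dvd.dvd.mul_right hc _, Dvd.dvd.mul_right hc _,
        Dvd.dvd.mul_right hc _⟩
    have h6 : ∑ i, v i • e i = (v 2 • star z + v 3 • (w' * star z)) + (v 1 • w + v 0 • 1) := by
      rw [Fin.sum_univ_four]
      simp only [he, Matrix.cons_val_zero, Matrix.cons_val_one, Matrix.cons_val]
      abel
    rw [h6, hadd _ _ ((hadd _ _ (hs _ _ h0)).2 (hs _ _ h1))] at hv
    obtain ⟨h3, h4⟩ := hw' _ _ hv
    intro i
    fin_cases i
    · exact h0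
    · exact h1
    · exact h3
    · exact h4
  have : IsDomain (A ⧸ Ideal.span {q}) := Ideal.Quotient.isDomain _
  have hmk : ∀ t : A, (Ideal.Quotient.mk (Ideal.span {q}) t = 0 ↔ q ∣ t) := fun t => by
    rw [Ideal.Quotient.eq_zero_iff_mem, Ideal.mem_span_singleton]
  refine ⟨M.det, fun hdet => ?_, fun x => ?_⟩
  · have h5 : (M.map (Ideal.Quotient.mk (Ideal.span {q}))).det = 0 := by
      have := (hmk M.det).2 hdet
      rw [RingHom.map_det] at this
      exact this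
    obtain ⟨v, hv0, hv⟩ := Matrix.exists_vecMul_eq_zero_iff.2 h5
    choose v' hv' using fun i => Ideal.Quotient.mk_surjective (v i)
    apply hv0
    funext i
    have h6 : Dvd4 q (∑ i, v' i • e i) := by
      have h7 : ∀ j, q ∣ co (∑ i, v' i • e i) j := by
        intro j
        rw [← hvm, ← hmk]
        refine Eq.trans ?_ (congrFun hv j)
        simp only [Matrix.vecMul, dotProduct, map_sum, map_mul, Matrix.map_apply, hv']
      exact ⟨h7 0, h7 1, h7 2, h7 3⟩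
    rw [← hv' i]
    exact (hmk _).2 (hind v' h6 i)
  · set v : Fin 4 → A := Matrix.vecMul (co x) M.adjugate with hv
    refine ⟨v 0, v 1, ?_⟩
    have h5 : Matrix.vecMul v M = co (M.det • x) := by
      rw [hv, Matrix.vecMul_vecMul, Matrix.adjugate_mul, Matrix.vecMul_smul, Matrix.vecMul_one]
      funext j
      fin_cases j <;> simp [hco]
    rw [hvm] at h5
    have h6 : ∑ i, v i • e i = M.det • x := by
      ext
      · exact congrFun h5 0
      · exact congrFun h5 1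
      · exact congrFun h5 2
      · exact congrFun h5 3
    rw [← smul_mul_assoc, ← h6, hmulz, add_sub_cancel_left]
    exact hdn _

end Pool.Agent.QCB
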