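import Pool.Agent.QCB.Dat
import Pool.Agent.Helper67.Bass.Small

/-!
# QCB, module SQ0: unit groups, number fields

`E = Frac O` is a number field, `O ⊆ 𝓞_E[1/r]` inside `E` for some `r` (finitely many generators). The units of
`𝓞_E[1/r]` map to `∏_{𝔭 ∣ r} ℤ` by the valuations with kernel the units of `𝓞_E`, a finitely generated group
(Dirichlet, in Mathlib). Subgroups of finitely generated abelian groups are finitely generated.
-/

set_option autoImplicit false

namespace Pool.Agent.QCB

open Polynomial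

theorem SqFin.of_fg (O : Type) [CommRing O] (h : Group.FG Oˣ) : SqFin O := by
  classical
  let S : Subgroup Oˣ := (powMonoidHom 2 : Oˣ →* Oˣ).range
  have h1 : Group.FG (Oˣ ⧸ S) := QuotientGroup.fg S
  have h2 : Finite (Oˣ ⧸ S) := by
    have h3 : IsMulTorsion (Oˣ ⧸ S) := by
      intro x
      obtain ⟨u, rfl⟩ := QuotientGroup.mk_surjective x
      refine isOfFinOrder_iff_pow_eq_one.2 ⟨2, by norm_num, ?_⟩
      rw [← QuotientGroup.mk_pow, QuotientGroup.eq_one_iff]
      exact ⟨u, rfl⟩
    exact CommGroup.finite_of_fg_isMulTorsion _ h3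
  have : Fintype (Oˣ ⧸ S) := Fintype.ofFinite _
  refine ⟨Finset.univ.image fun x : Oˣ ⧸ S => x.out, fun u => ?_⟩
  refine ⟨(u : Oˣ ⧸ S).out, Finset.mem_image.2 ⟨_, Finset.mem_univ _, rfl⟩, ?_⟩
  have h3 : ((u : Oˣ ⧸ S).out : Oˣ ⧸ S) = (u : Oˣ ⧸ S) := QuotientGroup.out_eq' _
  obtain ⟨v, hv⟩ := QuotientGroup.eq.1 h3
  refine ⟨v, ?_⟩
  have h4 : v ^ 2 = ((u : Oˣ ⧸ S).out)⁻¹ * u := hv
  rw [h4, mul_inv_cancel_left]

open IsDedekindDomain NumberField

/-- the units are integral outside a finite set of primes -/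
private theorem SQ0_fin (O K : Type) [CommRing O] [Algebra.FiniteType ℤ O] [Field K]
    [NumberField K] [Algebra O K] :
    ∃ S : Set (HeightOneSpectrum (𝓞 K)), S.Finite ∧ ∀ v ∉ S, ∀ x : O,
      v.valuation K (algebraMap O K x) ≤ 1 := by
  obtain ⟨s, hs⟩ := (Algebra.FiniteType.out : (⊤ : Subalgebra ℤ O).FG)
  refine ⟨⋃ x ∈ s, HeightOneSpectrum.Support (𝓞 K) (algebraMap O K x),
    Set.Finite.biUnion s.finite_toSet fun x _ => HeightOneSpectrum.Support.finite (𝓞 K) _,
    fun v hv x => ?_⟩
  have hx : x ∈ Algebra.adjoin ℤ (s : Set O) := by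
    rw [hs]
    exact Algebra.mem_top
  induction hx using Algebra.adjoin_induction with
  | mem x hx =>
    by_contra hcon
    exact hv (Set.mem_biUnion hx (not_le.1 hcon))
  | algebraMap n =>
    have h1 : algebraMap O K (algebraMap ℤ O n) = algebraMap (𝓞 K) K (n : 𝓞 K) := by
      simp
    rw [h1]
    exact v.valuation_le_one (n : 𝓞 K)
  | add x y _ _ hx hy =>
    rw [map_add]
    exact (Valuation.map_add _ _ _).trans (max_le hx hy)
  | mul x y _ _ hx hy =>
    rw [map_mul, map_mul]
    exact mul_le_one' hx hy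

/-- units with valuation one everywhere -/
private theorem SQ0_unit (K : Type) [Field K] [NumberField K] (u : Kˣ)
    (h : ∀ v : HeightOneSpectrum (𝓞 K), v.valuation K (u : K) = 1) :
    ∃ w : (𝓞 K)ˣ, Units.map (algebraMap (𝓞 K) K : 𝓞 K →* K) w = u := by
  obtain ⟨x, hx⟩ := HeightOneSpectrum.mem_integers_of_valuation_le_one K (u : K)
    (fun v => (h v).le)
  obtain ⟨y, hy⟩ := HeightOneSpectrum.mem_integers_of_valuation_le_one K ((u⁻¹ : Kˣ) : K)
    (fun v => by rw [Units.val_inv_eq_inv_val, map_inv₀, h v, inv_one])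
  have hinj : Function.Injective (algebraMap (𝓞 K) K) := IsFractionRing.injective (𝓞 K) K
  refine ⟨⟨x, y, hinj ?_, hinj ?_⟩, Units.ext hx⟩
  · rw [map_mul, map_one, hx, hy, Units.mul_inv]
  · rw [map_mul, map_one, hx, hy, Units.inv_mul]

private theorem SQ0_key (O K : Type) [CommRing O] [Algebra.FiniteType ℤ O] [Field K]
    [NumberField K] [Algebra O K] (hinj : Function.Injective (algebraMap O K)) :
    Group.FG Oˣ := by
  classical
  obtain ⟨S, hS, hv⟩ := SQ0_fin O K
  have : Finite S := hS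
  let j : Oˣ →* Kˣ := Units.map (algebraMap O K : O →* K)
  have hj : Function.Injective j := Units.map_injective hinj
  let j' : Additive Oˣ →ₗ[ℤ] Additive Kˣ := (MonoidHom.toAdditive j).toIntLinearMap
  let w' : Additive (𝓞 K)ˣ →ₗ[ℤ] Additive Kˣ :=
    (MonoidHom.toAdditive (Units.map (algebraMap (𝓞 K) K : 𝓞 K →* K))).toIntLinearMap
  let g0 : Additive Oˣ →+ (S → ℤ) := AddMonoidHom.mk'
    (fun u v => Multiplicative.toAdd (v.1.valuationOfNeZero (j u.toMul))) fun u u' => by
      funext v
      show Multiplicative.toAdd (v.1.valuationOfNeZero (j (u.toMul * u'.toMul))) = _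
      rw [map_mul, map_mul]
      rfl
  let g : Additive Oˣ →ₗ[ℤ] (S → ℤ) := g0.toIntLinearMap
  have hker : ∀ u : Additive Oˣ, g u = 0 → j' u ∈ LinearMap.range w' := by
    intro u hu
    have h1 : ∀ v : HeightOneSpectrum (𝓞 K), v.valuation K ((j u.toMul : Kˣ) : K) = 1 := by
      intro v
      by_cases hvS : v ∈ S
      · have h2 : Multiplicative.toAdd (v.valuationOfNeZero (j u.toMul)) = 0 :=
          congrFun hu ⟨v, hvS⟩
        rw [← HeightOneSpectrum.valuationOfNeZero_eq]
        have h3 : v.valuationOfNeZero (j u.toMul) = 1 := Multiplicative.toAdd.injective h2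
        rw [h3]
        rfl
      · have h2 := hv v hvS (u.toMul : O)
        have h3 := hv v hvS ((u.toMul⁻¹ : Oˣ) : O)
        have h4 : ((j u.toMul : Kˣ) : K) = algebraMap O K (u.toMul : O) := rfl
        rw [h4]
        refine le_antisymm h2 ?_
        have h5 : v.valuation K (algebraMap O K (u.toMul : O)) *
            v.valuation K (algebraMap O K ((u.toMul⁻¹ : Oˣ) : O)) = 1 := by
          rw [← map_mul, ← map_mul, Units.mul_inv, map_one, map_one]
        calc (1 : WithZero (Multiplicative ℤ)) = _ := h5.symm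
          _ ≤ v.valuation K (algebraMap O K (u.toMul : O)) * 1 :=
              mul_le_mul_right h3 _
          _ = _ := mul_one _
    obtain ⟨w, hw⟩ := SQ0_unit K (j u.toMul) h1
    exact ⟨Additive.ofMul w, congrArg Additive.ofMul hw⟩
  have hN : IsNoetherian ℤ (LinearMap.range w') := inferInstance
  have hk : IsNoetherian ℤ (LinearMap.ker g) := by
    refine isNoetherian_of_injective (LinearMap.codRestrict (LinearMap.range w')
      (j'.comp (LinearMap.ker g).subtype) fun u => hker u.1 u.2) ?_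
    intro u u' h
    apply Subtype.ext
    have h1 : j' u.1 = j' u'.1 := congrArg Subtype.val h
    exact Additive.toMul.injective (hj h1)
  have hM : IsNoetherian ℤ (Additive Oˣ) :=
    isNoetherian_of_range_eq_ker (LinearMap.ker g).subtype g (by rw [Submodule.range_subtype])
  rw [Group.fg_iff_monoid_fg, Monoid.fg_iff_add_fg, ← AddGroup.fg_iff_addMonoid_fg,
    ← Module.Finite.iff_addGroup_fg]
  infer_instance

private theorem SQ0_aux (O K : Type) [CommRing O] [IsDomain O] [Algebra.FiniteType ℤ O]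
    [Field K] [CharZero K] [Algebra O K] [IsFractionRing O K] (h : ∀ x : K, IsAlgebraic ℤ x) :
    Group.FG Oˣ := by
  have := Pool.Agent.Helper67.Bass.ess_int O K
  have : Algebra.EssFiniteType ℚ K := Algebra.EssFiniteType.of_comp ℤ ℚ K
  have : Algebra.IsAlgebraic ℚ K := ⟨fun x => by
    have hx : IsAlgebraic ℤ x := h x
    exact hx.extendScalars (algebraMap ℤ ℚ).injective_int⟩
  have : FiniteDimensional ℚ K := Pool.Agent.Helper67.Bass.finite_of_ess ℚ K
  have : NumberField K := NumberField.mk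
  exact SQ0_key O K (IsFractionRing.injective O K)

private theorem SQ0_alg1 (O : Type) [CommRing O] [IsDomain O] (x : FractionRing O)
    (h : IsAlgebraic ℤ x) : ∃ p : ℤ[X], p ≠ 0 ∧
      Polynomial.eval₂ (Int.castRingHom (FractionRing O)) x p = 0 := by
  obtain ⟨p, hp, hx⟩ := h
  have hx' : Polynomial.eval₂ (algebraMap ℤ (FractionRing O)) x p = 0 := hx
  have e : algebraMap ℤ (FractionRing O) = Int.castRingHom (FractionRing O) :=
    Subsingleton.elim _ _
  rw [e] at hx'
  exact ⟨p, hp, hx'⟩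

private theorem SQ0_alg2 (K : Type) [Field K] (x : K) (h : ∃ p : ℤ[X], p ≠ 0 ∧
    Polynomial.eval₂ (Int.castRingHom K) x p = 0) : IsAlgebraic ℤ x := by
  obtain ⟨p, hp, hx⟩ := h
  exact ⟨p, hp, hx⟩

theorem SQ0 (O : Type) [CommRing O] [IsDomain O] [Algebra.FiniteType ℤ O] [CharZero O]
    (h : ∀ x : FractionRing O, IsAlgebraic ℤ x) : Group.FG Oˣ := by
  have : CharZero (FractionRing O) :=
    charZero_of_injective_algebraMap (IsFractionRing.injective O (FractionRing O))
  exact SQ0_aux O (FractionRing O) fun x => SQ0_alg2 _ x (SQ0_alg1 O x (h x))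

end Pool.Agent.QCB
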