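import Pool.Agent.QCB.LEN
import Pool.Agent.QCB.QS
import Pool.Agent.QCB.FD

/-!
# QCB, module TQ: modules killed by a prime element

Proof. `N` finitely generated, killed by `q`. The `A / q`-torsion submodule is a `Λ`-submodule,
finitely generated, killed by one `s` with `q ∤ s`: value `0` by `hpn`; so let `N` be torsion free over
`A / q`, and use induction on `l(N)` (property (3) of `LEN`: `l(N) = 0` only for torsion).
Case `¬ Spl`: for `0 ≠ n ∈ N` the map `Λ / q Λ → N`, `x ↦ x n` is injective (`x n = 0` implies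
`nrm x • n = 0`, so `q ∣ nrm x`, so `Dvd4 q x`), and `ψ(Λ / q Λ) = ψ(Λ) - ψ(Λ) = 0`; `l(Λ / q Λ) = 4`.
Case `Spl`, `z` given: `T = (Λ z + q Λ) / q Λ`, `l(T) = 2` (`QS3`), `t = ψ(T)`. Some `x ∈ N` has
`z x ≠ 0` (otherwise `QS1`), and `T → N`, `y z ↦ y z x` is injective (a nonzero kernel has rank at least
two by `QS2`, so the image would be torsion). Induct on `N / T`. `2 t = 0`: the kernel of
`Λ / q Λ → T`, `y ↦ y z` has value `t` and `ψ(Λ / q Λ) = 0`.
-/

set_option autoImplicit false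

namespace Pool.Agent.QCB

open Quaternion QuaternionAlgebra

universe u

variable {A : Type} [CommRing A] {a b : A}

private theorem TQ_mem (q : A) (x : ℍ[A,a,b]) :
    x ∈ Ideal.span {algebraMap A ℍ[A,a,b] q} ↔ Dvd4 q x := by
  constructor
  · intro h
    obtain ⟨c, hc⟩ := Submodule.mem_span_singleton.1 h
    rw [smul_eq_mul, ← central, ← Algebra.smul_def] at hc
    rw [← hc]
    exact ⟨⟨c.re, rfl⟩, ⟨c.imI, rfl⟩, ⟨c.imJ, rfl⟩, ⟨c.imK, rfl⟩⟩
  · rintro ⟨⟨x0, h0⟩, ⟨x1, h1⟩, ⟨x2, h2⟩, ⟨x3, h3⟩⟩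
    refine Submodule.mem_span_singleton.2 ⟨⟨x0, x1, x2, x3⟩, ?_⟩
    rw [smul_eq_mul, ← central, ← Algebra.smul_def]
    ext
    · rw [QuaternionAlgebra.re_smul, h0, smul_eq_mul]
    · rw [QuaternionAlgebra.imI_smul, h1, smul_eq_mul]
    · rw [QuaternionAlgebra.imJ_smul, h2, smul_eq_mul]
    · rw [QuaternionAlgebra.imK_smul, h3, smul_eq_mul]

private theorem TQ_noeth [IsNoetherianRing A] : IsNoetherianRing ℍ[A,a,b] := by
  haveI : IsNoetherian A ℍ[A,a,b] := isNoetherian_of_isNoetherianRing_of_finite A ℍ[A,a,b]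
  exact isNoetherian_of_tower A this

private theorem TQ_comm (s : A) (y : ℍ[A,a,b]) {N : Type} [AddCommGroup N] [Module ℍ[A,a,b] N]
    (x : N) : algebraMap A ℍ[A,a,b] s • (y • x) = y • (algebraMap A ℍ[A,a,b] s • x) := by
  rw [← mul_smul, ← mul_smul, central]

/-- a finitely generated module all of whose elements are torsion is killed by one element -/
private theorem TQ_kil (q : A) (hq : Prime q) (N : Type) [AddCommGroup N]
    [Module ℍ[A,a,b] N] [Module.Finite ℍ[A,a,b] N]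
    (h : ∀ x : N, ∃ s : A, ¬ q ∣ s ∧ algebraMap A ℍ[A,a,b] s • x = 0) :
    ∃ s : A, ¬ q ∣ s ∧ Kil (Λ := ℍ[A,a,b]) s N := by
  classical
  obtain ⟨S, hS⟩ := Module.Finite.fg_top (R := ℍ[A,a,b]) (M := N)
  have h1 : ∀ F : Finset N, ∃ s : A, ¬ q ∣ s ∧ ∀ x ∈ F, algebraMap A ℍ[A,a,b] s • x = 0 := by
    intro F
    induction F using Finset.induction_on with
    | empty => exact ⟨1, fun h => hq.not_unit (isUnit_of_dvd_one h), by simp⟩
    | insert x F _ ih =>
      obtain ⟨s, hs, hsF⟩ := ih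
      obtain ⟨s', hs', hx⟩ := h x
      refine ⟨s * s', fun h => (hq.dvd_or_dvd h).elim hs hs', ?_⟩
      intro y hy
      rw [map_mul, mul_smul]
      rcases Finset.mem_insert.1 hy with rfl | hy
      · rw [hx, smul_zero]
      · rw [TQ_comm, hsF y hy, smul_zero]
  obtain ⟨s, hs, hsF⟩ := h1 S
  refine ⟨s, hs, fun x => ?_⟩
  have hx : x ∈ Submodule.span ℍ[A,a,b] (S : Set N) := by rw [hS]; trivial
  induction hx using Submodule.span_induction with
  | mem x hx => exact hsF x hx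
  | zero => exact smul_zero _
  | add x y _ _ h1 h2 => rw [smul_add, h1, h2, add_zero]
  | smul c x _ h1 => rw [TQ_comm, h1, smul_zero]

/-- the torsion submodule -/
private def TQ_tors (q : A) (hq : Prime q) (N : Type) [AddCommGroup N] [Module ℍ[A,a,b] N] :
    Submodule ℍ[A,a,b] N where
  carrier := {x | ∃ s : A, ¬ q ∣ s ∧ algebraMap A ℍ[A,a,b] s • x = 0}
  add_mem' := by
    rintro x y ⟨s, hs, hx⟩ ⟨s', hs', hy⟩
    refine ⟨s * s', fun h => (hq.dvd_or_dvd h).elim hs hs', ?_⟩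
    rw [map_mul, smul_add, mul_smul, mul_smul, hy, smul_zero, add_zero, TQ_comm, hx, smul_zero]
  zero_mem' := ⟨1, fun h => hq.not_unit (isUnit_of_dvd_one h), smul_zero _⟩
  smul_mem' := by
    rintro c x ⟨s, hs, hx⟩
    exact ⟨s, hs, by rw [TQ_comm, hx, smul_zero]⟩

private theorem TQ_quot (q : A) (hq : Prime q) (N : Type) [AddCommGroup N]
    [Module ℍ[A,a,b] N] (s : A) (n : N ⧸ TQ_tors (a := a) (b := b) q hq N) (hs : ¬ q ∣ s)
    (h : algebraMap A ℍ[A,a,b] s • n = 0) : n = 0 := by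
  obtain ⟨x, rfl⟩ := Submodule.Quotient.mk_surjective _ n
  rw [← Submodule.Quotient.mk_smul, Submodule.Quotient.mk_eq_zero] at h
  rw [Submodule.Quotient.mk_eq_zero]
  obtain ⟨s', hs', h'⟩ := h
  refine ⟨s' * s, fun h => (hq.dvd_or_dvd h).elim hs' hs, ?_⟩
  rw [map_mul, mul_smul]
  exact h'

section ind

variable {Γ : Type u} [AddCommGroup Γ] [IsDomain A] [IsNoetherianRing A]

/-- the induction -/
private theorem TQ_ind (ψ : NAdd ℍ[A,a,b] Γ) (q : A) (hq : Prime q) (l : TAdd A ℍ[A,a,b] ℤ)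
    (h0 : ∀ (N : Type) [AddCommGroup N] [Module ℍ[A,a,b] N], 0 ≤ l.val N)
    (h1 : ∀ (N : Type) [AddCommGroup N] [Module ℍ[A,a,b] N] [Module.Finite ℍ[A,a,b] N] (s : A),
      ¬ q ∣ s → Kil (Λ := ℍ[A,a,b]) s N → l.val N = 0)
    (hpn : ∀ (N : Type) [AddCommGroup N] [Module ℍ[A,a,b] N] [Module.Finite ℍ[A,a,b] N],
      Kil (Λ := ℍ[A,a,b]) q N → (∃ s : A, ¬ q ∣ s ∧ Kil (Λ := ℍ[A,a,b]) s N) → ψ.val N = 0)
    (S : Type) [AddCommGroup S] [Module ℍ[A,a,b] S] [Module.Finite ℍ[A,a,b] S] (m : ℕ)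
    (hm : 0 < m) (t : Γ) (hlS : l.val S = 2 * m) (hψS : ψ.val S = m • t)
    (hS : ∀ (N : Type) [AddCommGroup N] [Module ℍ[A,a,b] N] [Module.Finite ℍ[A,a,b] N],
      Kil (Λ := ℍ[A,a,b]) q N →
      (∀ (s : A) (n : N), ¬ q ∣ s → algebraMap A ℍ[A,a,b] s • n = 0 → n = 0) →
      Nontrivial N → ∃ f : S →ₗ[ℍ[A,a,b]] N, Function.Injective f) :
    ∀ (k : ℕ) (N : Type) [AddCommGroup N] [Module ℍ[A,a,b] N] [Module.Finite ℍ[A,a,b] N],
      Kil (Λ := ℍ[A,a,b]) q N → (l.val N).toNat ≤ k →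
        ∃ r : ℕ, l.val N = 2 * r ∧ ψ.val N = r • t := by
  haveI : IsNoetherianRing ℍ[A,a,b] := TQ_noeth
  have hq0 : q ≠ 0 := hq.ne_zero
  intro k
  induction k with
  | zero => ?_
  | succ k ih => ?_
  all_goals
    intro N _ _ _ hN hk
    haveI : Module.Finite ℍ[A,a,b] (TQ_tors (a := a) (b := b) q hq N) := inferInstance
    have hkT : Kil (Λ := ℍ[A,a,b]) q (TQ_tors (a := a) (b := b) q hq N) := by
      intro x
      ext
      exact hN _
    have hkQ : Kil (Λ := ℍ[A,a,b]) q (N ⧸ TQ_tors (a := a) (b := b) q hq N) := by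
      intro x
      obtain ⟨x, rfl⟩ := Submodule.Quotient.mk_surjective _ x
      rw [← Submodule.Quotient.mk_smul, hN x, Submodule.Quotient.mk_zero]
    have hsT : ∃ s : A, ¬ q ∣ s ∧ Kil (Λ := ℍ[A,a,b]) s (TQ_tors (a := a) (b := b) q hq N) := by
      refine TQ_kil q hq _ ?_
      rintro ⟨x, s, hs, hx⟩
      exact ⟨s, hs, Subtype.ext hx⟩
    have e1 := ψ.add (TQ_tors (a := a) (b := b) q hq N) N (N ⧸ TQ_tors (a := a) (b := b) q hq N)
      (Submodule.subtype _) (Submodule.mkQ _) (Submodule.subtype_injective _)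
      (Submodule.mkQ_surjective _) (LinearMap.exact_subtype_mkQ _)
    have e2 := l.add (TQ_tors (a := a) (b := b) q hq N) N (N ⧸ TQ_tors (a := a) (b := b) q hq N)
      (Submodule.subtype _) (Submodule.mkQ _) (Submodule.subtype_injective _)
      (Submodule.mkQ_surjective _) (LinearMap.exact_subtype_mkQ _) ⟨q, hq0, hN⟩
    rw [hpn _ hkT hsT, zero_add] at e1
    obtain ⟨s, hs, hsK⟩ := hsT
    rw [h1 _ s hs hsK, zero_add] at e2
    rw [e1, e2]
    rcases subsingleton_or_nontrivial (N ⧸ TQ_tors (a := a) (b := b) q hq N) with hsub | hnon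
    · have hs1 : ¬ q ∣ (1 : A) := fun h => hq.not_unit (isUnit_of_dvd_one h)
      have hk1 : Kil (Λ := ℍ[A,a,b]) (1 : A) (N ⧸ TQ_tors (a := a) (b := b) q hq N) :=
        fun x => Subsingleton.elim _ _
      exact ⟨0, by rw [h1 _ 1 hs1 hk1]; simp, by rw [hpn _ hkQ ⟨1, hs1, hk1⟩, zero_smul]⟩
    obtain ⟨f, hf⟩ := hS _ hkQ (fun s n hs h => TQ_quot q hq N s n hs h) hnon
    have hex : Function.Exact f (Submodule.mkQ (LinearMap.range f)) :=
      LinearMap.exact_map_mkQ_range f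
    have e3 := ψ.add S _ _ f (Submodule.mkQ (LinearMap.range f)) hf
      (Submodule.mkQ_surjective _) hex
    have e4 := l.add S _ _ f (Submodule.mkQ (LinearMap.range f)) hf
      (Submodule.mkQ_surjective _) hex ⟨q, hq0, hkQ⟩
    have h0C := h0 ((N ⧸ TQ_tors (a := a) (b := b) q hq N) ⧸ LinearMap.range f)
    have hlN := e2
    rw [e4, hlS] at hlN
  · exfalso
    omega
  · have hkC : Kil (Λ := ℍ[A,a,b]) q
        ((N ⧸ TQ_tors (a := a) (b := b) q hq N) ⧸ LinearMap.range f) := by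
      intro x
      obtain ⟨x, rfl⟩ := Submodule.Quotient.mk_surjective _ x
      rw [← Submodule.Quotient.mk_smul, hkQ x, Submodule.Quotient.mk_zero]
    obtain ⟨r, hr1, hr2⟩ := ih _ hkC (by omega)
    refine ⟨m + r, ?_, ?_⟩
    · rw [e4, hlS, hr1]
      push_cast
      ring
    · rw [e3, hψS, hr2, add_smul]

end ind

/-- `Λ / q Λ` -/
private abbrev TQ_M (a b q : A) : Type := ℍ[A,a,b] ⧸ Ideal.span {algebraMap A ℍ[A,a,b] q}

private theorem TQ_killM (q : A) : Kil (Λ := ℍ[A,a,b]) q (TQ_M a b q) := by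
  intro x
  obtain ⟨x, rfl⟩ := Submodule.Quotient.mk_surjective _ x
  rw [← Submodule.Quotient.mk_smul, Submodule.Quotient.mk_eq_zero, TQ_mem, smul_eq_mul,
    ← Algebra.smul_def]
  exact ⟨⟨x.re, rfl⟩, ⟨x.imI, rfl⟩, ⟨x.imJ, rfl⟩, ⟨x.imK, rfl⟩⟩

/-- the map `Λ / q Λ → N`, `y ↦ y n` -/
private def TQ_map (q : A) {N : Type} [AddCommGroup N] [Module ℍ[A,a,b] N]
    (hN : Kil (Λ := ℍ[A,a,b]) q N) (n : N) : TQ_M a b q →ₗ[ℍ[A,a,b]] N :=
  Submodule.liftQ (Ideal.span {algebraMap A ℍ[A,a,b] q})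
    (LinearMap.toSpanSingleton ℍ[A,a,b] N n) (by
      rw [Ideal.span, Submodule.span_le]
      rintro x hx
      rw [Set.mem_singleton_iff] at hx
      rw [hx, SetLike.mem_coe, LinearMap.mem_ker, LinearMap.toSpanSingleton_apply]
      exact hN n)

private theorem TQ_map_mk (q : A) {N : Type} [AddCommGroup N] [Module ℍ[A,a,b] N]
    (hN : Kil (Λ := ℍ[A,a,b]) q N) (n : N) (y : ℍ[A,a,b]) :
    TQ_map q hN n (Submodule.Quotient.mk y) = y • n := rfl

private theorem TQ_tfM (q : A) (hq : Prime q) (s : A) (n : TQ_M a b q) (hs : ¬ q ∣ s)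
    (h : algebraMap A ℍ[A,a,b] s • n = 0) : n = 0 := by
  obtain ⟨x, rfl⟩ := Submodule.Quotient.mk_surjective _ n
  rw [← Submodule.Quotient.mk_smul, Submodule.Quotient.mk_eq_zero, TQ_mem, smul_eq_mul,
    ← Algebra.smul_def] at h
  rw [Submodule.Quotient.mk_eq_zero, TQ_mem]
  obtain ⟨h0, h1, h2, h3⟩ := h
  exact ⟨(hq.dvd_or_dvd h0).resolve_left hs, (hq.dvd_or_dvd h1).resolve_left hs,
    (hq.dvd_or_dvd h2).resolve_left hs, (hq.dvd_or_dvd h3).resolve_left hs⟩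

private theorem TQ_dl {q : A} {u v : ℍ[A,a,b]} (hu : Dvd4 q u) (hv : Dvd4 q v) (r s : A) :
    Dvd4 q (r • u + s • v) :=
  ⟨dvd_add (hu.1.mul_left r) (hv.1.mul_left s), dvd_add (hu.2.1.mul_left r) (hv.2.1.mul_left s),
    dvd_add (hu.2.2.1.mul_left r) (hv.2.2.1.mul_left s),
    dvd_add (hu.2.2.2.mul_left r) (hv.2.2.2.mul_left s)⟩

private theorem TQ_ds {q r : A} (h : q ∣ r) (u : ℍ[A,a,b]) : Dvd4 q (r • u) :=
  ⟨h.mul_right _, h.mul_right _, h.mul_right _, h.mul_right _⟩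

/-- the map `Λ z → N`, `y z ↦ y z x` is injective -/
private theorem TQ_inj [IsDomain A] (ha : IsUnit a) (hb : IsUnit b) (h2 : IsUnit (2 : A)) (q : A)
    (hq : Prime q) (z w : ℍ[A,a,b]) (s : A) (hs : ¬ q ∣ s)
    (hsw : ∀ x : ℍ[A,a,b], ∃ c d : A, Dvd4 q (s • (x * z) - (c • z + d • (w * z))))
    (N : Type) [AddCommGroup N] [Module ℍ[A,a,b] N] (hN : Kil (Λ := ℍ[A,a,b]) q N)
    (ht : ∀ (s : A) (n : N), ¬ q ∣ s → algebraMap A ℍ[A,a,b] s • n = 0 → n = 0) (x : N)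
    (hx : z • x ≠ 0) (y : ℍ[A,a,b]) (hy : (y * z) • x = 0) :
    (Submodule.Quotient.mk (y * z) : TQ_M a b q) = 0 := by
  by_contra hn
  have hqp : (Ideal.span {q}).IsPrime := (Ideal.span_singleton_prime hq.ne_zero).2 hq
  obtain ⟨w', hw'⟩ := QS2 ha hb h2 q hqp (TQ_M a b q) (TQ_killM q)
    (fun s n hs h => TQ_tfM q hq s n hs h) _ hn
  obtain ⟨c, d, hcd⟩ := hsw y
  obtain ⟨c', d', hcd'⟩ := hsw (w' * y)
  have hw2 : ∀ c d : A, Dvd4 q (c • (y * z) + d • (w' * y * z)) → q ∣ c ∧ q ∣ d := by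
    intro c d h
    refine hw' c d ?_
    rw [Algebra.smul_def, Algebra.smul_def, mul_assoc w' y z, ← TQ_mem,
      ← Submodule.Quotient.mk_eq_zero] at h
    exact h
  have hval : ∀ v : ℍ[A,a,b], Dvd4 q v → v • x = 0 := by
    intro v hv
    rw [← TQ_mem] at hv
    obtain ⟨v', rfl⟩ := Submodule.mem_span_singleton.1 hv
    rw [smul_eq_mul, mul_smul, hN x, smul_zero]
  have F1 : Dvd4 q ((c * d' - c' * d) • z - ((d' * s) • (y * z) - (d * s) • (w' * y * z))) := by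
    have e1 : (c * d' - c' * d) • z - ((d' * s) • (y * z) - (d * s) • (w' * y * z)) =
        (-d') • (s • (y * z) - (c • z + d • (w * z))) +
          d • (s • (w' * y * z) - (c' • z + d' • (w * z))) := by module
    rw [e1]
    exact TQ_dl hcd hcd' _ _
  have hD : q ∣ c * d' - c' * d := by
    by_contra hD
    have e5 := hval _ F1
    have k1 : ((c * d' - c' * d) • z) • x = algebraMap A ℍ[A,a,b] (c * d' - c' * d) • (z • x) := by
      rw [Algebra.smul_def, mul_smul]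
    have k2 : ((d' * s) • (y * z)) • x = 0 := by
      rw [Algebra.smul_def, mul_smul, hy, smul_zero]
    have k3 : ((d * s) • (w' * y * z)) • x = 0 := by
      rw [Algebra.smul_def, mul_smul, mul_assoc w' y z, mul_smul w', hy, smul_zero, smul_zero]
    rw [sub_smul _ (_ - _) x, sub_smul _ ((d * s) • (w' * y * z)) x, k1, k2, k3, sub_zero,
      sub_zero] at e5
    exact hx (ht _ _ hD e5)
  have h5 := hw2 (d' * s) (-(d * s)) (by
    have e1 : (d' * s) • (y * z) + (-(d * s)) • (w' * y * z) =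
        (1 : A) • ((c * d' - c' * d) • z) + (-1 : A) •
          ((c * d' - c' * d) • z - ((d' * s) • (y * z) - (d * s) • (w' * y * z))) := by module
    rw [e1]
    exact TQ_dl (TQ_ds hD _) F1 _ _)
  have hd : q ∣ d := (hq.dvd_or_dvd ((dvd_neg).1 h5.2)).resolve_right hs
  have h6 := hw2 (c' * s) (-(c * s)) (by
    have e1 : (c' * s) • (y * z) + (-(c * s)) • (w' * y * z) =
        (1 : A) • (c' • (s • (y * z) - (c • z + d • (w * z))) +
          (-c) • (s • (w' * y * z) - (c' • z + d' • (w * z)))) +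
            (-1 : A) • ((c * d' - c' * d) • (w * z)) := by module
    rw [e1]
    exact TQ_dl (TQ_dl hcd hcd' _ _) (TQ_ds hD _) _ _)
  have hc : q ∣ c := (hq.dvd_or_dvd ((dvd_neg).1 h6.2)).resolve_right hs
  have h7 := hw2 s 0 (by
    have e1 : s • (y * z) + (0 : A) • (w' * y * z) =
        (1 : A) • (s • (y * z) - (c • z + d • (w * z))) + (1 : A) •
          ((1 : A) • (c • z) + (1 : A) • (d • (w * z))) := by module
    rw [e1]
    exact TQ_dl hcd (TQ_dl (TQ_ds hc _) (TQ_ds hd _) _ _) _ _)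
  exact hs h7.1

/-- modules killed by the prime element `q` -/
theorem TQ {A : Type} [CommRing A] [IsDomain A] [IsNoetherianRing A] {a b : A} (ha : IsUnit a)
    (hb : IsUnit b) (h2 : IsUnit (2 : A)) {Γ : Type u} [AddCommGroup Γ] (ψ : NAdd ℍ[A,a,b] Γ)
    (q : A) (hq : Prime q) (l : TAdd A ℍ[A,a,b] ℤ)
    (h0 : ∀ (N : Type) [AddCommGroup N] [Module ℍ[A,a,b] N], 0 ≤ l.val N)
    (h1 : ∀ (N : Type) [AddCommGroup N] [Module ℍ[A,a,b] N] [Module.Finite ℍ[A,a,b] N] (s : A),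
      ¬ q ∣ s → Kil (Λ := ℍ[A,a,b]) s N → l.val N = 0)
    (h2' : ∀ (N : Type) [AddCommGroup N] [Module ℍ[A,a,b] N] [Module.Finite ℍ[A,a,b] N],
      Kil (Λ := ℍ[A,a,b]) q N → l.val N = 0 → ∃ s : A, ¬ q ∣ s ∧ Kil (Λ := ℍ[A,a,b]) s N)
    (h3 : ∀ (N : Type) [AddCommGroup N] [Module ℍ[A,a,b] N] [Module.Finite ℍ[A,a,b] N],
      Kil (Λ := ℍ[A,a,b]) q N → ∀ (r : ℕ) (e : Fin r → N),
        (∀ c : Fin r → A, ∑ i, algebraMap A ℍ[A,a,b] (c i) • e i = 0 → ∀ i, q ∣ c i) →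
        (∃ s : A, ¬ q ∣ s ∧ ∀ x : N, ∃ c : Fin r → A,
          algebraMap A ℍ[A,a,b] s • x = ∑ i, algebraMap A ℍ[A,a,b] (c i) • e i) →
        l.val N = r)
    (hpn : ∀ (N : Type) [AddCommGroup N] [Module ℍ[A,a,b] N] [Module.Finite ℍ[A,a,b] N],
      Kil (Λ := ℍ[A,a,b]) q N → (∃ s : A, ¬ q ∣ s ∧ Kil (Λ := ℍ[A,a,b]) s N) → ψ.val N = 0) :
    ∃ t : Γ, 2 • t = 0 ∧ (¬ Spl a b q → t = 0) ∧
      ∀ (N : Type) [AddCommGroup N] [Module ℍ[A,a,b] N] [Module.Finite ℍ[A,a,b] N],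
        Kil (Λ := ℍ[A,a,b]) q N → ∃ r : ℕ, l.val N = 2 * r ∧ ψ.val N = r • t := by
  haveI : IsNoetherianRing ℍ[A,a,b] := TQ_noeth
  have hqp : (Ideal.span {q}).IsPrime := (Ideal.span_singleton_prime hq.ne_zero).2 hq
  have hM := TQ_killM (a := a) (b := b) q
  have hlM : l.val (TQ_M a b q) = 4 := by
    let E : Fin 4 → ℍ[A,a,b] := ![⟨1, 0, 0, 0⟩, ⟨0, 1, 0, 0⟩, ⟨0, 0, 1, 0⟩, ⟨0, 0, 0, 1⟩]
    have hsum : ∀ c : Fin 4 → A, ∑ i, algebraMap A ℍ[A,a,b] (c i) •
        (Submodule.Quotient.mk (E i) : TQ_M a b q) =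
          Submodule.Quotient.mk (⟨c 0, c 1, c 2, c 3⟩ : ℍ[A,a,b]) := by
      intro c
      rw [Fin.sum_univ_four, ← Submodule.Quotient.mk_smul, ← Submodule.Quotient.mk_smul,
        ← Submodule.Quotient.mk_smul, ← Submodule.Quotient.mk_smul, ← Submodule.Quotient.mk_add,
        ← Submodule.Quotient.mk_add, ← Submodule.Quotient.mk_add]
      congr 1
      simp only [smul_eq_mul, ← Algebra.smul_def]
      ext <;> simp [E]
    have := h3 (TQ_M a b q) hM 4 (fun i => Submodule.Quotient.mk (E i)) (by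
      intro c hc i
      rw [hsum, Submodule.Quotient.mk_eq_zero, TQ_mem] at hc
      obtain ⟨g0, g1, g2, g3⟩ := hc
      fin_cases i
      · exact g0
      · exact g1
      · exact g2
      · exact g3) ⟨1, fun h => hq.not_unit (isUnit_of_dvd_one h), by
        intro x
        obtain ⟨x, rfl⟩ := Submodule.Quotient.mk_surjective _ x
        refine ⟨![x.re, x.imI, x.imJ, x.imK], ?_⟩
        rw [hsum, map_one, one_smul]
        rfl⟩
    rw [this]
    rfl
  have hψM : ψ.val (TQ_M a b q) = 0 := by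
    refine FD0 ψ (algebraMap A ℍ[A,a,b] q) ?_
    rw [nrm_algebraMap]
    exact pow_ne_zero 2 hq.ne_zero
  by_cases hS : Spl a b q
  · obtain ⟨z, hz, hqz⟩ := hS
    obtain ⟨w, hw, s, hs, hsw⟩ := QS3 ha hb h2 q hqp z hz hqz
    set T : Submodule ℍ[A,a,b] (TQ_M a b q) :=
      Submodule.span ℍ[A,a,b] {(Submodule.Quotient.mk z : TQ_M a b q)} with hT
    have hkT : Kil (Λ := ℍ[A,a,b]) q T := fun x => Subtype.ext (hM x.1)
    have hmem : ∀ y : ℍ[A,a,b], (Submodule.Quotient.mk (y * z) : TQ_M a b q) ∈ T := fun y =>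
      Submodule.mem_span_singleton.2 ⟨y, rfl⟩
    have hlT : l.val T = 2 := by
      have := h3 T hkT 2 ![⟨Submodule.Quotient.mk (1 * z), hmem 1⟩,
        ⟨Submodule.Quotient.mk (w * z), hmem w⟩] (by
        intro c hc i
        rw [Fin.sum_univ_two] at hc
        have hc1 := congrArg Subtype.val hc
        have hc2 : (Submodule.Quotient.mk (algebraMap A ℍ[A,a,b] (c 0) * (1 * z) +
            algebraMap A ℍ[A,a,b] (c 1) * (w * z)) : TQ_M a b q) = 0 := hc1
        rw [Submodule.Quotient.mk_eq_zero, TQ_mem, one_mul, ← Algebra.smul_def,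
          ← Algebra.smul_def] at hc2
        have := hw _ _ hc2
        fin_cases i
        · exact this.1
        · exact this.2) ⟨s, hs, by
          rintro ⟨x, hx⟩
          obtain ⟨y, rfl⟩ := Submodule.mem_span_singleton.1 hx
          obtain ⟨c, d, hcd⟩ := hsw y
          refine ⟨![c, d], ?_⟩
          rw [Fin.sum_univ_two]
          refine Subtype.ext ?_
          rw [← TQ_mem, ← Submodule.Quotient.mk_eq_zero, Submodule.Quotient.mk_sub, sub_eq_zero,
            Algebra.smul_def, Algebra.smul_def, Algebra.smul_def] at hcd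
          rw [show algebraMap A ℍ[A,a,b] c * z = algebraMap A ℍ[A,a,b] c * (1 * z) by
            rw [one_mul]] at hcd
          exact hcd⟩
      rw [this]
      rfl
    have hind := TQ_ind ψ q hq l h0 h1 hpn T 1 one_pos (ψ.val T) (by rw [hlT]; rfl)
      (one_smul ℕ _).symm (by
        intro N _ _ _ hN ht hnon
        have hex : ∃ x : N, z • x ≠ 0 := by
          by_contra hno
          simp only [not_exists, not_not] at hno
          obtain ⟨s, hs, hks⟩ := QS1 ha hb h2 q z hz N hno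
          obtain ⟨x, hx⟩ := exists_ne (0 : N)
          exact hx (ht s x hs (hks x))
        obtain ⟨x, hx⟩ := hex
        refine ⟨(TQ_map q hN x).comp T.subtype, ?_⟩
        rw [injective_iff_map_eq_zero]
        rintro ⟨m, hm⟩ h
        obtain ⟨y, rfl⟩ := Submodule.mem_span_singleton.1 hm
        refine Subtype.ext ?_
        exact TQ_inj ha hb h2 q hq z w s hs hsw N hN ht x hx y h)
    refine ⟨ψ.val T, ?_, fun h => absurd ⟨z, hz, hqz⟩ h, fun N _ _ _ hN => hind _ N hN le_rfl⟩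
    obtain ⟨r, hr1, hr2⟩ := hind _ (TQ_M a b q) hM le_rfl
    rw [hlM] at hr1
    have hr : r = 2 := by omega
    rw [← hψM, hr2, hr]
  · refine ⟨0, smul_zero _, fun _ => rfl, fun N _ _ _ hN => ?_⟩
    refine TQ_ind ψ q hq l h0 h1 hpn (TQ_M a b q) 2 two_pos 0 (by rw [hlM]; rfl)
      (by rw [hψM, smul_zero]) ?_ _ N hN le_rfl
    intro N _ _ _ hN ht hnon
    obtain ⟨n, hn⟩ := exists_ne (0 : N)
    refine ⟨TQ_map q hN n, ?_⟩
    rw [injective_iff_map_eq_zero]
    intro m hm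
    obtain ⟨y, rfl⟩ := Submodule.Quotient.mk_surjective _ m
    rw [TQ_map_mk] at hm
    rw [Submodule.Quotient.mk_eq_zero, TQ_mem]
    by_contra hy
    refine hS ⟨y, hy, ?_⟩
    by_contra hq'
    refine hn (ht (nrm y) n hq' ?_)
    rw [← star_mul_self', mul_smul, hm, smul_zero]

end Pool.Agent.QCB
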