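import Pool.Agent.QCB.CLA
import Pool.Agent.QCB.LM
import Pool.Agent.QCB.NRM
import Pool.Agent.QCB.CW

/-!
# QCB, module TYPE: split primes have finitely many types

The type of `p`: for each `Q ∈ F` (from `Side a b`) the representative in the finite set of `SqFin` of the unit `u` of
`NRM2` applied to `h = p mod Q` (`CLA` gives the hypothesis; `p mod Q ≠ 0` since `p` does not divide `a`); the same for
`Side b a`; and the representative of the unit of `NRM4` at `c` for `h = p(c)`. If `p`, `p'` have the same type, then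
`h = p p'` satisfies the hypotheses of `lemmaM` (module LM) over `L = FractionRing R`, and clearing denominators gives
the conclusion. If `nrm` is isotropic over `R[X]` use `isotropic_univ`. Gauss: a nonconstant prime `p` of `R[X]` is
primitive and irreducible over `L`, and divides a polynomial over `R` if it does over `L`; constant primes become
units of `L[X]`.
-/

set_option autoImplicit false

namespace Pool.Agent.QCB

open Quaternion QuaternionAlgebra Polynomial

section fin

/-- an equivalence implied by finitely many types -/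
private def TYPE_fin {P : Type} (V : P → Prop) (E : P → P → Prop) : Prop :=
  ∃ (n : ℕ) (τ : P → Fin n), ∀ p p', V p → V p' → τ p = τ p' → E p p'

private theorem TYPE_and {P : Type} {V : P → Prop} {E1 E2 : P → P → Prop}
    (h1 : TYPE_fin V E1) (h2 : TYPE_fin V E2) :
    TYPE_fin V (fun p p' => E1 p p' ∧ E2 p p') := by
  obtain ⟨n1, t1, h1⟩ := h1
  obtain ⟨n2, t2, h2⟩ := h2
  refine ⟨n1 * n2, fun p => finProdFinEquiv (t1 p, t2 p), ?_⟩
  intro p p' hp hp' h
  have h3 := finProdFinEquiv.injective h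
  exact ⟨h1 p p' hp hp' (congrArg Prod.fst h3), h2 p p' hp hp' (congrArg Prod.snd h3)⟩

private theorem TYPE_true {P : Type} {V : P → Prop} {E : P → P → Prop}
    (h : ∀ p p', V p → V p' → E p p') : TYPE_fin V E :=
  ⟨1, fun _ => 0, fun p p' hp hp' _ => h p p' hp hp'⟩

private theorem TYPE_all {P α : Type} {V : P → Prop} {E : α → P → P → Prop} (F : Finset α)
    (h : ∀ Q ∈ F, TYPE_fin V (E Q)) : TYPE_fin V (fun p p' => ∀ Q ∈ F, E Q p p') := by
  classical
  induction F using Finset.induction_on with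
  | empty => exact TYPE_true fun p p' _ _ Q hQ => absurd hQ (Finset.notMem_empty Q)
  | insert Q F hQ ih =>
    have h1 := TYPE_and (h Q (Finset.mem_insert_self Q F))
      (ih fun Q' hQ' => h Q' (Finset.mem_insert_of_mem hQ'))
    obtain ⟨n, t, ht⟩ := h1
    refine ⟨n, t, fun p p' hp hp' he Q' hQ' => ?_⟩
    rcases Finset.mem_insert.1 hQ' with h2 | h2
    · rw [h2]
      exact (ht p p' hp hp' he).1
    · exact (ht p p' hp hp' he).2 Q' h2

private theorem TYPE_cls {P α : Type} {V : P → Prop} (S : Finset α) (G : P → α → Prop)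
    (h : ∀ p, V p → ∃ w ∈ S, G p w) : TYPE_fin V (fun p p' => ∃ w, G p w ∧ G p' w) := by
  classical
  by_cases hne : ∃ p, V p
  · obtain ⟨p0, hp0⟩ := hne
    obtain ⟨w0, hw0, _⟩ := h p0 hp0
    have hf : ∀ p, ∃ w : S, V p → G p w := by
      intro p
      by_cases hp : V p
      · obtain ⟨w, hw, hG⟩ := h p hp
        exact ⟨⟨w, hw⟩, fun _ => hG⟩
      · exact ⟨⟨w0, hw0⟩, fun h' => absurd h' hp⟩
    choose f hf using hf
    refine ⟨S.card, fun p => S.equivFin (f p), fun p p' hp hp' he => ?_⟩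
    have h1 : f p = f p' := S.equivFin.injective he
    refine ⟨f p, hf p hp, ?_⟩
    rw [h1]
    exact hf p' hp'
  · exact TYPE_true fun p _ hp _ => absurd ⟨p, hp⟩ hne

private theorem TYPE_mono {P : Type} {V : P → Prop} {E E' : P → P → Prop}
    (h : TYPE_fin V E) (hE : ∀ p p', V p → V p' → E p p' → E' p p') : TYPE_fin V E' := by
  obtain ⟨n, t, ht⟩ := h
  exact ⟨n, t, fun p p' hp hp' he => hE p p' hp hp' (ht p p' hp hp' he)⟩

end fin

section one

variable {R : Type} [CommRing R] [IsDomain R]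

private theorem TYPE_irr {Q : R[X]} (hQ : Q.Monic) (hdom : IsDomain (AdjoinRoot Q)) :
    Prime Q := by
  have h1 : (Ideal.span {Q}).IsPrime := (Ideal.Quotient.isDomain_iff_prime _).1 hdom
  exact (Ideal.span_singleton_prime hQ.ne_zero).1 h1

private theorem TYPE_Q [IsPrincipalIdealRing R] (h2 : IsUnit (2 : R)) (a b Q a' : R[X])
    (hQ : Q.Monic) (hdom : IsDomain (AdjoinRoot Q)) (hpid : IsPrincipalIdealRing (AdjoinRoot Q))
    (hsq : SqFin (AdjoinRoot Q)) (hb : IsUnit (AdjoinRoot.mk Q b)) (haQ : a = Q * a')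
    (ha' : IsUnit (AdjoinRoot.mk Q a'))
    (hO : IsSquare (AdjoinRoot.mk Q b) ∨
      (IsDomain (AdjoinRoot (X ^ 2 - C (AdjoinRoot.mk Q b))) ∧
        IsPrincipalIdealRing (AdjoinRoot (X ^ 2 - C (AdjoinRoot.mk Q b)))))
    (V : R[X] → Prop) (hV : ∀ p, V p → Prime p ∧ Spl a b p ∧ ¬ p ∣ a * b) :
    TYPE_fin V (fun p p' => ∃ m x y : AdjoinRoot Q, m ≠ 0 ∧
      AdjoinRoot.mk Q (p * p') * m ^ 2 = x ^ 2 - AdjoinRoot.mk Q b * y ^ 2) := by
  obtain ⟨F, hF⟩ := hsq
  have h2' : IsUnit (2 : AdjoinRoot Q) := by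
    have h3 := h2.map (algebraMap R (AdjoinRoot Q))
    rwa [map_ofNat] at h3
  have h1 := TYPE_cls (V := V) F (fun p w => ∃ m x y : AdjoinRoot Q, m ≠ 0 ∧
    AdjoinRoot.mk Q p * m ^ 2 = (w : AdjoinRoot Q) * (x ^ 2 - AdjoinRoot.mk Q b * y ^ 2)) (by
      intro p hp
      obtain ⟨hpp, hps, hpa⟩ := hV p hp
      have h0 : AdjoinRoot.mk Q p ≠ 0 := by
        intro h0
        have h3 : Q ∣ p := AdjoinRoot.mk_eq_zero.1 h0
        have h4 : p ∣ Q :=
          ((TYPE_irr hQ hdom).irreducible.associated_of_dvd hpp.irreducible h3).symm.dvd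
        exact hpa (by rw [haQ]; exact Dvd.dvd.mul_right (Dvd.dvd.mul_right h4 _) _)
      obtain ⟨u, x, y, m, hm, he⟩ := NRM2 h2' (AdjoinRoot.mk Q b) hb hO (AdjoinRoot.mk Q p) h0
        (fun 𝔮 h𝔮 hβ => CLA h2 a b Q a' p hQ haQ ha' hpp hpa hps 𝔮 h𝔮 hβ)
      obtain ⟨w, hw, v, hv⟩ := hF u
      refine ⟨w, hw, m, v * x, v * y, hm, ?_⟩
      rw [he, hv]
      push_cast
      ring)
  refine TYPE_mono h1 ?_
  rintro p p' _ _ ⟨w, ⟨m, x, y, hm, he⟩, ⟨m', x', y', hm', he'⟩⟩
  refine ⟨m * m', w * (x * x' + AdjoinRoot.mk Q b * y * y'), w * (x * y' + y * x'),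
    mul_ne_zero hm hm', ?_⟩
  rw [map_mul]
  have e1 : AdjoinRoot.mk Q p * AdjoinRoot.mk Q p' * (m * m') ^ 2 =
      (AdjoinRoot.mk Q p * m ^ 2) * (AdjoinRoot.mk Q p' * m' ^ 2) := by ring
  rw [e1, he, he']
  ring

end one

section loc

variable {R : Type} [CommRing R] [IsDomain R]

omit [IsDomain R] in
private theorem TYPE_inj : Function.Injective (Polynomial.map (algebraMap R (FractionRing R))) :=
  Polynomial.map_injective _ (IsFractionRing.injective R (FractionRing R))

private theorem TYPE_cu (s : R) (hs : s ≠ 0) :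
    IsUnit ((C s : R[X]).map (algebraMap R (FractionRing R))) := by
  rw [Polynomial.map_C]
  refine Polynomial.isUnit_C.2 (IsUnit.mk0 _ ?_)
  intro h
  exact hs ((IsFractionRing.injective R (FractionRing R)) (by rw [h, map_zero]))

private theorem TYPE_den (f : (FractionRing R)[X]) :
    ∃ s : R, s ≠ 0 ∧ ∃ g : R[X], g.map (algebraMap R (FractionRing R)) =
      (C s : R[X]).map (algebraMap R (FractionRing R)) * f := by
  obtain ⟨s, hs, h⟩ := IsLocalization.integerNormalization_spec (nonZeroDivisors R) f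
  refine ⟨s, nonZeroDivisors.ne_zero hs, IsLocalization.integerNormalization
    (nonZeroDivisors R) f, ?_⟩
  rw [Polynomial.map_C, h]
  ext i
  rw [Polynomial.coeff_smul, Polynomial.coeff_C_mul, Algebra.smul_def]

private theorem TYPE_dens (F : Finset (FractionRing R)[X]) :
    ∃ s : R, s ≠ 0 ∧ ∀ f ∈ F, ∃ g : R[X], g.map (algebraMap R (FractionRing R)) =
      (C s : R[X]).map (algebraMap R (FractionRing R)) * f := by
  classical
  induction F using Finset.induction_on with
  | empty => exact ⟨1, one_ne_zero, fun f hf => absurd hf (Finset.notMem_empty f)⟩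
  | insert f F hf ih =>
    obtain ⟨s, hs, h⟩ := ih
    obtain ⟨t, ht, g, hg⟩ := TYPE_den f
    refine ⟨s * t, mul_ne_zero hs ht, fun f' hf' => ?_⟩
    rcases Finset.mem_insert.1 hf' with h2 | h2
    · refine ⟨C s * g, ?_⟩
      rw [h2, Polynomial.map_mul, hg, C_mul, Polynomial.map_mul, mul_assoc]
    · obtain ⟨g', hg'⟩ := h f' h2
      refine ⟨C t * g', ?_⟩
      rw [Polynomial.map_mul, hg', C_mul, Polynomial.map_mul, ← mul_assoc,
        mul_comm (Polynomial.map _ (C t))]

private theorem TYPE_gauss {p : R[X]} (hp : Prime p)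
    (hu : ¬ IsUnit (p.map (algebraMap R (FractionRing R)))) (f : R[X])
    (h : p.map (algebraMap R (FractionRing R)) ∣ f.map (algebraMap R (FractionRing R))) :
    p ∣ f := by
  obtain ⟨g, hg⟩ := h
  obtain ⟨s, hs, g', hg'⟩ := TYPE_den g
  have h1 : C s * f = p * g' := by
    apply TYPE_inj
    show Polynomial.map _ (C s * f) = Polynomial.map _ (p * g')
    rw [Polynomial.map_mul, Polynomial.map_mul, hg, hg']
    ring
  rcases hp.dvd_or_dvd (Dvd.intro g' h1.symm) with h2 | h2
  · exfalso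
    apply hu
    obtain ⟨k, hk⟩ := h2
    refine isUnit_of_dvd_unit ?_ (TYPE_cu s hs)
    rw [hk, Polynomial.map_mul]
    exact Dvd.intro _ rfl
  · exact h2

private theorem TYPE_prime {p : R[X]} (hp : Prime p)
    (hu : ¬ IsUnit (p.map (algebraMap R (FractionRing R)))) :
    Prime (p.map (algebraMap R (FractionRing R))) := by
  refine ⟨?_, hu, ?_⟩
  · intro h
    exact hp.ne_zero (TYPE_inj (by rw [h, Polynomial.map_zero]))
  · intro x y hxy
    obtain ⟨s, hs, x', hx'⟩ := TYPE_den x
    obtain ⟨t, ht, y', hy'⟩ := TYPE_den y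
    have h1 : p ∣ x' * y' := by
      apply TYPE_gauss hp hu
      rw [Polynomial.map_mul, hx', hy']
      have h2 : Polynomial.map (algebraMap R (FractionRing R)) (C s) * x *
        (Polynomial.map (algebraMap R (FractionRing R)) (C t) * y) =
        x * y * (Polynomial.map (algebraMap R (FractionRing R)) (C s) *
          Polynomial.map (algebraMap R (FractionRing R)) (C t)) := by ring
      rw [h2]
      exact Dvd.dvd.mul_right hxy _
    rcases hp.dvd_or_dvd h1 with h2 | h2
    · left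
      have h3 := Polynomial.map_dvd (algebraMap R (FractionRing R)) h2
      rw [hx'] at h3
      exact (TYPE_cu s hs).dvd_mul_left.1 h3
    · right
      have h3 := Polynomial.map_dvd (algebraMap R (FractionRing R)) h2
      rw [hy'] at h3
      exact (TYPE_cu t ht).dvd_mul_left.1 h3

omit [IsDomain R] in
private theorem TYPE_monic {Q : R[X]} (hQ : Q.Monic) (hp : Prime Q) :
    ¬ IsUnit (Q.map (algebraMap R (FractionRing R))) := by
  intro h
  have h1 := (hQ.map (algebraMap R (FractionRing R))).eq_one_of_isUnit h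
  have h2 : Q = 1 := TYPE_inj (by rw [h1, Polynomial.map_one])
  exact hp.not_isUnit (by rw [h2]; exact isUnit_one)

/-- coprimality with a product -/
private theorem TYPE_cop {p f : R[X]} (hp : Prime p) (hf : ¬ p ∣ f) :
    IsCoprime (p.map (algebraMap R (FractionRing R))) (f.map (algebraMap R (FractionRing R))) := by
  by_cases hu : IsUnit (p.map (algebraMap R (FractionRing R)))
  · obtain ⟨v, hv⟩ := hu
    exact ⟨((v⁻¹ : ((FractionRing R)[X])ˣ) : (FractionRing R)[X]), 0, by
      rw [← hv, Units.inv_mul, zero_mul, add_zero]⟩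
  · exact (TYPE_prime hp hu).coprime_iff_not_dvd.2 fun h => hf (TYPE_gauss hp hu f h)

private theorem TYPE_sqfree {p : R[X]} (hp : Prime p) :
    Squarefree (p.map (algebraMap R (FractionRing R))) := by
  by_cases hu : IsUnit (p.map (algebraMap R (FractionRing R)))
  · exact hu.squarefree
  · exact (TYPE_prime hp hu).squarefree

/-- the square root of the norm modulo `Q` over the fraction field -/
private theorem TYPE_L (b Q h : R[X]) (hQ : Q.Monic) (hdom : IsDomain (AdjoinRoot Q))
    (hh : ∃ m x y : AdjoinRoot Q, m ≠ 0 ∧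
      AdjoinRoot.mk Q h * m ^ 2 = x ^ 2 - AdjoinRoot.mk Q b * y ^ 2) :
    ∃ u v : (FractionRing R)[X], Q.map (algebraMap R (FractionRing R)) ∣
      u ^ 2 - b.map (algebraMap R (FractionRing R)) * v ^ 2 -
        h.map (algebraMap R (FractionRing R)) := by
  obtain ⟨m, x, y, hm, he⟩ := hh
  obtain ⟨m, rfl⟩ := AdjoinRoot.mk_surjective m
  obtain ⟨x, rfl⟩ := AdjoinRoot.mk_surjective x
  obtain ⟨y, rfl⟩ := AdjoinRoot.mk_surjective y
  have hQp := TYPE_irr hQ hdom
  have hu := TYPE_monic hQ hQp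
  have h1 : ¬ Q ∣ m := fun h => hm (AdjoinRoot.mk_eq_zero.2 h)
  have h2 : Q ∣ h * m ^ 2 - (x ^ 2 - b * y ^ 2) := by
    rw [← AdjoinRoot.mk_eq_zero, map_sub, map_sub, map_mul, map_mul, map_pow, map_pow, map_pow,
      he, sub_self]
  have h3 := TYPE_cop hQp h1
  obtain ⟨t, s, hts⟩ := h3
  obtain ⟨k, hk⟩ := Polynomial.map_dvd (algebraMap R (FractionRing R)) h2
  simp only [Polynomial.map_sub, Polynomial.map_mul, Polynomial.map_pow] at hk
  refine ⟨s * x.map (algebraMap R (FractionRing R)), s * y.map (algebraMap R (FractionRing R)), ?_⟩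
  refine ⟨-(s ^ 2 * k) - h.map (algebraMap R (FractionRing R)) * t *
    (s * m.map (algebraMap R (FractionRing R)) + 1), ?_⟩
  linear_combination (-s ^ 2) * hk + (h.map (algebraMap R (FractionRing R)) *
    (s * m.map (algebraMap R (FractionRing R)) + 1)) * hts

/-- `a` over the fraction field is squarefree -/
private theorem TYPE_sqa {a b : R[X]} (h : Side a b) :
    Squarefree (a.map (algebraMap R (FractionRing R))) := by
  obtain ⟨u, F, ha, hF⟩ := h
  have h1 : Squarefree (∏ Q ∈ F, Q.map (algebraMap R (FractionRing R))) := by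
    refine Finset.squarefree_prod_of_pairwise_isCoprime ?_ ?_
    · intro Q hQ Q' hQ' hne
      obtain ⟨hm, hd, _, _, _, _, hc, _⟩ := hF Q hQ
      have hp := TYPE_irr hm hd
      have h3 : IsUnit (AdjoinRoot.mk Q Q') := hc Q' hQ' (fun h => hne h.symm)
      have h4 : ¬ Q ∣ Q' := by
        intro h5
        rw [AdjoinRoot.mk_eq_zero.2 h5] at h3
        have := hd
        exact not_isUnit_zero h3
      exact (TYPE_cop hp h4).isRelPrime
    · intro Q hQ
      obtain ⟨hm, hd, _⟩ := hF Q hQ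
      exact TYPE_sqfree (TYPE_irr hm hd)
  have h2 : a.map (algebraMap R (FractionRing R)) = (C (u : R) : R[X]).map
      (algebraMap R (FractionRing R)) * ∏ Q ∈ F, Q.map (algebraMap R (FractionRing R)) := by
    rw [ha, Polynomial.map_mul, Polynomial.map_prod]
  rw [h2]
  obtain ⟨v, hv⟩ := TYPE_cu (R := R) (u : R) u.ne_zero
  rw [← hv]
  refine h1.squarefree_of_dvd ?_
  exact (Units.mul_left_dvd).2 dvd_rfl

/-- the hypotheses of Lemma M at the factors of `a` from the types -/
private theorem TYPE_side [IsPrincipalIdealRing R] (h2 : IsUnit (2 : R)) (a b : R[X])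
    (hS : Side a b) (V : R[X] → Prop) (hV : ∀ p, V p → Prime p ∧ Spl a b p ∧ ¬ p ∣ a * b) :
    TYPE_fin V (fun p p' => ∀ Q : (FractionRing R)[X], Irreducible Q →
      Q ∣ a.map (algebraMap R (FractionRing R)) → ∃ u v : (FractionRing R)[X],
        Q ∣ u ^ 2 - b.map (algebraMap R (FractionRing R)) * v ^ 2 -
          (p * p').map (algebraMap R (FractionRing R))) := by
  classical
  obtain ⟨w, F, ha, hF⟩ := hS
  have h1 : TYPE_fin V (fun p p' => ∀ Q ∈ F, ∃ m x y : AdjoinRoot Q, m ≠ 0 ∧
      AdjoinRoot.mk Q (p * p') * m ^ 2 = x ^ 2 - AdjoinRoot.mk Q b * y ^ 2) := by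
    refine TYPE_all F fun Q hQ => ?_
    obtain ⟨hm, hd, hpid, hsq, _, hb, hc, hO⟩ := hF Q hQ
    have := hd
    refine TYPE_Q h2 a b Q (C (w : R) * ∏ Q' ∈ F.erase Q, Q') hm hd hpid hsq hb ?_ ?_ hO V hV
    · rw [ha, ← Finset.mul_prod_erase F _ hQ]
      ring
    · rw [map_mul, map_prod]
      refine IsUnit.mul ?_ ?_
      · exact ((w.isUnit.map (C : R →+* R[X])).map (AdjoinRoot.mk Q))
      · refine (IsUnit.prod_iff).2 ?_
        intro Q' hQ'
        exact hc Q' (Finset.mem_of_mem_erase hQ') (Finset.ne_of_mem_erase hQ')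
  refine TYPE_mono h1 fun p p' hp hp' hE Q hQi hQa => ?_
  have h3 : Q ∣ (C (w : R) : R[X]).map (algebraMap R (FractionRing R)) *
      ∏ Q ∈ F, Q.map (algebraMap R (FractionRing R)) := by
    rwa [ha, Polynomial.map_mul, Polynomial.map_prod] at hQa
  rw [(TYPE_cu (R := R) (w : R) w.ne_zero).dvd_mul_left] at h3
  obtain ⟨Q1, hQ1, h4⟩ := hQi.prime.exists_mem_finset_dvd h3
  obtain ⟨hm, hd, _⟩ := hF Q1 hQ1
  obtain ⟨u, v, huv⟩ := TYPE_L b Q1 (p * p') hm hd (hE Q1 hQ1)
  exact ⟨u, v, h4.trans huv⟩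

/-- the norm at the point -/
private theorem TYPE_pt [IsPrincipalIdealRing R] (a b : R[X]) (c : R) (h2 : IsUnit (2 : R))
    (hfin : ∀ π : R, Prime π → Finite (R ⧸ Ideal.span {π})) (hsq : SqFin R)
    (hac : IsUnit (a.eval c)) (hbc : IsUnit (b.eval c))
    (hpt : (∃ z : ℍ[R,a.eval c,b.eval c], z ≠ 0 ∧ nrm z = 0) ∨
      IsPrincipalIdealRing ℍ[R,a.eval c,b.eval c])
    (V : R[X] → Prop) (hV : ∀ p, V p → p.eval c ≠ 0) :
    TYPE_fin V (fun p p' => ∃ (z : ℍ[R,a.eval c,b.eval c]) (m : R), m ≠ 0 ∧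
      (p * p').eval c * m ^ 2 = nrm z) := by
  obtain ⟨F, hF⟩ := hsq
  have h1 := TYPE_cls (V := V) F (fun p w => ∃ (z : ℍ[R,a.eval c,b.eval c]) (m : R), m ≠ 0 ∧
    p.eval c * m ^ 2 = (w : R) * nrm z) (by
      intro p hp
      obtain ⟨u, z, m, hm, he⟩ := NRM4 h2 hfin (a.eval c) (b.eval c) hac hbc hpt (p.eval c)
        (hV p hp)
      obtain ⟨w, hw, v, hv⟩ := hF u
      refine ⟨w, hw, (v : R) • z, m, hm, ?_⟩
      rw [he, hv, nrm_smul]
      push_cast
      ring)
  refine TYPE_mono h1 ?_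
  rintro p p' _ _ ⟨w, ⟨z, m, hm, he⟩, ⟨z', m', hm', he'⟩⟩
  refine ⟨(w : R) • (z * z'), m * m', mul_ne_zero hm hm', ?_⟩
  rw [nrm_smul, nrm_mul, Polynomial.eval_mul]
  have e1 : p.eval c * p'.eval c * (m * m') ^ 2 =
      (p.eval c * m ^ 2) * (p'.eval c * m' ^ 2) := by ring
  rw [e1, he, he']
  ring

/-- anisotropy over the fraction field -/
private theorem TYPE_aniso (a b : R[X])
    (h : ∀ x : ℍ[R[X],a,b], nrm x = 0 → x = 0)
    (x : ℍ[(FractionRing R)[X],a.map (algebraMap R (FractionRing R)),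
      b.map (algebraMap R (FractionRing R))]) (hx : nrm x = 0) : x = 0 := by
  classical
  obtain ⟨s, hs, hd⟩ := TYPE_dens ({x.re, x.imI, x.imJ, x.imK} : Finset (FractionRing R)[X])
  obtain ⟨y0, h0⟩ := hd x.re (by simp)
  obtain ⟨y1, h1⟩ := hd x.imI (by simp)
  obtain ⟨y2, h2⟩ := hd x.imJ (by simp)
  obtain ⟨y3, h3⟩ := hd x.imK (by simp)
  have h4 : nrm (⟨y0, y1, y2, y3⟩ : ℍ[R[X],a,b]) = 0 := by
    apply TYPE_inj
    show Polynomial.map _ (y0 ^ 2 - a * y1 ^ 2 - b * y2 ^ 2 + a * b * y3 ^ 2) =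
      Polynomial.map _ 0
    simp only [Polynomial.map_sub, Polynomial.map_add, Polynomial.map_mul, Polynomial.map_pow,
      Polynomial.map_zero, h0, h1, h2, h3]
    have h5 : x.re ^ 2 - a.map (algebraMap R (FractionRing R)) * x.imI ^ 2 -
      b.map (algebraMap R (FractionRing R)) * x.imJ ^ 2 +
      a.map (algebraMap R (FractionRing R)) * b.map (algebraMap R (FractionRing R)) *
        x.imK ^ 2 = 0 := hx
    linear_combination ((C s : R[X]).map (algebraMap R (FractionRing R))) ^ 2 * h5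
  have h5 := h _ h4
  have hu := TYPE_cu s hs
  have key : ∀ (y : R[X]) (t : (FractionRing R)[X]), y = 0 →
      y.map (algebraMap R (FractionRing R)) =
        (C s : R[X]).map (algebraMap R (FractionRing R)) * t → t = 0 := by
    intro y t hy ht
    rw [hy, Polynomial.map_zero] at ht
    exact (mul_eq_zero.1 ht.symm).resolve_left hu.ne_zero
  apply QuaternionAlgebra.ext
  · exact key y0 x.re (congrArg QuaternionAlgebra.re h5) h0
  · exact key y1 x.imI (congrArg QuaternionAlgebra.imI h5) h1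
  · exact key y2 x.imJ (congrArg QuaternionAlgebra.imJ h5) h2
  · exact key y3 x.imK (congrArg QuaternionAlgebra.imK h5) h3

/-- the conclusion descends -/
private theorem TYPE_desc (a b h : R[X])
    (H : ∃ (d : ℍ[(FractionRing R)[X],a.map (algebraMap R (FractionRing R)),
      b.map (algebraMap R (FractionRing R))]) (g : (FractionRing R)[X]), g ≠ 0 ∧
      nrm d = h.map (algebraMap R (FractionRing R)) * g ^ 2) :
    ∃ (d : ℍ[R[X],a,b]) (m : R[X]), m ≠ 0 ∧ nrm d = h * m ^ 2 := by
  classical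
  obtain ⟨x, g, hg, hx⟩ := H
  obtain ⟨s, hs, hd⟩ := TYPE_dens ({x.re, x.imI, x.imJ, x.imK, g} : Finset (FractionRing R)[X])
  obtain ⟨y0, h0⟩ := hd x.re (by simp)
  obtain ⟨y1, h1⟩ := hd x.imI (by simp)
  obtain ⟨y2, h2⟩ := hd x.imJ (by simp)
  obtain ⟨y3, h3⟩ := hd x.imK (by simp)
  obtain ⟨m, h4⟩ := hd g (by simp)
  refine ⟨⟨y0, y1, y2, y3⟩, m, ?_, ?_⟩
  · intro hm
    rw [hm, Polynomial.map_zero] at h4
    rcases mul_eq_zero.1 h4.symm with h5 | h5
    · exact (TYPE_cu s hs).ne_zero h5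
    · exact hg h5
  · apply TYPE_inj
    show Polynomial.map _ (y0 ^ 2 - a * y1 ^ 2 - b * y2 ^ 2 + a * b * y3 ^ 2) =
      Polynomial.map _ (h * m ^ 2)
    simp only [Polynomial.map_sub, Polynomial.map_add, Polynomial.map_mul, Polynomial.map_pow,
      h0, h1, h2, h3, h4]
    have h5 : x.re ^ 2 - a.map (algebraMap R (FractionRing R)) * x.imI ^ 2 -
      b.map (algebraMap R (FractionRing R)) * x.imJ ^ 2 +
      a.map (algebraMap R (FractionRing R)) * b.map (algebraMap R (FractionRing R)) *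
        x.imK ^ 2 = h.map (algebraMap R (FractionRing R)) * g ^ 2 := hx
    linear_combination ((C s : R[X]).map (algebraMap R (FractionRing R))) ^ 2 * h5

/-- split primes over the fraction field -/
private theorem TYPE_spl {a b p : R[X]} (hp : Prime p) (hs : Spl a b p)
    {P : (FractionRing R)[X]} (hP : Irreducible P)
    (hPp : P ∣ p.map (algebraMap R (FractionRing R))) :
    Spl (a.map (algebraMap R (FractionRing R))) (b.map (algebraMap R (FractionRing R))) P := by
  have hu : ¬ IsUnit (p.map (algebraMap R (FractionRing R))) :=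
    fun h => hP.not_isUnit (isUnit_of_dvd_unit hPp h)
  have has : Associated P (p.map (algebraMap R (FractionRing R))) :=
    hP.associated_of_dvd (TYPE_prime hp hu).irreducible hPp
  obtain ⟨z, hz, hn⟩ := hs
  have key : ∀ f : R[X], P ∣ f.map (algebraMap R (FractionRing R)) → p ∣ f :=
    fun f hf => TYPE_gauss hp hu f (has.symm.dvd.trans hf)
  refine ⟨⟨z.re.map (algebraMap R (FractionRing R)), z.imI.map (algebraMap R (FractionRing R)),
    z.imJ.map (algebraMap R (FractionRing R)), z.imK.map (algebraMap R (FractionRing R))⟩,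
    fun h => hz ⟨key _ h.1, key _ h.2.1, key _ h.2.2.1, key _ h.2.2.2⟩, ?_⟩
  refine hPp.trans ?_
  have h1 := Polynomial.map_dvd (algebraMap R (FractionRing R)) hn
  have h2 : (nrm z).map (algebraMap R (FractionRing R)) =
      nrm (⟨z.re.map (algebraMap R (FractionRing R)), z.imI.map (algebraMap R (FractionRing R)),
        z.imJ.map (algebraMap R (FractionRing R)), z.imK.map (algebraMap R (FractionRing R))⟩ :
        ℍ[(FractionRing R)[X],a.map (algebraMap R (FractionRing R)),
          b.map (algebraMap R (FractionRing R))]) := by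
    simp only [nrm, Polynomial.map_sub, Polynomial.map_add, Polynomial.map_mul,
      Polynomial.map_pow]
  rwa [h2] at h1

end loc

theorem TYPE {R : Type} [CommRing R] [IsDomain R] (a b : R[X]) (c : R) (hD : Dat R a b c) :
    ∃ (n : ℕ) (τ : R[X] → Fin n), ∀ p p' : R[X], Prime p → Prime p' → Spl a b p →
      Spl a b p' → ¬ p ∣ a * b → ¬ p' ∣ a * b → p.eval c ≠ 0 → p'.eval c ≠ 0 →
      ¬ Associated p p' → τ p = τ p' →
      ∃ (d : ℍ[R[X],a,b]) (m : R[X]), m ≠ 0 ∧ nrm d = p * p' * m ^ 2 := by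
  have := hD.pid
  have h2 := hD.two
  have hac := hD.ac
  have hbc := hD.bc
  have ha0 : a ≠ 0 := by
    intro h
    rw [h, Polynomial.eval_zero] at hac
    exact not_isUnit_zero hac
  have hb0 : b ≠ 0 := by
    intro h
    rw [h, Polynomial.eval_zero] at hbc
    exact not_isUnit_zero hbc
  by_cases hiso : ∃ z : ℍ[R[X],a,b], z ≠ 0 ∧ nrm z = 0
  · obtain ⟨z, hz, hn⟩ := hiso
    refine ⟨1, fun _ => 0, fun p p' _ _ _ _ _ _ _ _ _ _ => ?_⟩
    have h20 : (2 : R[X]) ≠ 0 := by
      have h3 := (h2.map (C : R →+* R[X])).ne_zero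
      rwa [map_ofNat] at h3
    exact isotropic_univ ha0 hb0 h20 z hz hn (p * p')
  · have hani : ∀ x : ℍ[R[X],a,b], nrm x = 0 → x = 0 := by
      intro x hx
      by_contra hne
      exact hiso ⟨x, hne, hx⟩
    have t1 := TYPE_side h2 a b hD.left (fun p => (Prime p ∧ Spl a b p ∧ ¬ p ∣ a * b) ∧
      p.eval c ≠ 0) (fun p hp => hp.1)
    have t2 := TYPE_side h2 b a hD.right (fun p => (Prime p ∧ Spl a b p ∧ ¬ p ∣ a * b) ∧
      p.eval c ≠ 0) (fun p hp => ⟨hp.1.1, (Spl_swap a b p).1 hp.1.2.1, by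
        rw [mul_comm b a]
        exact hp.1.2.2⟩)
    have t3 := TYPE_pt a b c h2 hD.fin hD.sq hac hbc hD.pt (fun p => (Prime p ∧ Spl a b p ∧
      ¬ p ∣ a * b) ∧ p.eval c ≠ 0) (fun p hp => hp.2)
    obtain ⟨n, τ, hτ⟩ := TYPE_and (TYPE_and t1 t2) t3
    refine ⟨n, τ, fun p p' hp hp' hs hs' hpa hpa' hpc hpc' has heq => ?_⟩
    obtain ⟨⟨e1, e2⟩, z, m, hm, e3⟩ := hτ p p' ⟨⟨hp, hs, hpa⟩, hpc⟩ ⟨⟨hp', hs', hpa'⟩, hpc'⟩ heq
    refine TYPE_desc a b (p * p') ?_
    have hpp : IsCoprime (p.map (algebraMap R (FractionRing R)))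
        (p'.map (algebraMap R (FractionRing R))) := by
      refine TYPE_cop hp fun h => has ?_
      exact hp.irreducible.associated_of_dvd hp'.irreducible h
    refine lemmaM (FractionRing R) (a.map (algebraMap R (FractionRing R)))
      (b.map (algebraMap R (FractionRing R))) ((p * p').map (algebraMap R (FractionRing R)))
      (algebraMap R (FractionRing R) c) (TYPE_sqa hD.left) (TYPE_sqa hD.right) ?_ hD.cop ?_ ?_
      (TYPE_aniso a b hani) ?_ e1 e2 ?_
    · rw [Polynomial.map_mul, squarefree_mul_iff]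
      exact ⟨hpp.isRelPrime, TYPE_sqfree hp, TYPE_sqfree hp'⟩
    · rw [Polynomial.map_mul, ← Polynomial.map_mul _ (p := a) (q := b)]
      exact IsCoprime.mul_left (TYPE_cop hp hpa) (TYPE_cop hp' hpa')
    · rw [← Polynomial.map_mul, ← Polynomial.map_mul, Polynomial.eval_map_algebraMap,
        Polynomial.aeval_algebraMap_apply]
      intro h
      have h5 := IsFractionRing.injective R (FractionRing R) (h.trans (map_zero _).symm)
      rw [Polynomial.coe_aeval_eq_eval, Polynomial.eval_mul, Polynomial.eval_mul,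
        Polynomial.eval_mul] at h5
      exact mul_ne_zero (mul_ne_zero hac.ne_zero hbc.ne_zero) (mul_ne_zero hpc hpc') h5
    · intro P hP hPh
      rw [Polynomial.map_mul] at hPh
      rcases hP.prime.dvd_or_dvd hPh with h5 | h5
      · exact TYPE_spl hp hs hP h5
      · exact TYPE_spl hp' hs' hP h5
    · have hm' : algebraMap R (FractionRing R) m ≠ 0 := by
        intro h
        exact hm (IsFractionRing.injective R (FractionRing R) (h.trans (map_zero _).symm))
      have ev : ∀ f : R[X], (f.map (algebraMap R (FractionRing R))).eval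
          (algebraMap R (FractionRing R) c) = algebraMap R (FractionRing R) (f.eval c) := by
        intro f
        rw [Polynomial.eval_map_algebraMap, Polynomial.aeval_algebraMap_apply,
          Polynomial.coe_aeval_eq_eval]
      refine ⟨⟨algebraMap R (FractionRing R) z.re / algebraMap R (FractionRing R) m,
        algebraMap R (FractionRing R) z.imI / algebraMap R (FractionRing R) m,
        algebraMap R (FractionRing R) z.imJ / algebraMap R (FractionRing R) m,
        algebraMap R (FractionRing R) z.imK / algebraMap R (FractionRing R) m⟩, ?_⟩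
      have e4 := congrArg (algebraMap R (FractionRing R)) e3
      simp only [nrm, map_sub, map_add, map_mul, map_pow] at e4
      simp only [nrm, ev]
      field_simp
      linear_combination -e4

end Pool.Agent.QCB
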